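import Pool.Agent.U85.Ml.Br

set_option autoImplicit false

/-!
Zeros with a close neighbour near every dense set of heights.
-/

namespace Pool.Agent.U85.Ml

open Filter Topology MeasureTheory Complex
open Pool.Agent.Q97.UM Pool.Agent.U85.Zd

noncomputable section

/-- a zero with a close neighbour, or a multiple zero -/
def Pr (d : ℝ) (s : ℂ) : Prop := 2 ≤ analyticOrderNatAt riemannZeta s ∨
  ∃ s' : ℂ, s' ≠ s ∧ riemannZeta s' = 0 ∧ 0 < s'.re ∧ s'.re < 1 ∧ |s.im - s'.im| ≤ d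

lemma cnt_pos {T t r d : ℝ} (hT : 3 ≤ T) (hr : r ≤ 1) (ht : t ∈ Set.Icc T (2 * T)) (h : Clo t r d) :
    (1 : ℝ) ≤ (cnt (Pr d) t r : ℝ) := by
  classical
  obtain ⟨s, ⟨a1, a2, a3, a4⟩, s', ⟨b1, b2, b3, -⟩, h1, h2⟩ := h
  have hP : Pr d s := by
    rcases h2 with h2 | h2
    · exact Or.inr ⟨s', h2.symm, b1, b2, b3, h1⟩
    · exact Or.inl h2
  rw [cnt_card (Pr d) (U := T - 2) (V := 2 * T + 2) (by linarith) (by linarith [ht.1]) (by linarith [ht.2])]
  have h4 := abs_le.1 a4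
  have hmem : s ∈ (H370.Zf riemannZeta (T - 2) (2 * T + 2)).filter (fun s => Pr d s ∧ |s.im - t| ≤ r) := by
    rw [Finset.mem_filter, H370.mem_Zf H370.good_zeta (show (1 : ℝ) ≤ T - 2 by linarith)]
    exact ⟨⟨a2, a3, by linarith [ht.1, ht.2], by linarith [ht.1, ht.2], a1⟩, hP, a4⟩
  exact_mod_cast Finset.card_pos.2 ⟨s, hmem⟩

/-- all parts of the theorem on small gaps -/
theorem micro_all (κ : ℝ) (hκ : 0 < κ) : ∃ H₀ : ℝ, 1 ≤ H₀ ∧ ∀ H : ℝ, H₀ ≤ H → ∃ θ T₀ : ℝ, 0 < θ ∧ 1 ≤ T₀ ∧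
      ∀ T : ℝ, T₀ ≤ T →
        (∀ N : ℕ, (N : ℝ) ≤ T ^ θ → ∀ b : ℕ → ℂ,
          ∫ t in {t : ℝ | t ∈ Set.Icc T (2 * T) ∧ ¬ Clo t (H / Real.log T) (0.825 * (2 * Real.pi / Real.log T))},
            ‖dp N b t‖ ^ 2 ≤ κ * ∫ t in Set.Icc T (2 * T), ‖dp N b t‖ ^ 2) ∧
        volume.real {t : ℝ | t ∈ Set.Icc T (2 * T) ∧
          ¬ Clo t (H / Real.log T) (0.825 * (2 * Real.pi / Real.log T))} ≤ κ * T ∧
        ∀ E : Set ℝ, MeasurableSet E → E ⊆ Set.Icc T (2 * T) → 2 * κ * T ≤ volume.real E →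
          volume.real E * (Real.log T / (4 * H)) ≤
            (Set.ncard {s : ℂ | riemannZeta s = 0 ∧ 0 < s.re ∧ s.re < 1 ∧
              Pr (0.825 * (2 * Real.pi / Real.log T)) s ∧ ∃ t ∈ E, |s.im - t| ≤ H / Real.log T} : ℝ) := by
  obtain ⟨H₀, hH₀, h⟩ := close_all κ hκ
  refine ⟨H₀, hH₀, fun H hH => ?_⟩
  obtain ⟨θ, T₀, hθ, hT₀, h⟩ := h H hH
  refine ⟨θ, max T₀ 3, hθ, hT₀.trans (le_max_left _ _), fun T hT => ?_⟩
  replace h := h T ((le_max_left _ _).trans hT)
  have hT3 : 3 ≤ T := (le_max_right _ _).trans hT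
  have hH0 : 0 < H := by linarith
  have hL : 0 < Real.log T := Real.log_pos (by linarith)
  have hm : ∀ N : ℕ, (N : ℝ) ≤ T ^ θ → ∀ b : ℕ → ℂ,
      ∫ t in {t : ℝ | t ∈ Set.Icc T (2 * T) ∧ ¬ Clo t (H / Real.log T) (0.825 * (2 * Real.pi / Real.log T))},
        ‖dp N b t‖ ^ 2 ≤ κ * ∫ t in Set.Icc T (2 * T), ‖dp N b t‖ ^ 2 := by
    intro N hN b
    obtain ⟨G, hGm, hGs, hGi, hr, hG⟩ := h N hN b
    refine le_trans ?_ hGi
    have hVc : Continuous (fun t : ℝ => ‖dp N b t‖ ^ 2) := ((Pool.Agent.U85.Zd.dp_cont N b).norm).pow 2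
    refine setIntegral_mono_set (hVc.continuousOn.integrableOn_Icc.mono_set hGs)
      (Filter.Eventually.of_forall fun t => by positivity) (LE.le.eventuallyLE ?_)
    rintro t ⟨ht, hbad⟩
    by_contra htG
    exact hbad (hG t ht htG)
  have h1T : (1 : ℝ) ≤ T ^ θ := Real.one_le_rpow (by linarith) hθ.le
  refine ⟨hm, ?_, ?_⟩
  · have h1 := hm 1 (by push_cast; exact h1T) (fun _ => 1)
    simp only [dp_one, norm_one, one_pow, integral_const, smul_eq_mul, mul_one,
      measureReal_restrict_apply_univ] at h1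
    rw [Real.volume_real_Icc_of_le (by linarith), show 2 * T - T = T by ring] at h1
    exact h1
  · intro E hE hET hv
    obtain ⟨G, hGm, hGs, hGi, hr, hG⟩ := h 1 (by push_cast; exact h1T) (fun _ => 1)
    simp only [dp_one, norm_one, one_pow, integral_const, smul_eq_mul, mul_one,
      measureReal_restrict_apply_univ] at hGi
    rw [Real.volume_real_Icc_of_le (by linarith), show 2 * T - T = T by ring] at hGi
    obtain ⟨d, hd⟩ : ∃ d, d = 0.825 * (2 * Real.pi / Real.log T) := ⟨_, rfl⟩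
    rw [← hd] at hG ⊢
    have hr0 : 0 ≤ H / Real.log T := by positivity
    have hb := near_bd (Pr d) hT3 hr hr0 hE hET
    have hEv : volume E ≠ ⊤ := ne_top_of_le_ne_top (by simp) (measure_mono hET)
    have hGv : volume G ≠ ⊤ := ne_top_of_le_ne_top (by simp) (measure_mono hGs)
    have h2 : volume.real E - volume.real G ≤ volume.real (E \ G) := by
      have := measureReal_mono (μ := volume) (show E ⊆ (E \ G) ∪ G by
        intro x hx
        by_cases hxG : x ∈ G
        · exact Or.inr hxG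
        · exact Or.inl ⟨hx, hxG⟩) (ne_top_of_le_ne_top (by
            rw [ENNReal.add_ne_top]
            exact ⟨ne_top_of_le_ne_top hEv (measure_mono Set.sdiff_subset), hGv⟩) (measure_union_le _ _))
      have h3 := measureReal_union_le (μ := volume) (E \ G) G
      linarith
    have h3 : volume.real (E \ G) ≤ ∫ t in E, (cnt (Pr d) t (H / Real.log T) : ℝ) := by
      have hi : IntegrableOn (fun t => (cnt (Pr d) t (H / Real.log T) : ℝ)) E := by
        have := (cs_int (Pr d) T (H / Real.log T) (continuous_const (y := (1 : ℝ))) T (2 * T)).mono_set hET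
        refine this.congr_fun (fun t ht => ?_) hE
        simp only [mul_one]
        exact (cnt_cs (Pr d) hT3 hr (hET ht)).symm
      have e1 : ∫ t in E \ G, (1 : ℝ) ≤ ∫ t in E \ G, (cnt (Pr d) t (H / Real.log T) : ℝ) := by
        refine setIntegral_mono_on ?_ (hi.mono_set Set.sdiff_subset) (hE.diff hGm) fun t ht => ?_
        · exact integrableOn_const (ne_top_of_le_ne_top hEv (measure_mono Set.sdiff_subset))
        · exact cnt_pos hT3 hr (hET ht.1) (hG t (hET ht.1) ht.2)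
      have e2 : ∫ t in E \ G, (cnt (Pr d) t (H / Real.log T) : ℝ) ≤ ∫ t in E, (cnt (Pr d) t (H / Real.log T) : ℝ) :=
        setIntegral_mono_set hi (Filter.Eventually.of_forall fun t => Nat.cast_nonneg _)
          (LE.le.eventuallyLE Set.sdiff_subset)
      rw [integral_const, smul_eq_mul, mul_one, measureReal_restrict_apply_univ] at e1
      exact e1.trans e2
    obtain ⟨n, hn⟩ : ∃ n : ℝ, n = (Set.ncard {s : ℂ | riemannZeta s = 0 ∧ 0 < s.re ∧ s.re < 1 ∧
              Pr d s ∧ ∃ t ∈ E, |s.im - t| ≤ H / Real.log T} : ℝ) := ⟨_, rfl⟩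
    rw [← hn] at hb ⊢
    have h4 : volume.real E / 2 ≤ 2 * (H / Real.log T) * n := by linarith
    have h5 : volume.real E * (Real.log T / (4 * H)) = (volume.real E / 2) * (Real.log T / (2 * H)) := by
      field_simp
      ring
    have h6 : n = (2 * (H / Real.log T) * n) * (Real.log T / (2 * H)) := by field_simp
    rw [h5, h6]
    exact mul_le_mul_of_nonneg_right h4 (by positivity)

end

end Pool.Agent.U85.Ml
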