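import Pool.Agent.U85.Ml.Br

set_option autoImplicit false

/-!
The distribution function of the local form factor, uniformly.
-/

namespace Pool.Agent.U85.Ml

open Filter Topology MeasureTheory Complex
open Pool.Agent.Q97.UM Pool.Agent.U85.Zd

noncomputable section

/-- finitely many test functions at once -/
theorem multi {ι : Type*} [DecidableEq ι] (R : ι → ℝ → ℝ) (D a : ℝ) (hR : ∀ i, ∀ x y : ℝ, |R i x - R i y| ≤ D * |x - y|)
    (ha : 0 < a) (ha2 : a < 1 / 2) (ε : ℝ) (hε : 0 < ε) (s : Finset ι) : ∀ κ : ℝ, 0 < κ → ∃ H₀ : ℝ, 1 ≤ H₀ ∧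
    ∀ H : ℝ, H₀ ≤ H → ∃ θ : ℝ, 0 < θ ∧ ∀ᶠ T : ℝ in atTop, H / Real.log T ≤ 1 ∧ 10 ≤ T ∧ 1 ≤ Real.log T ∧
      ∀ N : ℕ, (N : ℝ) ≤ T ^ θ → ∀ b : ℕ → ℂ, ∃ G : Set ℝ, MeasurableSet G ∧ G ⊆ Set.Icc T (2 * T) ∧
        ∫ t in G, ‖dp N b t‖ ^ 2 ≤ κ * ∫ t in Set.Icc T (2 * T), ‖dp N b t‖ ^ 2 ∧
        ∀ t ∈ Set.Icc T (2 * T), t ∉ G → t ∈ Set.Ioc (T + 2 * Real.log T) (2 * T - 2 * Real.log T) ∧
          ∀ i ∈ s, GoodPt (R i) a H T ε t := by
  induction s using Finset.induction_on with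
  | empty =>
    intro κ hκ
    obtain ⟨H₀, hH₀, h⟩ := fin_lip (fun _ => 0) 0 a (fun x y => by simp) ha ha2 κ ε hκ hε
    refine ⟨H₀, hH₀, fun H hH => ?_⟩
    obtain ⟨θ, hθ, h⟩ := h H hH
    refine ⟨θ, hθ, ?_⟩
    filter_upwards [h] with T h
    obtain ⟨a1, a2, a3, h⟩ := h
    refine ⟨a1, a2, a3, fun N hN b => ?_⟩
    obtain ⟨G, g1, g2, g3, g4⟩ := h N hN b
    exact ⟨G, g1, g2, g3, fun t ht htG => ⟨(g4 t ht htG).1, fun i hi => absurd hi (Finset.notMem_empty i)⟩⟩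
  | insert i s _ ih =>
    intro κ hκ
    obtain ⟨H₁, hH₁, h1⟩ := ih (κ / 2) (by positivity)
    obtain ⟨H₂, hH₂, h2⟩ := fin_lip (R i) D a (hR i) ha ha2 (κ / 2) ε (by positivity) hε
    refine ⟨max H₁ H₂, le_max_of_le_left hH₁, fun H hH => ?_⟩
    obtain ⟨θ₁, t1, h1⟩ := h1 H ((le_max_left _ _).trans hH)
    obtain ⟨θ₂, t2, h2⟩ := h2 H ((le_max_right _ _).trans hH)
    refine ⟨min θ₁ θ₂, lt_min t1 t2, ?_⟩
    filter_upwards [h1, h2] with T h1 h2
    obtain ⟨a1, a2, a3, h1⟩ := h1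
    obtain ⟨-, -, -, h2⟩ := h2
    refine ⟨a1, a2, a3, fun N hN b => ?_⟩
    have hT1 : 1 ≤ T := by linarith
    obtain ⟨G₁, m1, s1, i1, g1⟩ := h1 N (hN.trans (Real.rpow_le_rpow_of_exponent_le hT1 (min_le_left _ _))) b
    obtain ⟨G₂, m2, s2, i2, g2⟩ := h2 N (hN.trans (Real.rpow_le_rpow_of_exponent_le hT1 (min_le_right _ _))) b
    have hVc : Continuous (fun t : ℝ => ‖dp N b t‖ ^ 2) := ((Pool.Agent.U85.Zd.dp_cont N b).norm).pow 2
    have hV0 : ∀ t : ℝ, 0 ≤ ‖dp N b t‖ ^ 2 := fun t => by positivity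
    refine ⟨G₁ ∪ G₂, m1.union m2, Set.union_subset s1 s2, ?_, ?_⟩
    · have := mass_union hVc hV0 m1 s1 s2
      linarith
    · intro t ht htn
      obtain ⟨b1, b2⟩ := g1 t ht fun h => htn (Or.inl h)
      obtain ⟨-, b4⟩ := g2 t ht fun h => htn (Or.inr h)
      refine ⟨b1, fun j hj => ?_⟩
      rcases Finset.mem_insert.1 hj with rfl | hj
      · exact b4
      · exact b2 j hj

/-- the trapezoid test functions -/
def trap (d : ℝ) (i : ℕ) (y : ℝ) : ℝ := max 0 (min 1 (1 - (y - i * d) / d))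

lemma trap_nonneg (d : ℝ) (i : ℕ) (y : ℝ) : 0 ≤ trap d i y := le_max_left _ _

lemma trap_le (d : ℝ) (i : ℕ) (y : ℝ) : trap d i y ≤ 1 := max_le zero_le_one (min_le_left _ _)

lemma trap_one {d y : ℝ} {i : ℕ} (hd : 0 < d) (h : y ≤ i * d) : trap d i y = 1 := by
  unfold trap
  have : (y - i * d) / d ≤ 0 := div_nonpos_of_nonpos_of_nonneg (by linarith) hd.le
  rw [min_eq_left (by linarith), max_eq_right zero_le_one]

lemma trap_zero {d y : ℝ} {i : ℕ} (hd : 0 < d) (h : (i + 1) * d ≤ y) : trap d i y = 0 := by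
  unfold trap
  have h1 : 1 ≤ (y - i * d) / d := by
    rw [le_div_iff₀ hd]
    linarith
  rw [max_eq_left]
  exact (min_le_right _ _).trans (by linarith)

lemma trap_lip {d : ℝ} (hd : 0 < d) (i : ℕ) (x y : ℝ) : |trap d i x - trap d i y| ≤ (1 / d) * |x - y| := by
  unfold trap
  have h1 := abs_max_sub_max_le_max 0 (min 1 (1 - (x - i * d) / d)) 0 (min 1 (1 - (y - i * d) / d))
  rw [sub_self, abs_zero, max_eq_right (abs_nonneg (min 1 (1 - (x - i * d) / d) - min 1 (1 - (y - i * d) / d)))] at h1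
  have h2 := abs_min_sub_min_le_max 1 (1 - (x - i * d) / d) 1 (1 - (y - i * d) / d)
  rw [sub_self, abs_zero, max_eq_right (abs_nonneg ((1 - (x - i * d) / d) - (1 - (y - i * d) / d)))] at h2
  have e : (1 - (x - i * d) / d) - (1 - (y - i * d) / d) = -((1 / d) * (x - y)) := by
    field_simp
    ring
  rw [e, abs_neg, abs_mul, abs_of_pos (by positivity : 0 < 1 / d)] at h2
  exact h1.trans h2

lemma trap_cont {d : ℝ} (i : ℕ) : Continuous (trap d i) := by
  unfold trap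
  fun_prop

/-- the mean values of the test functions -/
lemma trap_mom {d a : ℝ} {i : ℕ} (hd : 0 < d) (h : (i + 1) * d ≤ a) :
    (i * d) ^ 2 / 2 ≤ ∫ y in (0 : ℝ)..a, y * trap d i y ∧ ∫ y in (0 : ℝ)..a, y * trap d i y ≤ ((i + 1) * d) ^ 2 / 2 := by
  have hc : Continuous fun y => y * trap d i y := continuous_id.mul (trap_cont i)
  have hi0 : (0 : ℝ) ≤ i * d := by positivity
  have hi1 : (i : ℝ) * d ≤ (i + 1) * d := by linarith
  have hi2 : (0 : ℝ) ≤ (i + 1) * d := by positivity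
  have hid : ∀ x y : ℝ, ∫ t in x..y, t = (y ^ 2 - x ^ 2) / 2 := fun x y => integral_id
  constructor
  · have h1 : ∫ y in (0 : ℝ)..(i * d), y ≤ ∫ y in (0 : ℝ)..(i * d), y * trap d i y := by
      refine intervalIntegral.integral_mono_on hi0 (continuous_id.intervalIntegrable _ _) (hc.intervalIntegrable _ _) fun y hy => ?_
      rw [trap_one hd hy.2, mul_one]
    rw [hid] at h1
    have h2 : ∫ y in (0 : ℝ)..(i * d), y * trap d i y ≤ ∫ y in (0 : ℝ)..a, y * trap d i y := by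
      refine intervalIntegral.integral_mono_interval le_rfl hi0 (by linarith) ?_ (hc.intervalIntegrable _ _)
      refine (ae_restrict_iff' measurableSet_Ioc).mpr (Eventually.of_forall fun y hy => ?_)
      exact mul_nonneg hy.1.le (trap_nonneg _ _ _)
    linarith
  · have h1 := intervalIntegral.integral_add_adjacent_intervals (hc.intervalIntegrable (μ := volume) 0 ((i + 1) * d))
      (hc.intervalIntegrable ((i + 1) * d) a)
    have h2 : ∫ y in ((i + 1) * d)..a, y * trap d i y = 0 := by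
      have : ∫ y in ((i + 1) * d)..a, y * trap d i y = ∫ y in ((i + 1) * d)..a, (0 : ℝ) := by
        refine intervalIntegral.integral_congr fun y hy => ?_
        rw [Set.uIcc_of_le h] at hy
        show y * trap d i y = 0
        rw [trap_zero hd hy.1, mul_zero]
      rw [this]
      simp
    have h3 : ∫ y in (0 : ℝ)..((i + 1) * d), y * trap d i y ≤ ∫ y in (0 : ℝ)..((i + 1) * d), y := by
      refine intervalIntegral.integral_mono_on hi2 (hc.intervalIntegrable _ _) (continuous_id.intervalIntegrable _ _) fun y hy => ?_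
      exact mul_le_of_le_one_right hy.1 (trap_le _ _ _)
    rw [hid] at h3
    rw [← h1, h2]
    linarith

/-- from the test functions to the distribution function -/
lemma cdf_of {f : ℝ → ℝ} (hf : Continuous f) (hf0 : ∀ x, 0 ≤ f x) {d a a' ε' : ℝ} {n : ℕ} (hd : 0 < d) (hd4 : d ≤ 1 / 4)
    (ha' : a' ≤ 1 / 2) (hn : a + 3 * d ≤ a') (hn2 : a ≤ n * d)
    (hg : ∀ i ∈ Finset.range (n + 2), (i + 1 : ℝ) * d ≤ a' →
      |(∫ y in (0 : ℝ)..a', trap d i y * f y) - (trap d i 0 / 2 + ∫ y in (0 : ℝ)..a', y * trap d i y)| ≤ ε')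
    {x : ℝ} (hx : d ≤ x) (hxa : x ≤ a) : |(∫ y in (0 : ℝ)..x, f y) - (1 + x ^ 2) / 2| ≤ ε' + 2 * d := by
  have hx0 : 0 ≤ x := by linarith
  obtain ⟨i, hi⟩ : ∃ i : ℕ, i = ⌊x / d⌋₊ := ⟨_, rfl⟩
  have h1 : (i : ℝ) * d ≤ x := by
    have := Nat.floor_le (show 0 ≤ x / d by positivity)
    rw [← hi, le_div_iff₀ hd] at this
    exact this
  have h2 : x < (i + 1) * d := by
    have := Nat.lt_floor_add_one (x / d)
    rw [← hi, div_lt_iff₀ hd] at this
    exact this
  have hi1 : 1 ≤ i := by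
    rw [hi]
    apply Nat.le_floor
    rw [Nat.cast_one, le_div_iff₀ hd]
    linarith
  have hin : i ≤ n := by
    rw [hi]
    have h3 : x / d ≤ n := by
      rw [div_le_iff₀ hd]
      linarith
    exact Nat.floor_le_of_le h3
  obtain ⟨j, rfl⟩ : ∃ j, i = j + 1 := ⟨i - 1, by omega⟩
  push_cast at h1 h2
  have htr0 : ∀ k : ℕ, trap d k 0 = 1 := fun k => trap_one hd (by positivity)
  have gu := hg (j + 2) (Finset.mem_range.2 (by omega)) (by push_cast; linarith)
  have gl := hg j (Finset.mem_range.2 (by omega)) (by linarith)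
  rw [htr0] at gu gl
  have mu := (trap_mom (a := a') (i := j + 2) hd (by push_cast; linarith)).2
  have ml := (trap_mom (a := a') (i := j) hd (by linarith)).1
  have hxa' : x ≤ a' := by linarith
  have cu : Continuous fun y => trap d (j + 2) y * f y := (trap_cont _).mul hf
  have cl : Continuous fun y => trap d j y * f y := (trap_cont _).mul hf
  -- upper bound
  have u1 : ∫ y in (0 : ℝ)..x, f y ≤ ∫ y in (0 : ℝ)..a', trap d (j + 2) y * f y := by
    have e1 : ∫ y in (0 : ℝ)..x, f y = ∫ y in (0 : ℝ)..x, trap d (j + 2) y * f y := by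
      refine intervalIntegral.integral_congr fun y hy => ?_
      rw [Set.uIcc_of_le hx0] at hy
      show f y = trap d (j + 2) y * f y
      rw [trap_one hd (by push_cast; linarith [hy.2]), one_mul]
    rw [e1]
    refine intervalIntegral.integral_mono_interval le_rfl hx0 hxa' ?_ (cu.intervalIntegrable _ _)
    exact Eventually.of_forall fun y => mul_nonneg (trap_nonneg _ _ _) (hf0 y)
  -- lower bound
  have l1 : ∫ y in (0 : ℝ)..a', trap d j y * f y ≤ ∫ y in (0 : ℝ)..x, f y := by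
    have h3 := intervalIntegral.integral_add_adjacent_intervals (cl.intervalIntegrable (μ := volume) 0 x)
      (cl.intervalIntegrable x a')
    have h4 : ∫ y in x..a', trap d j y * f y = 0 := by
      have : ∫ y in x..a', trap d j y * f y = ∫ y in x..a', (0 : ℝ) := by
        refine intervalIntegral.integral_congr fun y hy => ?_
        rw [Set.uIcc_of_le hxa'] at hy
        show trap d j y * f y = 0
        rw [trap_zero hd (by linarith [hy.1]), zero_mul]
      rw [this]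
      simp
    rw [← h3, h4, add_zero]
    refine intervalIntegral.integral_mono_on hx0 (cl.intervalIntegrable _ _) (hf.intervalIntegrable _ _) fun y _ => ?_
    exact mul_le_of_le_one_left (hf0 y) (trap_le _ _ _)
  push_cast at mu
  have a1 := (abs_le.1 gu).2
  have a2 := (abs_le.1 gl).1
  have hj0 : (0 : ℝ) ≤ j * d := by positivity
  have b1 : ((j + 2 + 1) * d : ℝ) ^ 2 ≤ (x + 2 * d) ^ 2 := pow_le_pow_left₀ (by positivity) (by linarith) 2
  have hx12 : x ≤ 1 / 2 := by linarith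
  have b2 : (x + 2 * d) ^ 2 ≤ x ^ 2 + 4 * d := by nlinarith
  have b3 : x ^ 2 - 4 * d ≤ (j * d : ℝ) ^ 2 := by
    have h5 : x ≤ j * d + 2 * d := by linarith
    have h6 : x ^ 2 ≤ (j * d + 2 * d) ^ 2 := pow_le_pow_left₀ hx0 h5 2
    have h7 : (j : ℝ) * d ≤ 1 / 2 := by linarith
    nlinarith
  rw [abs_le]
  constructor <;> linarith

/-- **the distribution function of the local form factor** -/
theorem cdf_all (a : ℝ) (ha2 : a < 1 / 2) (ε : ℝ) (hε : 0 < ε) : ∃ H₀ : ℝ, 1 ≤ H₀ ∧ ∀ H : ℝ, H₀ ≤ H →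
      ∃ θ T₀ : ℝ, 0 < θ ∧ 1 ≤ T₀ ∧ ∀ T : ℝ, T₀ ≤ T → ∀ N : ℕ, (N : ℝ) ≤ T ^ θ → ∀ b : ℕ → ℂ,
        ∫ t in {t : ℝ | t ∈ Set.Icc T (2 * T) ∧ ∃ x : ℝ, ε ≤ x ∧ x ≤ a ∧
          ε < |(∫ α in (0 : ℝ)..x, Fw T H α t) - (1 + x ^ 2) / 2|}, ‖dp N b t‖ ^ 2 ≤
            ε * ∫ t in Set.Icc T (2 * T), ‖dp N b t‖ ^ 2 := by
  obtain ⟨A, hA⟩ : ∃ A : ℝ, A = max a (1 / 4) := ⟨_, rfl⟩
  have hA1 : a ≤ A := by rw [hA]; exact le_max_left _ _
  have hA2 : A < 1 / 2 := by rw [hA]; exact max_lt ha2 (by norm_num)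
  have hA0 : 1 / 4 ≤ A := by rw [hA]; exact le_max_right _ _
  obtain ⟨d, hd⟩ : ∃ d : ℝ, d = min (min (ε / 4) (1 / 4)) ((1 / 2 - A) / 4) := ⟨_, rfl⟩
  have hd0 : 0 < d := by
    rw [hd]
    have : 0 < 1 / 2 - A := by linarith
    positivity
  have hd1 : d ≤ ε / 4 := by rw [hd]; exact (min_le_left _ _).trans (min_le_left _ _)
  have hd2 : d ≤ 1 / 4 := by rw [hd]; exact (min_le_left _ _).trans (min_le_right _ _)
  have hd3 : d ≤ (1 / 2 - A) / 4 := by rw [hd]; exact min_le_right _ _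
  obtain ⟨n, hn⟩ : ∃ n : ℕ, n = ⌈A / d⌉₊ := ⟨_, rfl⟩
  have hn2 : A ≤ n * d := by
    have h1 := Nat.le_ceil (A / d)
    rw [← hn, div_le_iff₀ hd0] at h1
    exact h1
  obtain ⟨H₀, hH₀, h⟩ := multi (fun i : ℕ => trap d i) (1 / d) (A + 3 * d) (fun i => trap_lip hd0 i) (by linarith)
    (by linarith) (ε / 2) (by positivity) (Finset.range (n + 2)) ε hε
  refine ⟨H₀, hH₀, fun H hH => ?_⟩
  obtain ⟨θ, hθ, h⟩ := h H hH
  obtain ⟨T₀, h⟩ := Filter.eventually_atTop.1 h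
  refine ⟨θ, max T₀ 1, hθ, le_max_right _ _, fun T hT N hN b => ?_⟩
  obtain ⟨hr, hT10, hL1, h⟩ := h T ((le_max_left _ _).trans hT)
  obtain ⟨G, hGm, hGs, hGi, hG⟩ := h N hN b
  have hH0 : 0 < H := by linarith
  have hh : 0 < H / Real.pi := by positivity
  refine le_trans ?_ hGi
  have hVc : Continuous (fun t : ℝ => ‖dp N b t‖ ^ 2) := ((Pool.Agent.U85.Zd.dp_cont N b).norm).pow 2
  refine setIntegral_mono_set (hVc.continuousOn.integrableOn_Icc.mono_set hGs)
    (Filter.Eventually.of_forall fun t => by positivity) (LE.le.eventuallyLE ?_)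
  rintro t ⟨ht, x, hx1, hx2, hbad⟩
  by_contra htG
  obtain ⟨hJ, hgp⟩ := hG t ht htG
  have eF : ∀ α, Fw T H α t = ‖Ssh T (H / Real.log T) (Real.log T * α) t‖ ^ 2 / (H / Real.pi) := by
    intro α
    unfold Fw
    rw [Sw_eq α hT10 hL1 hr hJ]
  have hfc : Continuous fun α : ℝ => ‖Ssh T (H / Real.log T) (Real.log T * α) t‖ ^ 2 / (H / Real.pi) :=
    (((Ssh_cont T _ t).comp (by fun_prop)).norm.pow 2).div_const _
  have hkey := cdf_of (f := fun α => Fw T H α t) (a := A) (a' := A + 3 * d) (ε' := ε / 4) (n := n) (d := d)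
    (by simp only [eF]; exact hfc) (fun α => by rw [eF]; positivity) hd0 hd2 (by linarith) le_rfl hn2 (by
      intro i hi _
      obtain ⟨g1, -⟩ := hgp i hi
      have e1 : ∫ y in (0 : ℝ)..(A + 3 * d), trap d i y * Fw T H y t =
          (∫ β in (0 : ℝ)..(A + 3 * d), trap d i β * ‖Ssh T (H / Real.log T) (Real.log T * β) t‖ ^ 2) / (H / Real.pi) := by
        rw [← intervalIntegral.integral_div]
        refine intervalIntegral.integral_congr fun α _ => ?_
        show trap d i α * Fw T H α t = trap d i α * ‖Ssh T (H / Real.log T) (Real.log T * α) t‖ ^ 2 / (H / Real.pi)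
        rw [eF]
        ring
      rw [e1]
      obtain ⟨X, hX⟩ : ∃ X, X = ∫ β in (0 : ℝ)..(A + 3 * d), trap d i β * ‖Ssh T (H / Real.log T) (Real.log T * β) t‖ ^ 2 :=
        ⟨_, rfl⟩
      obtain ⟨m, hm⟩ : ∃ m, m = ∫ β in (0 : ℝ)..(A + 3 * d), β * trap d i β := ⟨_, rfl⟩
      rw [← hX, ← hm] at g1 ⊢
      obtain ⟨h, hhd⟩ : ∃ h, h = H / Real.pi := ⟨_, rfl⟩
      rw [← hhd] at g1 hh ⊢
      have e3 : X / h - (trap d i 0 / 2 + m) = (2 * X - (trap d i 0 + 2 * m) * h) / (2 * h) := by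
        field_simp
      rw [e3, abs_div, abs_of_pos (by positivity : 0 < 2 * h), div_le_iff₀ (by positivity)]
      linarith) (x := x) (by linarith) (by linarith)
  linarith

end

end Pool.Agent.U85.Ml
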