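import Pool.Agent.Q150.UM.PU

set_option autoImplicit false

/-!
Mean squares of convolutions with prime sums, for factors of arbitrary length (after
`Pool.Agent.Q150.UM.PU`).
-/

namespace Pool.Agent.U85.Ml

open Filter Topology MeasureTheory Complex
open scoped ComplexConjugate
open Pool.Agent.Q97.UM Pool.Agent.Q150.UM

noncomputable section

variable {w : ℝ → ℝ} {δ D L : ℝ}

/-- one more prime sum -/
lemma ar2 (hDQ : QB w δ D L) (hD : 1 ≤ D) (hδ : 0 < δ) (hδ1 : δ ≤ 1 / 16) (hL36 : 36 ≤ L) {C₃ C₄ : ℝ}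
    (hM : MerC C₃) (hC₄ : 1 ≤ C₄) (hC : ConvC C₄) (N : ℕ) (hN1 : 1 ≤ N) (hN : Real.log N ≤ L) (c : ℕ → ℂ)
    (hc : ∀ n, N < n → c n = 0) (u η κ : ℝ) (hu0 : 0 ≤ u) (hX : u + 2 * δ * L ≤ L) (hη : 0 < η) (hη1 : η ≤ 1)
    (hκ0 : 0 ≤ κ)
    (hκ : ∑ p ∈ smallP N (MM δ L u), Real.log p * (|QL w L (Real.log p - u)| / L) ^ 2 / p ≤ κ / L) :
    N2 (N * MM δ L u) (cv (al' w L u (MM δ L u)) c) ≤
      ((1 + η) * (u / L * I2 w + 2 * δ * I2 w + (234 * C₃ * D ^ 2 + 11 * D ^ 2) / L) +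
        C₄ / η * (2 * κ + 3 * D ^ 2 / L)) * N2 N c := by
  have hL : 1 ≤ L := by linarith
  have hL0 : 0 < L := by linarith
  have hD0 : 0 ≤ D := by linarith
  have hδL : 0 ≤ δ * L := by positivity
  have hu2 : u ≤ L := by linarith
  have hu : |u| ≤ L := abs_le.2 ⟨by linarith, hu2⟩
  have hsq : Real.sqrt L ≤ L / 6 := by
    rw [Real.sqrt_le_left (by positivity)]
    nlinarith
  obtain ⟨M, hMM⟩ : ∃ M : ℕ, M = MM δ L u := ⟨_, rfl⟩
  rw [← hMM] at hκ ⊢
  have hM1 : 1 ≤ M := hMM ▸ MM_pos hδ hL u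
  have hM1' : (1 : ℝ) ≤ M := by exact_mod_cast hM1
  have hN1' : (1 : ℝ) ≤ N := by exact_mod_cast hN1
  have hlM := log_MM_le hδ hL u
  have hlM' := log_MM_ge hδ hL u
  rw [← hMM] at hlM hlM'
  rw [max_eq_left hu0] at hlM
  have hlM2 : Real.log M ≤ 3 / 2 * L := by linarith
  have hlM0 : 0 ≤ Real.log M := Real.log_nonneg hM1'
  have hlN0 : 0 ≤ Real.log N := Real.log_nonneg hN1'
  have hl2 : Real.log 2 ≤ 1 := by
    have := Real.log_le_sub_one_of_pos (show (0 : ℝ) < 2 by norm_num)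
    linarith
  have hl20 : 0 ≤ Real.log 2 := Real.log_nonneg (by norm_num)
  -- the coefficients
  have hα : ∀ n, ‖al' w L u M n‖ ≤ ArithmeticFunction.vonMangoldt n * (|QL w L (Real.log n - u)| / L) := by
    intro n
    unfold al'
    split_ifs
    · rw [Complex.norm_real, Real.norm_eq_abs, abs_mul, abs_of_nonneg ArithmeticFunction.vonMangoldt_nonneg, abs_div, abs_of_pos hL0]
    · rw [norm_zero]
      exact mul_nonneg ArithmeticFunction.vonMangoldt_nonneg (by positivity)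
  have hconv := hC N M c (al' w L u M) (fun n => |QL w L (Real.log n - u)| / L) (D / L) η hN1 hM1
    hη hη1 (fun n => ⟨by positivity, div_le_div_of_nonneg_right (hDQ.bdd _) hL0.le⟩)
    hα (fun n hn => by unfold al'; rw [if_neg (by omega)]) hc
  -- sums over primes
  have hprime : ∀ p ∈ (Finset.Icc 1 M).filter Nat.Prime, ‖al' w L u M p‖ ^ 2 / p =
      Real.log p ^ 2 * QL w L (Real.log p - u) ^ 2 / (L ^ 2 * p) := by
    intro p hp
    rw [Finset.mem_filter, Finset.mem_Icc] at hp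
    unfold al'
    rw [if_pos hp.1.2, Complex.norm_real, Real.norm_eq_abs, sq_abs, ArithmeticFunction.vonMangoldt_apply_prime hp.2]
    have hp0 : (p : ℝ) ≠ 0 := by exact_mod_cast hp.2.ne_zero
    field_simp
  set f : ℕ → ℝ := fun p => Real.log p ^ 2 * QL w L (Real.log p - u) ^ 2 / (L ^ 2 * p) with hf
  have hbig : bigP N M = ((Finset.Icc 1 M).filter Nat.Prime).filter (fun p => N < p) := by
    unfold bigP
    rw [Finset.filter_filter]
  have hsumS1 : ∑ p ∈ bigP N M, ‖al' w L u M p‖ ^ 2 / p ≤ ∑ p ∈ (Finset.Icc 1 M).filter Nat.Prime, f p := by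
    rw [hbig]
    refine le_trans (le_of_eq (Finset.sum_congr rfl fun p hp => hprime p (Finset.mem_filter.1 hp).1)) ?_
    refine Finset.sum_le_sum_of_subset_of_nonneg (Finset.filter_subset _ _) fun p _ _ => ?_
    exact (by positivity : (0 : ℝ) ≤ Real.log p ^ 2 * QL w L (Real.log p - u) ^ 2 / (L ^ 2 * p))
  have hS10 : 0 ≤ ∑ p ∈ bigP N M, ‖al' w L u M p‖ ^ 2 / p := Finset.sum_nonneg fun p _ => by positivity
  have hall := merA hM hDQ hD0 hL0 u hu M hM1 (by linarith)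
  have hmi := main_int hDQ hD0 hδ hL u (Real.log M) hu2 hlM0 hlM'
  have hsq' := abs_le.1 hDQ.sq
  rw [max_eq_left hu0] at hmi
  have hJ : |(∫ x in (0 : ℝ)..Real.log M, x * QL w L (x - u) ^ 2) / L ^ 2 - u / L * I2 w| ≤
      2 * δ * I2 w + 11 * D ^ 2 / L := by
    set J := ∫ x in (0 : ℝ)..Real.log M, x * QL w L (x - u) ^ 2 with hJ
    set Q2 := ∫ y : ℝ, QL w L y ^ 2 with hQ2
    have h1 : |J - u * (L * I2 w)| ≤ 2 * δ * L ^ 2 * I2 w + 11 * L * D ^ 2 := by
      have e1 : J - u * (L * I2 w) = (J - u * Q2) + u * (Q2 - L * I2 w) := by ring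
      rw [e1]
      refine (abs_add_le _ _).trans ?_
      rw [abs_mul, abs_of_nonneg hu0]
      have h2 : u * |Q2 - L * I2 w| ≤ L * D := mul_le_mul hu2 hDQ.sq (abs_nonneg _) hL0.le
      have h3 : 2 * δ * L * Q2 ≤ 2 * δ * L * (L * I2 w + D) := mul_le_mul_of_nonneg_left (by linarith) (by positivity)
      have h4 : 2 * δ * L * D ≤ L * D := by
        have : 2 * δ ≤ 1 := by linarith
        have h5 : 2 * δ * (L * D) ≤ 1 * (L * D) := mul_le_mul_of_nonneg_right this (by positivity)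
        linarith
      have h5 : L * D ≤ L * D ^ 2 := by
        refine mul_le_mul_of_nonneg_left ?_ hL0.le
        nlinarith
      have h6 : 2 * δ * L * (L * I2 w + D) = 2 * δ * L ^ 2 * I2 w + 2 * δ * L * D := by ring
      linarith
    have h2 : J / L ^ 2 - u / L * I2 w = (J - u * (L * I2 w)) / L ^ 2 := by
      field_simp
    rw [h2, abs_div, abs_of_pos (show 0 < L ^ 2 by positivity), div_le_iff₀ (by positivity)]
    refine h1.trans (le_of_eq ?_)
    field_simp
  have hSf : ∑ p ∈ (Finset.Icc 1 M).filter Nat.Prime, f p ≤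
      u / L * I2 w + 2 * δ * I2 w + (234 * C₃ * D ^ 2 + 11 * D ^ 2) / L := by
    have a1 := (abs_le.1 hall).2
    have a2 := (abs_le.1 hJ).2
    have e : (234 * C₃ * D ^ 2 + 11 * D ^ 2) / L = 234 * C₃ * D ^ 2 / L + 11 * D ^ 2 / L := by ring
    rw [e]
    simp only [hf]
    linarith
  obtain ⟨S, hS⟩ : ∃ S : ℝ, S = u / L * I2 w + 2 * δ * I2 w + (234 * C₃ * D ^ 2 + 11 * D ^ 2) / L := ⟨_, rfl⟩
  rw [← hS] at hSf ⊢
  have hlog1 : Real.log (2 * (N : ℝ)) ≤ 2 * L := by
    rw [Real.log_mul (by norm_num) (by linarith)]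
    linarith
  have hlog10 : 0 ≤ Real.log (2 * (N : ℝ)) := Real.log_nonneg (by linarith)
  have hlog2 : Real.log (2 * (N : ℝ) * M) ≤ 3 * L := by
    rw [Real.log_mul (by positivity) (by linarith), Real.log_mul (by norm_num) (by linarith)]
    linarith
  have h1 := (abs_le.1 hconv).2
  have hn2 := N2_nonneg N c
  have h2 : Real.log (2 * (N : ℝ)) * (∑ p ∈ smallP N M, Real.log p * (|QL w L (Real.log p - u)| / L) ^ 2 / p) +
      Real.log (2 * (N : ℝ) * M) * (D / L) ^ 2 ≤ 2 * κ + 3 * D ^ 2 / L := by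
    have b1 : Real.log (2 * (N : ℝ)) * (∑ p ∈ smallP N M, Real.log p * (|QL w L (Real.log p - u)| / L) ^ 2 / p) ≤
        2 * L * (κ / L) := by
      refine (mul_le_mul_of_nonneg_left hκ hlog10).trans (mul_le_mul_of_nonneg_right hlog1 (by positivity))
    have b2 : 2 * L * (κ / L) = 2 * κ := by field_simp
    have b3 : Real.log (2 * (N : ℝ) * M) * (D / L) ^ 2 ≤ 3 * L * (D / L) ^ 2 :=
      mul_le_mul_of_nonneg_right hlog2 (by positivity)
    have b4 : 3 * L * (D / L) ^ 2 = 3 * D ^ 2 / L := by field_simp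
    linarith
  have h3 : C₄ / η * (Real.log (2 * (N : ℝ)) * (∑ p ∈ smallP N M, Real.log p * (|QL w L (Real.log p - u)| / L) ^ 2 / p) +
      Real.log (2 * (N : ℝ) * M) * (D / L) ^ 2) ≤ C₄ / η * (2 * κ + 3 * D ^ 2 / L) :=
    mul_le_mul_of_nonneg_left h2 (by positivity)
  have h4 : N2 (N * M) (cv (al' w L u M) c) ≤ ((1 + η) * (∑ p ∈ bigP N M, ‖al' w L u M p‖ ^ 2 / p) +
      C₄ / η * (Real.log (2 * (N : ℝ)) * (∑ p ∈ smallP N M, Real.log p * (|QL w L (Real.log p - u)| / L) ^ 2 / p) +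
      Real.log (2 * (N : ℝ) * M) * (D / L) ^ 2)) * N2 N c := by
    linarith
  refine h4.trans (mul_le_mul_of_nonneg_right ?_ hn2)
  have h5 : (1 + η) * (∑ p ∈ bigP N M, ‖al' w L u M p‖ ^ 2 / p) ≤ (1 + η) * S :=
    mul_le_mul_of_nonneg_left (hsumS1.trans hSf) (by linarith)
  linarith

/-- arbitrary position: the small primes -/
lemma sm_any (hDQ : QB w δ D L) (hD : 1 ≤ D) (hδ : 0 < δ) (hδ1 : δ ≤ 1 / 16) (hL36 : 36 ≤ L) {C₃ : ℝ}
    (hM : MerC C₃) (N : ℕ) (hN1 : 1 ≤ N) (u : ℝ) (hu0 : 0 ≤ u) (hX : u + 2 * δ * L ≤ L) :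
    ∑ p ∈ smallP N (MM δ L u), Real.log p * (|QL w L (Real.log p - u)| / L) ^ 2 / p ≤
      (I2 w + (D + 39 * C₃ * D ^ 2) / L) / L := by
  have hL : 1 ≤ L := by linarith
  have hL0 : 0 < L := by linarith
  have hδL : 0 ≤ δ * L := by positivity
  have hu : |u| ≤ L := abs_le.2 ⟨by linarith, by linarith⟩
  have hsq : Real.sqrt L ≤ L / 6 := by
    rw [Real.sqrt_le_left (by positivity)]
    nlinarith
  obtain ⟨M, hMM⟩ : ∃ M : ℕ, M = MM δ L u := ⟨_, rfl⟩
  rw [← hMM]
  have hM1 : 1 ≤ M := hMM ▸ MM_pos hδ hL u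
  have hlM := log_MM_le hδ hL u
  rw [← hMM, max_eq_left hu0] at hlM
  have hsm2 : smallP N M = (Finset.Icc 1 (min N M)).filter Nat.Prime := by
    unfold smallP
    ext p
    simp only [Finset.mem_filter, Finset.mem_Icc, le_min_iff]
    tauto
  have hSig : ∑ p ∈ smallP N M, Real.log p * (|QL w L (Real.log p - u)| / L) ^ 2 / p =
      (∑ p ∈ smallP N M, Real.log p * QL w L (Real.log p - u) ^ 2 / (L * p)) / L := by
    rw [Finset.sum_div]
    refine Finset.sum_congr rfl fun p hp => ?_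
    unfold smallP at hp
    rw [Finset.mem_filter, Finset.mem_Icc] at hp
    have hp1 : (p : ℝ) ≠ 0 := by
      have : (1 : ℝ) ≤ p := by exact_mod_cast hp.1.1
      linarith
    rw [div_pow, sq_abs]
    field_simp
  rw [hSig, hsm2]
  refine div_le_div_of_nonneg_right ?_ hL0.le
  refine merB hM hDQ (by linarith) hL0 u hu (min N M) (le_min hN1 hM1) ?_
  have h1 : Real.log ((min N M : ℕ) : ℝ) ≤ Real.log M := by
    refine Real.log_le_log ?_ (by exact_mod_cast min_le_right N M)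
    exact_mod_cast (le_min hN1 hM1 : 1 ≤ min N M)
  linarith

/-- separated position: the small primes -/
lemma sm_sep (hDQ : QB w δ D L) (hD : 1 ≤ D) (hδ : 0 < δ) (hL : 1 ≤ L) (hLδ : 16 / δ ^ 2 ≤ L)
    (N : ℕ) (hN1 : 1 ≤ N) (hN : Real.log N ≤ L) (u : ℝ) (hs : Real.log N + 5 / 2 * (δ * L) ≤ u) :
    ∑ p ∈ smallP N (MM δ L u), Real.log p * (|QL w L (Real.log p - u)| / L) ^ 2 / p ≤ (D ^ 2 / L) / L := by
  have hL0 : 0 < L := by linarith
  have hN1' : (1 : ℝ) ≤ N := by exact_mod_cast hN1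
  have hδL : 0 ≤ δ * L := by positivity
  have hpt : ∀ p ∈ smallP N (MM δ L u), Real.log p * (|QL w L (Real.log p - u)| / L) ^ 2 / p ≤
      D ^ 2 / L ^ 2 * Real.exp (-L) := by
    intro p hp
    unfold smallP at hp
    rw [Finset.mem_filter, Finset.mem_Icc] at hp
    have hp1 : (1 : ℝ) ≤ p := by exact_mod_cast hp.1.1
    have hp0 : (0 : ℝ) < p := by linarith
    have hlp0 : 0 ≤ Real.log p := Real.log_nonneg hp1
    have hlp : Real.log p ≤ Real.log N := Real.log_le_log hp0 (by exact_mod_cast hp.2.2)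
    have habs : |Real.log p - u| = u - Real.log p := by
      rw [abs_sub_comm]
      exact abs_of_nonneg (by linarith)
    have h1 := hDQ.tail (Real.log p - u) (by rw [habs]; linarith)
    rw [habs] at h1
    have h2 : |QL w L (Real.log p - u)| ^ 2 ≤ D ^ 2 * Real.exp (-L) := by
      refine (pow_le_pow_left₀ (abs_nonneg _) h1 2).trans ?_
      rw [mul_pow, ← Real.exp_nat_mul]
      refine mul_le_mul_of_nonneg_left (Real.exp_le_exp.2 ?_) (by positivity)
      push_cast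
      have h3 : (δ * L) / 2 ≤ u - Real.log p - 2 * δ * L := by linarith
      have h4 : ((δ * L) / 2) ^ 2 ≤ (u - Real.log p - 2 * δ * L) ^ 2 := pow_le_pow_left₀ (by positivity) h3 2
      have h5 : 4 * L ≤ ((δ * L) / 2) ^ 2 := by
        have h6 : 16 ≤ L * δ ^ 2 := (div_le_iff₀ (by positivity)).1 hLδ
        have h7 : ((δ * L) / 2) ^ 2 = (L * δ ^ 2) * (L / 4) := by ring
        rw [h7]
        nlinarith
      linarith
    have h8 : Real.log p / p ≤ 1 := by
      rw [div_le_one hp0]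
      have := Real.log_le_sub_one_of_pos hp0
      linarith
    have e : Real.log p * (|QL w L (Real.log p - u)| / L) ^ 2 / p =
        (Real.log p / p) * (|QL w L (Real.log p - u)| ^ 2 / L ^ 2) := by
      rw [div_pow]
      ring
    rw [e]
    have h9 : |QL w L (Real.log p - u)| ^ 2 / L ^ 2 ≤ D ^ 2 / L ^ 2 * Real.exp (-L) := by
      rw [div_mul_eq_mul_div]
      exact div_le_div_of_nonneg_right h2 (by positivity)
    calc (Real.log p / p) * (|QL w L (Real.log p - u)| ^ 2 / L ^ 2) ≤ 1 * (|QL w L (Real.log p - u)| ^ 2 / L ^ 2) :=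
          mul_le_mul_of_nonneg_right h8 (by positivity)
      _ ≤ _ := by rw [one_mul]; exact h9
  refine (Finset.sum_le_sum hpt).trans ?_
  rw [Finset.sum_const, nsmul_eq_mul]
  have hcard : ((smallP N (MM δ L u)).card : ℝ) ≤ N := by
    have h1 : smallP N (MM δ L u) ⊆ Finset.Icc 1 N := by
      intro p hp
      unfold smallP at hp
      rw [Finset.mem_filter, Finset.mem_Icc] at hp
      rw [Finset.mem_Icc]
      exact ⟨hp.1.1, hp.2.2⟩
    have h2 := Finset.card_le_card h1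
    rw [Nat.card_Icc] at h2
    have : (smallP N (MM δ L u)).card ≤ N := by omega
    exact_mod_cast this
  have hNe : (N : ℝ) ≤ Real.exp L := (Real.log_le_iff_le_exp (by linarith)).1 hN
  calc ((smallP N (MM δ L u)).card : ℝ) * (D ^ 2 / L ^ 2 * Real.exp (-L)) ≤
      Real.exp L * (D ^ 2 / L ^ 2 * Real.exp (-L)) := mul_le_mul_of_nonneg_right (hcard.trans hNe) (by positivity)
    _ = D ^ 2 / L ^ 2 * (Real.exp L * Real.exp (-L)) := by ring
    _ = (D ^ 2 / L) / L := by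
        rw [← Real.exp_add, add_neg_cancel, Real.exp_zero]
        field_simp

end

end Pool.Agent.U85.Ml
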