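import Pool.Agent.U85.Ml.Ln
import Pool.Agent.U85.Zd.Fz

set_option autoImplicit false

/-!
Assembly of the law of large numbers for the local form factor, and the passage to `[T, 2T]`.
-/

namespace Pool.Agent.U85.Ml

open Filter Topology MeasureTheory Complex
open Pool.Agent.Q97.UM Pool.Agent.U85.Zd

noncomputable section

theorem b_Z4 : S_Z4 := t_Z4 Pool.Agent.Q176.UM.t_QH Pool.Agent.Q247.UM.t_QLF Pool.Agent.Q84.UM.t_DPM
  Pool.Agent.Q222.UM.t_MV2 Pool.Agent.Q247.UM.t_CONV Pool.Agent.Q222.UM.t_MER b_EFL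

theorem b_LL : S_LL := t_LL Pool.Agent.Q222.UM.t_MV2 b_ZU b_Z4

theorem b_GQ : S_GQ := t_GQ Pool.Agent.Q176.UM.t_QH Pool.Agent.Q247.UM.t_QLF b_ZU b_ZA

theorem b_LQ : S_LQ := t_LQ Pool.Agent.Q176.UM.t_QH Pool.Agent.Q247.UM.t_QLF Pool.Agent.Q222.UM.t_MV2 b_GQ b_LL

theorem b_LM : S_LM := t_LM Pool.Agent.Q247.UM.t_OMEX Pool.Agent.Q176.UM.t_QH b_LQ b_LA b_ED b_ERR b_TAIL

/-- union bound for nonnegative continuous densities -/
lemma mass_union {V : ℝ → ℝ} (hV : Continuous V) (hV0 : ∀ t, 0 ≤ V t) {A B : Set ℝ} {x y : ℝ} (hA : MeasurableSet A)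
    (hAx : A ⊆ Set.Icc x y) (hBx : B ⊆ Set.Icc x y) : ∫ t in A ∪ B, V t ≤ (∫ t in A, V t) + ∫ t in B, V t := by
  have hi : IntegrableOn V (Set.Icc x y) := hV.continuousOn.integrableOn_Icc
  have h1 : A ∪ B = A ∪ (B \ A) := by rw [Set.union_sdiff_self]
  have h0 : ∀ S : Set ℝ, 0 ≤ᵐ[volume.restrict S] V := fun S => Filter.Eventually.of_forall hV0
  have h2 : ∫ t in A ∪ B, V t = (∫ t in A, V t) + ∫ t in B \ A, V t := by
    have h3 := integral_inter_add_sdiff (s := A ∪ B) (t := A) hA (hi.mono_set (Set.union_subset hAx hBx))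
    rw [Set.union_inter_cancel_left, Set.union_sdiff_left] at h3
    exact h3.symm
  rw [h2]
  have h4 : ∫ t in B \ A, V t ≤ ∫ t in B, V t :=
    setIntegral_mono_set (hi.mono_set hBx) (h0 _) (LE.le.eventuallyLE Set.sdiff_subset)
  linarith

/-- the law of large numbers on `[T, 2T]`, nonnegative weights -/
theorem fin_pos (R : ℝ → ℝ) (D a : ℝ) (hR : ∀ x y : ℝ, |R x - R y| ≤ D * |x - y|) (hR0 : ∀ x, 0 ≤ R x)
    (ha : 0 < a) (ha2 : a < 1 / 2) (κ ε : ℝ) (hκ : 0 < κ) (hε : 0 < ε) : ∃ H₀ : ℝ, 1 ≤ H₀ ∧ ∀ H : ℝ, H₀ ≤ H →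
    ∃ θ : ℝ, 0 < θ ∧ ∀ᶠ T : ℝ in atTop, H / Real.log T ≤ 1 ∧ 10 ≤ T ∧ 1 ≤ Real.log T ∧
      ∀ N : ℕ, (N : ℝ) ≤ T ^ θ → ∀ b : ℕ → ℂ, ∃ G : Set ℝ, MeasurableSet G ∧ G ⊆ Set.Icc T (2 * T) ∧
        ∫ t in G, ‖dp N b t‖ ^ 2 ≤ κ * ∫ t in Set.Icc T (2 * T), ‖dp N b t‖ ^ 2 ∧
        ∀ t ∈ Set.Icc T (2 * T), t ∉ G → t ∈ Set.Ioc (T + 2 * Real.log T) (2 * T - 2 * Real.log T) ∧
          GoodPt R a H T ε t := by
  obtain ⟨k, hk⟩ : ∃ k, k = min κ 1 := ⟨_, rfl⟩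
  have hk0 : 0 < k := by rw [hk]; positivity
  have hk1 : k ≤ 1 := by rw [hk]; exact min_le_right _ _
  have hkκ : k ≤ κ := by rw [hk]; exact min_le_left _ _
  obtain ⟨H₀, hH₀, h⟩ := b_LM R D a hR hR0 ha ha2 (k / 4) ε (by positivity) hε
  refine ⟨H₀, hH₀, fun H hH => ?_⟩
  obtain ⟨θ, t1, t2, h⟩ := h H hH
  refine ⟨θ, t1, ?_⟩
  have hs0 : 0 < k / 16 := by positivity
  filter_upwards [h, mass_full (k / 16) hs0, mass_short Pool.Agent.Q222.UM.t_MV2 (k / 16) hs0,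
    eventually_ge_atTop (16 : ℝ), Real.tendsto_log_atTop.eventually_ge_atTop 1,
    Real.tendsto_log_atTop.eventually_ge_atTop H] with T h hA hB hT16 hL1 hLH
  have hT1 : (1 : ℝ) ≤ T := by linarith
  have hr : H / Real.log T ≤ 1 := by rw [div_le_one (by linarith)]; exact hLH
  have hL4 : 4 * Real.log T ≤ T := by
    have h5 := Real.log_le_sub_one_of_pos (show (0 : ℝ) < T / 16 by positivity)
    rw [Real.log_div (by positivity) (by norm_num)] at h5
    have h6 : Real.log 16 ≤ 3 := by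
      have : Real.log 16 = 4 * Real.log 2 := by
        rw [show (16 : ℝ) = 2 ^ 4 by norm_num, Real.log_pow]; norm_num
      rw [this]; have := Real.log_two_lt_d9; linarith
    linarith
  have hab : T + 2 * Real.log T ≤ 2 * T - 2 * Real.log T := by linarith
  refine ⟨hr, by linarith, hL1, fun N hN b => ?_⟩
  have hN40 : (N : ℝ) ≤ T ^ (1 / 40 : ℝ) := hN.trans (Real.rpow_le_rpow_of_exponent_le hT1 t2)
  replace hA := hA N hN40 b
  replace hB := hB N hN40 b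
  obtain ⟨G, hGm, hG1, hG2⟩ := h N hN b
  obtain ⟨W, hW⟩ : ∃ W, W = T * N2 N b := ⟨_, rfl⟩
  have hW0 : 0 ≤ W := by rw [hW]; exact mul_nonneg (by linarith) (Pool.Agent.Q97.UM.N2_nonneg N b)
  rw [← hW] at hA hB hG1
  have hVc : Continuous (fun t : ℝ => ‖dp N b t‖ ^ 2) := ((Pool.Agent.U85.Zd.dp_cont N b).norm).pow 2
  have hV0 : ∀ t : ℝ, 0 ≤ ‖dp N b t‖ ^ 2 := fun t => by positivity
  set J := Set.Ioc (T + 2 * Real.log T) (2 * T - 2 * Real.log T) with hJ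
  have hJT : J ⊆ Set.Icc T (2 * T) := by
    intro t ht
    exact ⟨by linarith [ht.1], by linarith [ht.2]⟩
  have hgi : IntegrableOn (fun t : ℝ => ‖dp N b t‖ ^ 2) (Set.Icc T (2 * T)) := hVc.continuousOn.integrableOn_Icc
  refine ⟨(Set.Icc T (2 * T) \ J) ∪ (J ∩ G), (measurableSet_Icc.diff measurableSet_Ioc).union
    (measurableSet_Ioc.inter hGm), Set.union_subset Set.sdiff_subset (Set.inter_subset_left.trans hJT), ?_, ?_⟩
  · have e1 := mass_union hVc hV0 (A := Set.Icc T (2 * T) \ J) (B := J ∩ G) (x := T) (y := 2 * T)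
      (measurableSet_Icc.diff measurableSet_Ioc) Set.sdiff_subset (Set.inter_subset_left.trans hJT)
    have e4 : ∫ t in Set.Icc T (2 * T), ‖dp N b t‖ ^ 2 = (∫ t in J, ‖dp N b t‖ ^ 2) +
        ∫ t in Set.Icc T (2 * T) \ J, ‖dp N b t‖ ^ 2 := by
      have := (integral_inter_add_sdiff (s := Set.Icc T (2 * T)) (t := J) measurableSet_Ioc hgi).symm
      rwa [Set.inter_eq_right.2 hJT] at this
    rw [intervalIntegral.integral_of_le hab] at hB
    have a1 := abs_le.1 hA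
    have a2 := abs_le.1 hB
    obtain ⟨I, hI⟩ : ∃ I, I = ∫ t in Set.Icc T (2 * T), ‖dp N b t‖ ^ 2 := ⟨_, rfl⟩
    rw [← hI] at a1 e4 ⊢
    have b1 : ∫ t in Set.Icc T (2 * T) \ J, ‖dp N b t‖ ^ 2 ≤ 2 * (k / 16 * W) := by linarith [a1.2, a2.1]
    have b2 : W ≤ 2 * I := by nlinarith [a1.1]
    have b3 : k * W ≤ k * (2 * I) := mul_le_mul_of_nonneg_left b2 hk0.le
    have hI0 : 0 ≤ I := by rw [hI]; exact integral_nonneg hV0
    have b4 : k * I ≤ κ * I := mul_le_mul_of_nonneg_right hkκ hI0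
    have b5 : 0 ≤ k * I := mul_nonneg hk0.le hI0
    linarith
  · intro t ht htn
    have h1 : t ∈ J := by
      by_contra h2
      exact htn (Or.inl ⟨ht, h2⟩)
    refine ⟨h1, hG2 t h1 fun h2 => htn (Or.inr ⟨h1, h2⟩)⟩

/-- the law of large numbers on `[T, 2T]` -/
theorem fin_lip (R : ℝ → ℝ) (D a : ℝ) (hR : ∀ x y : ℝ, |R x - R y| ≤ D * |x - y|)
    (ha : 0 < a) (ha2 : a < 1 / 2) (κ ε : ℝ) (hκ : 0 < κ) (hε : 0 < ε) : ∃ H₀ : ℝ, 1 ≤ H₀ ∧ ∀ H : ℝ, H₀ ≤ H →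
    ∃ θ : ℝ, 0 < θ ∧ ∀ᶠ T : ℝ in atTop, H / Real.log T ≤ 1 ∧ 10 ≤ T ∧ 1 ≤ Real.log T ∧
      ∀ N : ℕ, (N : ℝ) ≤ T ^ θ → ∀ b : ℕ → ℂ, ∃ G : Set ℝ, MeasurableSet G ∧ G ⊆ Set.Icc T (2 * T) ∧
        ∫ t in G, ‖dp N b t‖ ^ 2 ≤ κ * ∫ t in Set.Icc T (2 * T), ‖dp N b t‖ ^ 2 ∧
        ∀ t ∈ Set.Icc T (2 * T), t ∉ G → t ∈ Set.Ioc (T + 2 * Real.log T) (2 * T - 2 * Real.log T) ∧
          GoodPt R a H T ε t := by
  have hp : ∀ x y : ℝ, |max (R x) 0 - max (R y) 0| ≤ D * |x - y| := by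
    intro x y
    have h1 := abs_max_sub_max_le_max (R x) 0 (R y) 0
    rw [sub_self, abs_zero, max_eq_left (abs_nonneg (R x - R y))] at h1
    exact h1.trans (hR x y)
  have hn : ∀ x y : ℝ, |max (-R x) 0 - max (-R y) 0| ≤ D * |x - y| := by
    intro x y
    have h1 := abs_max_sub_max_le_max (-R x) 0 (-R y) 0
    rw [sub_self, abs_zero, max_eq_left (abs_nonneg (-R x - -R y)), neg_sub_neg] at h1
    rw [abs_sub_comm (R y) (R x)] at h1
    exact h1.trans (hR x y)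
  have hRc : Continuous R := by
    have : LipschitzWith (Real.toNNReal D) R := by
      refine LipschitzWith.of_dist_le_mul fun x y => ?_
      rw [Real.dist_eq, Real.dist_eq]
      exact (hR x y).trans (mul_le_mul_of_nonneg_right (Real.le_coe_toNNReal D) (abs_nonneg _))
    exact this.continuous
  obtain ⟨H₁, hH₁, h1⟩ := fin_pos (fun x => max (R x) 0) D a hp (fun x => le_max_right _ _) ha ha2 (κ / 2) (ε / 2)
    (by positivity) (by positivity)
  obtain ⟨H₂, hH₂, h2⟩ := fin_pos (fun x => max (-R x) 0) D a hn (fun x => le_max_right _ _) ha ha2 (κ / 2) (ε / 2)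
    (by positivity) (by positivity)
  refine ⟨max H₁ H₂, le_max_of_le_left hH₁, fun H hH => ?_⟩
  obtain ⟨θ₁, t1, h1⟩ := h1 H ((le_max_left _ _).trans hH)
  obtain ⟨θ₂, t2, h2⟩ := h2 H ((le_max_right _ _).trans hH)
  have hH0 : 0 < H := by linarith [(le_max_left H₁ H₂).trans hH]
  refine ⟨min θ₁ θ₂, lt_min t1 t2, ?_⟩
  filter_upwards [h1, h2] with T h1 h2
  obtain ⟨a1, a2, a3, h1⟩ := h1
  obtain ⟨-, -, -, h2⟩ := h2
  refine ⟨a1, a2, a3, fun N hN b => ?_⟩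
  have hT1 : 1 ≤ T := by linarith
  obtain ⟨G₁, m1, s1, i1, g1⟩ := h1 N (hN.trans (Real.rpow_le_rpow_of_exponent_le hT1 (min_le_left _ _))) b
  obtain ⟨G₂, m2, s2, i2, g2⟩ := h2 N (hN.trans (Real.rpow_le_rpow_of_exponent_le hT1 (min_le_right _ _))) b
  have hVc : Continuous (fun t : ℝ => ‖dp N b t‖ ^ 2) := ((Pool.Agent.U85.Zd.dp_cont N b).norm).pow 2
  have hV0 : ∀ t : ℝ, 0 ≤ ‖dp N b t‖ ^ 2 := fun t => by positivity
  refine ⟨G₁ ∪ G₂, m1.union m2, Set.union_subset s1 s2, ?_, ?_⟩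
  · have := mass_union hVc hV0 m1 s1 s2
    linarith
  · intro t ht htn
    obtain ⟨b1, b2, b3⟩ := g1 t ht fun h => htn (Or.inl h)
    obtain ⟨-, b4, -⟩ := g2 t ht fun h => htn (Or.inr h)
    have hh : 0 < H / Real.pi := by positivity
    refine ⟨b1, ?_, b3.trans (mul_le_mul_of_nonneg_right (by linarith) hh.le)⟩
    have hSc : Continuous fun β : ℝ => ‖Ssh T (H / Real.log T) (Real.log T * β) t‖ ^ 2 :=
      ((Ssh_cont T _ t).comp (by fun_prop)).norm.pow 2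
    have hc1 : Continuous fun β : ℝ => max (R β) 0 * ‖Ssh T (H / Real.log T) (Real.log T * β) t‖ ^ 2 :=
      (hRc.max continuous_const).mul hSc
    have hc2 : Continuous fun β : ℝ => max (-R β) 0 * ‖Ssh T (H / Real.log T) (Real.log T * β) t‖ ^ 2 :=
      (hRc.neg.max continuous_const).mul hSc
    have hc3 : Continuous fun β : ℝ => β * max (R β) 0 := continuous_id.mul (hRc.max continuous_const)
    have hc4 : Continuous fun β : ℝ => β * max (-R β) 0 := continuous_id.mul (hRc.neg.max continuous_const)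
    have hdec : ∀ x : ℝ, R x = max (R x) 0 - max (-R x) 0 := by
      intro x
      rcases le_total (R x) 0 with h | h
      · rw [max_eq_right h, max_eq_left (by linarith)]
        ring
      · rw [max_eq_left h, max_eq_right (by linarith)]
        ring
    have e1 : ∫ β in (0 : ℝ)..a, R β * ‖Ssh T (H / Real.log T) (Real.log T * β) t‖ ^ 2 =
        (∫ β in (0 : ℝ)..a, max (R β) 0 * ‖Ssh T (H / Real.log T) (Real.log T * β) t‖ ^ 2) -
        ∫ β in (0 : ℝ)..a, max (-R β) 0 * ‖Ssh T (H / Real.log T) (Real.log T * β) t‖ ^ 2 := by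
      rw [← intervalIntegral.integral_sub (hc1.intervalIntegrable _ _) (hc2.intervalIntegrable _ _)]
      refine intervalIntegral.integral_congr fun β _ => ?_
      show R β * _ = max (R β) 0 * _ - max (-R β) 0 * _
      rw [← sub_mul, ← hdec]
    have e2 : ∫ β in (0 : ℝ)..a, β * R β = (∫ β in (0 : ℝ)..a, β * max (R β) 0) - ∫ β in (0 : ℝ)..a, β * max (-R β) 0 := by
      rw [← intervalIntegral.integral_sub (hc3.intervalIntegrable _ _) (hc4.intervalIntegrable _ _)]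
      refine intervalIntegral.integral_congr fun β _ => ?_
      show β * R β = β * max (R β) 0 - β * max (-R β) 0
      rw [← mul_sub, ← hdec]
    rw [e1, e2, hdec 0]
    have c1 := abs_le.1 b2
    have c2 := abs_le.1 b4
    rw [abs_le]
    constructor <;> linarith [c1.1, c1.2, c2.1, c2.2]

end

end Pool.Agent.U85.Ml
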