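import Pool.Agent.U85.Ml.Lq
import Pool.Agent.U85.Ml.Sh
import Pool.Agent.U85.Zd.La

set_option autoImplicit false

/-!
The law of large numbers for the sharp local zero sums: outside a set of small mass.
-/

namespace Pool.Agent.U85.Ml

open Filter Topology MeasureTheory Complex
open Pool.Agent.Q97.UM Pool.Agent.U85.Zd

noncomputable section

/-- Markov's inequality -/
lemma markov {x y B : ℝ} (hxy : x ≤ y) {f V : ℝ → ℝ} (hf : Measurable f) (hf0 : ∀ t, 0 ≤ f t) (hV : Continuous V)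
    (hV0 : ∀ t, 0 ≤ V t) (hi : IntervalIntegrable (fun t => f t * V t) volume x y) (h : ∫ t in x..y, f t * V t ≤ B) :
    ∫ t in Set.Ioc x y ∩ {t | 1 < f t}, V t ≤ B := by
  have hm : MeasurableSet (Set.Ioc x y ∩ {t | 1 < f t}) := measurableSet_Ioc.inter (measurableSet_lt measurable_const hf)
  have hiI : IntegrableOn (fun t => f t * V t) (Set.Ioc x y) := (intervalIntegrable_iff_integrableOn_Ioc_of_le hxy).1 hi
  have hVI : IntegrableOn V (Set.Ioc x y) := (hV.intervalIntegrable x y).1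
  have h1 : ∫ t in Set.Ioc x y ∩ {t | 1 < f t}, V t ≤ ∫ t in Set.Ioc x y ∩ {t | 1 < f t}, f t * V t := by
    refine setIntegral_mono_on (hVI.mono_set Set.inter_subset_left) (hiI.mono_set Set.inter_subset_left) hm fun t ht => ?_
    have h2 : 1 ≤ f t := le_of_lt ht.2
    have := mul_le_mul_of_nonneg_right h2 (hV0 t)
    linarith
  have h2 : ∫ t in Set.Ioc x y ∩ {t | 1 < f t}, f t * V t ≤ ∫ t in Set.Ioc x y, f t * V t :=
    setIntegral_mono_set hiI (Eventually.of_forall fun t => mul_nonneg (hf0 t) (hV0 t))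
      (LE.le.eventuallyLE Set.inter_subset_left)
  rw [intervalIntegral.integral_of_le hxy] at h
  linarith

/-- comparison of two square norms -/
lemma sq_cmp {z w : ℂ} {E η : ℝ} (hE : 0 ≤ E) (hη : 0 < η) (hη1 : η ≤ 1) (h : ‖z - w‖ ≤ E) :
    |‖w‖ ^ 2 - ‖z‖ ^ 2| ≤ η * ‖z‖ ^ 2 + 2 * E ^ 2 / η := by
  have h1 : |‖w‖ - ‖z‖| ≤ E := by
    rw [abs_sub_comm]
    exact (abs_norm_sub_norm_le z w).trans h
  have hz := norm_nonneg z
  have hw := norm_nonneg w
  have h2 : ‖w‖ ^ 2 - ‖z‖ ^ 2 = (‖w‖ - ‖z‖) * (‖w‖ + ‖z‖) := by ring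
  rw [h2, abs_mul, abs_of_nonneg (by positivity : 0 ≤ ‖w‖ + ‖z‖)]
  have h3 : ‖w‖ ≤ ‖z‖ + E := by linarith [(abs_le.1 h1).2]
  have h4 : |‖w‖ - ‖z‖| * (‖w‖ + ‖z‖) ≤ E * (2 * ‖z‖ + E) :=
    mul_le_mul h1 (by linarith) (by positivity) hE
  refine h4.trans ?_
  have h5 : 0 ≤ (η * ‖z‖ - E) ^ 2 / η := by positivity
  have h6 : (η * ‖z‖ - E) ^ 2 / η = η * ‖z‖ ^ 2 - 2 * E * ‖z‖ + E ^ 2 / η := by
    field_simp
    ring
  have h7 : E ^ 2 ≤ E ^ 2 / η := by
    rw [le_div_iff₀ hη]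
    nlinarith [sq_nonneg E]
  have h8 : 2 * E ^ 2 / η = E ^ 2 / η + E ^ 2 / η := by ring
  rw [h8]
  nlinarith

/-- substitution in the frequency -/
lemma freq_sub (R : ℝ → ℝ) (f : ℝ → ℝ) {a : ℝ} (ha : 0 < a) :
    ∫ α in (0 : ℝ)..1, (a * R (a * α)) * f (a * α) = ∫ β in (0 : ℝ)..a, R β * f β := by
  have h1 := intervalIntegral.smul_integral_comp_mul_left (a := 0) (b := 1) (fun β => R β * f β) a
  rw [mul_zero, mul_one, smul_eq_mul, ← intervalIntegral.integral_const_mul] at h1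
  rw [← h1]
  refine intervalIntegral.integral_congr fun α _ => ?_
  show a * R (a * α) * f (a * α) = a * (R (a * α) * f (a * α))
  ring

lemma Ssh_cont (T r t : ℝ) : Continuous fun u : ℝ => Ssh T r u t := by
  unfold Ssh
  fun_prop

lemma Ssh_zero (T r t : ℝ) : Ssh T r 0 t = (Nw T r t : ℂ) := by
  unfold Ssh Nw
  push_cast
  refine Finset.sum_congr rfl fun s _ => ?_
  simp

/-- the main property of the points outside the exceptional set -/
def GoodPt (R : ℝ → ℝ) (a H T ε t : ℝ) : Prop :=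
  |2 * (∫ β in (0 : ℝ)..a, R β * ‖Ssh T (H / Real.log T) (Real.log T * β) t‖ ^ 2) -
    (R 0 + 2 * ∫ β in (0 : ℝ)..a, β * R β) * (H / Real.pi)| ≤ ε * (H / Real.pi) ∧
  |Nw T (H / Real.log T) t - H / Real.pi| ≤ ε * (H / Real.pi)

/-- the law of large numbers for sharp windows -/
def S_LM : Prop := ∀ (R : ℝ → ℝ) (D a : ℝ), (∀ x y : ℝ, |R x - R y| ≤ D * |x - y|) → (∀ x, 0 ≤ R x) →
  0 < a → a < 1 / 2 → ∀ κ ε : ℝ, 0 < κ → 0 < ε → ∃ H₀ : ℝ, 1 ≤ H₀ ∧ ∀ H : ℝ, H₀ ≤ H → ∃ θ : ℝ, 0 < θ ∧ θ ≤ 1 / 40 ∧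
  ∀ᶠ T : ℝ in atTop, ∀ N : ℕ, (N : ℝ) ≤ T ^ θ → ∀ b : ℕ → ℂ, ∃ G : Set ℝ, MeasurableSet G ∧
    ∫ t in Set.Ioc (T + 2 * Real.log T) (2 * T - 2 * Real.log T) ∩ G, ‖dp N b t‖ ^ 2 ≤ κ * (T * N2 N b) ∧
    ∀ t ∈ Set.Ioc (T + 2 * Real.log T) (2 * T - 2 * Real.log T), t ∉ G → GoodPt R a H T ε t

/-- the points with small error functions are good -/
lemma good_of {R : ℝ → ℝ} {a H T ε t M E h m q I X : ℝ} {w : ℝ → ℝ} (hRc : Continuous R) (hR0 : ∀ x, 0 ≤ R x)
    (ha : 0 < a) (ha2 : a < 1 / 2) (hM : ∀ x ∈ Set.Icc 0 a, R x ≤ M) (hM0 : 0 ≤ M) (hL : 1 ≤ Real.log T)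
    (hZc : Continuous fun u : ℝ => Zt w T u t) (hE : 0 ≤ E)
    (hZS : ∀ u : ℝ, 0 ≤ u → u ≤ Real.log T / 2 → ‖Zt w T u t - Ssh T (H / Real.log T) u t‖ ≤ E)
    (hh : h = H / Real.pi) (hh0 : 0 ≤ h) (hm : m = R 0 + 2 * ∫ β in (0 : ℝ)..a, β * R β) (hm0 : 0 ≤ m)
    (hX : X = 2 * (∫ β in (0 : ℝ)..a, R β * ‖Zt w T (Real.log T * β) t‖ ^ 2))
    (h1 : |X - m * I| ≤ ε / 8 * h) (h2 : |(Zt w T 0 t).re - q| ≤ ε / 8 * h) (h3 : |q - h| ≤ ε / 8 * h)
    (h4 : m * |I - h| ≤ ε / 8 * h) (hε : 0 < ε) (hε1 : ε ≤ 1)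
    (h5 : E ≤ ε / 8 * h) (h6 : 64 * M * (m + 2) * E ^ 2 ≤ ε ^ 2 * h) : GoodPt R a H T ε t := by
  have hL0 : 0 < Real.log T := by linarith
  unfold GoodPt
  rw [← hh, ← hm]
  constructor
  · obtain ⟨η, hη⟩ : ∃ η, η = ε / (8 * (m + 2)) := ⟨_, rfl⟩
    have hη0 : 0 < η := by rw [hη]; positivity
    have hη1 : η ≤ 1 := by
      rw [hη, div_le_one (by positivity)]
      linarith
    have hSc : Continuous fun β : ℝ => Ssh T (H / Real.log T) (Real.log T * β) t :=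
      (Ssh_cont T _ t).comp (by fun_prop)
    have hZc' : Continuous fun β : ℝ => Zt w T (Real.log T * β) t := hZc.comp (by fun_prop)
    have c1 : Continuous fun β : ℝ => R β * ‖Ssh T (H / Real.log T) (Real.log T * β) t‖ ^ 2 := hRc.mul (hSc.norm.pow 2)
    have c2 : Continuous fun β : ℝ => R β * ‖Zt w T (Real.log T * β) t‖ ^ 2 := hRc.mul (hZc'.norm.pow 2)
    have hd : |(∫ β in (0 : ℝ)..a, R β * ‖Ssh T (H / Real.log T) (Real.log T * β) t‖ ^ 2) -
        ∫ β in (0 : ℝ)..a, R β * ‖Zt w T (Real.log T * β) t‖ ^ 2| ≤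
        ∫ β in (0 : ℝ)..a, (η * (R β * ‖Zt w T (Real.log T * β) t‖ ^ 2) + M * (2 * E ^ 2 / η)) := by
      rw [← intervalIntegral.integral_sub (c1.intervalIntegrable _ _) (c2.intervalIntegrable _ _)]
      refine (intervalIntegral.abs_integral_le_integral_abs ha.le).trans ?_
      refine intervalIntegral.integral_mono_on ha.le ((c1.sub c2).abs.intervalIntegrable _ _)
        (Continuous.intervalIntegrable (by fun_prop) _ _) fun β hβ => ?_
      have e1 : R β * ‖Ssh T (H / Real.log T) (Real.log T * β) t‖ ^ 2 - R β * ‖Zt w T (Real.log T * β) t‖ ^ 2 =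
          R β * (‖Ssh T (H / Real.log T) (Real.log T * β) t‖ ^ 2 - ‖Zt w T (Real.log T * β) t‖ ^ 2) := by ring
      rw [e1, abs_mul, abs_of_nonneg (hR0 β)]
      have h7 := sq_cmp hE hη0 hη1 (hZS (Real.log T * β) (mul_nonneg hL0.le hβ.1) (by
        have : Real.log T * β ≤ Real.log T * a := mul_le_mul_of_nonneg_left hβ.2 hL0.le
        have : Real.log T * a ≤ Real.log T * (1 / 2) := mul_le_mul_of_nonneg_left ha2.le hL0.le
        linarith))
      have h8 := mul_le_mul_of_nonneg_left h7 (hR0 β)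
      have h9 : R β * (2 * E ^ 2 / η) ≤ M * (2 * E ^ 2 / η) :=
        mul_le_mul_of_nonneg_right (hM β ⟨hβ.1, hβ.2⟩) (by positivity)
      linarith
    rw [intervalIntegral.integral_add ((c2.const_mul η).intervalIntegrable _ _) (by simp),
      intervalIntegral.integral_const_mul, intervalIntegral.integral_const, smul_eq_mul, sub_zero] at hd
    obtain ⟨S, hS⟩ : ∃ S, S = ∫ β in (0 : ℝ)..a, R β * ‖Ssh T (H / Real.log T) (Real.log T * β) t‖ ^ 2 := ⟨_, rfl⟩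
    obtain ⟨Z, hZ⟩ : ∃ Z, Z = ∫ β in (0 : ℝ)..a, R β * ‖Zt w T (Real.log T * β) t‖ ^ 2 := ⟨_, rfl⟩
    rw [← hS, ← hZ] at hd
    rw [← hZ] at hX
    rw [← hS]
    have k1 : |m * I - m * h| ≤ ε / 8 * h := by
      rw [← mul_sub, abs_mul, abs_of_nonneg hm0]
      exact h4
    have k2 : X ≤ (m + 2) * h := by
      have a1 := (abs_le.1 h1).2
      have a2 := (abs_le.1 k1).2
      have a3 : ε / 8 * h ≤ h := by
        have : ε / 8 ≤ 1 := by linarith
        have := mul_le_mul_of_nonneg_right this hh0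
        linarith
      linarith
    have k3 : η * X ≤ ε / 8 * h := by
      have := mul_le_mul_of_nonneg_left k2 hη0.le
      have e2 : η * ((m + 2) * h) = ε / 8 * h := by
        rw [hη]
        field_simp
      linarith
    have k4 : 2 * (a * (M * (2 * E ^ 2 / η))) ≤ ε / 4 * h := by
      have e3 : M * (2 * E ^ 2 / η) = (64 * M * (m + 2) * E ^ 2) / ε / 4 := by
        rw [hη]
        field_simp
        ring
      have e4 : 0 ≤ M * (2 * E ^ 2 / η) := by positivity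
      have e5 : (64 * M * (m + 2) * E ^ 2) / ε ≤ ε * h := by
        rw [div_le_iff₀ hε]
        linarith [h6, (by ring : ε * h * ε = ε ^ 2 * h)]
      have e6 : a * (M * (2 * E ^ 2 / η)) ≤ 1 / 2 * (M * (2 * E ^ 2 / η)) := mul_le_mul_of_nonneg_right ha2.le e4
      linarith
    have k5 : |2 * S - X| ≤ η * X + 2 * (a * (M * (2 * E ^ 2 / η))) := by
      have e7 : 2 * S - X = 2 * (S - Z) := by rw [hX]; ring
      rw [e7, abs_mul, abs_two]
      rw [hX]
      linarith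
    have k6 := abs_le.1 k5
    have k7 := abs_le.1 h1
    have k8 := abs_le.1 k1
    rw [abs_le]
    have : 0 ≤ ε * h := by positivity
    constructor <;> linarith [k6.1, k6.2, k7.1, k7.2, k8.1, k8.2]
  · have h7 := hZS 0 le_rfl (by linarith)
    rw [Ssh_zero] at h7
    have h8 : |(Zt w T 0 t).re - Nw T (H / Real.log T) t| ≤ E := by
      have h9 := (Complex.abs_re_le_norm (Zt w T 0 t - (Nw T (H / Real.log T) t : ℂ))).trans h7
      rwa [Complex.sub_re, Complex.ofReal_re] at h9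
    have a1 := abs_le.1 h8
    have a2 := abs_le.1 h2
    have a3 := abs_le.1 h3
    have : 0 ≤ ε * h := by positivity
    rw [abs_le]
    constructor <;> linarith [a1.1, a1.2, a2.1, a2.2, a3.1, a3.2]

end

end Pool.Agent.U85.Ml
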