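import Pool.Agent.U85.Ml.Ke
import Pool.Agent.U85.Ml.Lm

set_option autoImplicit false

/-!
Small gaps between the ordinates at a point where the local form factor has its mean value.
-/

namespace Pool.Agent.U85.Ml

open Filter Topology MeasureTheory Complex
open scoped ComplexConjugate
open Pool.Agent.Q97.UM Pool.Agent.U85.Zd

noncomputable section

lemma normsq_sum {ι : Type*} (W : Finset ι) (γ : ι → ℝ) (u : ℝ) :
    ‖∑ s ∈ W, cexp (I * u * γ s)‖ ^ 2 = ∑ s ∈ W, ∑ s' ∈ W, Real.cos (u * (γ s - γ s')) := by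
  have h1 : ((‖∑ s ∈ W, cexp (I * u * γ s)‖ ^ 2 : ℝ) : ℂ) =
      (∑ s ∈ W, cexp (I * u * γ s)) * conj (∑ s ∈ W, cexp (I * u * γ s)) := by
    rw [Complex.mul_conj, Complex.normSq_eq_norm_sq]
  have h2 : (∑ s ∈ W, cexp (I * u * γ s)) * conj (∑ s ∈ W, cexp (I * u * γ s)) =
      ∑ s ∈ W, ∑ s' ∈ W, cexp (((u * (γ s - γ s') : ℝ) : ℂ) * I) := by
    rw [map_sum, Finset.sum_mul_sum]
    refine Finset.sum_congr rfl fun s _ => Finset.sum_congr rfl fun s' _ => ?_
    rw [← Complex.exp_conj, ← Complex.exp_add]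
    congr 1
    simp only [map_mul, Complex.conj_I, Complex.conj_ofReal]
    push_cast
    ring
  have h3 : (∑ s ∈ W, ∑ s' ∈ W, cexp (((u * (γ s - γ s') : ℝ) : ℂ) * I)).re =
      ∑ s ∈ W, ∑ s' ∈ W, Real.cos (u * (γ s - γ s')) := by
    rw [Complex.re_sum]
    refine Finset.sum_congr rfl fun s _ => ?_
    rw [Complex.re_sum]
    refine Finset.sum_congr rfl fun s' _ => ?_
    exact Complex.exp_ofReal_mul_I_re _
  rw [← h3, ← h2, ← h1, Complex.ofReal_re]

/-- the weight -/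
def kR (μ x : ℝ) : ℝ := μ * rho (μ * x)

lemma kR_nonneg {μ : ℝ} (hμ : 0 ≤ μ) (x : ℝ) : 0 ≤ kR μ x := mul_nonneg hμ (rho_nonneg _)

lemma kR_lip {μ : ℝ} (hμ : 0 ≤ μ) (hμ1 : μ ≤ 1) (x y : ℝ) : |kR μ x - kR μ y| ≤ 2 * |x - y| := by
  unfold kR
  rw [← mul_sub, abs_mul, abs_of_nonneg hμ]
  have h1 := rho_lip (μ * x) (μ * y)
  rw [← mul_sub, abs_mul, abs_of_nonneg hμ] at h1
  have h2 := abs_nonneg (x - y)
  have h3 := mul_le_mul_of_nonneg_left h1 hμ
  have h4 : μ * μ ≤ 1 := by nlinarith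
  have h5 := mul_le_mul_of_nonneg_right h4 h2
  linarith

lemma kR_cont {μ : ℝ} (hμ : 0 ≤ μ) (hμ1 : μ ≤ 1) : Continuous (kR μ) := by
  have : LipschitzWith (Real.toNNReal 2) (kR μ) := by
    refine LipschitzWith.of_dist_le_mul fun x y => ?_
    rw [Real.dist_eq, Real.dist_eq]
    exact (kR_lip hμ hμ1 x y).trans (mul_le_mul_of_nonneg_right (Real.le_coe_toNNReal 2) (abs_nonneg _))
  exact this.continuous

/-- the pair sum of well separated points -/
lemma sep_bd {ι : Type*} (W : Finset ι) (γ : ι → ℝ) {L μ : ℝ} (hL : 0 < L) (hμ : 0 < μ)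
    (hsep : ∀ s ∈ W, ∀ s' ∈ W, s ≠ s' → μ * (2 * Real.pi / L) < |γ s - γ s'|) :
    2 * (∫ β in (0 : ℝ)..(1 / μ), kR μ β * ‖∑ s ∈ W, cexp (I * ((L * β : ℝ) : ℂ) * γ s)‖ ^ 2) ≤ (W.card : ℝ) := by
  classical
  have h1 := freq_sub (kR μ) (fun β => ‖∑ s ∈ W, cexp (I * ((L * β : ℝ) : ℂ) * γ s)‖ ^ 2) (a := 1 / μ) (by positivity)
  rw [← h1]
  have e1 : ∫ α in (0 : ℝ)..1, (1 / μ * kR μ (1 / μ * α)) * ‖∑ s ∈ W, cexp (I * ((L * (1 / μ * α) : ℝ) : ℂ) * γ s)‖ ^ 2 =
      ∫ α in (0 : ℝ)..1, ∑ s ∈ W, ∑ s' ∈ W, kg α * Real.cos (α * (L * (γ s - γ s') / μ)) := by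
    refine intervalIntegral.integral_congr fun α hα => ?_
    rw [Set.uIcc_of_le zero_le_one] at hα
    show (1 / μ * kR μ (1 / μ * α)) * ‖∑ s ∈ W, cexp (I * ((L * (1 / μ * α) : ℝ) : ℂ) * γ s)‖ ^ 2 = _
    have h2 : 1 / μ * kR μ (1 / μ * α) = kg α := by
      unfold kR
      rw [show μ * (1 / μ * α) = α by field_simp, rho_eq hα.1 hα.2]
      field_simp
    rw [h2, normsq_sum, Finset.mul_sum]
    refine Finset.sum_congr rfl fun s _ => ?_
    rw [Finset.mul_sum]
    refine Finset.sum_congr rfl fun s' _ => ?_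
    congr 2
    field_simp
  rw [e1]
  have hc : ∀ θ : ℝ, Continuous fun α : ℝ => kg α * Real.cos (α * θ) := fun θ => kg_cont.mul (by fun_prop)
  rw [intervalIntegral.integral_finsetSum fun s _ => Continuous.intervalIntegrable
    (continuous_finsetSum _ fun s' _ => hc _) _ _]
  have e2 : ∀ s ∈ W, ∫ α in (0 : ℝ)..1, ∑ s' ∈ W, kg α * Real.cos (α * (L * (γ s - γ s') / μ)) =
      ∑ s' ∈ W, ∫ α in (0 : ℝ)..1, kg α * Real.cos (α * (L * (γ s - γ s') / μ)) := fun s _ =>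
    intervalIntegral.integral_finsetSum fun s' _ => (hc _).intervalIntegrable _ _
  rw [Finset.sum_congr rfl e2, Finset.mul_sum]
  have e3 : ∀ s ∈ W, 2 * ∑ s' ∈ W, ∫ α in (0 : ℝ)..1, kg α * Real.cos (α * (L * (γ s - γ s') / μ)) ≤ 1 := by
    intro s hs
    rw [Finset.mul_sum]
    have e4 : ∀ s' ∈ W, 2 * ∫ α in (0 : ℝ)..1, kg α * Real.cos (α * (L * (γ s - γ s') / μ)) ≤ if s' = s then 1 else 0 := by
      intro s' hs'
      split_ifs with h
      · subst h
        have := kK_zero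
        unfold kK at this
        rw [sub_self, mul_zero, zero_div]
        exact this.le
      · have h3 : 2 * Real.pi < |L * (γ s - γ s') / μ| := by
          have h4 := hsep s hs s' hs' (Ne.symm h)
          rw [abs_div, abs_mul, abs_of_pos hL, abs_of_pos hμ, lt_div_iff₀ hμ]
          have h5 := mul_lt_mul_of_pos_left h4 hL
          have h6 : L * (μ * (2 * Real.pi / L)) = 2 * Real.pi * μ := by field_simp
          linarith
        have := kK_neg h3
        unfold kK at this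
        exact this
    refine (Finset.sum_le_sum e4).trans ?_
    rw [Finset.sum_ite_eq' W s]
    rw [if_pos hs]
  refine (Finset.sum_le_sum e3).trans ?_
  simp

/-- two zeros, counted with multiplicity, in the window, with ordinates at distance at most `d` -/
def CloseW (T r t d : ℝ) : Prop := ∃ s ∈ ZT T, ∃ s' ∈ ZT T, |s.im - t| ≤ r ∧ |s'.im - t| ≤ r ∧ |s.im - s'.im| ≤ d ∧
  (s ≠ s' ∨ 2 ≤ mz s)

/-- the length of the range of frequencies -/
def aa : ℝ := 0.4124 / 0.825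

lemma mom_val : 1.00075 ≤ kR 0.825 0 + 2 * ∫ β in (0 : ℝ)..aa, β * kR 0.825 β := by
  have h0 : kR 0.825 0 = 0.825 := by
    unfold kR
    rw [mul_zero, rho_eq le_rfl zero_le_one]
    unfold kg
    simp
  have h1 : ∫ β in (0 : ℝ)..aa, β * kR 0.825 β = (0.825 : ℝ)⁻¹ * ∫ x in (0 : ℝ)..0.4124, x * kg x := by
    have e1 : ∫ β in (0 : ℝ)..aa, β * kR 0.825 β = ∫ β in (0 : ℝ)..aa, (fun x => x * rho x) (0.825 * β) := by
      refine intervalIntegral.integral_congr fun β _ => ?_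
      show β * (0.825 * rho (0.825 * β)) = 0.825 * β * rho (0.825 * β)
      ring
    rw [e1, intervalIntegral.integral_comp_mul_left (fun x => x * rho x) (by norm_num : (0.825 : ℝ) ≠ 0), smul_eq_mul,
      mul_zero, show (0.825 : ℝ) * aa = 0.4124 by unfold aa; norm_num]
    congr 1
    refine intervalIntegral.integral_congr fun x hx => ?_
    rw [Set.uIcc_of_le (by norm_num)] at hx
    show x * rho x = x * kg x
    rw [rho_eq hx.1 (hx.2.trans (by norm_num))]
  rw [h0, h1]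
  have := kg_value
  norm_num at this ⊢
  linarith

/-- at a good point there is a small gap -/
theorem close_of_good {H T t : ℝ} (hH : 0 < H) (hT : 10 ≤ T) (hL : 1 ≤ Real.log T)
    (hg : GoodPt (kR 0.825) aa H T 0.0003 t) : CloseW T (H / Real.log T) t (0.825 * (2 * Real.pi / Real.log T)) := by
  classical
  by_contra hcon
  have hL0 : 0 < Real.log T := by linarith
  have hpi := Real.pi_pos
  have hF := H370.good_zeta
  have hU : (1 : ℝ) ≤ T + 1 := by linarith
  have hWm : ∀ s ∈ ZT T, s ∈ H370.zset riemannZeta (T + 1) (2 * T - 1) := fun s hs => (H370.mem_Zf hF hU).mp hs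
  have hWpos : ∀ s ∈ ZT T, 1 ≤ mz s := by
    intro s hs
    have := hWm s hs
    exact H370.Loc.mult_pos' hF (by linarith [this.2.2.1]) this.2.2.2.2
  obtain ⟨r, hr⟩ : ∃ r, r = H / Real.log T := ⟨_, rfl⟩
  obtain ⟨d, hd⟩ : ∃ d, d = 0.825 * (2 * Real.pi / Real.log T) := ⟨_, rfl⟩
  have hd0 : 0 < d := by rw [hd]; positivity
  rw [← hr, ← hd] at hcon
  obtain ⟨W, hW⟩ : ∃ W : Finset ℂ, W = (ZT T).filter (fun s => |s.im - t| ≤ r) := ⟨_, rfl⟩
  have hW1 : ∀ s ∈ W, s ∈ ZT T ∧ |s.im - t| ≤ r := by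
    intro s hs
    rw [hW, Finset.mem_filter] at hs
    exact hs
  have hmul : ∀ s ∈ W, mz s = 1 := by
    intro s hs
    obtain ⟨h1, h2⟩ := hW1 s hs
    by_contra h3
    have h4 := hWpos s h1
    exact hcon ⟨s, h1, s, h1, h2, h2, by rw [sub_self, abs_zero]; exact hd0.le, Or.inr (by omega)⟩
  have hsep : ∀ s ∈ W, ∀ s' ∈ W, s ≠ s' → d < |s.im - s'.im| := by
    intro s hs s' hs' hne
    by_contra h3
    push Not at h3
    exact hcon ⟨s, (hW1 s hs).1, s', (hW1 s' hs').1, (hW1 s hs).2, (hW1 s' hs').2, h3, Or.inl hne⟩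
  have hline : ∀ s ∈ W, s.re = 1 / 2 := by
    intro s hs
    obtain ⟨h1, h2⟩ := hW1 s hs
    by_contra h3
    have h4 : 1 - conj s ∈ ZT T := (H370.mem_Zf hF hU).mpr (H370.zset_refl hF hU (hWm s h1))
    have h5 : (1 - conj s).im = s.im := by simp
    have h6 : (1 - conj s).re = 1 - s.re := by simp
    have h7 : s ≠ 1 - conj s := by
      intro h8
      have h9 := congrArg Complex.re h8
      rw [h6] at h9
      exact h3 (by linarith)
    exact hcon ⟨s, h1, 1 - conj s, h4, h2, by rw [h5]; exact h2, by rw [h5, sub_self, abs_zero]; exact hd0.le, Or.inl h7⟩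
  have hS : ∀ u : ℝ, Ssh T r u t = ∑ s ∈ W, cexp (I * u * (s.im : ℂ)) := by
    intro u
    unfold Ssh
    have e1 : (ZT T).filter (fun s => |s.im - t| ≤ r) = W := by
      rw [hW]
    rw [show (Finset.filter (fun s : ℂ => |s.im - t| ≤ r) (ZT T)) = W by rw [hW]]
    refine Finset.sum_congr rfl fun s hs => ?_
    have h1 : H370.zz s = (s.im : ℂ) := by
      apply Complex.ext
      · rw [H370.zz_re, Complex.ofReal_re]
      · rw [H370.zz_im, Complex.ofReal_im, hline s hs]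
        ring
    rw [hmul s hs, h1]
    push_cast
    ring
  have hN : Nw T r t = (W.card : ℝ) := by
    unfold Nw
    rw [show (Finset.filter (fun s : ℂ => |s.im - t| ≤ r) (ZT T)) = W by rw [hW]]
    rw [Finset.sum_congr rfl fun s hs => by rw [hmul s hs]]
    simp
  obtain ⟨g1, g2⟩ := hg
  rw [← hr] at g1 g2
  have hb := sep_bd W (fun s => s.im) (L := Real.log T) (μ := 0.825) hL0 (by norm_num) (by
    intro s hs s' hs' hne
    have := hsep s hs s' hs' hne
    rwa [hd] at this)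
  have hRc := kR_cont (μ := 0.825) (by norm_num) (by norm_num)
  have hmono : ∫ β in (0 : ℝ)..aa, kR 0.825 β * ‖Ssh T r (Real.log T * β) t‖ ^ 2 ≤
      ∫ β in (0 : ℝ)..(1 / 0.825), kR 0.825 β * ‖∑ s ∈ W, cexp (I * ((Real.log T * β : ℝ) : ℂ) * ((s.im : ℝ) : ℂ))‖ ^ 2 := by
    simp only [hS]
    have hc : Continuous fun β : ℝ => kR 0.825 β * ‖∑ s ∈ W, cexp (I * ((Real.log T * β : ℝ) : ℂ) * ((s.im : ℝ) : ℂ))‖ ^ 2 := by
      refine hRc.mul (Continuous.pow (Continuous.norm ?_) 2)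
      fun_prop
    refine intervalIntegral.integral_mono_interval le_rfl (by unfold aa; norm_num) (by unfold aa; norm_num) ?_
      (hc.intervalIntegrable _ _)
    exact Eventually.of_forall fun β => mul_nonneg (kR_nonneg (by norm_num) β) (by positivity)
  have hh0 : 0 < H / Real.pi := by positivity
  obtain ⟨h, hh⟩ : ∃ h, h = H / Real.pi := ⟨_, rfl⟩
  rw [← hh] at g1 g2 hh0
  rw [hN] at g2
  obtain ⟨m, hm⟩ : ∃ m, m = kR 0.825 0 + 2 * ∫ β in (0 : ℝ)..aa, β * kR 0.825 β := ⟨_, rfl⟩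
  have hmv := mom_val
  rw [← hm] at g1 hmv
  have a1 := (abs_le.1 g1).1
  have a2 := (abs_le.1 g2).2
  have a3 := mul_le_mul_of_nonneg_right hmv hh0.le
  norm_num at a1 a2 a3
  linarith

end

end Pool.Agent.U85.Ml
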