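import Pool.Agent.U85.Ml.As
import Pool.Agent.U85.Ml.Sg

set_option autoImplicit false

/-!
The final statements: local form factor and small gaps.
-/

namespace Pool.Agent.U85.Ml

open Filter Topology MeasureTheory Complex
open scoped ComplexConjugate
open Pool.Agent.Q97.UM Pool.Agent.U85.Zd

noncomputable section

/-- the nontrivial zeros of zeta in a window -/
def zw (t r : ℝ) : Set ℂ := {s : ℂ | riemannZeta s = 0 ∧ 0 < s.re ∧ s.re < 1 ∧ |s.im - t| ≤ r}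

open Classical in
lemma zw_eq {T t r : ℝ} (hT : 10 ≤ T) (hL : 1 ≤ Real.log T) (hr : r ≤ 1)
    (ht : t ∈ Set.Ioc (T + 2 * Real.log T) (2 * T - 2 * Real.log T)) :
    zw t r = ((ZT T).filter (fun s => |s.im - t| ≤ r) : Finset ℂ) := by
  ext s
  rw [Finset.coe_filter]
  unfold zw ZT
  simp only [Set.mem_ofPred_eq, H370.mem_Zf H370.good_zeta (show (1 : ℝ) ≤ T + 1 by linarith), H370.zset]
  constructor
  · rintro ⟨a1, a2, a3, a4⟩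
    have := abs_le.1 a4
    exact ⟨⟨a2, a3, by linarith [ht.1], by linarith [ht.2], a1⟩, a4⟩
  · rintro ⟨⟨a2, a3, -, -, a1⟩, a4⟩
    exact ⟨a1, a2, a3, a4⟩

lemma zw_fin {T t r : ℝ} (hT : 10 ≤ T) (hL : 1 ≤ Real.log T) (hr : r ≤ 1)
    (ht : t ∈ Set.Ioc (T + 2 * Real.log T) (2 * T - 2 * Real.log T)) : (zw t r).Finite := by
  rw [zw_eq hT hL hr ht]
  exact Finset.finite_toSet _

/-- the sum over the zeros in a window -/
def Sw (T r α t : ℝ) : ℂ := ∑ᶠ s ∈ zw t r, (analyticOrderNatAt riemannZeta s : ℂ) * (T : ℂ) ^ (α * (s - 1 / 2))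

lemma Sw_eq {T t r : ℝ} (α : ℝ) (hT : 10 ≤ T) (hL : 1 ≤ Real.log T) (hr : r ≤ 1)
    (ht : t ∈ Set.Ioc (T + 2 * Real.log T) (2 * T - 2 * Real.log T)) : Sw T r α t = Ssh T r (Real.log T * α) t := by
  unfold Sw Ssh
  rw [zw_eq hT hL hr ht, finsum_mem_coe_finset]
  refine Finset.sum_congr rfl fun s _ => ?_
  have hT0 : (T : ℂ) ≠ 0 := by
    have : T ≠ 0 := by linarith
    exact_mod_cast this
  have h1 : (T : ℂ) ^ ((α : ℂ) * (s - 1 / 2)) = cexp (I * ((Real.log T * α : ℝ) : ℂ) * H370.zz s) := by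
    rw [Complex.cpow_def_of_ne_zero hT0, ← Complex.ofReal_log (by linarith : (0 : ℝ) ≤ T)]
    congr 1
    have h2 := H370.zz_spec s
    push_cast
    linear_combination ((Real.log T : ℂ) * α) * h2
  rw [h1]
  rfl

/-- the local form factor -/
def Fw (T H α t : ℝ) : ℝ := ‖Sw T (H / Real.log T) α t‖ ^ 2 / (H / Real.pi)

/-- **the law of large numbers for the local form factor** -/
theorem form_all (R : ℝ → ℝ) (D a : ℝ) (hR : ∀ x y : ℝ, |R x - R y| ≤ D * |x - y|) (ha : 0 < a) (ha2 : a < 1 / 2)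
    (ε : ℝ) (hε : 0 < ε) : ∃ H₀ : ℝ, 1 ≤ H₀ ∧ ∀ H : ℝ, H₀ ≤ H → ∃ θ T₀ : ℝ, 0 < θ ∧ 1 ≤ T₀ ∧
      ∀ T : ℝ, T₀ ≤ T → ∀ N : ℕ, (N : ℝ) ≤ T ^ θ → ∀ b : ℕ → ℂ,
        ∫ t in {t : ℝ | t ∈ Set.Icc T (2 * T) ∧ ε < |(∫ α in (0 : ℝ)..a, R α * Fw T H α t) -
          (R 0 / 2 + ∫ α in (0 : ℝ)..a, α * R α)|}, ‖dp N b t‖ ^ 2 ≤ ε * ∫ t in Set.Icc T (2 * T), ‖dp N b t‖ ^ 2 := by
  obtain ⟨H₀, hH₀, h⟩ := fin_lip R D a hR ha ha2 ε ε hε hε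
  refine ⟨H₀, hH₀, fun H hH => ?_⟩
  obtain ⟨θ, hθ, h⟩ := h H hH
  obtain ⟨T₀, h⟩ := Filter.eventually_atTop.1 h
  refine ⟨θ, max T₀ 1, hθ, le_max_right _ _, fun T hT N hN b => ?_⟩
  obtain ⟨hr, hT10, hL1, h⟩ := h T ((le_max_left _ _).trans hT)
  obtain ⟨G, hGm, hGs, hGi, hG⟩ := h N hN b
  have hH0 : 0 < H := by linarith
  have hh : 0 < H / Real.pi := by positivity
  refine le_trans ?_ hGi
  have hVc : Continuous (fun t : ℝ => ‖dp N b t‖ ^ 2) := ((Pool.Agent.U85.Zd.dp_cont N b).norm).pow 2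
  refine setIntegral_mono_set (hVc.continuousOn.integrableOn_Icc.mono_set hGs)
    (Filter.Eventually.of_forall fun t => by positivity) (LE.le.eventuallyLE ?_)
  rintro t ⟨ht, hbad⟩
  by_contra htG
  obtain ⟨hJ, hgp, -⟩ := hG t ht htG
  have e1 : ∫ α in (0 : ℝ)..a, R α * Fw T H α t =
      (∫ β in (0 : ℝ)..a, R β * ‖Ssh T (H / Real.log T) (Real.log T * β) t‖ ^ 2) / (H / Real.pi) := by
    rw [← intervalIntegral.integral_div]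
    refine intervalIntegral.integral_congr fun α _ => ?_
    show R α * Fw T H α t = R α * ‖Ssh T (H / Real.log T) (Real.log T * α) t‖ ^ 2 / (H / Real.pi)
    unfold Fw
    rw [Sw_eq α hT10 hL1 hr hJ]
    ring
  have e2 : ∫ α in (0 : ℝ)..a, α * R α = ∫ β in (0 : ℝ)..a, β * R β := rfl
  rw [e1] at hbad
  obtain ⟨X, hX⟩ : ∃ X, X = ∫ β in (0 : ℝ)..a, R β * ‖Ssh T (H / Real.log T) (Real.log T * β) t‖ ^ 2 := ⟨_, rfl⟩
  obtain ⟨m, hm⟩ : ∃ m, m = ∫ β in (0 : ℝ)..a, β * R β := ⟨_, rfl⟩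
  rw [← hX, ← hm] at hgp hbad
  obtain ⟨h, hhd⟩ : ∃ h, h = H / Real.pi := ⟨_, rfl⟩
  rw [← hhd] at hgp hbad hh
  have e3 : X / h - (R 0 / 2 + m) = (2 * X - (R 0 + 2 * m) * h) / (2 * h) := by
    field_simp
  rw [e3, abs_div, abs_of_pos (by positivity : 0 < 2 * h), lt_div_iff₀ (by positivity)] at hbad
  nlinarith

/-- two zeros, counted with multiplicity, in the window, whose ordinates differ by at most `d` -/
def Clo (t r d : ℝ) : Prop := ∃ s ∈ zw t r, ∃ s' ∈ zw t r, |s.im - s'.im| ≤ d ∧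
  (s ≠ s' ∨ 2 ≤ analyticOrderNatAt riemannZeta s)

/-- **small gaps in almost all microscopic windows** -/
theorem close_all (κ : ℝ) (hκ : 0 < κ) : ∃ H₀ : ℝ, 1 ≤ H₀ ∧ ∀ H : ℝ, H₀ ≤ H → ∃ θ T₀ : ℝ, 0 < θ ∧ 1 ≤ T₀ ∧
      ∀ T : ℝ, T₀ ≤ T → ∀ N : ℕ, (N : ℝ) ≤ T ^ θ → ∀ b : ℕ → ℂ, ∃ G : Set ℝ, MeasurableSet G ∧ G ⊆ Set.Icc T (2 * T) ∧
        ∫ t in G, ‖dp N b t‖ ^ 2 ≤ κ * ∫ t in Set.Icc T (2 * T), ‖dp N b t‖ ^ 2 ∧
        H / Real.log T ≤ 1 ∧ ∀ t ∈ Set.Icc T (2 * T), t ∉ G →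
          Clo t (H / Real.log T) (0.825 * (2 * Real.pi / Real.log T)) := by
  obtain ⟨H₀, hH₀, h⟩ := fin_pos (kR 0.825) 2 aa (kR_lip (by norm_num) (by norm_num)) (kR_nonneg (by norm_num))
    (by unfold aa; norm_num) (by unfold aa; norm_num) κ 0.0003 hκ (by norm_num)
  refine ⟨H₀, hH₀, fun H hH => ?_⟩
  obtain ⟨θ, hθ, h⟩ := h H hH
  obtain ⟨T₀, h⟩ := Filter.eventually_atTop.1 h
  refine ⟨θ, max T₀ 1, hθ, le_max_right _ _, fun T hT N hN b => ?_⟩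
  obtain ⟨hr, hT10, hL1, h⟩ := h T ((le_max_left _ _).trans hT)
  obtain ⟨G, hGm, hGs, hGi, hG⟩ := h N hN b
  refine ⟨G, hGm, hGs, hGi, hr, fun t ht htG => ?_⟩
  obtain ⟨hJ, hgp⟩ := hG t ht htG
  obtain ⟨s, hs, s', hs', h1, h2, h3, h4⟩ := close_of_good (by linarith) hT10 hL1 hgp
  classical
  refine ⟨s, ?_, s', ?_, h3, h4⟩
  · rw [zw_eq hT10 hL1 hr hJ]
    exact Finset.mem_coe.2 (Finset.mem_filter.2 ⟨hs, h1⟩)
  · rw [zw_eq hT10 hL1 hr hJ]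
    exact Finset.mem_coe.2 (Finset.mem_filter.2 ⟨hs', h2⟩)

end

end Pool.Agent.U85.Ml
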