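import Pool.Agent.U85.Ml.Ar
import Pool.Agent.Q150.UM.ZU
import Pool.Agent.Q97.UM.Cv

set_option autoImplicit false

/-!
Fourth moments of the local zero sums: different frequencies below one half are asymptotically
uncorrelated.
-/

namespace Pool.Agent.U85.Ml

open Filter Topology MeasureTheory Complex
open scoped ComplexConjugate
open Pool.Agent.Q97.UM Pool.Agent.Q150.UM

noncomputable section

variable {w : ℝ → ℝ} {δ D L : ℝ}

/-- support of a convolution -/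
lemma cv_zero_of {a b : ℕ → ℂ} {M N : ℕ} (ha : ∀ n, M < n → a n = 0) (hb : ∀ n, N < n → b n = 0) :
    ∀ n, N * M < n → cv a b n = 0 := by
  intro n hn
  by_contra h
  obtain ⟨k, l, hkl, -, hk, hl⟩ := cv_supp h
  have h1 : k ≤ M := by
    by_contra h1
    exact hk (ha k (by omega))
  have h2 : l ≤ N := by
    by_contra h2
    exact hl (hb l (by omega))
  have h3 : k * l ≤ M * N := Nat.mul_le_mul h1 h2
  rw [hkl, Nat.mul_comm M N] at h3
  omega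

/-- the error of the mean value theorem -/
lemma len2 {C₁ ε₂ T : ℝ} (hC₁ : 1 ≤ C₁) (hε₂ : 0 < ε₂) (hδ : 0 < δ) (hL : 1 ≤ L) (hT : T = Real.exp L)
    (hL3 : 4 * C₁ / (δ ^ 2 * ε₂) ≤ L) (n : ℕ) (hn1 : 1 ≤ n) (hn : (n : ℝ) ≤ Real.exp ((1 - δ) * L)) :
    C₁ * n * (1 + Real.log n) ≤ ε₂ * T := by
  have hL0 : 0 < L := by linarith
  have hp1 : (1 : ℝ) ≤ n := by exact_mod_cast hn1
  have hlog : Real.log n ≤ (1 - δ) * L := by
    rw [Real.log_le_iff_le_exp (by linarith)]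
    exact hn
  have h2 : 1 + Real.log n ≤ 2 * L := by
    have : 0 ≤ δ * L := by positivity
    linarith
  have hlog0 : 0 ≤ Real.log n := Real.log_nonneg hp1
  have h3 : Real.exp ((1 - δ) * L) = Real.exp (-(δ * L)) * Real.exp L := by
    rw [← Real.exp_add]
    congr 1
    ring
  have h4 : Real.exp (-(δ * L)) ≤ 2 / (δ * L) ^ 2 := by
    have h5 := Real.quadratic_le_exp_of_nonneg (show 0 ≤ δ * L by positivity)
    rw [Real.exp_neg, inv_eq_one_div, div_le_div_iff₀ (Real.exp_pos _) (by positivity)]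
    have : 0 ≤ δ * L := by positivity
    linarith
  have h5 : 2 * C₁ * L * Real.exp (-(δ * L)) ≤ ε₂ := by
    calc 2 * C₁ * L * Real.exp (-(δ * L)) ≤ 2 * C₁ * L * (2 / (δ * L) ^ 2) := mul_le_mul_of_nonneg_left h4 (by positivity)
      _ = (4 * C₁ / (δ ^ 2 * ε₂)) / L * ε₂ := by
        field_simp
        ring
      _ ≤ 1 * ε₂ := mul_le_mul_of_nonneg_right ((div_le_one hL0).2 hL3) hε₂.le
      _ = ε₂ := one_mul _
  calc C₁ * n * (1 + Real.log n) ≤ C₁ * (Real.exp (-(δ * L)) * Real.exp L) * (2 * L) :=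
        mul_le_mul (mul_le_mul_of_nonneg_left (hn.trans h3.le) (by linarith)) h2 (by linarith) (by positivity)
    _ = (2 * C₁ * L * Real.exp (-(δ * L))) * Real.exp L := by ring
    _ ≤ ε₂ * Real.exp L := mul_le_mul_of_nonneg_right h5 (Real.exp_pos _).le
    _ = ε₂ * T := by rw [hT]

lemma ms2 {C₁ A B T ε₂ : ℝ} (hMV : ∀ (a b : ℝ), a ≤ b → ∀ (M : ℕ) (c : ℕ → ℂ), 1 ≤ M →
    |(∫ t in a..b, ‖dp M c t‖ ^ 2) - (b - a) * N2 M c| ≤ C₁ * M * (1 + Real.log M) * N2 M c)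
    (hAB : A ≤ B) (hBA : B - A ≤ T) (n : ℕ) (hn1 : 1 ≤ n) (c : ℕ → ℂ)
    (hlen : C₁ * n * (1 + Real.log n) ≤ ε₂ * T) :
    ∫ t in A..B, ‖dp n c t‖ ^ 2 ≤ (1 + ε₂) * (T * N2 n c) := by
  have h1 := (abs_le.1 (hMV A B hAB n c hn1)).2
  have h2 := mul_le_mul_of_nonneg_right hlen (N2_nonneg n c)
  have h3 := mul_le_mul_of_nonneg_right hBA (N2_nonneg n c)
  linarith

lemma prod2 (hDPM : S_DPM) {a c : ℕ → ℂ} {M N : ℕ} (ha : ∀ n, M < n → a n = 0) (hc : ∀ n, N < n → c n = 0) (t : ℝ) :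
    ‖dp M a t‖ ^ 2 * ‖dp N c t‖ ^ 2 = ‖dp (N * M) (cv a c) t‖ ^ 2 := by
  rw [← mul_pow, ← norm_mul, hDPM.1 M N a c t ha hc, mul_comm M N]

/-- the local zero sum is the prime sum, up to a small error -/
lemma Zt_dp (hQ : QB w δ D L) (hD : 1 ≤ D) (hδ : 0 < δ) (hL : 1 ≤ L) {u t T D' : ℝ} (hu3 : 3 * δ * L ≤ u)
    (hX : u + 2 * δ * L ≤ L) (h1 : 2 / δ ^ 2 ≤ L) (h2 : 2 * (D + D * Real.exp (1 / 2) * c1) ≤ L)
    (h3 : D * Real.exp 1 * c1 ≤ L)
    (hE : ‖cexp (-(I * u * t)) * Zt w T u t - ((QL w L u : ℂ) - PL w L u t - conj (PL w L (-u) t))‖ ≤ D' / L) :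
    ‖Zt w T u t‖ ≤ ‖dp (MM δ L u) (al' w L u (MM δ L u)) t‖ + (D' + 2) / L := by
  have hL0 : 0 < L := by linarith
  have hD0 : 0 ≤ D := by linarith
  have hδL : 0 ≤ δ * L := by positivity
  have hu0 : 0 ≤ u := le_trans (by positivity) hu3
  have hc1 := c1_nonneg
  have htail := tail_le hQ hD hδ hL u (by rw [max_eq_left hu0]; exact hX) h3 t
  have hsm := exp_small δ (D + D * Real.exp (1 / 2) * c1) L hδ (by positivity) hL h1 h2
  have hq1 : |QL w L u| ≤ D * Real.exp (-(δ * L) ^ 2 / 2) := by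
    have h1 : |u| = u := abs_of_nonneg hu0
    have h2 := hQ.tail u (by rw [h1]; linarith)
    rw [h1] at h2
    refine h2.trans (mul_le_mul_of_nonneg_left (Real.exp_le_exp.2 ?_) hD0)
    have h3 : 0 ≤ (u - 2 * δ * L - δ * L) * (u - 2 * δ * L + δ * L) := mul_nonneg (by linarith) (by linarith)
    have h4 : (u - 2 * δ * L - δ * L) * (u - 2 * δ * L + δ * L) = (u - 2 * δ * L) ^ 2 - (δ * L) ^ 2 := by ring
    linarith
  have hKE : (D + D * Real.exp (1 / 2) * c1) * Real.exp (-(δ * L) ^ 2 / 2) = D * Real.exp (-(δ * L) ^ 2 / 2) +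
    D * Real.exp (1 / 2) * c1 * Real.exp (-(δ * L) ^ 2 / 2) := by ring
  have hKE0 : 0 ≤ D * Real.exp (1 / 2) * c1 * Real.exp (-(δ * L) ^ 2 / 2) := by positivity
  have hn := PL_neg_small hQ hD0 hδ hL0 u t hu3
  have hn2 : (D * Real.exp (1 / 2) * Real.exp (-(δ * L) ^ 2 / 2) / L) * c1 ≤
      D * Real.exp (1 / 2) * c1 * Real.exp (-(δ * L) ^ 2 / 2) := by
    rw [div_mul_eq_mul_div, div_le_iff₀ hL0]
    have h5 : D * Real.exp (1 / 2) * Real.exp (-(δ * L) ^ 2 / 2) * c1 =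
      D * Real.exp (1 / 2) * c1 * Real.exp (-(δ * L) ^ 2 / 2) * 1 := by ring
    rw [h5]
    exact mul_le_mul_of_nonneg_left hL hKE0
  have e1 : cexp (-(I * u * t)) * Zt w T u t = (cexp (-(I * u * t)) * Zt w T u t -
      ((QL w L u : ℂ) - PL w L u t - conj (PL w L (-u) t))) + (QL w L u : ℂ) - conj (PL w L (-u) t) -
      (PL w L u t - dp (MM δ L u) (al' w L u (MM δ L u)) t) - dp (MM δ L u) (al' w L u (MM δ L u)) t := by ring
  rw [← norm_rot u t, e1]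
  refine (norm_sub_le _ _).trans ?_
  rw [add_comm]
  refine add_le_add le_rfl ?_
  refine (norm_sub_le _ _).trans ?_
  have h5 : ‖(cexp (-(I * u * t)) * Zt w T u t -
      ((QL w L u : ℂ) - PL w L u t - conj (PL w L (-u) t))) + (QL w L u : ℂ) - conj (PL w L (-u) t)‖ ≤
      D' / L + |QL w L u| + ‖PL w L (-u) t‖ := by
    refine (norm_sub_le _ _).trans ?_
    rw [RCLike.norm_conj]
    refine add_le_add ((norm_add_le _ _).trans ?_) le_rfl
    rw [Complex.norm_real, Real.norm_eq_abs]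
    exact add_le_add hE le_rfl
  have e2 : (D' + 2) / L = D' / L + 1 / L + 1 / L := by ring
  rw [e2]
  linarith

lemma Zt_sq {z x c : ℝ} (hz : 0 ≤ z) (hL : 1 ≤ L) (hc : 0 ≤ c) (h : z ≤ x + c / L) :
    z ^ 2 ≤ (1 + 1 / L) * x ^ 2 + 2 * c ^ 2 / L := by
  have hL0 : 0 < L := by linarith
  obtain ⟨y, hy⟩ : ∃ y, y = c / L := ⟨_, rfl⟩
  have hcy : c = y * L := by rw [hy]; field_simp
  have hy0 : 0 ≤ y := by rw [hy]; positivity
  rw [← hy] at h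
  have h1 : z ^ 2 ≤ (x + y) ^ 2 := pow_le_pow_left₀ hz h 2
  have h2 : 2 * (x * y) ≤ 1 / L * x ^ 2 + L * y ^ 2 := by
    have h3 : 0 ≤ (x - L * y) ^ 2 / L := by positivity
    have h4 : (x - L * y) ^ 2 / L = 1 / L * x ^ 2 + L * y ^ 2 - 2 * (x * y) := by
      field_simp
      ring
    linarith
  have h5 : 2 * c ^ 2 / L = 2 * L * y ^ 2 := by
    rw [hcy]
    field_simp
  have h6 : y ^ 2 ≤ L * y ^ 2 := le_mul_of_one_le_left (by positivity) hL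
  rw [h5]
  nlinarith

/-- the numerical end -/
lemma num4 {I₀ IXX IX IX' IV T n2 X₀ F F' k c Ka ε₂ L ε M₀ S : ℝ} (hL : 1 ≤ L) (hT : 0 ≤ T) (hn2 : 0 ≤ n2)
    (h0 : I₀ ≤ (1 + 1 / L) ^ 2 * IXX + (1 + 1 / L) * k * (IX + IX') + k ^ 2 * IV) (hk : k = 2 * c ^ 2 / L)
    (hXX : IXX ≤ (1 + ε₂) * (T * X₀)) (hX : IX ≤ (1 + ε₂) * (T * (Ka * n2))) (hX' : IX' ≤ (1 + ε₂) * (T * (Ka * n2)))
    (hV : IV ≤ 2 * (T * n2)) (hKa : 0 ≤ Ka) (hε₂ : 0 ≤ ε₂) (hε₂1 : ε₂ ≤ 1) (hX₀ : X₀ ≤ F * F' * n2)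
    (hF0 : 0 ≤ F) (hF : F ≤ Ka) (hF'0 : 0 ≤ F') (hF' : F' ≤ Ka) (hFF : F * F' ≤ M₀ + S / L)
    (hε₂' : ε₂ * Ka ^ 2 ≤ ε / 2) (hQ : (S + 6 * Ka ^ 2 + 32 * c ^ 2 * Ka + 8 * c ^ 4) / L ≤ ε / 2) :
    I₀ ≤ (M₀ + ε) * T * n2 := by
  have hL0 : 0 < L := by linarith
  obtain ⟨W, hW⟩ : ∃ W, W = T * n2 := ⟨_, rfl⟩
  have hW0 : 0 ≤ W := by rw [hW]; positivity
  have hiL : 1 / L ≤ 1 := (div_le_one hL0).2 hL
  have hiL0 : 0 < 1 / L := by positivity
  have hk0 : 0 ≤ k := by rw [hk]; positivity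
  have hk2 : k ^ 2 ≤ 4 * c ^ 4 / L := by
    rw [hk, div_pow, div_le_div_iff₀ (by positivity) hL0]
    have : 0 ≤ c ^ 4 := by positivity
    nlinarith [mul_nonneg this (mul_nonneg hL0.le (show 0 ≤ L - 1 by linarith))]
  have hP0 : 0 ≤ F * F' := mul_nonneg hF0 hF'0
  have hP1 : F * F' ≤ Ka ^ 2 := by
    rw [sq]
    exact mul_le_mul hF hF' hF'0 hKa
  have a1 : (1 + 1 / L) ^ 2 * IXX ≤ (F * F' + (6 / L + ε₂) * Ka ^ 2) * W := by
    have b1 : IXX ≤ (1 + ε₂) * (F * F' * W) := by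
      refine hXX.trans (mul_le_mul_of_nonneg_left ?_ (by linarith))
      rw [hW]
      calc T * X₀ ≤ T * (F * F' * n2) := mul_le_mul_of_nonneg_left hX₀ hT
        _ = _ := by ring
    have b2 : (1 + 1 / L) ^ 2 * (1 + ε₂) ≤ 1 + (6 / L + ε₂) := by
      have e : 6 / L = 6 * (1 / L) := by ring
      rw [e]
      have b3 : (1 + 1 / L) ^ 2 ≤ 1 + 3 * (1 / L) := by nlinarith
      have b4 : (1 + 3 * (1 / L)) * (1 + ε₂) ≤ 1 + (6 * (1 / L) + ε₂) := by nlinarith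
      exact (mul_le_mul_of_nonneg_right b3 (by linarith)).trans b4
    have b5 : 0 ≤ F * F' * W := mul_nonneg hP0 hW0
    calc (1 + 1 / L) ^ 2 * IXX ≤ (1 + 1 / L) ^ 2 * ((1 + ε₂) * (F * F' * W)) := mul_le_mul_of_nonneg_left b1 (by positivity)
      _ = ((1 + 1 / L) ^ 2 * (1 + ε₂)) * (F * F' * W) := by ring
      _ ≤ (1 + (6 / L + ε₂)) * (F * F' * W) := mul_le_mul_of_nonneg_right b2 b5
      _ = (F * F' + (6 / L + ε₂) * (F * F')) * W := by ring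
      _ ≤ _ := by
        refine mul_le_mul_of_nonneg_right ?_ hW0
        have : (6 / L + ε₂) * (F * F') ≤ (6 / L + ε₂) * Ka ^ 2 := mul_le_mul_of_nonneg_left hP1 (by positivity)
        linarith
  have a2 : (1 + 1 / L) * k * (IX + IX') ≤ 32 * c ^ 2 * Ka / L * W := by
    have b1 : IX + IX' ≤ 8 * (Ka * W) := by
      have c1 : (1 + ε₂) * (T * (Ka * n2)) ≤ 2 * (T * (Ka * n2)) :=
        mul_le_mul_of_nonneg_right (by linarith) (by positivity)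
      have e : T * (Ka * n2) = Ka * W := by rw [hW]; ring
      have c2 : 0 ≤ Ka * W := by positivity
      have c3 := hX.trans c1
      have c4 := hX'.trans c1
      rw [e] at c3 c4
      linarith
    have b2 : (1 + 1 / L) * k ≤ 2 * k := mul_le_mul_of_nonneg_right (by linarith) hk0
    have b3 : 0 ≤ Ka * W := by positivity
    calc (1 + 1 / L) * k * (IX + IX') ≤ (1 + 1 / L) * k * (8 * (Ka * W)) := mul_le_mul_of_nonneg_left b1 (by positivity)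
      _ ≤ 2 * k * (8 * (Ka * W)) := mul_le_mul_of_nonneg_right b2 (by positivity)
      _ = _ := by rw [hk]; ring
  have a3 : k ^ 2 * IV ≤ 8 * c ^ 4 / L * W := by
    have b1 : IV ≤ 2 * W := by rw [hW]; exact hV
    calc k ^ 2 * IV ≤ k ^ 2 * (2 * W) := mul_le_mul_of_nonneg_left b1 (by positivity)
      _ ≤ (4 * c ^ 4 / L) * (2 * W) := mul_le_mul_of_nonneg_right hk2 (by positivity)
      _ = _ := by ring
  have e : (M₀ + ε) * T * n2 = (M₀ + ε) * W := by rw [hW]; ring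
  rw [e]
  have hQ2 : S / L + 6 / L * Ka ^ 2 + 32 * c ^ 2 * Ka / L + 8 * c ^ 4 / L ≤ ε / 2 := by
    refine le_trans (le_of_eq ?_) hQ
    ring
  have h9 : I₀ ≤ (F * F' + (6 / L + ε₂) * Ka ^ 2 + 32 * c ^ 2 * Ka / L + 8 * c ^ 4 / L) * W := by
    have e1 : (F * F' + (6 / L + ε₂) * Ka ^ 2 + 32 * c ^ 2 * Ka / L + 8 * c ^ 4 / L) * W =
        (F * F' + (6 / L + ε₂) * Ka ^ 2) * W + 32 * c ^ 2 * Ka / L * W + 8 * c ^ 4 / L * W := by ring
    rw [e1]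
    linarith
  refine h9.trans (mul_le_mul_of_nonneg_right ?_ hW0)
  have e2 : (6 / L + ε₂) * Ka ^ 2 = 6 / L * Ka ^ 2 + ε₂ * Ka ^ 2 := by ring
  rw [e2]
  linarith

end

end Pool.Agent.U85.Ml
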