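import Pool.Agent.U85.Ml.Fo

set_option autoImplicit false

/-!
Fourth moments of the local zero sums: the theorem.
-/

namespace Pool.Agent.U85.Ml

open Filter Topology MeasureTheory Complex
open scoped ComplexConjugate
open Pool.Agent.Q97.UM Pool.Agent.Q150.UM

noncomputable section

/-- fourth moments of the local zero sums -/
def S_Z4 : Prop := ∃ C₀ : ℝ, 1 ≤ C₀ ∧ ∀ (δ H C : ℝ) (K : ℕ) (w : ℝ → ℝ) (θ ε : ℝ), 0 < δ → δ ≤ 1 / 16 → 1 ≤ H → 1 ≤ C → 2 ≤ K →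
  OmW δ H C K w → 0 < θ → θ ≤ 1 / 40 → θ ≤ δ / 4 → 0 < ε → ∀ᶠ T : ℝ in atTop, ∀ N : ℕ, (N : ℝ) ≤ T ^ θ → ∀ (b : ℕ → ℂ) (u u' : ℝ),
    3 * δ * Real.log T ≤ u' → u' ≤ u → u ≤ (1 / 2 - 4 * δ) * Real.log T →
    ∫ t in (T + 2 * Real.log T)..(2 * T - 2 * Real.log T), ‖Zt w T u t‖ ^ 2 * (‖Zt w T u' t‖ ^ 2 * ‖dp N b t‖ ^ 2) ≤
      (C₀ * I2 w ^ 2 + ε) * T * N2 N b ∧
    (u' + 5 * δ * Real.log T ≤ u →
      ∫ t in (T + 2 * Real.log T)..(2 * T - 2 * Real.log T), ‖Zt w T u t‖ ^ 2 * (‖Zt w T u' t‖ ^ 2 * ‖dp N b t‖ ^ 2) ≤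
        (u / Real.log T * (u' / Real.log T) * I2 w ^ 2 + C₀ * δ * I2 w ^ 2 + ε) * T * N2 N b)

/-- the bound for the mean square of one more prime sum -/
lemma F_any {ul I δ R₁ C₄ D E L η : ℝ} (hL : 0 < L) (hI : 0 ≤ I) (hul : ul ≤ 1 / 2) (hδ0 : 0 ≤ δ) (hδ : δ ≤ 1 / 16) (hη : η = 1)
    (hC₄ : 1 ≤ C₄) :
    (1 + η) * (ul * I + 2 * δ * I + R₁ / L) + C₄ / η * (2 * (I + E / L) + 3 * D ^ 2 / L) ≤
      (2 + 2 * C₄) * I + (2 * R₁ + C₄ * (2 * E + 3 * D ^ 2)) / L := by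
  subst hη
  have h1 : ul * I ≤ 1 / 2 * I := mul_le_mul_of_nonneg_right hul hI
  have h2 : 2 * δ * I ≤ 1 / 8 * I := mul_le_mul_of_nonneg_right (by linarith) hI
  have h3 : (1 + 1) * (ul * I + 2 * δ * I + R₁ / L) + C₄ / 1 * (2 * (I + E / L) + 3 * D ^ 2 / L) =
      2 * (ul * I) + 2 * (2 * δ * I) + 2 * C₄ * I + (2 * R₁ + C₄ * (2 * E + 3 * D ^ 2)) / L := by
    ring
  rw [h3]
  linarith

lemma F_sep {ul I δ R₁ C₄ D L : ℝ} (hL : 0 < L) (hI : 0 ≤ I) (hul : ul ≤ 1 / 2) (hδ0 : 0 < δ) (hδ : δ ≤ 1 / 16)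
    (hR : 0 ≤ R₁) :
    (1 + δ) * (ul * I + 2 * δ * I + R₁ / L) + C₄ / δ * (2 * (D ^ 2 / L) + 3 * D ^ 2 / L) ≤
      ul * I + 4 * δ * I + (2 * R₁ + 5 * C₄ * D ^ 2 / δ) / L := by
  have h1 : δ * (ul * I) ≤ δ * (1 / 2 * I) := mul_le_mul_of_nonneg_left (mul_le_mul_of_nonneg_right hul hI) hδ0.le
  have h2 : δ * (2 * δ * I) ≤ 1 / 16 * (2 * δ * I) := mul_le_mul_of_nonneg_right hδ (by positivity)
  have h3 : δ * (R₁ / L) ≤ 1 * (R₁ / L) := mul_le_mul_of_nonneg_right (by linarith) (by positivity)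
  have h4 : (1 + δ) * (ul * I + 2 * δ * I + R₁ / L) + C₄ / δ * (2 * (D ^ 2 / L) + 3 * D ^ 2 / L) =
      ul * I + δ * (ul * I) + 2 * δ * I + δ * (2 * δ * I) + (R₁ / L + δ * (R₁ / L)) + 5 * C₄ * D ^ 2 / δ / L := by
    ring
  have h5 : (2 * R₁ + 5 * C₄ * D ^ 2 / δ) / L = 2 * (R₁ / L) + 5 * C₄ * D ^ 2 / δ / L := by ring
  have h6 : 0 ≤ δ * I := by positivity
  rw [h4, h5]
  linarith

lemma FF_any {G I C₄ Ra Rb L : ℝ} (hL : 1 ≤ L) (hI : 0 ≤ I) (hC₄ : 1 ≤ C₄) (hRa : 0 ≤ Ra) (hRb : 0 ≤ Rb)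
    (hG : G = (2 + 2 * C₄) * I + Ra / L) :
    G * G ≤ (2 + 2 * C₄) ^ 2 * I ^ 2 + ((2 * (2 + 2 * C₄) * I * Ra + Ra ^ 2) + Rb) / L := by
  have hL0 : 0 < L := by linarith
  have h1 : (Ra / L) ^ 2 ≤ Ra ^ 2 / L := by
    rw [div_pow]
    refine div_le_div_of_nonneg_left (by positivity) hL0 ?_
    nlinarith
  have h2 : 0 ≤ Rb / L := by positivity
  have h3 : G * G = (2 + 2 * C₄) ^ 2 * I ^ 2 + (2 * (2 + 2 * C₄) * I * Ra) / L + (Ra / L) ^ 2 := by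
    rw [hG]
    ring
  have h4 : ((2 * (2 + 2 * C₄) * I * Ra + Ra ^ 2) + Rb) / L = (2 * (2 + 2 * C₄) * I * Ra) / L + Ra ^ 2 / L + Rb / L := by
    ring
  rw [h3, h4]
  linarith

lemma FF_sep {F F' I ul ul' δ Rs Sa L C₀ : ℝ} (hL : 1 ≤ L) (hI : 0 ≤ I) (hul0 : 0 ≤ ul) (hul : ul ≤ 1 / 2) (hul0' : 0 ≤ ul')
    (hul' : ul' ≤ 1 / 2)
    (hδ0 : 0 < δ) (hδ : δ ≤ 1 / 16) (hRs : 0 ≤ Rs) (hSa : 0 ≤ Sa) (hC₀ : 5 ≤ C₀)
    (hF : F = ul * I + 4 * δ * I + Rs / L) (hF' : F' = ul' * I + 4 * δ * I + Rs / L) :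
    F * F' ≤ ul * ul' * I ^ 2 + C₀ * δ * I ^ 2 + (Sa + (2 * I * Rs + Rs ^ 2)) / L := by
  have hL0 : 0 < L := by linarith
  have h1 : (Rs / L) ^ 2 ≤ Rs ^ 2 / L := by
    rw [div_pow]
    refine div_le_div_of_nonneg_left (by positivity) hL0 ?_
    nlinarith
  have h2 : 0 ≤ Sa / L := by positivity
  have hr : 0 ≤ Rs / L := by positivity
  have h3 : F * F' = ul * ul' * I ^ 2 + 4 * (ul + ul') * (δ * I ^ 2) + 16 * δ * (δ * I ^ 2) +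
      (ul + ul' + 8 * δ) * (I * (Rs / L)) + (Rs / L) ^ 2 := by
    rw [hF, hF']
    ring
  have hd : 0 ≤ δ * I ^ 2 := by positivity
  have h4 : 4 * (ul + ul') * (δ * I ^ 2) ≤ 4 * (δ * I ^ 2) := mul_le_mul_of_nonneg_right (by linarith) hd
  have h5 : 16 * δ * (δ * I ^ 2) ≤ 1 * (δ * I ^ 2) := mul_le_mul_of_nonneg_right (by linarith) hd
  have h6 : (ul + ul' + 8 * δ) * (I * (Rs / L)) ≤ 2 * (I * (Rs / L)) :=
    mul_le_mul_of_nonneg_right (by linarith) (by positivity)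
  have h7 : 5 * (δ * I ^ 2) ≤ C₀ * (δ * I ^ 2) := mul_le_mul_of_nonneg_right hC₀ hd
  have h8 : (Sa + (2 * I * Rs + Rs ^ 2)) / L = Sa / L + 2 * (I * (Rs / L)) + Rs ^ 2 / L := by ring
  rw [h3, h8]
  linarith

theorem t_Z4 (hQH : S_QH) (hQLF : S_QLF) (hDPM : S_DPM) (hMV2 : S_MV2) (hCONV : S_CONV) (hMER : S_MER) (hEFL : S_EFL) : S_Z4 := by
  obtain ⟨C₁, hC₁, hMV⟩ := hMV2
  obtain ⟨C₄, hC₄, hC⟩ := hCONV
  obtain ⟨C₃, hC₃, hM⟩ := hMER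
  refine ⟨(2 + 2 * C₄) ^ 2, by nlinarith, ?_⟩
  intro δ H C K w θ ε hδ hδ1 hH hC1 hK hw hθ hθ1 hθδ hε
  obtain ⟨D, hD, hQB⟩ := qb_of hQH hQLF hδ (by linarith) hH hC1 hK hw
  obtain ⟨D', hD', hE⟩ := hEFL δ H C K w hδ (by linarith) hH hC1 hK hw
  have hI2 := I2_nonneg w
  have hc1 := c1_nonneg
  obtain ⟨R₁, hR₁⟩ : ∃ R₁ : ℝ, R₁ = 234 * C₃ * D ^ 2 + 11 * D ^ 2 := ⟨_, rfl⟩
  obtain ⟨E₁, hE₁⟩ : ∃ E₁ : ℝ, E₁ = D + 39 * C₃ * D ^ 2 := ⟨_, rfl⟩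
  obtain ⟨Ra, hRa⟩ : ∃ Ra : ℝ, Ra = 2 * R₁ + C₄ * (2 * E₁ + 3 * D ^ 2) := ⟨_, rfl⟩
  obtain ⟨Rs, hRs⟩ : ∃ Rs : ℝ, Rs = 2 * R₁ + 5 * C₄ * D ^ 2 / δ := ⟨_, rfl⟩
  have hR₁0 : 0 ≤ R₁ := by rw [hR₁]; positivity
  have hE₁0 : 0 ≤ E₁ := by rw [hE₁]; positivity
  have hRa0 : 0 ≤ Ra := by rw [hRa]; positivity
  have hRs0 : 0 ≤ Rs := by rw [hRs]; positivity
  obtain ⟨Ka, hKa⟩ : ∃ Ka : ℝ, Ka = (2 + 2 * C₄) * I2 w + Ra + Rs := ⟨_, rfl⟩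
  have hKa0 : 0 ≤ Ka := by rw [hKa]; positivity
  obtain ⟨c, hc⟩ : ∃ c : ℝ, c = D' + 2 := ⟨_, rfl⟩
  have hc0 : 0 ≤ c := by rw [hc]; positivity
  obtain ⟨Sa, hSa⟩ : ∃ Sa : ℝ, Sa = 2 * (2 + 2 * C₄) * I2 w * Ra + Ra ^ 2 := ⟨_, rfl⟩
  obtain ⟨Sb, hSb⟩ : ∃ Sb : ℝ, Sb = 2 * I2 w * Rs + Rs ^ 2 := ⟨_, rfl⟩
  have hSa0 : 0 ≤ Sa := by rw [hSa]; positivity
  have hSb0 : 0 ≤ Sb := by rw [hSb]; positivity
  obtain ⟨Q, hQd⟩ : ∃ Q : ℝ, Q = (Sa + Sb) + 6 * Ka ^ 2 + 32 * c ^ 2 * Ka + 8 * c ^ 4 := ⟨_, rfl⟩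
  have hQ0 : 0 ≤ Q := by rw [hQd]; positivity
  obtain ⟨ε₂, hε₂⟩ : ∃ ε₂ : ℝ, ε₂ = min 1 (ε / (2 * (Ka ^ 2 + 1))) := ⟨_, rfl⟩
  have hε₂0 : 0 < ε₂ := by rw [hε₂]; positivity
  have hε₂1 : ε₂ ≤ 1 := by rw [hε₂]; exact min_le_left _ _
  have hε₂K : ε₂ * Ka ^ 2 ≤ ε / 2 := by
    have h1 : ε₂ ≤ ε / (2 * (Ka ^ 2 + 1)) := by rw [hε₂]; exact min_le_right _ _
    have h2 := mul_le_mul_of_nonneg_right h1 (sq_nonneg Ka)
    refine h2.trans ?_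
    rw [div_mul_eq_mul_div, div_le_div_iff₀ (by positivity) (by norm_num)]
    nlinarith [mul_nonneg hε.le (sq_nonneg Ka)]
  filter_upwards [hE, ev_log 36, ev_log (2 / δ ^ 2), ev_log (16 / δ ^ 2), ev_log (144 / δ ^ 2),
    ev_log (2 * (D + D * Real.exp (1 / 2) * c1)), ev_log (D * Real.exp 1 * c1), ev_log (4 * C₁ / (δ ^ 2 * ε₂)),
    ev_log (Q * (2 / ε)), ev_short C₁ 1 θ (by linarith) one_pos hθ1, ev_loglin (1 / 8) (by norm_num),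
    eventually_ge_atTop (1 : ℝ)] with T hE hL36 hL2 hL16 hL144 hL3 hL4 hL5 hL6 hSh hL7 hT1 N hN b u u' hu3 huu hu
  have hT0 : 0 < T := by linarith
  obtain ⟨L, hLT⟩ : ∃ L : ℝ, L = Real.log T := ⟨_, rfl⟩
  rw [← hLT] at hL36 hL2 hL16 hL144 hL3 hL4 hL5 hL6 hL7 hu3 hu hE ⊢
  have hTL : T = Real.exp L := by rw [hLT, Real.exp_log hT0]
  have hL1 : 1 ≤ L := by linarith
  have hL0 : 0 < L := by linarith
  have hδL : 0 ≤ δ * L := by positivity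
  obtain ⟨A, hA⟩ : ∃ A : ℝ, A = T + 2 * L := ⟨_, rfl⟩
  obtain ⟨B, hB⟩ : ∃ B : ℝ, B = 2 * T - 2 * L := ⟨_, rfl⟩
  rw [← hA, ← hB] at hE ⊢
  have hAB : A ≤ B := by rw [hA, hB]; linarith
  have hBA : B - A ≤ T := by rw [hA, hB]; linarith
  rcases Nat.eq_zero_or_pos N with hN0 | hN1
  · subst hN0
    have e1 : N2 0 b = 0 := by simp [N2]
    simp [dp_zero, e1]
  have hQ := hQB L hL1
  have hN1' : (1 : ℝ) ≤ N := by exact_mod_cast hN1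
  have hNe : (N : ℝ) ≤ Real.exp (δ / 4 * L) := by
    refine hN.trans ?_
    rw [Real.rpow_def_of_pos hT0, ← hLT, Real.exp_le_exp, mul_comm]
    exact mul_le_mul_of_nonneg_right hθδ hL0.le
  have hNlog : Real.log N ≤ δ / 4 * L := by
    rw [Real.log_le_iff_le_exp (by linarith)]
    exact hNe
  have hsq : 3 * Real.sqrt L ≤ δ / 4 * L := by
    have h1 : Real.sqrt L ≤ δ * L / 12 := by
      rw [Real.sqrt_le_left (by positivity)]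
      rw [div_le_iff₀ (by positivity)] at hL144
      nlinarith
    linarith
  have hu0' : 0 ≤ u' := le_trans (by positivity) hu3
  have hu0 : 0 ≤ u := hu0'.trans huu
  have hu3' : 3 * δ * L ≤ u := hu3.trans huu
  have hX : u + 2 * δ * L ≤ L := by linarith
  have hX' : u' + 2 * δ * L ≤ L := by linarith
  have hul : u / L ≤ 1 / 2 := by
    rw [div_le_iff₀ hL0]
    linarith
  have hul' : u' / L ≤ 1 / 2 := by
    rw [div_le_iff₀ hL0]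
    linarith
  have hul0 : 0 ≤ u / L := by positivity
  have hul0' : 0 ≤ u' / L := by positivity
  obtain ⟨M, hMM⟩ : ∃ M : ℕ, M = MM δ L u := ⟨_, rfl⟩
  obtain ⟨M', hMM'⟩ : ∃ M' : ℕ, M' = MM δ L u' := ⟨_, rfl⟩
  have hM1 : 1 ≤ M := hMM ▸ MM_pos hδ hL1 u
  have hM1' : 1 ≤ M' := hMM' ▸ MM_pos hδ hL1 u'
  have hMe : (M : ℝ) ≤ Real.exp (u + 2 * δ * L + δ / 4 * L) := by
    have h1 := MM_le (δ := δ) (L := L) u
    rw [max_eq_left hu0, ← hMM] at h1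
    exact h1.trans (Real.exp_le_exp.2 (by linarith))
  have hMe' : (M' : ℝ) ≤ Real.exp (u' + 2 * δ * L + δ / 4 * L) := by
    have h1 := MM_le (δ := δ) (L := L) u'
    rw [max_eq_left hu0', ← hMM'] at h1
    exact h1.trans (Real.exp_le_exp.2 (by linarith))
  have hMr : (1 : ℝ) ≤ M := by exact_mod_cast hM1
  have hMr' : (1 : ℝ) ≤ M' := by exact_mod_cast hM1'
  have hNM' : ((N * M' : ℕ) : ℝ) ≤ Real.exp (u' + 5 / 2 * (δ * L)) := by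
    push_cast
    calc (N : ℝ) * M' ≤ Real.exp (δ / 4 * L) * Real.exp (u' + 2 * δ * L + δ / 4 * L) :=
          mul_le_mul hNe hMe' (by linarith) (Real.exp_pos _).le
      _ = Real.exp (δ / 4 * L + (u' + 2 * δ * L + δ / 4 * L)) := (Real.exp_add _ _).symm
      _ ≤ _ := Real.exp_le_exp.2 (by linarith)
  have hNM : ((N * M : ℕ) : ℝ) ≤ Real.exp (u + 5 / 2 * (δ * L)) := by
    push_cast
    calc (N : ℝ) * M ≤ Real.exp (δ / 4 * L) * Real.exp (u + 2 * δ * L + δ / 4 * L) :=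
          mul_le_mul hNe hMe (by linarith) (Real.exp_pos _).le
      _ = Real.exp (δ / 4 * L + (u + 2 * δ * L + δ / 4 * L)) := (Real.exp_add _ _).symm
      _ ≤ _ := Real.exp_le_exp.2 (by linarith)
  have hNM1' : 1 ≤ N * M' := Nat.mul_pos hN1 hM1'
  have hNM1 : 1 ≤ N * M := Nat.mul_pos hN1 hM1
  have hall : ((N * M' * M : ℕ) : ℝ) ≤ Real.exp ((1 - δ) * L) := by
    have e : ((N * M' * M : ℕ) : ℝ) = ((N * M' : ℕ) : ℝ) * M := by push_cast; ring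
    rw [e]
    calc ((N * M' : ℕ) : ℝ) * M ≤ Real.exp (u' + 5 / 2 * (δ * L)) * Real.exp (u + 2 * δ * L + δ / 4 * L) :=
          mul_le_mul hNM' hMe (by linarith) (Real.exp_pos _).le
      _ = Real.exp (u' + 5 / 2 * (δ * L) + (u + 2 * δ * L + δ / 4 * L)) := (Real.exp_add _ _).symm
      _ ≤ _ := Real.exp_le_exp.2 (by linarith)
  have hlNM' : Real.log ((N * M' : ℕ) : ℝ) ≤ u' + 5 / 2 * (δ * L) := by
    rw [Real.log_le_iff_le_exp (by exact_mod_cast hNM1')]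
    exact hNM'
  -- coefficients
  obtain ⟨a, ha⟩ : ∃ a : ℕ → ℂ, a = al' w L u M := ⟨_, rfl⟩
  obtain ⟨a', ha'⟩ : ∃ a' : ℕ → ℂ, a' = al' w L u' M' := ⟨_, rfl⟩
  have sa : ∀ n, M < n → a n = 0 := fun n hn => by rw [ha]; unfold al'; rw [if_neg (by omega)]
  have sa' : ∀ n, M' < n → a' n = 0 := fun n hn => by rw [ha']; unfold al'; rw [if_neg (by omega)]
  have sb : ∀ n, N < n → cut N b n = 0 := fun n hn => by unfold cut; rw [if_neg (by omega)]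
  have scv' : ∀ n, N * M' < n → cv a' (cut N b) n = 0 := cv_zero_of sa' sb
  obtain ⟨n2, hn2⟩ : ∃ n2, n2 = N2 N b := ⟨_, rfl⟩
  have hn20 : 0 ≤ n2 := by rw [hn2]; exact N2_nonneg N b
  rw [← hn2]
  obtain ⟨G, hG⟩ : ∃ G, G = (2 + 2 * C₄) * I2 w + Ra / L := ⟨_, rfl⟩
  have hG0 : 0 ≤ G := by rw [hG]; positivity
  have hRaL : Ra / L ≤ Ra := div_le_self hRa0 hL1
  have hRsL : Rs / L ≤ Rs := div_le_self hRs0 hL1
  have hGK : G ≤ Ka := by rw [hG, hKa]; linarith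
  -- mean squares of convolutions
  have hany : ∀ (n : ℕ) (cc : ℕ → ℂ) (v : ℝ), 1 ≤ n → Real.log n ≤ L → (∀ k, n < k → cc k = 0) → 0 ≤ v → v + 2 * δ * L ≤ L →
      v / L ≤ 1 / 2 → N2 (n * MM δ L v) (cv (al' w L v (MM δ L v)) cc) ≤ G * N2 n cc := by
    intro n cc v hn hnl hcc hv hvX hvL
    have h1 := sm_any hQ hD hδ hδ1 hL36 hM n hn v hv hvX
    rw [← hE₁] at h1
    have h2 := ar2 hQ hD hδ hδ1 hL36 hM hC₄ hC n hn hnl cc hcc v 1 (I2 w + E₁ / L) hv hvX one_pos le_rfl (by positivity) h1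
    refine h2.trans (mul_le_mul_of_nonneg_right ?_ (N2_nonneg n cc))
    rw [← hR₁, hG, hRa]
    exact F_any hL0 hI2 hvL hδ.le hδ1 rfl hC₄
  have hsep : ∀ (n : ℕ) (cc : ℕ → ℂ) (v : ℝ), 1 ≤ n → Real.log n ≤ L → (∀ k, n < k → cc k = 0) → 0 ≤ v → v + 2 * δ * L ≤ L →
      v / L ≤ 1 / 2 → Real.log n + 5 / 2 * (δ * L) ≤ v →
      N2 (n * MM δ L v) (cv (al' w L v (MM δ L v)) cc) ≤ (v / L * I2 w + 4 * δ * I2 w + Rs / L) * N2 n cc := by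
    intro n cc v hn hnl hcc hv hvX hvL hvs
    have h1 := sm_sep hQ hD hδ hL1 hL16 n hn hnl v hvs
    have h2 := ar2 hQ hD hδ hδ1 hL36 hM hC₄ hC n hn hnl cc hcc v δ (D ^ 2 / L) hv hvX hδ (by linarith) (by positivity) h1
    refine h2.trans (mul_le_mul_of_nonneg_right ?_ (N2_nonneg n cc))
    rw [← hR₁, hRs]
    exact F_sep hL0 hI2 hvL hδ hδ1 hR₁0
  have hNL : Real.log N ≤ L := by linarith
  have hNML' : Real.log ((N * M' : ℕ) : ℝ) ≤ L := by linarith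
  have e2b : N2 N (cut N b) = n2 := by rw [N2_cut, hn2]
  have A1 := hany N (cut N b) u hN1 hNL sb hu0 hX hul
  have A1' := hany N (cut N b) u' hN1 hNL sb hu0' hX' hul'
  have A2 := hany (N * M') (cv a' (cut N b)) u hNM1' hNML' scv' hu0 hX hul
  rw [← hMM, ← ha, e2b] at A1
  rw [← hMM', ← ha', e2b] at A1'
  rw [← hMM, ← ha] at A2
  -- the integrals
  have hVc : Continuous fun t => ‖dp N b t‖ ^ 2 := by
    have := dp_cont N b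
    fun_prop
  have hac := dp_cont M a
  have hac' := dp_cont M' a'
  have hbc := dp_cont N b
  have hZc := Zt_cont hw T u
  have hZc' := Zt_cont hw T u'
  have l1 : C₁ * ((N * M : ℕ) : ℝ) * (1 + Real.log ((N * M : ℕ) : ℝ)) ≤ ε₂ * T :=
    len2 hC₁ hε₂0 hδ hL1 hTL hL5 _ hNM1 (hNM.trans (Real.exp_le_exp.2 (by linarith)))
  have l1' : C₁ * ((N * M' : ℕ) : ℝ) * (1 + Real.log ((N * M' : ℕ) : ℝ)) ≤ ε₂ * T :=
    len2 hC₁ hε₂0 hδ hL1 hTL hL5 _ hNM1' (hNM'.trans (Real.exp_le_exp.2 (by linarith)))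
  have l2 : C₁ * ((N * M' * M : ℕ) : ℝ) * (1 + Real.log ((N * M' * M : ℕ) : ℝ)) ≤ ε₂ * T :=
    len2 hC₁ hε₂0 hδ hL1 hTL hL5 _ (Nat.mul_pos hNM1' hM1) hall
  have J1 : ∫ t in A..B, ‖dp M a t‖ ^ 2 * ‖dp N b t‖ ^ 2 ≤ (1 + ε₂) * (T * (Ka * n2)) := by
    have e : ∀ t, ‖dp M a t‖ ^ 2 * ‖dp N b t‖ ^ 2 = ‖dp (N * M) (cv a (cut N b)) t‖ ^ 2 := by
      intro t
      rw [← dp_cut N b t]
      exact prod2 hDPM sa sb t
    simp only [e]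
    refine (ms2 hMV hAB hBA _ hNM1 _ l1).trans ?_
    refine mul_le_mul_of_nonneg_left (mul_le_mul_of_nonneg_left ?_ hT0.le) (by linarith)
    exact A1.trans (mul_le_mul_of_nonneg_right hGK hn20)
  have J1' : ∫ t in A..B, ‖dp M' a' t‖ ^ 2 * ‖dp N b t‖ ^ 2 ≤ (1 + ε₂) * (T * (Ka * n2)) := by
    have e : ∀ t, ‖dp M' a' t‖ ^ 2 * ‖dp N b t‖ ^ 2 = ‖dp (N * M') (cv a' (cut N b)) t‖ ^ 2 := by
      intro t
      rw [← dp_cut N b t]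
      exact prod2 hDPM sa' sb t
    simp only [e]
    refine (ms2 hMV hAB hBA _ hNM1' _ l1').trans ?_
    refine mul_le_mul_of_nonneg_left (mul_le_mul_of_nonneg_left ?_ hT0.le) (by linarith)
    exact A1'.trans (mul_le_mul_of_nonneg_right hGK hn20)
  obtain ⟨X₀, hX₀⟩ : ∃ X₀, X₀ = N2 (N * M' * M) (cv a (cv a' (cut N b))) := ⟨_, rfl⟩
  rw [← hX₀] at A2
  have J2 : ∫ t in A..B, ‖dp M a t‖ ^ 2 * (‖dp M' a' t‖ ^ 2 * ‖dp N b t‖ ^ 2) ≤ (1 + ε₂) * (T * X₀) := by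
    have e : ∀ t, ‖dp M a t‖ ^ 2 * (‖dp M' a' t‖ ^ 2 * ‖dp N b t‖ ^ 2) =
        ‖dp (N * M' * M) (cv a (cv a' (cut N b))) t‖ ^ 2 := by
      intro t
      rw [← dp_cut N b t, prod2 hDPM sa' sb t, prod2 hDPM sa scv' t]
    simp only [e]
    rw [hX₀]
    exact ms2 hMV hAB hBA _ (Nat.mul_pos hNM1' hM1) _ l2
  have JV : ∫ t in A..B, ‖dp N b t‖ ^ 2 ≤ 2 * (T * n2) := by
    have h1 := (abs_le.1 (dp_ms hMV A B hAB N b)).2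
    have h2 := mul_le_mul_of_nonneg_right (hSh N hN) hn20
    have h3 := mul_le_mul_of_nonneg_right hBA hn20
    rw [← hn2] at h1
    linarith
  obtain ⟨k, hk⟩ : ∃ k, k = 2 * c ^ 2 / L := ⟨_, rfl⟩
  have hk0 : 0 ≤ k := by rw [hk]; positivity
  have hiL : 0 ≤ 1 / L := by positivity
  have hpt : ∀ t ∈ Set.Icc A B, ‖Zt w T u t‖ ^ 2 * (‖Zt w T u' t‖ ^ 2 * ‖dp N b t‖ ^ 2) ≤
      (1 + 1 / L) ^ 2 * (‖dp M a t‖ ^ 2 * (‖dp M' a' t‖ ^ 2 * ‖dp N b t‖ ^ 2)) +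
      (1 + 1 / L) * k * (‖dp M a t‖ ^ 2 * ‖dp N b t‖ ^ 2 + ‖dp M' a' t‖ ^ 2 * ‖dp N b t‖ ^ 2) +
      k ^ 2 * ‖dp N b t‖ ^ 2 := by
    intro t ht
    have z1 := Zt_sq (norm_nonneg _) hL1 hc0
      (hc ▸ Zt_dp hQ hD hδ hL1 hu3' hX hL2 hL3 hL4 (hE u t hu0 (by linarith) ht.1 ht.2))
    have z1' := Zt_sq (norm_nonneg _) hL1 hc0
      (hc ▸ Zt_dp hQ hD hδ hL1 hu3 hX' hL2 hL3 hL4 (hE u' t hu0' (by linarith) ht.1 ht.2))
    rw [← hMM, ← ha, ← hk] at z1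
    rw [← hMM', ← ha', ← hk] at z1'
    have z2 : ‖Zt w T u t‖ ^ 2 * ‖Zt w T u' t‖ ^ 2 ≤
        ((1 + 1 / L) * ‖dp M a t‖ ^ 2 + k) * ((1 + 1 / L) * ‖dp M' a' t‖ ^ 2 + k) :=
      mul_le_mul z1 z1' (by positivity) (by positivity)
    have z3 := mul_le_mul_of_nonneg_right z2 (sq_nonneg ‖dp N b t‖)
    calc ‖Zt w T u t‖ ^ 2 * (‖Zt w T u' t‖ ^ 2 * ‖dp N b t‖ ^ 2) =
        ‖Zt w T u t‖ ^ 2 * ‖Zt w T u' t‖ ^ 2 * ‖dp N b t‖ ^ 2 := by ring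
      _ ≤ _ := z3
      _ = _ := by ring
  have hint : ∫ t in A..B, ‖Zt w T u t‖ ^ 2 * (‖Zt w T u' t‖ ^ 2 * ‖dp N b t‖ ^ 2) ≤
      (1 + 1 / L) ^ 2 * (∫ t in A..B, ‖dp M a t‖ ^ 2 * (‖dp M' a' t‖ ^ 2 * ‖dp N b t‖ ^ 2)) +
      (1 + 1 / L) * k * ((∫ t in A..B, ‖dp M a t‖ ^ 2 * ‖dp N b t‖ ^ 2) + ∫ t in A..B, ‖dp M' a' t‖ ^ 2 * ‖dp N b t‖ ^ 2) +
      k ^ 2 * ∫ t in A..B, ‖dp N b t‖ ^ 2 := by
    have c1 : Continuous fun t => ‖dp M a t‖ ^ 2 * (‖dp M' a' t‖ ^ 2 * ‖dp N b t‖ ^ 2) := by fun_prop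
    have c2 : Continuous fun t => ‖dp M a t‖ ^ 2 * ‖dp N b t‖ ^ 2 := by fun_prop
    have c3 : Continuous fun t => ‖dp M' a' t‖ ^ 2 * ‖dp N b t‖ ^ 2 := by fun_prop
    have i1 : IntervalIntegrable (fun t => (1 + 1 / L) ^ 2 * (‖dp M a t‖ ^ 2 * (‖dp M' a' t‖ ^ 2 * ‖dp N b t‖ ^ 2)))
        volume A B := (continuous_const.mul c1).intervalIntegrable A B
    have i2 : IntervalIntegrable (fun t => (1 + 1 / L) * k * (‖dp M a t‖ ^ 2 * ‖dp N b t‖ ^ 2 +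
        ‖dp M' a' t‖ ^ 2 * ‖dp N b t‖ ^ 2)) volume A B := (continuous_const.mul (c2.add c3)).intervalIntegrable A B
    have i3 : IntervalIntegrable (fun t => k ^ 2 * ‖dp N b t‖ ^ 2) volume A B :=
      (continuous_const.mul hVc).intervalIntegrable A B
    have i12 : IntervalIntegrable (fun t => (1 + 1 / L) ^ 2 * (‖dp M a t‖ ^ 2 * (‖dp M' a' t‖ ^ 2 * ‖dp N b t‖ ^ 2)) +
        (1 + 1 / L) * k * (‖dp M a t‖ ^ 2 * ‖dp N b t‖ ^ 2 + ‖dp M' a' t‖ ^ 2 * ‖dp N b t‖ ^ 2)) volume A B := i1.add i2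
    rw [← intervalIntegral.integral_add (c2.intervalIntegrable A B) (c3.intervalIntegrable A B),
      ← intervalIntegral.integral_const_mul, ← intervalIntegral.integral_const_mul,
      ← intervalIntegral.integral_const_mul, ← intervalIntegral.integral_add i1 i2,
      ← intervalIntegral.integral_add i12 i3]
    refine intervalIntegral.integral_mono_on hAB (Continuous.intervalIntegrable (by fun_prop) _ _)
      (Continuous.intervalIntegrable (by fun_prop) _ _) hpt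
  have hQL : ((Sa + Sb) + 6 * Ka ^ 2 + 32 * c ^ 2 * Ka + 8 * c ^ 4) / L ≤ ε / 2 := by
    rw [← hQd, div_le_iff₀ hL0]
    have h1 := mul_le_mul_of_nonneg_left hL6 (show 0 ≤ ε / 2 by positivity)
    have h2 : ε / 2 * (Q * (2 / ε)) = Q := by field_simp
    linarith
  constructor
  · have hX1 : X₀ ≤ G * G * n2 := by
      refine A2.trans ?_
      rw [mul_assoc]
      exact mul_le_mul_of_nonneg_left A1' hG0
    exact num4 hL1 hT0.le hn20 hint hk J2 J1 J1' JV hKa0 hε₂0.le hε₂1 hX1 hG0 hGK hG0 hGK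
      (hSa ▸ FF_any hL1 hI2 hC₄ hRa0 hSb0 hG) hε₂K hQL
  · intro hus
    have B1' := hsep N (cut N b) u' hN1 hNL sb hu0' hX' hul' (by linarith)
    have B2 := hsep (N * M') (cv a' (cut N b)) u hNM1' hNML' scv' hu0 hX hul (by linarith)
    rw [← hMM', ← ha', e2b] at B1'
    rw [← hMM, ← ha, ← hX₀] at B2
    obtain ⟨F, hF⟩ : ∃ F, F = u / L * I2 w + 4 * δ * I2 w + Rs / L := ⟨_, rfl⟩
    obtain ⟨F', hF'⟩ : ∃ F', F' = u' / L * I2 w + 4 * δ * I2 w + Rs / L := ⟨_, rfl⟩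
    rw [← hF'] at B1'
    rw [← hF] at B2
    have hF0 : 0 ≤ F := by rw [hF]; positivity
    have hF0' : 0 ≤ F' := by rw [hF']; positivity
    have hd4 : 4 * δ * I2 w ≤ 1 / 4 * I2 w := mul_le_mul_of_nonneg_right (by linarith) hI2
    have hCI : 4 * I2 w ≤ (2 + 2 * C₄) * I2 w := mul_le_mul_of_nonneg_right (by linarith) hI2
    have hFK : F ≤ Ka := by
      have : u / L * I2 w ≤ 1 / 2 * I2 w := mul_le_mul_of_nonneg_right hul hI2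
      rw [hF, hKa]
      linarith
    have hFK' : F' ≤ Ka := by
      have : u' / L * I2 w ≤ 1 / 2 * I2 w := mul_le_mul_of_nonneg_right hul' hI2
      rw [hF', hKa]
      linarith
    have hX1 : X₀ ≤ F * F' * n2 := by
      refine B2.trans ?_
      rw [mul_assoc]
      exact mul_le_mul_of_nonneg_left B1' hF0
    exact num4 hL1 hT0.le hn20 hint hk J2 J1 J1' JV hKa0 hε₂0.le hε₂1 hX1 hF0 hFK hF0' hFK'
      (hSb ▸ FF_sep hL1 hI2 hul0 hul hul0' hul' hδ hδ1 hRs0 hSa0 (by nlinarith) hF hF') hε₂K hQL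

end

end Pool.Agent.U85.Ml
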