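import Mathlib

set_option autoImplicit false

/-!
Cosine sums with nonnegative coefficients: averages over every interval are bounded by the averages at the origin.
-/

namespace Pool.Agent.U85.Ml

open Filter Topology MeasureTheory

noncomputable section

/-- the kernel of the triangle -/
def Kt (a y : ℝ) : ℝ := ∫ u in (0 : ℝ)..a, (a - u) * Real.cos (u * y)

lemma Kt_nonneg {a : ℝ} (ha : 0 ≤ a) (y : ℝ) : 0 ≤ Kt a y := by
  unfold Kt
  rcases eq_or_ne y 0 with rfl | hy
  · refine intervalIntegral.integral_nonneg ha fun u hu => ?_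
    simp only [mul_zero, Real.cos_zero, mul_one]
    linarith [hu.2]
  · have hd : ∀ u ∈ Set.uIcc (0 : ℝ) a, HasDerivAt (fun u => (a - u) * Real.sin (u * y) / y - Real.cos (u * y) / y ^ 2)
        ((a - u) * Real.cos (u * y)) u := by
      intro u _
      have h1 : HasDerivAt (fun u : ℝ => a - u) (-1) u := by simpa using (hasDerivAt_id u).const_sub a
      have h2 : HasDerivAt (fun u : ℝ => u * y) y u := by simpa using (hasDerivAt_id u).mul_const y
      have h3 := ((h1.mul h2.sin).div_const y).sub (h2.cos.div_const (y ^ 2))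
      refine h3.congr_deriv ?_
      field_simp
      ring
    rw [intervalIntegral.integral_eq_sub_of_hasDerivAt hd (Continuous.intervalIntegrable (by fun_prop) _ _)]
    have e : (a - a) * Real.sin (a * y) / y - Real.cos (a * y) / y ^ 2 -
        ((a - 0) * Real.sin (0 * y) / y - Real.cos (0 * y) / y ^ 2) = (1 - Real.cos (a * y)) / y ^ 2 := by
      simp
      ring
    rw [e]
    have := Real.cos_le_one (a * y)
    exact div_nonneg (by linarith) (by positivity)

/-- the average with the triangle around `c` -/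
def Tr (F : ℝ → ℝ) (a c : ℝ) : ℝ := ∫ u in (0 : ℝ)..a, (a - u) * (F (c + u) + F (c - u))

/-- a cosine sum -/
def CS {ι : Type*} (P : Finset ι) (w y : ι → ℝ) (α : ℝ) : ℝ := ∑ i ∈ P, w i * Real.cos (α * y i)

lemma CS_cont {ι : Type*} (P : Finset ι) (w y : ι → ℝ) : Continuous (CS P w y) := by
  unfold CS
  fun_prop

lemma Tr_CS {ι : Type*} (P : Finset ι) (w y : ι → ℝ) (a c : ℝ) :
    Tr (CS P w y) a c = ∑ i ∈ P, w i * (2 * Real.cos (c * y i) * Kt a (y i)) := by
  unfold Tr CS Kt
  have e : ∀ u : ℝ, (a - u) * ((∑ i ∈ P, w i * Real.cos ((c + u) * y i)) + ∑ i ∈ P, w i * Real.cos ((c - u) * y i)) =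
      ∑ i ∈ P, w i * (2 * Real.cos (c * y i)) * ((a - u) * Real.cos (u * y i)) := by
    intro u
    rw [← Finset.sum_add_distrib, Finset.mul_sum]
    refine Finset.sum_congr rfl fun i _ => ?_
    have h1 : (c + u) * y i = c * y i + u * y i := by ring
    have h2 : (c - u) * y i = c * y i - u * y i := by ring
    rw [h1, h2, Real.cos_add, Real.cos_sub]
    ring
  simp only [e]
  rw [intervalIntegral.integral_finsetSum fun i _ => Continuous.intervalIntegrable (by fun_prop) _ _]
  refine Finset.sum_congr rfl fun i _ => ?_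
  rw [intervalIntegral.integral_const_mul]
  ring

/-- positivity -/
lemma Tr_le {ι : Type*} (P : Finset ι) (w y : ι → ℝ) (hw : ∀ i ∈ P, 0 ≤ w i) {a : ℝ} (ha : 0 ≤ a) (c : ℝ) :
    Tr (CS P w y) a c ≤ Tr (CS P w y) a 0 := by
  rw [Tr_CS, Tr_CS]
  refine Finset.sum_le_sum fun i hi => mul_le_mul_of_nonneg_left ?_ (hw i hi)
  rw [zero_mul, Real.cos_zero]
  refine mul_le_mul_of_nonneg_right ?_ (Kt_nonneg ha _)
  have := Real.cos_le_one (c * y i)
  linarith

lemma Tr_zero {F : ℝ → ℝ} (he : ∀ u, F (-u) = F u) (a : ℝ) : Tr F a 0 = ∫ u in (0 : ℝ)..a, 2 * (a - u) * F u := by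
  unfold Tr
  refine intervalIntegral.integral_congr fun u _ => ?_
  show (a - u) * (F (0 + u) + F (0 - u)) = 2 * (a - u) * F u
  rw [zero_add, zero_sub, he]
  ring

/-- from triangles to intervals -/
lemma int_le {F : ℝ → ℝ} (hF : Continuous F) (hF0 : ∀ u, 0 ≤ F u) {a M : ℝ} (ha : 0 < a) (hM : ∀ c, Tr F a c ≤ M)
    (c ℓ : ℝ) (hℓ : 0 ≤ ℓ) : ∫ α in c..(c + ℓ), F α ≤ (ℓ / a + 2) * (M / a) := by
  have hGl : ∀ c, 0 ≤ ∫ u in (0 : ℝ)..a, (a - u) * F (c - u) := fun c =>
    intervalIntegral.integral_nonneg ha.le fun u hu => mul_nonneg (by linarith [hu.2]) (hF0 _)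
  have hGr : ∀ c, 0 ≤ ∫ u in (0 : ℝ)..a, (a - u) * F (c + u) := fun c =>
    intervalIntegral.integral_nonneg ha.le fun u hu => mul_nonneg (by linarith [hu.2]) (hF0 _)
  have hT : ∀ c, Tr F a c = (∫ u in (0 : ℝ)..a, (a - u) * F (c + u)) + ∫ u in (0 : ℝ)..a, (a - u) * F (c - u) := by
    intro c
    unfold Tr
    rw [← intervalIntegral.integral_add (Continuous.intervalIntegrable (by fun_prop) _ _)
      (Continuous.intervalIntegrable (by fun_prop) _ _)]
    refine intervalIntegral.integral_congr fun u _ => ?_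
    show (a - u) * (F (c + u) + F (c - u)) = _
    ring
  have hstep : ∀ c, a * ∫ α in c..(c + a), F α =
      (∫ u in (0 : ℝ)..a, (a - u) * F (c + u)) + ∫ u in (0 : ℝ)..a, (a - u) * F (c + a - u) := by
    intro c
    have e1 : ∫ u in (0 : ℝ)..a, (a - u) * F (c + a - u) = ∫ u in (0 : ℝ)..a, u * F (c + u) := by
      have h := intervalIntegral.integral_comp_sub_left (fun u => u * F (c + u)) a (a := 0) (b := a)
      rw [sub_self, sub_zero] at h
      rw [← h]
      refine intervalIntegral.integral_congr fun u _ => ?_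
      show (a - u) * F (c + a - u) = (a - u) * F (c + (a - u))
      rw [add_sub_assoc]
    have e2 : ∫ α in c..(c + a), F α = ∫ u in (0 : ℝ)..a, F (c + u) := by
      have h := intervalIntegral.integral_comp_add_left F c (a := 0) (b := a)
      rw [h, add_zero]
    rw [e1, e2, ← intervalIntegral.integral_const_mul,
      ← intervalIntegral.integral_add (Continuous.intervalIntegrable (by fun_prop) _ _)
      (Continuous.intervalIntegrable (by fun_prop) _ _)]
    refine intervalIntegral.integral_congr fun u _ => ?_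
    show a * F (c + u) = (a - u) * F (c + u) + u * F (c + u)
    ring
  have hind : ∀ n : ℕ, a * (∫ α in c..(c + n * a), F α) + (∫ u in (0 : ℝ)..a, (a - u) * F (c - u)) +
      (∫ u in (0 : ℝ)..a, (a - u) * F (c + n * a + u)) ≤ (n + 1) * M := by
    intro n
    induction n with
    | zero =>
      have := hM c
      rw [hT c] at this
      simp only [Nat.cast_zero, zero_mul, add_zero, intervalIntegral.integral_same, mul_zero, zero_add, one_mul]
      linarith
    | succ n ih =>
      have h1 := hstep (c + n * a)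
      have h2 := hM (c + n * a + a)
      rw [hT] at h2
      have e1 : c + ((n + 1 : ℕ) : ℝ) * a = c + n * a + a := by push_cast; ring
      have e2 : ∫ α in c..(c + n * a + a), F α = (∫ α in c..(c + n * a), F α) + ∫ α in (c + n * a)..(c + n * a + a), F α :=
        (intervalIntegral.integral_add_adjacent_intervals (hF.intervalIntegrable _ _) (hF.intervalIntegrable _ _)).symm
      rw [e1, e2, mul_add]
      push_cast
      linarith
  obtain ⟨n, hn⟩ : ∃ n : ℕ, n = ⌈ℓ / a⌉₊ := ⟨_, rfl⟩
  have hn1 : ℓ / a ≤ n := hn ▸ Nat.le_ceil _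
  have hn2 : (n : ℝ) < ℓ / a + 1 := hn ▸ Nat.ceil_lt_add_one (by positivity)
  have hM0 : 0 ≤ M := by
    have := hM 0
    rw [hT] at this
    linarith [hGl 0, hGr 0]
  have h1 : ∫ α in c..(c + ℓ), F α ≤ ∫ α in c..(c + n * a), F α := by
    refine intervalIntegral.integral_mono_interval le_rfl (by linarith) ?_ (Filter.Eventually.of_forall hF0)
      (hF.intervalIntegrable _ _)
    rw [div_le_iff₀ ha] at hn1
    linarith
  have h2 := hind n
  have h3 : a * (∫ α in c..(c + n * a), F α) ≤ (n + 1) * M := by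
    have := hGl c
    have := hGr (c + n * a)
    linarith
  have h4 : ∫ α in c..(c + n * a), F α ≤ (n + 1) * (M / a) := by
    rw [← mul_div_assoc, le_div_iff₀ ha]
    linarith
  refine h1.trans (h4.trans (mul_le_mul_of_nonneg_right (by linarith) (by positivity)))

/-- the square of the modulus of an exponential sum -/
lemma sq_CS {ι : Type*} (Z : Finset ι) (m x : ι → ℝ) (u : ℝ) :
    ‖∑ s ∈ Z, (m s : ℂ) * Complex.exp (Complex.I * u * (x s : ℂ))‖ ^ 2 =
      CS (Z ×ˢ Z) (fun p => m p.1 * m p.2) (fun p => x p.1 - x p.2) u := by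
  have hre : (∑ s ∈ Z, (m s : ℂ) * Complex.exp (Complex.I * u * (x s : ℂ))).re = ∑ s ∈ Z, m s * Real.cos (u * x s) := by
    rw [Complex.re_sum]
    refine Finset.sum_congr rfl fun s _ => ?_
    have e : Complex.I * u * (x s : ℂ) = ((u * x s : ℝ) : ℂ) * Complex.I := by push_cast; ring
    rw [e, Complex.re_ofReal_mul, Complex.exp_ofReal_mul_I_re]
  have him : (∑ s ∈ Z, (m s : ℂ) * Complex.exp (Complex.I * u * (x s : ℂ))).im = ∑ s ∈ Z, m s * Real.sin (u * x s) := by
    rw [Complex.im_sum]
    refine Finset.sum_congr rfl fun s _ => ?_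
    have e : Complex.I * u * (x s : ℂ) = ((u * x s : ℝ) : ℂ) * Complex.I := by push_cast; ring
    rw [e, Complex.im_ofReal_mul, Complex.exp_ofReal_mul_I_im]
  rw [← Complex.normSq_eq_norm_sq, Complex.normSq_apply, hre, him]
  unfold CS
  rw [Finset.sum_product, Finset.sum_mul_sum, Finset.sum_mul_sum, ← Finset.sum_add_distrib]
  refine Finset.sum_congr rfl fun i _ => ?_
  rw [← Finset.sum_add_distrib]
  refine Finset.sum_congr rfl fun j _ => ?_
  have : u * (x i - x j) = u * x i - u * x j := by ring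
  simp only
  rw [this, Real.cos_sub]
  ring

end

end Pool.Agent.U85.Ml
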