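import Pool.Agent.U85.Ml.Br
import Pool.Agent.U85.Ml.Fr

set_option autoImplicit false

/-!
On the Riemann hypothesis: the local form factor at all frequencies.
-/

namespace Pool.Agent.U85.Ml

open Filter Topology MeasureTheory Complex
open scoped ComplexConjugate
open Pool.Agent.Q97.UM Pool.Agent.U85.Zd

noncomputable section

/-- the zeros of the window -/
def Zf' (T r t : ℝ) : Finset ℂ := (ZT T).filter (fun s => |s.im - t| ≤ r)

lemma zz_RH (hRH : RiemannHypothesis) {T r t : ℝ} (hT : 10 ≤ T) {s : ℂ} (hs : s ∈ Zf' T r t) : H370.zz s = ((s.im : ℝ) : ℂ) := by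
  unfold Zf' ZT at hs
  rw [Finset.mem_filter, H370.mem_Zf H370.good_zeta (show (1 : ℝ) ≤ T + 1 by linarith), H370.zset] at hs
  obtain ⟨⟨h1, h2, h3, -, h0⟩, -⟩ := hs
  have h4 : s.re = 1 / 2 := by
    refine hRH s h0 ?_ ?_
    · rintro ⟨n, hn⟩
      rw [hn] at h1
      have : (-2 * ((n : ℂ) + 1)).re = -2 * ((n : ℝ) + 1) := by simp
      rw [this] at h1
      have : (0 : ℝ) ≤ n := Nat.cast_nonneg n
      linarith
    · intro h
      rw [h] at h3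
      have : (1 : ℂ).im = 0 := Complex.one_im
      linarith
  have h5 := H370.zz_spec s
  have h6 : s = 1 / 2 + I * ((s.im : ℝ) : ℂ) := by
    apply Complex.ext
    · simp [h4]
    · simp
  have h7 : I * H370.zz s = I * ((s.im : ℝ) : ℂ) := by linear_combination h6 - h5
  exact mul_left_cancel₀ Complex.I_ne_zero h7

/-- the square of the modulus of the sum over the zeros, on the Riemann hypothesis -/
lemma Ssh_CS (hRH : RiemannHypothesis) {T t r u : ℝ} (hT : 10 ≤ T) : ‖Ssh T r u t‖ ^ 2 =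
    CS (Zf' T r t ×ˢ Zf' T r t) (fun p => (mz p.1 : ℝ) * (mz p.2 : ℝ)) (fun p => p.1.im - p.2.im) u := by
  rw [← sq_CS (Zf' T r t) (fun s => (mz s : ℝ)) (fun s => s.im) u]
  congr 2
  unfold Ssh
  refine Finset.sum_congr rfl fun s hs => ?_
  rw [zz_RH hRH hT hs]
  push_cast
  rfl

/-- the local form factor is a cosine sum -/
lemma Fw_CS (hRH : RiemannHypothesis) {T t H α : ℝ} (hT : 10 ≤ T) (hL : 1 ≤ Real.log T) (hr : H / Real.log T ≤ 1)
    (ht : t ∈ Set.Ioc (T + 2 * Real.log T) (2 * T - 2 * Real.log T)) : Fw T H α t =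
    CS (Zf' T (H / Real.log T) t ×ˢ Zf' T (H / Real.log T) t) (fun p => (mz p.1 : ℝ) * (mz p.2 : ℝ) / (H / Real.pi))
      (fun p => Real.log T * (p.1.im - p.2.im)) α := by
  unfold Fw
  rw [Sw_eq α hT hL hr ht, Ssh_CS hRH hT]
  unfold CS
  rw [Finset.sum_div]
  refine Finset.sum_congr rfl fun p _ => ?_
  have : Real.log T * α * (p.1.im - p.2.im) = α * (Real.log T * (p.1.im - p.2.im)) := by ring
  rw [this]
  ring

/-- what holds outside the exceptional set: the averages over every frequency interval -/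
def FreqPt (T H a ε t : ℝ) : Prop := (∀ c : ℝ, Tr (fun α => Fw T H α t) a c ≤ a + a ^ 3 / 3 + ε) ∧
  ∀ c ℓ : ℝ, 0 ≤ ℓ → ∫ α in c..(c + ℓ), Fw T H α t ≤ (ℓ / a + 2) * ((a + a ^ 3 / 3 + ε) / a)

/-- deterministic part -/
lemma freq_of_good (hRH : RiemannHypothesis) {T t H a ε : ℝ} (hT : 10 ≤ T) (hL : 1 ≤ Real.log T) (hr : H / Real.log T ≤ 1)
    (hH : 0 < H) (ht : t ∈ Set.Ioc (T + 2 * Real.log T) (2 * T - 2 * Real.log T)) (ha : 0 < a)
    (hε : 0 < ε) (hg : GoodPt (fun u => 2 * (a - u)) a H T ε t) : FreqPt T H a ε t := by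
  obtain ⟨h1, -⟩ := hg
  have hh : 0 < H / Real.pi := by positivity
  obtain ⟨P, hP⟩ : ∃ P, P = Zf' T (H / Real.log T) t ×ˢ Zf' T (H / Real.log T) t := ⟨_, rfl⟩
  obtain ⟨w, hw⟩ : ∃ w : ℂ × ℂ → ℝ, w = fun p => (mz p.1 : ℝ) * (mz p.2 : ℝ) / (H / Real.pi) := ⟨_, rfl⟩
  obtain ⟨y, hy⟩ : ∃ y : ℂ × ℂ → ℝ, y = fun p => Real.log T * (p.1.im - p.2.im) := ⟨_, rfl⟩
  have hF : (fun α => Fw T H α t) = CS P w y := by
    funext α
    rw [Fw_CS hRH hT hL hr ht, hP, hw, hy]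
  have hw0 : ∀ i ∈ P, 0 ≤ w i := by
    intro i _
    rw [hw]
    simp only
    positivity
  have heven : ∀ u, CS P w y (-u) = CS P w y u := by
    intro u
    unfold CS
    refine Finset.sum_congr rfl fun i _ => ?_
    rw [neg_mul, Real.cos_neg]
  have hT0 : Tr (CS P w y) a 0 ≤ a + a ^ 3 / 3 + ε := by
    rw [Tr_zero heven]
    have e1 : ∫ u in (0 : ℝ)..a, 2 * (a - u) * CS P w y u = (∫ β in (0 : ℝ)..a, 2 * (a - β) *
        ‖Ssh T (H / Real.log T) (Real.log T * β) t‖ ^ 2) / (H / Real.pi) := by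
      rw [← intervalIntegral.integral_div]
      refine intervalIntegral.integral_congr fun β _ => ?_
      show 2 * (a - β) * CS P w y β = 2 * (a - β) * ‖Ssh T (H / Real.log T) (Real.log T * β) t‖ ^ 2 / (H / Real.pi)
      have e3 : CS P w y β = Fw T H β t := (congrFun hF β).symm
      rw [e3]
      unfold Fw
      rw [Sw_eq β hT hL hr ht]
      ring
    have e2 : ∫ β in (0 : ℝ)..a, β * (2 * (a - β)) = a ^ 3 / 3 := by
      have e : ∀ β : ℝ, β * (2 * (a - β)) = (2 * a) * β - 2 * β ^ 2 := fun β => by ring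
      simp only [e]
      rw [intervalIntegral.integral_sub (Continuous.intervalIntegrable (by fun_prop) _ _)
        (Continuous.intervalIntegrable (by fun_prop) _ _), intervalIntegral.integral_const_mul,
        intervalIntegral.integral_const_mul, integral_id, integral_pow]
      norm_num
      ring
    simp only [e2, sub_zero] at h1
    rw [e1, div_le_iff₀ hh]
    have := (abs_le.1 h1).2
    nlinarith
  have hTc : ∀ c, Tr (CS P w y) a c ≤ a + a ^ 3 / 3 + ε := fun c => (Tr_le P w y hw0 ha.le c).trans hT0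
  refine ⟨fun c => hF ▸ hTc c, fun c ℓ hℓ => ?_⟩
  have h2 := int_le (CS_cont P w y) (fun u => by
    have : CS P w y u = Fw T H u t := (congrFun hF u).symm
    rw [this]
    unfold Fw
    positivity) ha hTc c ℓ hℓ
  rw [← hF] at h2
  exact h2

/-- **the local form factor at every frequency** -/
theorem freq_all (hRH : RiemannHypothesis) (a : ℝ) (ha : 0 < a) (ha2 : a < 1 / 2) (ε : ℝ) (hε : 0 < ε) :
    ∃ H₀ : ℝ, 1 ≤ H₀ ∧ ∀ H : ℝ, H₀ ≤ H → ∃ θ T₀ : ℝ, 0 < θ ∧ 1 ≤ T₀ ∧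
      ∀ T : ℝ, T₀ ≤ T → ∀ N : ℕ, (N : ℝ) ≤ T ^ θ → ∀ b : ℕ → ℂ, ∃ G : Set ℝ, MeasurableSet G ∧ G ⊆ Set.Icc T (2 * T) ∧
        ∫ t in G, ‖dp N b t‖ ^ 2 ≤ ε * ∫ t in Set.Icc T (2 * T), ‖dp N b t‖ ^ 2 ∧
        ∀ t ∈ Set.Icc T (2 * T), t ∉ G → FreqPt T H a ε t := by
  obtain ⟨H₀, hH₀, h⟩ := fin_lip (fun u => 2 * (a - u)) 2 a (fun x y => by
    have : 2 * (a - x) - 2 * (a - y) = -(2 * (x - y)) := by ring
    rw [this, abs_neg, abs_mul, abs_two]) ha ha2 ε ε hε hε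
  refine ⟨H₀, hH₀, fun H hH => ?_⟩
  obtain ⟨θ, hθ, h⟩ := h H hH
  obtain ⟨T₀, h⟩ := Filter.eventually_atTop.1 h
  refine ⟨θ, max T₀ 1, hθ, le_max_right _ _, fun T hT N hN b => ?_⟩
  obtain ⟨hr, hT10, hL1, h⟩ := h T ((le_max_left _ _).trans hT)
  obtain ⟨G, hGm, hGs, hGi, hG⟩ := h N hN b
  refine ⟨G, hGm, hGs, hGi, fun t ht htG => ?_⟩
  obtain ⟨hJ, hg⟩ := hG t ht htG
  exact freq_of_good hRH hT10 hL1 hr (by linarith) hJ ha hε hg

/-- the bound with the constant `13 / 6` -/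
theorem freq_136 (hRH : RiemannHypothesis) (ε : ℝ) (hε : 0 < ε) :
    ∃ H₀ : ℝ, 1 ≤ H₀ ∧ ∀ H : ℝ, H₀ ≤ H → ∃ θ T₀ : ℝ, 0 < θ ∧ 1 ≤ T₀ ∧
      ∀ T : ℝ, T₀ ≤ T → ∀ N : ℕ, (N : ℝ) ≤ T ^ θ → ∀ b : ℕ → ℂ, ∃ G : Set ℝ, MeasurableSet G ∧ G ⊆ Set.Icc T (2 * T) ∧
        ∫ t in G, ‖dp N b t‖ ^ 2 ≤ ε * ∫ t in Set.Icc T (2 * T), ‖dp N b t‖ ^ 2 ∧
        ∀ t ∈ Set.Icc T (2 * T), t ∉ G → ∀ c ℓ : ℝ, 0 ≤ ℓ → ∫ α in c..(c + ℓ), Fw T H α t ≤ (13 / 6 + ε) * (ℓ + 1) := by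
  obtain ⟨e, he⟩ : ∃ e : ℝ, e = min ε 1 := ⟨_, rfl⟩
  have he0 : 0 < e := by rw [he]; positivity
  have he1 : e ≤ 1 := by rw [he]; exact min_le_right _ _
  have heε : e ≤ ε := by rw [he]; exact min_le_left _ _
  obtain ⟨a, ha⟩ : ∃ a : ℝ, a = 1 / 2 - e / 32 := ⟨_, rfl⟩
  have ha0 : 1 / 4 ≤ a := by rw [ha]; linarith
  obtain ⟨H₀, hH₀, h⟩ := freq_all hRH a (by linarith) (by rw [ha]; linarith) (e / 64) (by positivity)
  refine ⟨H₀, hH₀, fun H hH => ?_⟩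
  obtain ⟨θ, T₀, h1, h2, h3⟩ := h H hH
  refine ⟨θ, T₀, h1, h2, fun T hT N hN b => ?_⟩
  obtain ⟨G, hGm, hGs, hGi, hG⟩ := h3 T hT N hN b
  have hI : 0 ≤ ∫ t in Set.Icc T (2 * T), ‖dp N b t‖ ^ 2 := integral_nonneg fun t => by positivity
  refine ⟨G, hGm, hGs, hGi.trans (mul_le_mul_of_nonneg_right (by linarith) hI), fun t ht htG c ℓ hℓ => ?_⟩
  have h4 := (hG t ht htG).2 c ℓ hℓ
  refine h4.trans ?_
  have e1 : (ℓ / a + 2) * ((a + a ^ 3 / 3 + e / 64) / a) = (ℓ + 2 * a) * ((a + a ^ 3 / 3 + e / 64) / a ^ 2) := by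
    field_simp
  rw [e1]
  have h5 : (a + a ^ 3 / 3 + e / 64) / a ^ 2 ≤ 13 / 6 + ε := by
    have h6 : (a + a ^ 3 / 3 + e / 64) ≤ (13 / 6 + e) * a ^ 2 := by
      rw [ha]
      nlinarith [mul_nonneg he0.le he0.le, mul_nonneg (mul_nonneg he0.le he0.le) he0.le,
        mul_nonneg (mul_nonneg he0.le he0.le) (sub_nonneg.2 he1), mul_nonneg he0.le (sub_nonneg.2 he1)]
    rw [div_le_iff₀ (by positivity)]
    have : (13 / 6 + e) * a ^ 2 ≤ (13 / 6 + ε) * a ^ 2 := mul_le_mul_of_nonneg_right (by linarith) (by positivity)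
    linarith
  have h7 : ℓ + 2 * a ≤ ℓ + 1 := by rw [ha]; linarith
  rw [mul_comm (13 / 6 + ε)]
  exact mul_le_mul h7 h5 (by positivity) (by linarith)

end

end Pool.Agent.U85.Ml
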