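import Mathlib

set_option autoImplicit false

/-!
A kernel for small gaps: the Fourier transform is nonnegative, the function is negative outside the unit
interval.
-/

namespace Pool.Agent.U85.Ml

open Filter Topology MeasureTheory

noncomputable section

/-- the Fourier transform for arguments in `[0, 1]` -/
def kg (y : ℝ) : ℝ := 1 - y + Real.sin (2 * Real.pi * y) / (2 * Real.pi)

/-- the Fourier transform, cut off -/
def rho (x : ℝ) : ℝ := kg (min |x| 1)

/-- the function, with argument in radians -/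
def kK (θ : ℝ) : ℝ := 2 * ∫ α in (0 : ℝ)..1, kg α * Real.cos (α * θ)

lemma kg_cont : Continuous kg := by
  unfold kg
  fun_prop

lemma kg_lip (x y : ℝ) : |kg x - kg y| ≤ 2 * |x - y| := by
  have hpi := Real.pi_pos
  unfold kg
  have h1 : |Real.sin (2 * Real.pi * x) - Real.sin (2 * Real.pi * y)| ≤ 2 * Real.pi * |x - y| := by
    have h2 : Real.sin (2 * Real.pi * x) - Real.sin (2 * Real.pi * y) =
        2 * Real.sin ((2 * Real.pi * x - 2 * Real.pi * y) / 2) * Real.cos ((2 * Real.pi * x + 2 * Real.pi * y) / 2) :=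
      Real.sin_sub_sin _ _
    rw [h2, abs_mul, abs_mul, abs_two]
    have h3 := Real.abs_cos_le_one ((2 * Real.pi * x + 2 * Real.pi * y) / 2)
    have h4 : |Real.sin ((2 * Real.pi * x - 2 * Real.pi * y) / 2)| ≤ |(2 * Real.pi * x - 2 * Real.pi * y) / 2| :=
      Real.abs_sin_le_abs
    have h5 : |(2 * Real.pi * x - 2 * Real.pi * y) / 2| = Real.pi * |x - y| := by
      rw [show (2 * Real.pi * x - 2 * Real.pi * y) / 2 = Real.pi * (x - y) by ring, abs_mul, abs_of_pos hpi]
    rw [h5] at h4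
    have h6 := abs_nonneg (Real.sin ((2 * Real.pi * x - 2 * Real.pi * y) / 2))
    have h7 := abs_nonneg (Real.cos ((2 * Real.pi * x + 2 * Real.pi * y) / 2))
    nlinarith
  have e : 1 - x + Real.sin (2 * Real.pi * x) / (2 * Real.pi) - (1 - y + Real.sin (2 * Real.pi * y) / (2 * Real.pi)) =
      -(x - y) + (Real.sin (2 * Real.pi * x) - Real.sin (2 * Real.pi * y)) / (2 * Real.pi) := by ring
  rw [e]
  refine (abs_add_le _ _).trans ?_
  rw [abs_neg, abs_div, abs_of_pos (by positivity : 0 < 2 * Real.pi)]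
  have h8 : |Real.sin (2 * Real.pi * x) - Real.sin (2 * Real.pi * y)| / (2 * Real.pi) ≤ |x - y| := by
    rw [div_le_iff₀ (by positivity)]
    linarith
  linarith

lemma kg_nonneg {y : ℝ} (h1 : y ≤ 1) : 0 ≤ kg y := by
  have hpi := Real.pi_pos
  unfold kg
  have h2 : Real.sin (2 * Real.pi * y) = -Real.sin (2 * Real.pi * (1 - y)) := by
    rw [show 2 * Real.pi * (1 - y) = 2 * Real.pi - 2 * Real.pi * y by ring, Real.sin_two_pi_sub]
    ring
  have h3 : Real.sin (2 * Real.pi * (1 - y)) ≤ 2 * Real.pi * (1 - y) := Real.sin_le (by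
    have : 0 ≤ 1 - y := by linarith
    positivity)
  rw [h2]
  have h4 : Real.sin (2 * Real.pi * (1 - y)) / (2 * Real.pi) ≤ 1 - y := by
    rw [div_le_iff₀ (by positivity)]
    linarith
  have e : -Real.sin (2 * Real.pi * (1 - y)) / (2 * Real.pi) = -(Real.sin (2 * Real.pi * (1 - y)) / (2 * Real.pi)) := by ring
  rw [e]
  linarith

lemma rho_nonneg (x : ℝ) : 0 ≤ rho x := kg_nonneg (min_le_right _ _)

lemma rho_lip (x y : ℝ) : |rho x - rho y| ≤ 2 * |x - y| := by
  refine (kg_lip _ _).trans (mul_le_mul_of_nonneg_left ?_ (by norm_num))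
  have h1 := abs_min_sub_min_le_max |x| 1 |y| 1
  rw [sub_self, abs_zero, max_eq_left (abs_nonneg _)] at h1
  exact h1.trans (abs_abs_sub_abs_le_abs_sub x y)

lemma rho_eq {x : ℝ} (h0 : 0 ≤ x) (h1 : x ≤ 1) : rho x = kg x := by
  unfold rho
  rw [abs_of_nonneg h0, min_eq_left h1]

/-- the integral of the first part -/
lemma int_lin {θ : ℝ} (hθ : θ ≠ 0) : ∫ α in (0 : ℝ)..1, (1 - α) * Real.cos (α * θ) = (1 - Real.cos θ) / θ ^ 2 := by
  have h := intervalIntegral.integral_eq_sub_of_hasDerivAt (a := 0) (b := 1)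
    (f := fun α => (1 - α) * (Real.sin (α * θ) / θ) - Real.cos (α * θ) / θ ^ 2)
    (f' := fun α => (1 - α) * Real.cos (α * θ)) (fun α _ => by
      have h1 : HasDerivAt (fun α : ℝ => α * θ) θ α := by simpa using (hasDerivAt_id α).mul_const θ
      have h2 : HasDerivAt (fun α : ℝ => Real.sin (α * θ)) (Real.cos (α * θ) * θ) α := (Real.hasDerivAt_sin _).comp α h1
      have h3 : HasDerivAt (fun α : ℝ => Real.cos (α * θ)) (-Real.sin (α * θ) * θ) α := (Real.hasDerivAt_cos _).comp α h1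
      have h4 : HasDerivAt (fun α : ℝ => 1 - α) (-1) α := by simpa using (hasDerivAt_id α).const_sub 1
      have h5 := (h4.mul (h2.div_const θ)).sub (h3.div_const (θ ^ 2))
      refine h5.congr_deriv ?_
      field_simp
      ring)
    ((by fun_prop : Continuous fun α : ℝ => (1 - α) * Real.cos (α * θ)).intervalIntegrable _ _)
  rw [h]
  simp
  ring

/-- the integral of the second part -/
lemma int_sin {θ : ℝ} (h1 : 2 * Real.pi + θ ≠ 0) (h2 : 2 * Real.pi - θ ≠ 0) :
    ∫ α in (0 : ℝ)..1, Real.sin (2 * Real.pi * α) * Real.cos (α * θ) =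
      (1 - Real.cos θ) / 2 * (1 / (2 * Real.pi + θ) + 1 / (2 * Real.pi - θ)) := by
  have h := intervalIntegral.integral_eq_sub_of_hasDerivAt (a := 0) (b := 1)
    (f := fun α => -(Real.cos ((2 * Real.pi + θ) * α) / (2 * (2 * Real.pi + θ)) +
      Real.cos ((2 * Real.pi - θ) * α) / (2 * (2 * Real.pi - θ))))
    (f' := fun α => Real.sin (2 * Real.pi * α) * Real.cos (α * θ)) (fun α _ => by
      have a1 : ∀ c : ℝ, HasDerivAt (fun α : ℝ => c * α) c α := fun c => by simpa using (hasDerivAt_id α).const_mul c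
      have a2 : ∀ c : ℝ, HasDerivAt (fun α : ℝ => Real.cos (c * α)) (-Real.sin (c * α) * c) α := fun c =>
        (Real.hasDerivAt_cos _).comp α (a1 c)
      have h5 := (((a2 (2 * Real.pi + θ)).div_const (2 * (2 * Real.pi + θ))).add
        ((a2 (2 * Real.pi - θ)).div_const (2 * (2 * Real.pi - θ)))).neg
      refine h5.congr_deriv ?_
      have e1 : Real.sin ((2 * Real.pi + θ) * α) = Real.sin (2 * Real.pi * α) * Real.cos (α * θ) +
          Real.cos (2 * Real.pi * α) * Real.sin (α * θ) := by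
        rw [show (2 * Real.pi + θ) * α = 2 * Real.pi * α + α * θ by ring, Real.sin_add]
      have e2 : Real.sin ((2 * Real.pi - θ) * α) = Real.sin (2 * Real.pi * α) * Real.cos (α * θ) -
          Real.cos (2 * Real.pi * α) * Real.sin (α * θ) := by
        rw [show (2 * Real.pi - θ) * α = 2 * Real.pi * α - α * θ by ring, Real.sin_sub]
      rw [e1, e2]
      field_simp
      ring)
    ((by fun_prop : Continuous fun α : ℝ => Real.sin (2 * Real.pi * α) * Real.cos (α * θ)).intervalIntegrable _ _)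
  rw [h]
  have c1 : Real.cos (2 * Real.pi + θ) = Real.cos θ := by rw [add_comm]; exact Real.cos_add_two_pi θ
  have c2 : Real.cos (2 * Real.pi - θ) = Real.cos θ := Real.cos_two_pi_sub θ
  simp only [mul_one, mul_zero, Real.cos_zero, c1, c2]
  field_simp
  ring

lemma kK_form {θ : ℝ} (h0 : θ ≠ 0) (h1 : 2 * Real.pi + θ ≠ 0) (h2 : 2 * Real.pi - θ ≠ 0) :
    kK θ = 2 * ((1 - Real.cos θ) / θ ^ 2 +
      (1 - Real.cos θ) / 2 * (1 / (2 * Real.pi + θ) + 1 / (2 * Real.pi - θ)) / (2 * Real.pi)) := by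
  unfold kK
  have e : ∀ α : ℝ, kg α * Real.cos (α * θ) = (1 - α) * Real.cos (α * θ) +
      Real.sin (2 * Real.pi * α) * Real.cos (α * θ) / (2 * Real.pi) := by
    intro α
    unfold kg
    ring
  simp only [e]
  rw [intervalIntegral.integral_add ((by fun_prop : Continuous fun α : ℝ => (1 - α) * Real.cos (α * θ)).intervalIntegrable _ _)
    ((by fun_prop : Continuous fun α : ℝ => Real.sin (2 * Real.pi * α) * Real.cos (α * θ) / (2 * Real.pi)).intervalIntegrable _ _),
    intervalIntegral.integral_div, int_lin h0, int_sin h1 h2]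

lemma kK_neg {θ : ℝ} (h : 2 * Real.pi < |θ|) : kK θ ≤ 0 := by
  have hpi := Real.pi_pos
  have h0 : θ ≠ 0 := by
    rintro rfl
    rw [abs_zero] at h
    linarith
  have hθ2 : (2 * Real.pi) ^ 2 < θ ^ 2 := by
    rw [← sq_abs θ]
    exact pow_lt_pow_left₀ h (by positivity) two_ne_zero
  have h1 : 2 * Real.pi + θ ≠ 0 := by
    intro hh
    have : θ = -(2 * Real.pi) := by linarith
    rw [this] at hθ2
    linarith [hθ2, (by ring : (-(2 * Real.pi)) ^ 2 = (2 * Real.pi) ^ 2)]
  have h2 : 2 * Real.pi - θ ≠ 0 := by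
    intro hh
    have : θ = 2 * Real.pi := by linarith
    rw [this] at hθ2
    linarith
  rw [kK_form h0 h1 h2]
  have hc : 0 ≤ 1 - Real.cos θ := by linarith [Real.cos_le_one θ]
  have hd : (2 * Real.pi) ^ 2 - θ ^ 2 < 0 := by linarith
  have e : 2 * ((1 - Real.cos θ) / θ ^ 2 +
      (1 - Real.cos θ) / 2 * (1 / (2 * Real.pi + θ) + 1 / (2 * Real.pi - θ)) / (2 * Real.pi)) =
      2 * (1 - Real.cos θ) * ((2 * Real.pi) ^ 2 / (θ ^ 2 * ((2 * Real.pi) ^ 2 - θ ^ 2))) := by
    have h3 : (2 * Real.pi) ^ 2 - θ ^ 2 = (2 * Real.pi + θ) * (2 * Real.pi - θ) := by ring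
    rw [h3]
    field_simp
    ring
  rw [e]
  refine mul_nonpos_of_nonneg_of_nonpos (by positivity) (div_nonpos_of_nonneg_of_nonpos (by positivity) ?_)
  exact mul_nonpos_of_nonneg_of_nonpos (sq_nonneg _) hd.le

lemma kK_zero : kK 0 = 1 := by
  unfold kK
  have h := intervalIntegral.integral_eq_sub_of_hasDerivAt (a := 0) (b := 1)
    (f := fun α => α - α ^ 2 / 2 - Real.cos (2 * Real.pi * α) / (2 * Real.pi) ^ 2)
    (f' := fun α => kg α) (fun α _ => by
      have a1 : HasDerivAt (fun α : ℝ => 2 * Real.pi * α) (2 * Real.pi) α := by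
        simpa using (hasDerivAt_id α).const_mul (2 * Real.pi)
      have a2 : HasDerivAt (fun α : ℝ => Real.cos (2 * Real.pi * α)) (-Real.sin (2 * Real.pi * α) * (2 * Real.pi)) α :=
        (Real.hasDerivAt_cos _).comp α a1
      have a3 : HasDerivAt (fun α : ℝ => α ^ 2) (2 * α) α := by simpa using hasDerivAt_pow 2 α
      have h5 := ((hasDerivAt_id α).sub (a3.div_const 2)).sub (a2.div_const ((2 * Real.pi) ^ 2))
      refine h5.congr_deriv ?_
      unfold kg
      have := Real.pi_pos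
      field_simp
      ring)
    (kg_cont.intervalIntegrable _ _)
  simp only [mul_zero, Real.cos_zero, mul_one]
  rw [h]
  simp
  norm_num

/-- the first moment -/
lemma int_mom (x : ℝ) : ∫ α in (0 : ℝ)..x, α * kg α = x ^ 2 / 2 - x ^ 3 / 3 -
    x * Real.cos (2 * Real.pi * x) / (2 * Real.pi) ^ 2 + Real.sin (2 * Real.pi * x) / (2 * Real.pi) ^ 3 := by
  have h := intervalIntegral.integral_eq_sub_of_hasDerivAt (a := 0) (b := x)
    (f := fun x => x ^ 2 / 2 - x ^ 3 / 3 -
      x * Real.cos (2 * Real.pi * x) / (2 * Real.pi) ^ 2 + Real.sin (2 * Real.pi * x) / (2 * Real.pi) ^ 3)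
    (f' := fun α => α * kg α) (fun α _ => by
      have a1 : HasDerivAt (fun α : ℝ => 2 * Real.pi * α) (2 * Real.pi) α := by
        simpa using (hasDerivAt_id α).const_mul (2 * Real.pi)
      have a2 : HasDerivAt (fun α : ℝ => Real.cos (2 * Real.pi * α)) (-Real.sin (2 * Real.pi * α) * (2 * Real.pi)) α :=
        (Real.hasDerivAt_cos _).comp α a1
      have a2' : HasDerivAt (fun α : ℝ => Real.sin (2 * Real.pi * α)) (Real.cos (2 * Real.pi * α) * (2 * Real.pi)) α :=
        (Real.hasDerivAt_sin _).comp α a1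
      have a3 : HasDerivAt (fun α : ℝ => α ^ 2) (2 * α) α := by simpa using hasDerivAt_pow 2 α
      have a4 : HasDerivAt (fun α : ℝ => α ^ 3) (3 * α ^ 2) α := by simpa using hasDerivAt_pow 3 α
      have h5 := (((a3.div_const 2).sub (a4.div_const 3)).sub
        (((hasDerivAt_id α).mul a2).div_const ((2 * Real.pi) ^ 2))).add (a2'.div_const ((2 * Real.pi) ^ 3))
      refine h5.congr_deriv ?_
      unfold kg
      have := Real.pi_pos
      simp only [id]
      field_simp
      ring)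
    ((continuous_id.mul kg_cont).intervalIntegrable _ _)
  rw [h]
  simp

/-- the numerical value -/
lemma kg_value : 0.0725 ≤ ∫ α in (0 : ℝ)..0.4124, α * kg α := by
  rw [int_mom]
  have hp1 := Real.pi_gt_d4
  have hp2 := Real.pi_lt_d4
  have hpi := Real.pi_pos
  obtain ⟨z, hz⟩ : ∃ z, z = Real.pi * 0.1752 := ⟨_, rfl⟩
  have hz1 : 0.5503 < z := by rw [hz]; linarith
  have hz2 : z < 0.5505 := by rw [hz]; linarith
  have hc : Real.cos (2 * Real.pi * 0.4124) = -Real.cos z := by
    rw [show 2 * Real.pi * 0.4124 = Real.pi - z by rw [hz]; ring, Real.cos_pi_sub]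
  have hs : Real.sin (2 * Real.pi * 0.4124) = Real.sin z := by
    rw [show 2 * Real.pi * 0.4124 = Real.pi - z by rw [hz]; ring, Real.sin_pi_sub]
  rw [hc, hs]
  have hz0 : |z| ≤ 1 := by rw [abs_of_pos (by linarith)]; linarith
  have hcb := (abs_le.1 (Real.cos_bound hz0)).1
  have hsb := (abs_le.1 (Real.sin_bound hz0)).1
  rw [abs_of_pos (by linarith : 0 < z)] at hcb hsb
  have hz2' : z ^ 2 ≤ 0.30306 := by nlinarith
  have hz3' : z ^ 3 ≤ 0.16685 := by nlinarith
  have hz4' : z ^ 4 ≤ 0.09186 := by nlinarith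
  have hz5' : z ^ 5 ≤ 0.0506 := by
    have : z ^ 5 = z ^ 4 * z := by ring
    rw [this]
    have h0 : 0 ≤ z ^ 4 := by positivity
    nlinarith
  have hcos : 0.8436 ≤ Real.cos z := by linarith
  have hsin : 0.5176 ≤ Real.sin z := by linarith
  have hp3 : (2 * Real.pi) ^ 2 ≤ 39.4797 := by nlinarith
  have hp4 : (2 * Real.pi) ^ 3 ≤ 248.07 := by
    have : (2 * Real.pi) ^ 3 = (2 * Real.pi) ^ 2 * (2 * Real.pi) := by ring
    rw [this]
    nlinarith
  have t1 : 0.4124 * 0.8436 / 39.4797 ≤ 0.4124 * Real.cos z / (2 * Real.pi) ^ 2 :=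
    div_le_div₀ (by positivity) (by linarith) (by positivity) hp3
  have t2 : 0.5176 / 248.07 ≤ Real.sin z / (2 * Real.pi) ^ 3 :=
    div_le_div₀ (by linarith) hsin (by positivity) hp4
  have e : (0.4124 : ℝ) * -Real.cos z / (2 * Real.pi) ^ 2 = -(0.4124 * Real.cos z / (2 * Real.pi) ^ 2) := by ring
  rw [e]
  norm_num at t1 t2 ⊢
  linarith

end

end Pool.Agent.U85.Ml
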