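import Pool.Agent.U85.Zd.Ci

set_option autoImplicit false

/-!
An abstract law of large numbers in mean square for a weighted integral over frequencies.
-/

namespace Pool.Agent.U85.Ml

open Filter Topology MeasureTheory Complex
open Pool.Agent.U85.Zd

/-- the kernel which dominates the indicator function of the near diagonal -/
noncomputable def nd (d α β : ℝ) : ℝ := 2 * (1 + ((β - α) / d) ^ 2)⁻¹

lemma nd_cont (d α : ℝ) : Continuous (nd d α) := by
  unfold nd
  refine continuous_const.mul (Continuous.inv₀ (by fun_prop) fun x => ?_)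
  positivity

lemma nd_nonneg (d α β : ℝ) : 0 ≤ nd d α β := by
  unfold nd
  positivity

lemma nd_ge {d α β : ℝ} (hd : 0 < d) (h : |β - α| ≤ d) : 1 ≤ nd d α β := by
  unfold nd
  have h1 : ((β - α) / d) ^ 2 ≤ 1 := by
    rw [div_pow, div_le_one (by positivity), ← sq_abs]
    exact pow_le_pow_left₀ (abs_nonneg _) h 2
  have h2 : (2 : ℝ)⁻¹ ≤ (1 + ((β - α) / d) ^ 2)⁻¹ := inv_anti₀ (by positivity) (by linarith)
  linarith

lemma nd_int {d α x y : ℝ} (hd : 0 < d) : ∫ β in x..y, nd d α β ≤ 7 * d := by
  have h1 : ∀ β : ℝ, nd d α β = 2 * (fun z : ℝ => (1 + z ^ 2)⁻¹) ((β - α) / d) := fun β => rfl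
  simp only [h1]
  rw [intervalIntegral.integral_const_mul,
    show (∫ β in x..y, (1 + ((β - α) / d) ^ 2)⁻¹) = ∫ β in x..y, (fun z : ℝ => (1 + z ^ 2)⁻¹) (β / d - α / d) by
      refine intervalIntegral.integral_congr fun β _ => ?_
      simp only [sub_div],
    intervalIntegral.integral_comp_div_sub (fun z : ℝ => (1 + z ^ 2)⁻¹) hd.ne', smul_eq_mul]
  have h2 := integral_inv_one_add_sq (a := x / d - α / d) (b := y / d - α / d)
  rw [h2]
  have h3 := Real.arctan_lt_pi_div_two (y / d - α / d)
  have h4 := Real.neg_pi_div_two_lt_arctan (x / d - α / d)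
  have h5 := Real.pi_lt_d2
  nlinarith

/-- the mean square deviation -/
theorem ll_abs {f : ℝ → ℝ → ℝ} {V R p : ℝ → ℝ} {a₀ a₁ A B M d e₁ e₂ e₃ e₄ W : ℝ}
    (hf : Continuous fun q : ℝ × ℝ => f q.1 q.2) (hV : Continuous V)
    (hR : Continuous R) (hR0 : ∀ x, 0 ≤ R x) (hM : ∀ x ∈ Set.Icc a₀ a₁, R x ≤ M) (hp : Continuous p)
    (hM0 : 0 ≤ M) (hp0 : ∀ x ∈ Set.Icc a₀ a₁, 0 ≤ p x)
    (ha : a₀ ≤ a₁) (ha1 : a₁ - a₀ ≤ 1) (hd : 0 < d) (he₁ : 0 ≤ e₁) (he₂ : 0 ≤ e₂) (he₃ : 0 ≤ e₃) (hW : 0 ≤ W)
    (hP : ∀ α ∈ Set.Icc a₀ a₁, ∀ β ∈ Set.Icc a₀ a₁, ∫ t in A..B, f α t * (f β t * V t) ≤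
      (p α * p β + e₁ + e₂ * nd d α β) * W)
    (hL : ∀ α ∈ Set.Icc a₀ a₁, (p α - e₃) * W ≤ ∫ t in A..B, f α t * V t)
    (hVi : ∫ t in A..B, V t ≤ (1 + e₄) * W) :
    ∫ t in A..B, ((2 * ∫ α in a₀..a₁, R α * f α t) - 2 * ∫ α in a₀..a₁, R α * p α) ^ 2 * V t ≤
      (4 * M ^ 2 * (e₁ + 7 * d * e₂) + 4 * (2 * ∫ α in a₀..a₁, R α * p α) * M * e₃ +
        e₄ * (2 * ∫ α in a₀..a₁, R α * p α) ^ 2) * W := by
  set S : ℝ := ∫ α in a₀..a₁, R α * p α with hS
  have hS0 : 0 ≤ S := intervalIntegral.integral_nonneg ha fun α hα => mul_nonneg (hR0 α) (hp0 α hα)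
  set X : ℝ → ℝ := fun t => ∫ α in a₀..a₁, R α * f α t with hX
  have hRp : Continuous fun q : ℝ × ℝ => R q.1 := hR.comp continuous_fst
  have hVp : Continuous fun q : ℝ × ℝ => V q.2 := hV.comp continuous_snd
  have hXc : Continuous X := par_c (F := fun α t => R α * f α t) (hRp.mul hf) _ _
  have hXp : Continuous fun q : ℝ × ℝ => X q.2 := hXc.comp continuous_snd
  have hfa : ∀ α, Continuous fun t => f α t := fun α =>
    hf.comp (continuous_const.prodMk continuous_id : Continuous fun t : ℝ => (α, t))
  have hMR : ∀ (g : ℝ → ℝ), Continuous g → (∀ x, 0 ≤ g x) → ∫ α in a₀..a₁, R α * g α ≤ M * ∫ α in a₀..a₁, g α := by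
    intro g hg hg0
    rw [← intervalIntegral.integral_const_mul]
    exact intervalIntegral.integral_mono_on ha ((hR.mul hg).intervalIntegrable _ _)
      ((continuous_const.mul hg).intervalIntegrable _ _) fun α hα => mul_le_mul_of_nonneg_right (hM α hα) (hg0 α)
  have hR1 : ∫ α in a₀..a₁, R α ≤ M := by
    have h1 := hMR (fun _ => 1) continuous_const (fun _ => zero_le_one)
    simp only [mul_one] at h1
    rw [intervalIntegral.integral_const, smul_eq_mul, mul_one] at h1
    have h2 : M * (a₁ - a₀) ≤ M := mul_le_of_le_one_right hM0 ha1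
    linarith
  have hR10 : 0 ≤ ∫ α in a₀..a₁, R α := intervalIntegral.integral_nonneg ha fun α _ => hR0 α
  -- the inner integral
  have h1 : ∀ α ∈ Set.Icc a₀ a₁, ∫ t in A..B, f α t * (X t * V t) ≤ (p α * S + M * (e₁ + 7 * d * e₂)) * W := by
    intro α hα
    have e1 : ∫ t in A..B, f α t * (X t * V t) = ∫ β in a₀..a₁, R β * ∫ t in A..B, f α t * (f β t * V t) := by
      have s1 := swap_c (F := fun β t => R β * (f α t * (f β t * V t)))
        (hRp.mul (((hfa α).comp continuous_snd).mul (hf.mul hVp))) A B a₀ a₁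
      have e2 : ∀ t, f α t * (X t * V t) = ∫ β in a₀..a₁, R β * (f α t * (f β t * V t)) := by
        intro t
        have e3 : ∀ β, R β * (f α t * (f β t * V t)) = (R β * f β t) * (f α t * V t) := fun β => by ring
        simp only [e3]
        rw [intervalIntegral.integral_mul_const, hX]
        ring
      simp only [e2]
      rw [s1]
      refine intervalIntegral.integral_congr fun β _ => ?_
      exact intervalIntegral.integral_const_mul _ _
    rw [e1]
    have hG : Continuous fun β => ∫ t in A..B, f α t * (f β t * V t) :=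
      intervalIntegral.continuous_parametric_intervalIntegral_of_continuous'
        (f := fun (β : ℝ) (t : ℝ) => f α t * (f β t * V t)) (((hfa α).comp continuous_snd).mul (hf.mul hVp)) A B
    have h2 : ∫ β in a₀..a₁, R β * (∫ t in A..B, f α t * (f β t * V t)) ≤
        ∫ β in a₀..a₁, ((p α * W) * (R β * p β) + (e₁ * W) * R β + (e₂ * W) * (R β * nd d α β)) := by
      have hn := nd_cont d α
      refine intervalIntegral.integral_mono_on ha ((hR.mul hG).intervalIntegrable _ _)
        (Continuous.intervalIntegrable (by fun_prop) _ _) fun β hβ => ?_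
      have h3 := mul_le_mul_of_nonneg_left (hP α hα β hβ) (hR0 β)
      refine h3.trans (le_of_eq ?_)
      ring
    refine h2.trans ?_
    have hn := nd_cont d α
    have c1 : Continuous fun β => (p α * W) * (R β * p β) := by fun_prop
    have c2 : Continuous fun β => (e₁ * W) * R β := by fun_prop
    have c3 : Continuous fun β => (e₂ * W) * (R β * nd d α β) := by fun_prop
    have c12 : Continuous fun β => (p α * W) * (R β * p β) + (e₁ * W) * R β := c1.add c2
    rw [intervalIntegral.integral_add (c12.intervalIntegrable _ _) (c3.intervalIntegrable _ _),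
      intervalIntegral.integral_add (c1.intervalIntegrable _ _) (c2.intervalIntegrable _ _),
      intervalIntegral.integral_const_mul, intervalIntegral.integral_const_mul, intervalIntegral.integral_const_mul, ← hS]
    have h4 : ∫ β in a₀..a₁, R β * nd d α β ≤ M * (7 * d) :=
      (hMR _ hn (nd_nonneg d α)).trans (mul_le_mul_of_nonneg_left (nd_int hd) hM0)
    have h5 := mul_le_mul_of_nonneg_left h4 (mul_nonneg he₂ hW)
    have h6 := mul_le_mul_of_nonneg_left hR1 (mul_nonneg he₁ hW)
    linarith
  -- the second moment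
  have h2 : ∫ t in A..B, X t * (X t * V t) ≤ (S ^ 2 + M ^ 2 * (e₁ + 7 * d * e₂)) * W := by
    have e1 : ∫ t in A..B, X t * (X t * V t) = ∫ α in a₀..a₁, R α * ∫ t in A..B, f α t * (X t * V t) := by
      have s1 := swap_c (F := fun α t => R α * (f α t * (X t * V t))) (hRp.mul (hf.mul (hXp.mul hVp))) A B a₀ a₁
      have e2 : ∀ t, X t * (X t * V t) = ∫ α in a₀..a₁, R α * (f α t * (X t * V t)) := by
        intro t
        have e3 : ∀ α, R α * (f α t * (X t * V t)) = (R α * f α t) * (X t * V t) := fun α => by ring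
        simp only [e3]
        rw [intervalIntegral.integral_mul_const]
      simp only [e2]
      rw [s1]
      refine intervalIntegral.integral_congr fun β _ => ?_
      exact intervalIntegral.integral_const_mul _ _
    rw [e1]
    have hG : Continuous fun α => ∫ t in A..B, f α t * (X t * V t) :=
      intervalIntegral.continuous_parametric_intervalIntegral_of_continuous'
        (f := fun (α : ℝ) (t : ℝ) => f α t * (X t * V t)) (hf.mul (hXp.mul hVp)) A B
    have h3 : ∫ α in a₀..a₁, R α * (∫ t in A..B, f α t * (X t * V t)) ≤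
        ∫ α in a₀..a₁, ((S * W) * (R α * p α) + (M * (e₁ + 7 * d * e₂) * W) * R α) := by
      refine intervalIntegral.integral_mono_on ha ((hR.mul hG).intervalIntegrable _ _)
        (Continuous.intervalIntegrable (by fun_prop) _ _) fun α hα => ?_
      refine (mul_le_mul_of_nonneg_left (h1 α hα) (hR0 α)).trans (le_of_eq ?_)
      ring
    refine h3.trans ?_
    have c1 : Continuous fun α => (S * W) * (R α * p α) := by fun_prop
    have c2 : Continuous fun α => (M * (e₁ + 7 * d * e₂) * W) * R α := by fun_prop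
    rw [intervalIntegral.integral_add (c1.intervalIntegrable _ _) (c2.intervalIntegrable _ _),
      intervalIntegral.integral_const_mul, intervalIntegral.integral_const_mul, ← hS]
    have h4 := mul_le_mul_of_nonneg_left hR1 (show 0 ≤ M * (e₁ + 7 * d * e₂) * W by positivity)
    nlinarith
  -- the first moment
  have h3 : (S - M * e₃) * W ≤ ∫ t in A..B, X t * V t := by
    have e1 : ∫ t in A..B, X t * V t = ∫ α in a₀..a₁, R α * ∫ t in A..B, f α t * V t := by
      have s1 := swap_c (F := fun α t => R α * (f α t * V t)) (hRp.mul (hf.mul hVp)) A B a₀ a₁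
      have e2 : ∀ t, X t * V t = ∫ α in a₀..a₁, R α * (f α t * V t) := by
        intro t
        have e3 : ∀ α, R α * (f α t * V t) = (R α * f α t) * V t := fun α => by ring
        simp only [e3]
        rw [intervalIntegral.integral_mul_const]
      simp only [e2]
      rw [s1]
      refine intervalIntegral.integral_congr fun β _ => ?_
      exact intervalIntegral.integral_const_mul _ _
    rw [e1]
    have hG : Continuous fun α => ∫ t in A..B, f α t * V t :=
      intervalIntegral.continuous_parametric_intervalIntegral_of_continuous'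
        (f := fun (α : ℝ) (t : ℝ) => f α t * V t) (hf.mul hVp) A B
    have h4 : ∫ α in a₀..a₁, (W * (R α * p α) - (e₃ * W) * R α) ≤
        ∫ α in a₀..a₁, R α * (∫ t in A..B, f α t * V t) := by
      refine intervalIntegral.integral_mono_on ha (Continuous.intervalIntegrable (by fun_prop) _ _)
        ((hR.mul hG).intervalIntegrable _ _) fun α hα => ?_
      refine le_trans (le_of_eq ?_) (mul_le_mul_of_nonneg_left (hL α hα) (hR0 α))
      ring
    refine le_trans ?_ h4
    have c1 : Continuous fun α => W * (R α * p α) := by fun_prop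
    have c2 : Continuous fun α => (e₃ * W) * R α := by fun_prop
    rw [intervalIntegral.integral_sub (c1.intervalIntegrable _ _) (c2.intervalIntegrable _ _),
      intervalIntegral.integral_const_mul, intervalIntegral.integral_const_mul, ← hS]
    have h5 := mul_le_mul_of_nonneg_left hR1 (mul_nonneg he₃ hW)
    linarith
  -- together
  have c1 : Continuous fun t => 4 * (X t * (X t * V t)) := by fun_prop
  have c2 : Continuous fun t => (8 * S) * (X t * V t) := by fun_prop
  have c3 : Continuous fun t => (4 * S ^ 2) * V t := by fun_prop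
  have c12 : Continuous fun t => 4 * (X t * (X t * V t)) - (8 * S) * (X t * V t) := c1.sub c2
  have e1 : ∫ t in A..B, (2 * X t - 2 * S) ^ 2 * V t = 4 * (∫ t in A..B, X t * (X t * V t)) -
      8 * S * (∫ t in A..B, X t * V t) + 4 * S ^ 2 * ∫ t in A..B, V t := by
    have e2 : ∀ t, (2 * X t - 2 * S) ^ 2 * V t = 4 * (X t * (X t * V t)) - (8 * S) * (X t * V t) + (4 * S ^ 2) * V t :=
      fun t => by ring
    simp only [e2]
    rw [intervalIntegral.integral_add (c12.intervalIntegrable _ _) (c3.intervalIntegrable _ _),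
      intervalIntegral.integral_sub (c1.intervalIntegrable _ _) (c2.intervalIntegrable _ _),
      intervalIntegral.integral_const_mul, intervalIntegral.integral_const_mul, intervalIntegral.integral_const_mul]
  rw [e1]
  have h5 := mul_le_mul_of_nonneg_left h3 (show 0 ≤ 8 * S by positivity)
  have h6 := mul_le_mul_of_nonneg_left hVi (show 0 ≤ 4 * S ^ 2 by positivity)
  nlinarith

end Pool.Agent.U85.Ml
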