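import Pool.Agent.U85.Ml.La
import Pool.Agent.U85.Ml.Fp

set_option autoImplicit false

/-!
The law of large numbers for the pair sums of the zeros near `t`, frequencies below one half: it holds
for almost all `t` in the mean against `|B|²`, for windows of bounded length in the scale of the mean
spacing.
-/

namespace Pool.Agent.U85.Ml

open Filter Topology MeasureTheory Complex
open scoped ComplexConjugate
open Pool.Agent.Q97.UM Pool.Agent.Q150.UM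

noncomputable section

/-- the law of large numbers -/
def S_LL : Prop := ∀ (R : ℝ → ℝ) (D lam a₁ : ℝ), (∀ x y : ℝ, |R x - R y| ≤ D * |x - y|) → (∀ x, 0 ≤ R x) →
  0 < lam → lam < 1 → 0 < a₁ → a₁ ≤ 1 → ∃ C₁ : ℝ, 1 ≤ C₁ ∧
  ∀ (δ H C : ℝ) (K : ℕ) (w : ℝ → ℝ) (θ ε : ℝ), 0 < δ → δ ≤ 1 / 16 → 3 * δ ≤ lam * a₁ → lam * a₁ + 4 * δ ≤ 1 / 2 →
  1 ≤ H → 1 ≤ C → 2 ≤ K → OmW δ H C K w → 0 < θ → θ ≤ 1 / 40 → θ ≤ δ / 4 → 0 < ε → ∀ᶠ T : ℝ in atTop,
    ∀ N : ℕ, (N : ℝ) ≤ T ^ θ → ∀ b : ℕ → ℂ,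
    ∫ t in (T + 2 * Real.log T)..(2 * T - 2 * Real.log T),
        |2 * (∫ α in (3 * δ / lam)..a₁, R α * ‖Zt w T (lam * Real.log T * α) t‖ ^ 2) -
          2 * lam * (∫ α in (0 : ℝ)..a₁, α * R α) * I2 w| * ‖dp N b t‖ ^ 2 ≤
      (C₁ * Real.sqrt (δ + Real.sqrt θ) * I2 w + ε) * (T * N2 N b)

/-- from mean square to mean absolute value -/
lemma l2_l1 {A B : ℝ} (hAB : A ≤ B) {X V : ℝ → ℝ} (hX : Continuous X) (hV : Continuous V) (hV0 : ∀ t, 0 ≤ V t)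
    {m m₀ τ r W : ℝ} (hτ : 0 < τ) (hW : 0 ≤ W) (h2 : ∫ t in A..B, (X t - m₀) ^ 2 * V t ≤ τ ^ 2 * W)
    (hVi : ∫ t in A..B, V t ≤ 2 * W) (hm : |m₀ - m| ≤ r) (hr : 0 ≤ r) :
    ∫ t in A..B, |X t - m| * V t ≤ (2 * τ + 2 * r) * W := by
  have hpt : ∀ t ∈ Set.Icc A B, |X t - m| * V t ≤ (1 / (2 * τ)) * ((X t - m₀) ^ 2 * V t) + (τ / 2 + r) * V t := by
    intro t _
    have h3 : |X t - m| ≤ |X t - m₀| + r := by
      have := abs_add_le (X t - m₀) (m₀ - m)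
      rw [sub_add_sub_cancel] at this
      linarith
    have h4 : |X t - m₀| ≤ 1 / (2 * τ) * (X t - m₀) ^ 2 + τ / 2 := by
      have h5 : 0 ≤ (|X t - m₀| - τ) ^ 2 / (2 * τ) := by positivity
      have h6 : (|X t - m₀| - τ) ^ 2 / (2 * τ) = 1 / (2 * τ) * (X t - m₀) ^ 2 + τ / 2 - |X t - m₀| := by
        rw [← sq_abs (X t - m₀)]
        field_simp
        ring
      linarith
    have h7 := mul_le_mul_of_nonneg_right (h3.trans (add_le_add_left h4 r)) (hV0 t)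
    refine h7.trans (le_of_eq ?_)
    ring
  have c1 : Continuous fun t => (1 / (2 * τ)) * ((X t - m₀) ^ 2 * V t) := by fun_prop
  have c2 : Continuous fun t => (τ / 2 + r) * V t := by fun_prop
  have c12 : IntervalIntegrable (fun t => (1 / (2 * τ)) * ((X t - m₀) ^ 2 * V t) + (τ / 2 + r) * V t) volume A B :=
    Continuous.intervalIntegrable (by fun_prop) _ _
  refine (intervalIntegral.integral_mono_on hAB (Continuous.intervalIntegrable (by fun_prop) _ _) c12 hpt).trans ?_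
  rw [intervalIntegral.integral_add (c1.intervalIntegrable _ _) (c2.intervalIntegrable _ _),
    intervalIntegral.integral_const_mul, intervalIntegral.integral_const_mul]
  have h3 := mul_le_mul_of_nonneg_left h2 (show 0 ≤ 1 / (2 * τ) by positivity)
  have h4 := mul_le_mul_of_nonneg_left hVi (show 0 ≤ τ / 2 + r by positivity)
  have h5 : 1 / (2 * τ) * (τ ^ 2 * W) = τ / 2 * W := by
    field_simp
  have h6 : 0 ≤ τ * W := by positivity
  linarith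

/-- the numerical part -/
lemma num_ll {M I s δ lam C₀ CZ e' ε d e₁ e₂ e₃ e₄ m₀ C₅ τ : ℝ} (hM : 0 ≤ M) (hI : 0 ≤ I) (hδ : 0 ≤ δ) (hδs : δ ≤ s)
    (hlam : 0 < lam) (hC₀ : 0 ≤ C₀) (hCZ : 0 ≤ CZ) (he' : 0 ≤ e') (hε : 0 ≤ ε) (hd : d = 5 * δ / lam)
    (he₁ : e₁ = C₀ * δ * I ^ 2 + e') (he₂ : e₂ = C₀ * I ^ 2) (he₃ : e₃ = CZ * s * I + e') (he₄ : e₄ = e')
    (hm0 : 0 ≤ m₀) (hm : m₀ ≤ 2 * M * I) (hC₅ : C₅ = M ^ 2 * (4 * C₀ + 140 * C₀ / lam + 8 * CZ))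
    (hτ : τ = Real.sqrt (C₅ * s) * I + ε) (hee : e' * (M ^ 2 * (4 + 8 * I + 4 * I ^ 2)) ≤ ε ^ 2) :
    4 * M ^ 2 * (e₁ + 7 * d * e₂) + 4 * m₀ * M * e₃ + e₄ * m₀ ^ 2 ≤ τ ^ 2 := by
  have hs : 0 ≤ s := hδ.trans hδs
  have hC₅0 : 0 ≤ C₅ := by rw [hC₅]; positivity
  have h1 : τ ^ 2 = C₅ * s * I ^ 2 + 2 * (Real.sqrt (C₅ * s) * I * ε) + ε ^ 2 := by
    have := Real.sq_sqrt (mul_nonneg hC₅0 hs)
    rw [hτ]
    linear_combination (I ^ 2) * this
  have h2 : 0 ≤ Real.sqrt (C₅ * s) * I * ε := by positivity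
  have h3 : m₀ * M ≤ 2 * M ^ 2 * I := by
    have := mul_le_mul_of_nonneg_right hm hM
    linarith
  have h4 : m₀ ^ 2 ≤ 4 * M ^ 2 * I ^ 2 := by
    have := pow_le_pow_left₀ hm0 hm 2
    linarith
  have he₃0 : 0 ≤ e₃ := by rw [he₃]; positivity
  have he₄0 : 0 ≤ e₄ := by rw [he₄]; exact he'
  have h5 : 4 * m₀ * M * e₃ ≤ 8 * M ^ 2 * I * e₃ := by
    have := mul_le_mul_of_nonneg_right h3 he₃0
    linarith
  have h6 : e₄ * m₀ ^ 2 ≤ e₄ * (4 * M ^ 2 * I ^ 2) := mul_le_mul_of_nonneg_left h4 he₄0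
  have h7 : 4 * M ^ 2 * (e₁ + 7 * d * e₂) + 8 * M ^ 2 * I * e₃ + e₄ * (4 * M ^ 2 * I ^ 2) =
      M ^ 2 * (4 * C₀ + 140 * C₀ / lam) * I ^ 2 * δ + M ^ 2 * (8 * CZ) * I ^ 2 * s +
        e' * (M ^ 2 * (4 + 8 * I + 4 * I ^ 2)) := by
    rw [he₁, he₂, he₃, he₄, hd]
    ring
  have h8 : M ^ 2 * (4 * C₀ + 140 * C₀ / lam) * I ^ 2 * δ ≤ M ^ 2 * (4 * C₀ + 140 * C₀ / lam) * I ^ 2 * s :=
    mul_le_mul_of_nonneg_left hδs (by positivity)
  have h9 : C₅ * s * I ^ 2 = M ^ 2 * (4 * C₀ + 140 * C₀ / lam) * I ^ 2 * s + M ^ 2 * (8 * CZ) * I ^ 2 * s := by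
    rw [hC₅]
    ring
  rw [h1, h9]
  linarith

theorem t_LL (hMV : S_MV2) (hZU : S_ZU) (hZ4 : S_Z4) : S_LL := by
  obtain ⟨C₂, hC₂, hMV⟩ := hMV
  obtain ⟨CZ, hCZ, hZU⟩ := hZU
  obtain ⟨C₀, hC₀, hZ4⟩ := hZ4
  intro R E lam a₁ hR hRn hlam hlam1 ha₁ ha₁1
  have hE : 0 ≤ E := by
    have := hR 0 1
    have h2 := abs_nonneg (R 0 - R 1)
    simp only [zero_sub, abs_neg, abs_one, mul_one] at this
    linarith
  have hRc : Continuous R := by
    have : LipschitzWith (Real.toNNReal E) R := by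
      refine LipschitzWith.of_dist_le_mul fun x y => ?_
      rw [Real.dist_eq, Real.dist_eq]
      exact (hR x y).trans (mul_le_mul_of_nonneg_right (Real.le_coe_toNNReal E) (abs_nonneg _))
    exact this.continuous
  obtain ⟨M, hMdef⟩ : ∃ M : ℝ, M = |R 0| + E := ⟨_, rfl⟩
  have hM : 0 ≤ M := by rw [hMdef]; positivity
  have hRM : ∀ α : ℝ, 0 ≤ α → α ≤ 1 → R α ≤ M := by
    intro α h0 h1
    have h2 := hR α 0
    rw [sub_zero, abs_of_nonneg h0] at h2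
    have h3 : |R α| ≤ |R α - R 0| + |R 0| := by
      have := abs_add_le (R α - R 0) (R 0)
      rwa [sub_add_cancel] at this
    have h4 : E * α ≤ E := mul_le_of_le_one_right hE h1
    have h5 := le_abs_self (R α)
    rw [hMdef]
    linarith
  obtain ⟨C₅, hC₅⟩ : ∃ C₅ : ℝ, C₅ = M ^ 2 * (4 * C₀ + 140 * C₀ / lam + 8 * CZ) := ⟨_, rfl⟩
  have hC₅0 : 0 ≤ C₅ := by rw [hC₅]; positivity
  refine ⟨1 + 2 * Real.sqrt C₅ + 24 * M, by have := Real.sqrt_nonneg C₅; linarith, ?_⟩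
  intro δ H C K w θ ε hδ hδ1 hδl hδ2 hH hC hK hw hθ hθ1 hθδ hε
  have hI := I2_nonneg w
  obtain ⟨e', he'⟩ : ∃ e' : ℝ, e' = min 1 ((ε / 2) ^ 2 / (M ^ 2 * (4 + 8 * I2 w + 4 * I2 w ^ 2) + 1)) := ⟨_, rfl⟩
  have he'0 : 0 < e' := by rw [he']; positivity
  have he'1 : e' ≤ 1 := by rw [he']; exact min_le_left _ _
  have hee : e' * (M ^ 2 * (4 + 8 * I2 w + 4 * I2 w ^ 2)) ≤ (ε / 2) ^ 2 := by
    have h1 : e' ≤ (ε / 2) ^ 2 / (M ^ 2 * (4 + 8 * I2 w + 4 * I2 w ^ 2) + 1) := by rw [he']; exact min_le_right _ _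
    rw [le_div_iff₀ (by positivity)] at h1
    linarith
  filter_upwards [hZU δ H C K w θ e' 1 hδ hδ1 hH hC hK hw hθ hθ1 he'0 one_pos le_rfl,
    hZ4 δ H C K w θ e' hδ hδ1 hH hC hK hw hθ hθ1 hθδ he'0, ev_log 1, ev_loglin (1 / 8) (by norm_num),
    ev_short C₂ e' θ (by linarith) he'0 hθ1, eventually_ge_atTop (1 : ℝ)] with T hZU hZ4 hL1 hL8 hSh hT1 N hN b
  have hT0 : 0 < T := by linarith
  obtain ⟨L, hL⟩ : ∃ L, L = Real.log T := ⟨_, rfl⟩
  rw [← hL] at hL1 hL8 hZU hZ4 ⊢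
  have hL0 : 0 < L := by linarith
  obtain ⟨A, hA⟩ : ∃ A, A = T + 2 * L := ⟨_, rfl⟩
  obtain ⟨B, hB⟩ : ∃ B, B = 2 * T - 2 * L := ⟨_, rfl⟩
  rw [← hA, ← hB] at hZU hZ4 ⊢
  have hAB : A ≤ B := by rw [hA, hB]; linarith
  have hBA : B - A ≤ T := by rw [hA, hB]; linarith
  obtain ⟨W, hW⟩ : ∃ W, W = T * N2 N b := ⟨_, rfl⟩
  have hn2 := Pool.Agent.Q150.UM.N2_nonneg N b
  have hW0 : 0 ≤ W := by rw [hW]; positivity
  rw [← hW]
  obtain ⟨a₀, ha₀⟩ : ∃ a₀, a₀ = 3 * δ / lam := ⟨_, rfl⟩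
  rw [← ha₀]
  have ha00 : 0 < a₀ := by rw [ha₀]; positivity
  have ha01 : a₀ ≤ a₁ := by
    rw [ha₀, div_le_iff₀ hlam]
    linarith
  obtain ⟨I, hId⟩ : ∃ I, I = I2 w := ⟨_, rfl⟩
  rw [← hId] at hI hee hZU hZ4 ⊢
  obtain ⟨s, hs⟩ : ∃ s, s = δ + Real.sqrt θ := ⟨_, rfl⟩
  have hsθ := Real.sqrt_nonneg θ
  have hδs : δ ≤ s := by rw [hs]; linarith
  have hs0 : 0 < s := lt_of_lt_of_le hδ hδs
  rw [← hs]
  have hVc : Continuous fun t => ‖dp N b t‖ ^ 2 := by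
    have := dp_cont N b
    fun_prop
  have hV0 : ∀ t, 0 ≤ ‖dp N b t‖ ^ 2 := fun t => by positivity
  have hVi : ∫ t in A..B, ‖dp N b t‖ ^ 2 ≤ (1 + e') * W := by
    have h1 := (abs_le.1 (dp_ms hMV A B hAB N b)).2
    have h2 := mul_le_mul_of_nonneg_right (hSh N hN) hn2
    have h3 := mul_le_mul_of_nonneg_right hBA hn2
    rw [hW]
    linarith
  have hf : Continuous fun q : ℝ × ℝ => ‖Zt w T (lam * L * q.1) q.2‖ ^ 2 :=
    (Pool.Agent.Q97.UM.Zt_cont hw hδ T (lam * L)).norm.pow 2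
  obtain ⟨d, hd⟩ : ∃ d, d = 5 * δ / lam := ⟨_, rfl⟩
  have hd0 : 0 < d := by rw [hd]; positivity
  have hu : ∀ α ∈ Set.Icc a₀ a₁, 3 * δ * L ≤ lam * L * α ∧ lam * L * α ≤ (1 / 2 - 4 * δ) * L := by
    intro α hα
    constructor
    · have h1 : 3 * δ ≤ α * lam := by
        have := hα.1
        rw [ha₀, div_le_iff₀ hlam] at this
        exact this
      have := mul_le_mul_of_nonneg_right h1 hL0.le
      linarith
    · have h1 : lam * α ≤ lam * a₁ := mul_le_mul_of_nonneg_left hα.2 hlam.le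
      have h2 : lam * α ≤ 1 / 2 - 4 * δ := by linarith
      have := mul_le_mul_of_nonneg_right h2 hL0.le
      linarith
  have hdiv : ∀ α, lam * L * α / L = lam * α := fun α => by field_simp
  have hP1 : ∀ α ∈ Set.Icc a₀ a₁, ∀ β ∈ Set.Icc a₀ a₁, β ≤ α →
      ∫ t in A..B, ‖Zt w T (lam * L * α) t‖ ^ 2 * (‖Zt w T (lam * L * β) t‖ ^ 2 * ‖dp N b t‖ ^ 2) ≤
      (lam * α * I * (lam * β * I) + (C₀ * δ * I ^ 2 + e') + C₀ * I ^ 2 * nd d α β) * W := by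
    intro α hα β hβ hβα
    obtain ⟨h1, h2⟩ := hu α hα
    obtain ⟨h1', h2'⟩ := hu β hβ
    obtain ⟨g1, g2⟩ := hZ4 N hN b (lam * L * α) (lam * L * β) h1' (mul_le_mul_of_nonneg_left hβα (by positivity)) h2
    have hnd := nd_nonneg d α β
    have hα0 : 0 ≤ α := ha00.le.trans hα.1
    have hβ0 : 0 ≤ β := ha00.le.trans hβ.1
    by_cases hc : lam * L * β + 5 * δ * L ≤ lam * L * α
    · refine (g2 hc).trans ?_
      rw [hdiv, hdiv, mul_assoc _ T, ← hW]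
      refine mul_le_mul_of_nonneg_right ?_ hW0
      have : 0 ≤ C₀ * I ^ 2 * nd d α β := by positivity
      linarith
    · push Not at hc
      refine g1.trans ?_
      rw [mul_assoc _ T, ← hW]
      refine mul_le_mul_of_nonneg_right ?_ hW0
      have h3 : |β - α| ≤ d := by
        rw [abs_sub_comm, abs_of_nonneg (by linarith), hd, le_div_iff₀ hlam]
        have h4 : (α - β) * lam * L ≤ 5 * δ * L := by linarith
        exact le_of_mul_le_mul_right h4 hL0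
      have h4 := nd_ge (α := α) (β := β) hd0 h3
      have h5 : C₀ * I ^ 2 * 1 ≤ C₀ * I ^ 2 * nd d α β := mul_le_mul_of_nonneg_left h4 (by positivity)
      have h6 : 0 ≤ lam * α * I * (lam * β * I) := by positivity
      have h7 : 0 ≤ C₀ * δ * I ^ 2 := by positivity
      linarith
  have hP : ∀ α ∈ Set.Icc a₀ a₁, ∀ β ∈ Set.Icc a₀ a₁,
      ∫ t in A..B, ‖Zt w T (lam * L * α) t‖ ^ 2 * (‖Zt w T (lam * L * β) t‖ ^ 2 * ‖dp N b t‖ ^ 2) ≤
      (lam * α * I * (lam * β * I) + (C₀ * δ * I ^ 2 + e') + C₀ * I ^ 2 * nd d α β) * W := by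
    intro α hα β hβ
    rcases le_total β α with h | h
    · exact hP1 α hα β hβ h
    · have h1 := hP1 β hβ α hα h
      have e1 : ∀ t, ‖Zt w T (lam * L * α) t‖ ^ 2 * (‖Zt w T (lam * L * β) t‖ ^ 2 * ‖dp N b t‖ ^ 2) =
          ‖Zt w T (lam * L * β) t‖ ^ 2 * (‖Zt w T (lam * L * α) t‖ ^ 2 * ‖dp N b t‖ ^ 2) := fun t => by ring
      have e2 : nd d α β = nd d β α := by
        unfold nd
        congr 3
        rw [div_pow, div_pow]
        congr 1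
        ring
      simp only [e1]
      rw [e2, mul_comm (lam * α * I)]
      exact h1
  have hLo : ∀ α ∈ Set.Icc a₀ a₁, (lam * α * I - (CZ * s * I + e')) * W ≤
      ∫ t in A..B, ‖Zt w T (lam * L * α) t‖ ^ 2 * ‖dp N b t‖ ^ 2 := by
    intro α hα
    obtain ⟨h1, h2⟩ := hu α hα
    have hα0 : 0 ≤ α := ha00.le.trans hα.1
    have g := hZU N hN b (lam * L * α) (by positivity) (by
      have : (1 / 2 - 4 * δ) * L ≤ (1 - 4 * δ - 2 * θ) * L := mul_le_mul_of_nonneg_right (by linarith) hL0.le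
      linarith)
    rw [if_pos h1, hdiv] at g
    have g1 := (abs_le.1 g).1
    have e1 : (QL w L (lam * L * α) ^ 2 + lam * α * I) * T * N2 N b = QL w L (lam * L * α) ^ 2 * W + lam * α * I * W := by
      rw [hW]; ring
    have e2 : (CZ * (δ + Real.sqrt θ) * I + e') * T * N2 N b = (CZ * s * I + e') * W := by rw [hW, hs]; ring
    rw [e1, e2] at g1
    have : 0 ≤ QL w L (lam * L * α) ^ 2 * W := by positivity
    linarith
  have hfin := ll_abs (p := fun α => lam * α * I) (M := M) hf hVc hRc hRn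
    (fun α hα => hRM α (ha00.le.trans hα.1) (hα.2.trans ha₁1)) (by fun_prop) hM
    (fun α hα => by
      have : 0 ≤ α := ha00.le.trans hα.1
      positivity)
    ha01 (by linarith) hd0 (by positivity) (by positivity) (by positivity) hW0 hP hLo hVi
  -- the mean value
  obtain ⟨J, hJ⟩ : ∃ J, J = ∫ α in (0 : ℝ)..a₁, α * R α := ⟨_, rfl⟩
  rw [← hJ]
  have hRa : Continuous fun α : ℝ => α * R α := continuous_id.mul hRc
  have hJ0 : ∫ α in a₀..a₁, R α * (lam * α * I) = lam * I * ∫ α in a₀..a₁, α * R α := by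
    rw [← intervalIntegral.integral_const_mul]
    refine intervalIntegral.integral_congr fun α _ => ?_
    ring
  rw [hJ0] at hfin
  obtain ⟨J₀, hJ₀⟩ : ∃ J₀, J₀ = ∫ α in a₀..a₁, α * R α := ⟨_, rfl⟩
  rw [← hJ₀] at hfin
  have hJ₀0 : 0 ≤ J₀ := by
    rw [hJ₀]
    exact intervalIntegral.integral_nonneg ha01 fun α hα => mul_nonneg (ha00.le.trans hα.1) (hRn α)
  have hJ₀M : J₀ ≤ M := by
    have h1 : ∫ α in a₀..a₁, α * R α ≤ ∫ α in a₀..a₁, M := by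
      refine intervalIntegral.integral_mono_on ha01 (hRa.intervalIntegrable _ _) (by simp) fun α hα => ?_
      have h0 := ha00.le.trans hα.1
      calc α * R α ≤ 1 * M := mul_le_mul (hα.2.trans ha₁1) (hRM α h0 (hα.2.trans ha₁1)) (hRn α) zero_le_one
        _ = M := one_mul _
    rw [intervalIntegral.integral_const, smul_eq_mul] at h1
    have h2 : (a₁ - a₀) * M ≤ 1 * M := mul_le_mul_of_nonneg_right (by linarith) hM
    rw [hJ₀]
    linarith
  have hJJ : J - J₀ = ∫ α in (0 : ℝ)..a₀, α * R α := by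
    rw [hJ, hJ₀]
    have := intervalIntegral.integral_add_adjacent_intervals (hRa.intervalIntegrable (μ := volume) 0 a₀)
      (hRa.intervalIntegrable a₀ a₁)
    linarith
  have hJJ0 : 0 ≤ J - J₀ := by
    rw [hJJ]
    exact intervalIntegral.integral_nonneg ha00.le fun α hα => mul_nonneg hα.1 (hRn α)
  have hJJ1 : J - J₀ ≤ M * a₀ := by
    rw [hJJ]
    have h1 : ∫ α in (0 : ℝ)..a₀, α * R α ≤ ∫ α in (0 : ℝ)..a₀, M := by
      refine intervalIntegral.integral_mono_on ha00.le (hRa.intervalIntegrable _ _) (by simp) fun α hα => ?_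
      calc α * R α ≤ 1 * M := mul_le_mul (hα.2.trans (ha01.trans ha₁1)) (hRM α hα.1 (hα.2.trans (ha01.trans ha₁1)))
            (hRn α) zero_le_one
        _ = M := one_mul _
    rw [intervalIntegral.integral_const, smul_eq_mul] at h1
    linarith
  obtain ⟨τ, hτ⟩ : ∃ τ, τ = Real.sqrt (C₅ * s) * I + ε / 2 := ⟨_, rfl⟩
  have hτ0 : 0 < τ := by rw [hτ]; positivity
  have hnum := num_ll (m₀ := 2 * (lam * I * J₀)) hM hI hδ.le hδs hlam (by linarith : 0 ≤ C₀) (by linarith : 0 ≤ CZ) he'0.le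
    (by positivity : 0 ≤ ε / 2) hd rfl rfl rfl rfl (by positivity) (by
      have h1 : lam * (I * J₀) ≤ 1 * (I * J₀) := mul_le_mul_of_nonneg_right hlam1.le (by positivity)
      have h2 : I * J₀ ≤ I * M := mul_le_mul_of_nonneg_left hJ₀M hI
      linarith) hC₅ hτ hee
  have h2 := hfin.trans (mul_le_mul_of_nonneg_right hnum hW0)
  have hXc : Continuous fun t => 2 * ∫ α in a₀..a₁, R α * ‖Zt w T (lam * L * α) t‖ ^ 2 :=
    continuous_const.mul (Pool.Agent.U85.Zd.par_c (F := fun α t => R α * ‖Zt w T (lam * L * α) t‖ ^ 2)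
      ((hRc.comp continuous_fst).mul hf) _ _)
  have hVi2 : ∫ t in A..B, ‖dp N b t‖ ^ 2 ≤ 2 * W :=
    hVi.trans (mul_le_mul_of_nonneg_right (by linarith) hW0)
  have hmm : |2 * (lam * I * J₀) - 2 * lam * J * I| ≤ 6 * M * δ * I := by
    have e1 : 2 * (lam * I * J₀) - 2 * lam * J * I = -(2 * lam * I * (J - J₀)) := by ring
    rw [e1, abs_neg, abs_of_nonneg (by positivity)]
    have h3 : 2 * lam * I * (J - J₀) ≤ 2 * lam * I * (M * a₀) := mul_le_mul_of_nonneg_left hJJ1 (by positivity)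
    refine h3.trans (le_of_eq ?_)
    rw [ha₀]
    field_simp
    ring
  have h3 := l2_l1 hAB hXc hVc hV0 hτ0 hW0 h2 hVi2 hmm (by positivity)
  refine h3.trans (mul_le_mul_of_nonneg_right ?_ hW0)
  have hsq : Real.sqrt (C₅ * s) = Real.sqrt C₅ * Real.sqrt s := Real.sqrt_mul hC₅0 _
  have hs2 : s ≤ 2 * Real.sqrt s := by
    have h4 : s ≤ 4 := by
      have : Real.sqrt θ ≤ 1 := by rw [Real.sqrt_le_one]; linarith
      rw [hs]
      linarith
    have h5 := Real.sq_sqrt hs0.le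
    have h6 : Real.sqrt s ≤ 2 := by
      rw [Real.sqrt_le_left (by norm_num)]
      linarith
    nlinarith [Real.sqrt_nonneg s]
  rw [hτ, hsq]
  have h7 : M * δ * I ≤ M * (2 * Real.sqrt s) * I :=
    mul_le_mul_of_nonneg_right (mul_le_mul_of_nonneg_left (hδs.trans hs2) hM) hI
  have h8 : 0 ≤ Real.sqrt s * I := by positivity
  nlinarith

end

end Pool.Agent.U85.Ml
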