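import Pool.Agent.U85.Ml.Lm

set_option autoImplicit false

/-!
Proof of the law of large numbers for sharp windows.
-/

namespace Pool.Agent.U85.Ml

open Filter Topology MeasureTheory Complex
open Pool.Agent.Q97.UM Pool.Agent.U85.Zd

noncomputable section

/-- the exceptional set for one `T` -/
lemma lm_T {R R₁ : ℝ → ℝ} {a κ e ε₀ m M h H T δ C Y E k C₄ W : ℝ} {K K₁ : ℕ} {w : ℝ → ℝ} {N : ℕ} {b : ℕ → ℂ}
    (hw : OmW δ H C K w) (hδ0 : 0 < δ) (hH1 : 1 ≤ H) (hRc : Continuous R) (hRn : ∀ x, 0 ≤ R x) (ha : 0 < a)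
    (ha2 : a < 1 / 2) (hRM : ∀ x ∈ Set.Icc 0 a, R x ≤ M) (hM : 0 ≤ M)
    (hm : m = R 0 + 2 * ∫ β in (0 : ℝ)..a, β * R β) (hm0 : 0 ≤ m) (hR₁v : ∀ α, R₁ α = a * R (a * α))
    (hκ : 0 < κ) (he0 : 0 < e) (he1 : e ≤ 1) (hee : e ≤ ε₀) (hk : k = κ * e / 160) (hh : h = H / Real.pi) (hh0 : 0 < h)
    (hE0 : 0 ≤ E) (hC₄ : 0 ≤ C₄) (hYe : Real.exp (3 * δ * Y) = 4 * C₄ / κ + 1) (hLT1 : 1 ≤ Real.log T)
    (hxy : T + 2 * Real.log T ≤ 2 * T - 2 * Real.log T) (hW0 : 0 ≤ W)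
    (b1 : ∫ t in (T + 2 * Real.log T)..(2 * T - 2 * Real.log T),
      |2 * (∫ α in (0 : ℝ)..1, R₁ α * ‖Zt w T (a * Real.log T * α) t‖ ^ 2) - m * I2 w| * ‖dp N b t‖ ^ 2 ≤ 3 * k * h * W)
    (b2 : ∫ t in (T + 2 * Real.log T)..(2 * T - 2 * Real.log T), |(Zt w T 0 t).re - qh w 0| * ‖dp N b t‖ ^ 2 ≤
      2 * k * h * W)
    (b3 : ∫ t in (T + 2 * Real.log T)..(2 * T - 2 * Real.log T), ErrS δ H K₁ T t * ‖dp N b t‖ ^ 2 ≤ C₄ * W)
    (hSh : ∀ u t : ℝ, 0 ≤ u → u ≤ Real.log T / 2 → ErrS δ H K₁ T t ≤ Real.exp (3 * δ * Y) →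
      ‖Zt w T u t - Ssh T (H / Real.log T) u t‖ ≤ E)
    (g4 : |qh w 0 - h| ≤ e / 8 * h) (g5 : m * |I2 w - h| ≤ e / 8 * h) (f3 : E ≤ e / 8 * h)
    (f4 : 64 * M * (m + 2) * E ^ 2 ≤ e ^ 2 * h) :
    ∃ G : Set ℝ, MeasurableSet G ∧
      ∫ t in Set.Ioc (T + 2 * Real.log T) (2 * T - 2 * Real.log T) ∩ G, ‖dp N b t‖ ^ 2 ≤ κ * W ∧
      ∀ t ∈ Set.Ioc (T + 2 * Real.log T) (2 * T - 2 * Real.log T), t ∉ G → GoodPt R a H T ε₀ t := by
  have hVc : Continuous (fun t : ℝ => ‖dp N b t‖ ^ 2) := (Pool.Agent.Q150.UM.dp_cont N b).norm.pow 2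
  have hV0 : ∀ t : ℝ, 0 ≤ ‖dp N b t‖ ^ 2 := fun t => by positivity
  have hZ2 := Pool.Agent.Q97.UM.Zt_cont hw hδ0 T (a * Real.log T)
  have hZ1 := Pool.Agent.Q97.UM.Zt_cont hw hδ0 T 1
  have hR₁c : Continuous R₁ := by
    rw [show R₁ = fun α => a * R (a * α) from funext hR₁v]
    fun_prop
  obtain ⟨X, hX⟩ : ∃ X : ℝ → ℝ, X = fun t => 2 * ∫ α in (0 : ℝ)..1, R₁ α * ‖Zt w T (a * Real.log T * α) t‖ ^ 2 := ⟨_, rfl⟩
  have hXc : Continuous X := by
    rw [hX]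
    exact continuous_const.mul (par_c (F := fun α t => R₁ α * ‖Zt w T (a * Real.log T * α) t‖ ^ 2)
      ((hR₁c.comp continuous_fst).mul (hZ2.norm.pow 2)) _ _)
  have hZ0c : Continuous (fun t : ℝ => (Zt w T 0 t).re) := by
    have h1 := hZ1.comp (continuous_const.prodMk continuous_id : Continuous fun t : ℝ => ((0 : ℝ), t))
    have e : (fun t : ℝ => Zt w T 0 t) = (fun p : ℝ × ℝ => Zt w T (1 * p.1) p.2) ∘ (fun t : ℝ => ((0 : ℝ), t)) := by
      funext t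
      simp
    rw [← e] at h1
    exact Complex.continuous_re.comp h1
  obtain ⟨mE, ⟨B4, bE⟩, eE⟩ := ErrS_meas (δ := δ) hH1 K₁ T
  obtain ⟨r, hr⟩ : ∃ r, r = 8 / (e * h) := ⟨_, rfl⟩
  have hr0 : 0 < r := by rw [hr]; positivity
  obtain ⟨s, hs⟩ : ∃ s, s = (Real.exp (3 * δ * Y))⁻¹ := ⟨_, rfl⟩
  have hs0 : 0 < s := by rw [hs]; positivity
  obtain ⟨F, hF⟩ : ∃ F : ℝ → ℝ, F = fun t => r * |X t - m * I2 w| + r * |(Zt w T 0 t).re - qh w 0| +
    s * ErrS δ H K₁ T t := ⟨_, rfl⟩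
  have hFm : Measurable F := by
    rw [hF]
    have m1 : Measurable fun t => r * |X t - m * I2 w| := by
      exact (continuous_const.mul ((hXc.sub continuous_const).abs)).measurable
    have m2 : Measurable fun t => r * |(Zt w T 0 t).re - qh w 0| := by
      exact (continuous_const.mul ((hZ0c.sub continuous_const).abs)).measurable
    exact (m1.add m2).add (mE.const_mul s)
  have hF0 : ∀ t, 0 ≤ F t := by
    intro t
    rw [hF]
    have h2 := mul_nonneg hr0.le (abs_nonneg (X t - m * I2 w))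
    have h3 := mul_nonneg hr0.le (abs_nonneg ((Zt w T 0 t).re - qh w 0))
    have h4 := mul_nonneg hs0.le (eE t)
    exact add_nonneg (add_nonneg h2 h3) h4
  have i1 : IntervalIntegrable (fun t => |X t - m * I2 w| * ‖dp N b t‖ ^ 2) volume (T + 2 * Real.log T)
      (2 * T - 2 * Real.log T) := (((hXc.sub continuous_const).abs).mul hVc).intervalIntegrable _ _
  have i2 : IntervalIntegrable (fun t => |(Zt w T 0 t).re - qh w 0| * ‖dp N b t‖ ^ 2) volume (T + 2 * Real.log T)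
      (2 * T - 2 * Real.log T) := (((hZ0c.sub continuous_const).abs).mul hVc).intervalIntegrable _ _
  have i3 := ii_mul mE bE hVc (T + 2 * Real.log T) (2 * T - 2 * Real.log T)
  have eF : ∀ t, F t * ‖dp N b t‖ ^ 2 = r * (|X t - m * I2 w| * ‖dp N b t‖ ^ 2) +
      r * (|(Zt w T 0 t).re - qh w 0| * ‖dp N b t‖ ^ 2) + s * (ErrS δ H K₁ T t * ‖dp N b t‖ ^ 2) := by
    intro t
    rw [hF]
    ring
  have iF : IntervalIntegrable (fun t => F t * ‖dp N b t‖ ^ 2) volume (T + 2 * Real.log T)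
      (2 * T - 2 * Real.log T) := by
    simp only [eF]
    exact ((i1.const_mul r).add (i2.const_mul r)).add (i3.const_mul s)
  have hFi : ∫ t in (T + 2 * Real.log T)..(2 * T - 2 * Real.log T), F t * ‖dp N b t‖ ^ 2 ≤ κ * W := by
    simp only [eF]
    rw [intervalIntegral.integral_add ((i1.const_mul r).add (i2.const_mul r)) (i3.const_mul s),
      intervalIntegral.integral_add (i1.const_mul r) (i2.const_mul r), intervalIntegral.integral_const_mul,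
      intervalIntegral.integral_const_mul, intervalIntegral.integral_const_mul]
    have b1' : ∫ t in (T + 2 * Real.log T)..(2 * T - 2 * Real.log T), |X t - m * I2 w| * ‖dp N b t‖ ^ 2 ≤ 3 * k * h * W := by
      have e1 : ∀ t, X t = 2 * ∫ α in (0 : ℝ)..1, R₁ α * ‖Zt w T (a * Real.log T * α) t‖ ^ 2 := fun t => by rw [hX]
      simp only [e1]
      exact b1
    have hrh : r * (3 * k * h * W) = 24 * (κ / 160) * W := by
      rw [hr, hk]
      field_simp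
      ring
    have hrh2 : r * (2 * k * h * W) = 16 * (κ / 160) * W := by
      rw [hr, hk]
      field_simp
      ring
    have hse : s * (C₄ * W) ≤ κ / 4 * W := by
      rw [← mul_assoc]
      refine mul_le_mul_of_nonneg_right ?_ hW0
      rw [hs, hYe, inv_mul_le_iff₀ (by positivity)]
      have h5 : (4 * C₄ / κ + 1) * (κ / 4) = C₄ + κ / 4 := by field_simp
      linarith only [h5, hκ]
    have c1 := mul_le_mul_of_nonneg_left b1' hr0.le
    have c2 := mul_le_mul_of_nonneg_left b2 hr0.le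
    have c3 := mul_le_mul_of_nonneg_left b3 hs0.le
    have c4 : 0 ≤ κ * W := mul_nonneg hκ.le hW0
    linarith only [c1, c2, c3, c4, hrh, hrh2, hse]
  refine ⟨{t | 1 < F t}, measurableSet_lt measurable_const hFm, markov hxy hFm hF0 hVc hV0 iF hFi, ?_⟩
  intro t _ htG
  have hFt : F t ≤ 1 := not_lt.1 htG
  rw [hF] at hFt
  have n1 := mul_nonneg hr0.le (abs_nonneg (X t - m * I2 w))
  have n2 := mul_nonneg hr0.le (abs_nonneg ((Zt w T 0 t).re - qh w 0))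
  have n3 := mul_nonneg hs0.le (eE t)
  have hrx : ∀ z : ℝ, r * z ≤ 1 → z ≤ e / 8 * h := by
    intro z hz
    rw [hr] at hz
    have h1 := mul_le_mul_of_nonneg_left hz (by positivity : 0 ≤ e / 8 * h)
    have h2 : e / 8 * h * (8 / (e * h) * z) = z := by field_simp
    linarith only [h1, h2]
  have g1 : |X t - m * I2 w| ≤ e / 8 * h := hrx _ (by linarith only [hFt, n1, n2, n3])
  have g2 : |(Zt w T 0 t).re - qh w 0| ≤ e / 8 * h := hrx _ (by linarith only [hFt, n1, n2, n3])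
  have g3 : ErrS δ H K₁ T t ≤ Real.exp (3 * δ * Y) := by
    have h1 : s * ErrS δ H K₁ T t ≤ 1 := by linarith only [hFt, n1, n2, n3]
    rw [hs, inv_mul_le_iff₀ (Real.exp_pos _), mul_one] at h1
    exact h1
  have hZuc : Continuous fun u : ℝ => Zt w T u t := by
    have h1 := hZ1.comp (continuous_id.prodMk continuous_const : Continuous fun u : ℝ => (u, t))
    have e : (fun u : ℝ => Zt w T u t) = (fun p : ℝ × ℝ => Zt w T (1 * p.1) p.2) ∘ (fun u : ℝ => (u, t)) := by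
      funext u
      simp
    rw [e]
    exact h1
  have hXt : X t = 2 * (∫ β in (0 : ℝ)..a, R β * ‖Zt w T (Real.log T * β) t‖ ^ 2) := by
    rw [hX]
    show 2 * (∫ α in (0 : ℝ)..1, R₁ α * ‖Zt w T (a * Real.log T * α) t‖ ^ 2) = _
    rw [← freq_sub R (fun β => ‖Zt w T (Real.log T * β) t‖ ^ 2) ha]
    congr 1
    refine intervalIntegral.integral_congr fun α _ => ?_
    show R₁ α * ‖Zt w T (a * Real.log T * α) t‖ ^ 2 = a * R (a * α) * ‖Zt w T (Real.log T * (a * α)) t‖ ^ 2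
    rw [hR₁v, show Real.log T * (a * α) = a * Real.log T * α by ring]
  have hgood := good_of (ε := e) (E := E) (h := h) (m := m) (q := qh w 0) (I := I2 w) (X := X t) (w := w) (M := M)
    hRc hRn ha ha2 hRM hM hLT1 hZuc hE0 (fun u hu0 hu1 => hSh u t hu0 hu1 g3) hh hh0.le hm hm0 hXt g1 g2 g4 g5 he0 he1 f3 f4
  obtain ⟨r1, r2⟩ := hgood
  have hhp : 0 ≤ H / Real.pi := by rw [← hh]; exact hh0.le
  exact ⟨r1.trans (mul_le_mul_of_nonneg_right hee hhp), r2.trans (mul_le_mul_of_nonneg_right hee hhp)⟩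

theorem t_LM (hOM : S_OMEX) (hQH : S_QH) (hLQ : S_LQ) (hLI : S_LA) (hED : S_ED) (hER : S_ERR)
    (hTA : ∃ θ c C : ℝ, 0 < θ ∧ θ ≤ 1 / 4 ∧ 0 < c ∧ 0 ≤ C ∧ TailB θ c C) : S_LM := by
  intro R D a hR hRn ha ha2 κ ε₀ hκ hε₀
  obtain ⟨e, he⟩ : ∃ e, e = min ε₀ 1 := ⟨_, rfl⟩
  have he0 : 0 < e := by rw [he]; positivity
  have he1 : e ≤ 1 := by rw [he]; exact min_le_right _ _
  have hee : e ≤ ε₀ := by rw [he]; exact min_le_left _ _
  have hD : 0 ≤ D := by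
    have := hR 0 1
    have h2 := abs_nonneg (R 0 - R 1)
    simp only [zero_sub, abs_neg, abs_one, mul_one] at this
    linarith
  have hRc : Continuous R := by
    have : LipschitzWith (Real.toNNReal D) R := by
      refine LipschitzWith.of_dist_le_mul fun x y => ?_
      rw [Real.dist_eq, Real.dist_eq]
      exact (hR x y).trans (mul_le_mul_of_nonneg_right (Real.le_coe_toNNReal D) (abs_nonneg _))
    exact this.continuous
  obtain ⟨M, hMdef⟩ : ∃ M : ℝ, M = |R 0| + D := ⟨_, rfl⟩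
  have hM : 0 ≤ M := by rw [hMdef]; positivity
  have hRM : ∀ α ∈ Set.Icc 0 a, R α ≤ M := by
    intro α hα
    have h2 := hR α 0
    rw [sub_zero, abs_of_nonneg hα.1] at h2
    have h3 : |R α| ≤ |R α - R 0| + |R 0| := by
      have := abs_add_le (R α - R 0) (R 0)
      rwa [sub_add_cancel] at this
    have h4 : D * α ≤ D := mul_le_of_le_one_right hD (by linarith [hα.2])
    have h5 := le_abs_self (R α)
    rw [hMdef]
    linarith
  obtain ⟨m, hm⟩ : ∃ m, m = R 0 + 2 * ∫ β in (0 : ℝ)..a, β * R β := ⟨_, rfl⟩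
  have hm0 : 0 ≤ m := by
    have h1 : 0 ≤ ∫ β in (0 : ℝ)..a, β * R β :=
      intervalIntegral.integral_nonneg ha.le fun β hβ => mul_nonneg hβ.1 (hRn β)
    have := hRn 0
    rw [hm]
    linarith
  -- the rescaled function
  obtain ⟨R₁, hR₁⟩ : ∃ R₁ : ℝ → ℝ, R₁ = fun α => a * R (a * α) := ⟨_, rfl⟩
  have hR₁v : ∀ α, R₁ α = a * R (a * α) := fun α => by rw [hR₁]
  have hR₁l : ∀ x y : ℝ, |R₁ x - R₁ y| ≤ D * |x - y| := by
    intro x y
    rw [hR₁v, hR₁v, ← mul_sub, abs_mul, abs_of_pos ha]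
    have h1 := hR (a * x) (a * y)
    rw [← mul_sub, abs_mul, abs_of_pos ha] at h1
    have h2 := abs_nonneg (x - y)
    have h3 : D * (a * |x - y|) ≤ D * |x - y| := mul_le_mul_of_nonneg_left (by nlinarith) hD
    have h4 := abs_nonneg (R (a * x) - R (a * y))
    nlinarith
  have hR₁n : ∀ x, 0 ≤ R₁ x := fun x => by rw [hR₁v]; exact mul_nonneg ha.le (hRn _)
  have hm₁ : R₁ 0 / a + 2 * a * ∫ α in (0 : ℝ)..1, α * R₁ α = m := by
    have h1 := freq_sub R (fun β => β) ha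
    have h2 : 2 * a * ∫ α in (0 : ℝ)..1, α * R₁ α = 2 * ∫ α in (0 : ℝ)..1, (a * R (a * α)) * (a * α) := by
      rw [mul_assoc, ← intervalIntegral.integral_const_mul]
      congr 1
      refine intervalIntegral.integral_congr fun α _ => ?_
      show a * (α * R₁ α) = a * R (a * α) * (a * α)
      rw [hR₁v]
      ring
    rw [h2, h1, hR₁v, mul_zero, mul_div_cancel_left₀ _ ha.ne', hm]
    congr 2
    refine intervalIntegral.integral_congr fun β _ => ?_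
    exact mul_comm _ _
  obtain ⟨C₁, hC₁, hLQ⟩ := hLQ R₁ D a 1 hR₁l hR₁n ha (by linarith) one_pos le_rfl
  obtain ⟨C₀, hC₀, hLI⟩ := hLI
  obtain ⟨ϑ, c₀, C', hϑ0, hϑ1, hc₀, hC', hTB⟩ := hTA
  obtain ⟨C₂, hC₂, hEDB⟩ := hED ϑ c₀ C' hϑ0 hϑ1 hc₀ hC' hTB
  obtain ⟨c, hc⟩ : ∃ c, c = min (c₀ / 4) 1 := ⟨_, rfl⟩
  have hc0 : 0 < c := by rw [hc]; positivity
  have hEDB' : EDB (ϑ / 2) c C₂ := EDB_mono hC₂ (by rw [hc]; exact min_le_left _ _) hEDB
  obtain ⟨K₀, hER⟩ := hER (ϑ / 2) c C₂ (by positivity) (by linarith) hc0 (by rw [hc]; exact min_le_right _ _) hC₂ hEDB'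
  obtain ⟨K₁, hK₁⟩ : ∃ K₁, K₁ = max K₀ 2 := ⟨_, rfl⟩
  have hK2 : 2 ≤ K₁ := by rw [hK₁]; exact le_max_right _ _
  have hKK : K₀ ≤ K₁ := by rw [hK₁]; exact le_max_left _ _
  obtain ⟨k, hk⟩ : ∃ k, k = κ * e / 160 := ⟨_, rfl⟩
  have hk0 : 0 < k := by rw [hk]; positivity
  obtain ⟨η, hη⟩ : ∃ η, η = k / (2 * C₁) := ⟨_, rfl⟩
  have hη0 : 0 < η := by rw [hη]; positivity
  have hηC : C₁ * (2 * η) = k := by
    rw [hη]
    field_simp
  obtain ⟨δ, hδ⟩ : ∃ δ, δ = min (min (c / 100) (1 / 16)) (min (min (a / 3) ((1 - 2 * a) / 8)) (η ^ 4)) := ⟨_, rfl⟩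
  have hδ0 : 0 < δ := by
    rw [hδ]
    have : 0 < 1 - 2 * a := by linarith
    positivity
  have hδ1 : δ ≤ c / 100 := by rw [hδ]; exact (min_le_left _ _).trans (min_le_left _ _)
  have hδ2 : δ ≤ 1 / 16 := by rw [hδ]; exact (min_le_left _ _).trans (min_le_right _ _)
  have hδ3 : δ ≤ a / 3 := by
    rw [hδ]; exact (min_le_right _ _).trans ((min_le_left _ _).trans (min_le_left _ _))
  have hδ4 : δ ≤ (1 - 2 * a) / 8 := by
    rw [hδ]; exact (min_le_right _ _).trans ((min_le_left _ _).trans (min_le_right _ _))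
  have hδ5 : δ ≤ η ^ 4 := by rw [hδ]; exact (min_le_right _ _).trans (min_le_right _ _)
  obtain ⟨C₄, hC₄, hER⟩ := hER K₁ hKK δ hδ0 hδ1
  obtain ⟨Y, hY⟩ : ∃ Y, Y = Real.log (4 * C₄ / κ + 1) / (3 * δ) := ⟨_, rfl⟩
  have hY0 : 0 ≤ Y := by
    rw [hY]
    refine div_nonneg (Real.log_nonneg ?_) (by positivity)
    have : 0 ≤ 4 * C₄ / κ := by positivity
    linarith
  have hYe : Real.exp (3 * δ * Y) = 4 * C₄ / κ + 1 := by
    have h1 : 3 * δ * Y = Real.log (4 * C₄ / κ + 1) := by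
      rw [hY]
      field_simp
    rw [h1, Real.exp_log (by positivity)]
  obtain ⟨A, hA⟩ : ∃ A : ℕ, A = ⌈(K₁ : ℝ) / (3 * δ)⌉₊ := ⟨_, rfl⟩
  have hA1 : (K₁ : ℝ) ≤ 3 * δ * A := by
    have h1 := Nat.le_ceil ((K₁ : ℝ) / (3 * δ))
    rw [← hA, div_le_iff₀ (by positivity)] at h1
    linarith
  obtain ⟨K, hKd⟩ : ∃ K, K = A + K₁ := ⟨_, rfl⟩
  have hKge : 2 ≤ K := by omega
  obtain ⟨Cw, hCw, hOM⟩ := hOM K δ hδ0 (by linarith)
  have hpi := Real.pi_pos
  obtain ⟨E, hE⟩ : ∃ E, E = 3 * Cw ^ 2 * Real.exp Y * Real.exp (3 * δ * Y) := ⟨_, rfl⟩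
  have hE0 : 0 ≤ E := by rw [hE]; positivity
  obtain ⟨h₀, hh₀⟩ : ∃ h₀ : ℝ, h₀ = 8 / e * (2 * Cw ^ 2 + 2 * (m + 1) * Cw ^ 4 + E) + 64 * M * (m + 2) * E ^ 2 / e ^ 2 +
    2 * (C₀ / k) ^ 2 := ⟨_, rfl⟩
  have p1 : 0 ≤ 8 / e * (2 * Cw ^ 2) := by positivity
  have p2 : 0 ≤ 8 / e * (2 * (m + 1) * Cw ^ 4) := by positivity
  have p3 : 0 ≤ 8 / e * E := by positivity
  have p4 : 0 ≤ 64 * M * (m + 2) * E ^ 2 / e ^ 2 := by positivity
  have p5 : 0 ≤ 2 * (C₀ / k) ^ 2 := by positivity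
  have hh00 : 0 ≤ h₀ := by rw [hh₀]; positivity
  refine ⟨1 + Real.pi * h₀, by nlinarith, fun H hH => ?_⟩
  have hH1 : 1 ≤ H := by nlinarith [mul_nonneg hpi.le hh00]
  obtain ⟨w, hw⟩ := hOM H hH1
  obtain ⟨q1, q2, q3, -, hq0, hI2⟩ := hQH δ H Cw K w hδ0 (by linarith) hH1 hCw hKge hw
  obtain ⟨h, hh⟩ : ∃ h, h = H / Real.pi := ⟨_, rfl⟩
  have hhH : H = h * Real.pi := by rw [hh]; field_simp
  have hhh : h₀ ≤ h := by
    rw [hh, le_div_iff₀ hpi]
    nlinarith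
  have hh0 : 0 < h := by rw [hh]; positivity
  have hq0' : |qh w 0 - h| ≤ 4 * Cw ^ 2 / 3 := by
    have e1 : Real.pi * qh w 0 - H = Real.pi * (qh w 0 - h) := by rw [hhH]; ring
    rw [e1, abs_mul, abs_of_pos hpi] at hq0
    have := Real.pi_gt_three
    have h2 := abs_nonneg (qh w 0 - h)
    nlinarith
  have hI2' : |I2 w - h| ≤ 4 * Cw ^ 4 / 3 := by
    have e1 : Real.pi * I2 w - H = Real.pi * (I2 w - h) := by rw [hhH]; ring
    rw [e1, abs_mul, abs_of_pos hpi] at hI2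
    have := Real.pi_gt_three
    have h2 := abs_nonneg (I2 w - h)
    nlinarith
  have hmulh : ∀ z : ℝ, 8 / e * z ≤ h → z ≤ e / 8 * h := by
    intro z hz
    have h1 := mul_le_mul_of_nonneg_left hz (by positivity : 0 ≤ e / 8)
    have h2 : e / 8 * (8 / e * z) = z := by field_simp
    linarith
  have hexpd : 8 / e * (2 * Cw ^ 2 + 2 * (m + 1) * Cw ^ 4 + E) = 8 / e * (2 * Cw ^ 2) + 8 / e * (2 * (m + 1) * Cw ^ 4) +
    8 / e * E := by ring
  rw [hexpd] at hh₀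
  have f1 : 2 * Cw ^ 2 ≤ e / 8 * h := hmulh _ (by linarith)
  have f2 : 2 * (m + 1) * Cw ^ 4 ≤ e / 8 * h := hmulh _ (by linarith)
  have f3 : E ≤ e / 8 * h := hmulh _ (by linarith)
  have f4 : 64 * M * (m + 2) * E ^ 2 ≤ e ^ 2 * h := by
    have h1 : 64 * M * (m + 2) * E ^ 2 / e ^ 2 ≤ h := by linarith
    rw [div_le_iff₀ (by positivity)] at h1
    linarith
  have f5 : C₀ * Real.sqrt (2 * h) ≤ k * h := by
    have h1 : 2 * (C₀ / k) ^ 2 ≤ h := by linarith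
    have h2 : Real.sqrt (2 * h) ≤ k / C₀ * h := by
      rw [Real.sqrt_le_left (by positivity)]
      have h3 : (k / C₀ * h) ^ 2 = h * ((k / C₀) ^ 2 * h) := by ring
      rw [h3]
      have h4 : 2 ≤ (k / C₀) ^ 2 * h := by
        have h5 := mul_le_mul_of_nonneg_left h1 (by positivity : 0 ≤ (k / C₀) ^ 2)
        have h6 : (k / C₀) ^ 2 * (2 * (C₀ / k) ^ 2) = 2 := by field_simp
        linarith
      nlinarith
    have h7 := mul_le_mul_of_nonneg_left h2 (by linarith : 0 ≤ C₀)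
    have h8 : C₀ * (k / C₀ * h) = k * h := by field_simp
    linarith
  have hCw4 : 1 ≤ Cw ^ 4 := one_le_pow₀ hCw
  have hCm : Cw ^ 4 ≤ (m + 1) * Cw ^ 4 := by nlinarith
  have hI2up : I2 w ≤ 2 * h := by
    have h1 := (abs_le.1 hI2').2
    have h2 : e / 8 * h ≤ h := mul_le_of_le_one_left hh0.le (by linarith)
    linarith
  have hI20 : 0 ≤ I2 w := Pool.Agent.Q150.UM.I2_nonneg w
  obtain ⟨θ, hθ⟩ : ∃ θ, θ = min (min (ϑ / 2) (1 / 40)) (δ / 4) := ⟨_, rfl⟩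
  have hθ0 : 0 < θ := by
    rw [hθ]
    positivity
  have hθ1 : θ ≤ ϑ / 2 := by rw [hθ]; exact (min_le_left _ _).trans (min_le_left _ _)
  have hθ2 : θ ≤ 1 / 40 := by rw [hθ]; exact (min_le_left _ _).trans (min_le_right _ _)
  have hθ3 : θ ≤ δ / 4 := by rw [hθ]; exact min_le_right _ _
  refine ⟨θ, hθ0, hθ2, ?_⟩
  have hsσ : Real.sqrt (Real.sqrt δ + Real.sqrt θ) ≤ 2 * η := by
    have h1 : Real.sqrt δ ≤ η ^ 2 := by
      rw [Real.sqrt_le_left (by positivity)]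
      calc δ ≤ η ^ 4 := hδ5
        _ = _ := by ring
    have h2 : Real.sqrt θ ≤ Real.sqrt δ := Real.sqrt_le_sqrt (by linarith)
    rw [Real.sqrt_le_left (by positivity)]
    nlinarith
  have hsl : δ + Real.sqrt θ ≤ 1 := by
    have h1 : Real.sqrt θ ≤ 1 / 2 := by
      rw [Real.sqrt_le_left (by norm_num)]
      linarith
    linarith
  have eLQ := hLQ δ H Cw K w θ (k * h) hδ0 hδ2 (by linarith) (by linarith) (by linarith) hH1 hCw hKge hw hθ0 hθ2 hθ3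
    (by positivity)
  have eLI := hLI δ H Cw K w θ (k * h) hδ0 hδ2 hH1 hCw hKge hw hθ0 hθ2 (by positivity)
  have eSH := sh_pt (Y := Y) hδ0 (by linarith) hH1 hCw hw hA1 hKd hY0
  have eER := hER H hH1
  filter_upwards [eLQ, eLI, eSH, eER, eventually_ge_atTop (16 : ℝ),
    Real.tendsto_log_atTop.eventually_ge_atTop 1] with T eLQ eLI eSH eER hT16 hLT1 N hN b
  have hT0 : 0 < T := by linarith
  have hT1 : 1 ≤ T := by linarith
  have hNϑ : (N : ℝ) ≤ T ^ (ϑ / 2) := hN.trans (Real.rpow_le_rpow_of_exponent_le hT1 hθ1)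
  replace eLQ := (eLQ N hN b).1
  replace eLI := eLI N hN b
  replace eER := eER N hNϑ b
  rw [hm₁] at eLQ
  have hL4 : 4 * Real.log T ≤ T := by
    have h5 := Real.log_le_sub_one_of_pos (show (0 : ℝ) < T / 16 by positivity)
    rw [Real.log_div (by positivity) (by norm_num)] at h5
    have h6 : Real.log 16 ≤ 3 := by
      have : Real.log 16 = 4 * Real.log 2 := by
        rw [show (16 : ℝ) = 2 ^ 4 by norm_num, Real.log_pow]; norm_num
      rw [this]; have := Real.log_two_lt_d9; linarith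
    linarith
  have hxy : T + 2 * Real.log T ≤ 2 * T - 2 * Real.log T := by linarith
  obtain ⟨W, hW⟩ : ∃ W, W = T * N2 N b := ⟨_, rfl⟩
  have hW0 : 0 ≤ W := by rw [hW]; exact mul_nonneg hT0.le (Pool.Agent.Q150.UM.N2_nonneg N b)
  have hassoc : ∀ z : ℝ, z * T * N2 N b = z * (T * N2 N b) := fun z => mul_assoc _ _ _
  rw [hassoc, ← hW] at eLI eER
  rw [← hW] at eLQ ⊢
  have hq8 : |qh w 0 - h| ≤ e / 8 * h := by
    have h1 : 0 ≤ Cw ^ 2 := sq_nonneg _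
    linarith only [hq0', f1, h1]
  refine lm_T hw hδ0 hH1 hRc hRn ha ha2 hRM hM hm hm0 hR₁v hκ he0 he1 hee hk hh hh0 hE0 hC₄ hYe hLT1 hxy hW0 ?_ ?_ eER
    ?_ hq8 ?_ f3 f4
  · refine eLQ.trans (mul_le_mul_of_nonneg_right ?_ hW0)
    have h1 : C₁ * Real.sqrt (Real.sqrt δ + Real.sqrt θ) * I2 w ≤ k * (2 * h) := by
      refine mul_le_mul ?_ hI2up hI20 hk0.le
      rw [← hηC]
      exact mul_le_mul_of_nonneg_left hsσ (by linarith only [hC₁])
    linarith only [h1]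
  · refine eLI.trans (mul_le_mul_of_nonneg_right ?_ hW0)
    have h1 : Real.sqrt ((δ + Real.sqrt θ) * I2 w) ≤ Real.sqrt (2 * h) := by
      apply Real.sqrt_le_sqrt
      calc (δ + Real.sqrt θ) * I2 w ≤ 1 * I2 w := mul_le_mul_of_nonneg_right hsl hI20
        _ ≤ 2 * h := by linarith only [hI2up]
    have h2 := (mul_le_mul_of_nonneg_left h1 (by linarith only [hC₀] : 0 ≤ C₀)).trans f5
    linarith only [h2]
  · intro u t hu0 hu1 g3
    refine (eSH u t hu0 hu1 g3).trans ?_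
    rw [hE]
    exact mul_le_mul_of_nonneg_left g3 (by positivity)
  · have h1 := mul_le_mul_of_nonneg_left hI2' hm0
    have h2 : m * (4 * Cw ^ 4 / 3) ≤ 2 * (m + 1) * Cw ^ 4 := by
      have h3 : 0 ≤ m * Cw ^ 4 := by positivity
      linarith only [h3, hCw4]
    linarith only [h1, h2, f2]

end

end Pool.Agent.U85.Ml
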