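import Pool.Agent.U85.Ml.Gq
import Pool.Agent.U85.Ml.Ll
import Pool.Agent.U85.Zd.Ci

set_option autoImplicit false

/-!
The law of large numbers including the very small frequencies.
-/

namespace Pool.Agent.U85.Ml

open Filter Topology MeasureTheory Complex
open Pool.Agent.Q97.UM Pool.Agent.U85.Zd

noncomputable section

/-- law of large numbers up to `a₁`, mean value above -/
def S_LQ : Prop := ∀ (R : ℝ → ℝ) (D lam a₁ : ℝ), (∀ x y : ℝ, |R x - R y| ≤ D * |x - y|) → (∀ x, 0 ≤ R x) →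
  0 < lam → lam < 1 → 0 < a₁ → a₁ ≤ 1 → ∃ C₁ : ℝ, 1 ≤ C₁ ∧
  ∀ (δ H C : ℝ) (K : ℕ) (w : ℝ → ℝ) (θ ε : ℝ), 0 < δ → δ ≤ 1 / 16 → 3 * δ ≤ lam * a₁ → lam * a₁ + 4 * δ ≤ 1 / 2 →
  lam + 4 * δ + 2 * θ ≤ 1 →
  1 ≤ H → 1 ≤ C → 2 ≤ K → OmW δ H C K w → 0 < θ → θ ≤ 1 / 40 → θ ≤ δ / 4 → 0 < ε → ∀ᶠ T : ℝ in atTop,
    ∀ N : ℕ, (N : ℝ) ≤ T ^ θ → ∀ b : ℕ → ℂ,
    ∫ t in (T + 2 * Real.log T)..(2 * T - 2 * Real.log T),
        |2 * (∫ α in (0 : ℝ)..a₁, R α * ‖Zt w T (lam * Real.log T * α) t‖ ^ 2) -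
          (R 0 / lam + 2 * lam * ∫ α in (0 : ℝ)..a₁, α * R α) * I2 w| * ‖dp N b t‖ ^ 2 ≤
      (C₁ * Real.sqrt (Real.sqrt δ + Real.sqrt θ) * I2 w + ε) * (T * N2 N b) ∧
    2 * (∫ α in a₁..1, R α * ∫ t in (T + 2 * Real.log T)..(2 * T - 2 * Real.log T),
        ‖Zt w T (lam * Real.log T * α) t‖ ^ 2 * ‖dp N b t‖ ^ 2) ≤
      (2 * lam * (∫ α in a₁..1, α * R α) * I2 w + (C₁ * Real.sqrt (Real.sqrt δ + Real.sqrt θ) * I2 w + ε)) * (T * N2 N b)

/-- the sum of three parts -/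
lemma three_part {A B : ℝ} (hAB : A ≤ B) {f : ℝ → ℝ → ℝ} {V R q : ℝ → ℝ} {a₀ a₁ m₁ m₂ : ℝ}
    (hf : Continuous fun p : ℝ × ℝ => f p.1 p.2) (hR : Continuous R) (hR0 : ∀ x, 0 ≤ R x) (hV : Continuous V)
    (hV0 : ∀ t, 0 ≤ V t) (hq : Continuous q) (ha0 : 0 ≤ a₀) :
    ∫ t in A..B, |2 * (∫ α in (0 : ℝ)..a₁, R α * f α t) - (m₁ + m₂)| * V t ≤
      2 * (∫ α in (0 : ℝ)..a₀, R α * ∫ t in A..B, |f α t - q α| * V t) +
      |2 * (∫ α in (0 : ℝ)..a₀, R α * q α) - m₁| * (∫ t in A..B, V t) +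
      ∫ t in A..B, |2 * (∫ α in a₀..a₁, R α * f α t) - m₂| * V t := by
  have hRp : Continuous fun p : ℝ × ℝ => R p.1 := hR.comp continuous_fst
  have hF1 : Continuous fun p : ℝ × ℝ => R p.1 * |f p.1 p.2 - q p.1| :=
    hRp.mul ((hf.sub (hq.comp continuous_fst)).abs)
  have hF2 : Continuous fun p : ℝ × ℝ => R p.1 * f p.1 p.2 := hRp.mul hf
  have k1 : ∀ x y, Continuous fun t : ℝ => ∫ α in x..y, R α * |f α t - q α| := fun x y =>
    par_c (F := fun α t => R α * |f α t - q α|) hF1 x y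
  have k2 : ∀ x y, Continuous fun t : ℝ => ∫ α in x..y, R α * f α t := fun x y =>
    par_c (F := fun α t => R α * f α t) hF2 x y
  have hc1 : ∀ t, Continuous fun α => R α * f α t := fun t =>
    hF2.comp (continuous_id.prodMk continuous_const : Continuous fun α : ℝ => (α, t))
  have hc2 : ∀ t, Continuous fun α => R α * |f α t - q α| := fun t =>
    hF1.comp (continuous_id.prodMk continuous_const : Continuous fun α : ℝ => (α, t))
  have hRq : Continuous fun α => R α * q α := hR.mul hq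
  have hpt : ∀ t ∈ Set.Icc A B, |2 * (∫ α in (0 : ℝ)..a₁, R α * f α t) - (m₁ + m₂)| * V t ≤
      2 * ((∫ α in (0 : ℝ)..a₀, R α * |f α t - q α|) * V t) + |2 * (∫ α in (0 : ℝ)..a₀, R α * q α) - m₁| * V t +
        |2 * (∫ α in a₀..a₁, R α * f α t) - m₂| * V t := by
    intro t _
    have h1 := intervalIntegral.integral_add_adjacent_intervals ((hc1 t).intervalIntegrable (μ := volume) 0 a₀)
      ((hc1 t).intervalIntegrable a₀ a₁)
    have h2 : |(∫ α in (0 : ℝ)..a₀, R α * f α t) - ∫ α in (0 : ℝ)..a₀, R α * q α| ≤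
        ∫ α in (0 : ℝ)..a₀, R α * |f α t - q α| := by
      rw [← intervalIntegral.integral_sub ((hc1 t).intervalIntegrable _ _) (hRq.intervalIntegrable _ _)]
      refine (intervalIntegral.abs_integral_le_integral_abs ha0).trans (le_of_eq ?_)
      refine intervalIntegral.integral_congr fun α _ => ?_
      show |R α * f α t - R α * q α| = R α * |f α t - q α|
      rw [← mul_sub, abs_mul, abs_of_nonneg (hR0 α)]
    have h3 : |2 * (∫ α in (0 : ℝ)..a₁, R α * f α t) - (m₁ + m₂)| ≤ 2 * (∫ α in (0 : ℝ)..a₀, R α * |f α t - q α|) +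
        |2 * (∫ α in (0 : ℝ)..a₀, R α * q α) - m₁| + |2 * (∫ α in a₀..a₁, R α * f α t) - m₂| := by
      rw [← h1]
      have e : 2 * ((∫ α in (0 : ℝ)..a₀, R α * f α t) + ∫ α in a₀..a₁, R α * f α t) - (m₁ + m₂) =
          2 * ((∫ α in (0 : ℝ)..a₀, R α * f α t) - ∫ α in (0 : ℝ)..a₀, R α * q α) +
          (2 * (∫ α in (0 : ℝ)..a₀, R α * q α) - m₁) + (2 * (∫ α in a₀..a₁, R α * f α t) - m₂) := by ring
      rw [e]
      refine (abs_add_le _ _).trans (add_le_add_left ((abs_add_le _ _).trans (add_le_add_left ?_ _)) _)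
      rw [abs_mul, abs_two]
      linarith
    have h4 := mul_le_mul_of_nonneg_right h3 (hV0 t)
    linarith
  have i1 : IntervalIntegrable (fun t => 2 * ((∫ α in (0 : ℝ)..a₀, R α * |f α t - q α|) * V t)) volume A B :=
    (continuous_const.mul ((k1 _ _).mul hV)).intervalIntegrable _ _
  have i2 : IntervalIntegrable (fun t => |2 * (∫ α in (0 : ℝ)..a₀, R α * q α) - m₁| * V t) volume A B :=
    (continuous_const.mul hV).intervalIntegrable _ _
  have i3 : IntervalIntegrable (fun t => |2 * (∫ α in a₀..a₁, R α * f α t) - m₂| * V t) volume A B :=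
    ((((continuous_const.mul (k2 _ _)).sub continuous_const).abs).mul hV).intervalIntegrable _ _
  have i0 : IntervalIntegrable (fun t => |2 * (∫ α in (0 : ℝ)..a₁, R α * f α t) - (m₁ + m₂)| * V t) volume A B :=
    ((((continuous_const.mul (k2 _ _)).sub continuous_const).abs).mul hV).intervalIntegrable _ _
  have h1 := intervalIntegral.integral_mono_on hAB i0 ((i1.add i2).add i3) hpt
  rw [intervalIntegral.integral_add (i1.add i2) i3, intervalIntegral.integral_add i1 i2,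
    intervalIntegral.integral_const_mul, intervalIntegral.integral_const_mul] at h1
  have s1 := swap_c (F := fun α t => R α * |f α t - q α| * V t) (hF1.mul (hV.comp continuous_snd)) A B 0 a₀
  have e1 : ∫ t in A..B, (∫ α in (0 : ℝ)..a₀, R α * |f α t - q α|) * V t =
      ∫ α in (0 : ℝ)..a₀, R α * ∫ t in A..B, |f α t - q α| * V t := by
    have e2 : ∀ t, (∫ α in (0 : ℝ)..a₀, R α * |f α t - q α|) * V t = ∫ α in (0 : ℝ)..a₀, R α * |f α t - q α| * V t :=
      fun t => (intervalIntegral.integral_mul_const _ _).symm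
    simp only [e2]
    rw [s1]
    refine intervalIntegral.integral_congr fun α _ => ?_
    simp only [mul_assoc]
    exact intervalIntegral.integral_const_mul _ _
  rw [e1] at h1
  exact h1

theorem t_LQ (hQH : S_QH) (hQLF : S_QLF) (hMV : S_MV2) (hGQ : S_GQ) (hLL : S_LL) : S_LQ := by
  intro R D lam a₁ hR hRn hlam hlam1 ha₁ ha₁1
  obtain ⟨C₁, hC₁, hGQ⟩ := hGQ R D lam a₁ hR hRn hlam hlam1 ha₁ ha₁1
  obtain ⟨C₂, hC₂, hLL⟩ := hLL R D lam a₁ hR hRn hlam hlam1 ha₁ ha₁1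
  refine ⟨8 * C₁ + C₂, by linarith, ?_⟩
  intro δ H C K w θ ε hδ hδ1 hδl hδ2 hδ3 hH hC hK hw hθ hθ1 hθδ hε
  have hRc : Continuous R := by
    have : LipschitzWith (Real.toNNReal D) R := by
      refine LipschitzWith.of_dist_le_mul fun x y => ?_
      rw [Real.dist_eq, Real.dist_eq]
      exact (hR x y).trans (mul_le_mul_of_nonneg_right (Real.le_coe_toNNReal D) (abs_nonneg _))
    exact this.continuous
  obtain ⟨q1, q2, q3, -, -, -⟩ := hQH δ H C K w hδ (by linarith) hH hC hK hw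
  obtain ⟨Dq, hDq, hql⟩ := hQLF δ w hδ (by linarith) q1 q2 q3
  have hJ : 0 ≤ I2 w := integral_nonneg fun v => by positivity
  filter_upwards [hGQ δ H C K w θ (ε / 8) hδ hδ1 hδl hδ3 hH hC hK hw hθ hθ1 (by positivity),
    hLL δ H C K w θ (ε / 2) hδ hδ1 hδl hδ2 hH hC hK hw hθ hθ1 hθδ (by positivity),
    mass_short hMV (1 : ℝ) one_pos, eventually_ge_atTop (16 : ℝ),
    Real.tendsto_log_atTop.eventually_ge_atTop 1] with T hGQ hLL hM hT16 hLT N hN b
  have hT0 : 0 < T := by linarith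
  have hT1 : 1 ≤ T := by linarith
  obtain ⟨g0, hGQ⟩ := hGQ
  obtain ⟨g1, g2⟩ := hGQ N hN b
  have g3 := hLL N hN b
  have g4 := hM N (hN.trans (Real.rpow_le_rpow_of_exponent_le hT1 hθ1)) b
  obtain ⟨W, hW⟩ : ∃ W, W = T * N2 N b := ⟨_, rfl⟩
  have hW0 : 0 ≤ W := by rw [hW]; exact mul_nonneg hT0.le (Pool.Agent.Q150.UM.N2_nonneg N b)
  rw [← hW] at g1 g2 g3 g4 ⊢
  obtain ⟨I, hI⟩ : ∃ I, I = I2 w := ⟨_, rfl⟩
  rw [← hI] at g0 g1 g2 g3 hJ ⊢
  obtain ⟨σ, hσ⟩ : ∃ σ, σ = Real.sqrt (Real.sqrt δ + Real.sqrt θ) := ⟨_, rfl⟩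
  have hsδ := Real.sqrt_nonneg δ
  have hsθ := Real.sqrt_nonneg θ
  have hσ0 : 0 ≤ σ := by rw [hσ]; positivity
  have hδ1' : Real.sqrt δ ≤ 1 := Real.sqrt_le_one.2 (by linarith)
  have hθ1' : Real.sqrt θ ≤ 1 := Real.sqrt_le_one.2 (by linarith)
  have hσ2 : Real.sqrt δ + Real.sqrt θ ≤ 2 * σ := by
    have h1 : σ ^ 2 = Real.sqrt δ + Real.sqrt θ := by rw [hσ]; exact Real.sq_sqrt (by positivity)
    have h2 : σ ≤ 2 := by
      rw [hσ, Real.sqrt_le_left (by norm_num)]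
      linarith
    rw [← h1]
    nlinarith
  have hδδ : δ ≤ Real.sqrt δ := by
    have := Real.mul_self_sqrt hδ.le
    nlinarith
  have hσ3 : Real.sqrt (δ + Real.sqrt θ) ≤ σ := by
    rw [hσ]
    exact Real.sqrt_le_sqrt (by linarith)
  rw [← hσ]
  have hCI : C₁ * (Real.sqrt δ + Real.sqrt θ) * I ≤ 2 * C₁ * σ * I := by
    have := mul_le_mul_of_nonneg_right (mul_le_mul_of_nonneg_left hσ2 (by linarith : 0 ≤ C₁)) hJ
    linarith
  have hCσ : 0 ≤ C₁ * σ * I := by positivity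
  have hCσ2 : 0 ≤ C₂ * σ * I := by positivity
  have hCI2 : C₂ * Real.sqrt (δ + Real.sqrt θ) * I ≤ C₂ * σ * I :=
    mul_le_mul_of_nonneg_right (mul_le_mul_of_nonneg_left hσ3 (by linarith)) hJ
  constructor
  · have hQLc : Continuous fun α : ℝ => QL w (Real.log T) (lam * Real.log T * α) :=
      (hql (Real.log T) hLT).1.comp (by fun_prop)
    have hL4 : 4 * Real.log T ≤ T := by
      have h5 := Real.log_le_sub_one_of_pos (show (0 : ℝ) < T / 16 by positivity)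
      rw [Real.log_div (by positivity) (by norm_num)] at h5
      have h6 : Real.log 16 ≤ 3 := by
        have : Real.log 16 = 4 * Real.log 2 := by
          rw [show (16 : ℝ) = 2 ^ 4 by norm_num, Real.log_pow]; norm_num
        rw [this]; have := Real.log_two_lt_d9; linarith
      linarith
    have hxy : T + 2 * Real.log T ≤ 2 * T - 2 * Real.log T := by linarith
    have h1 := three_part (m₁ := R 0 / lam * I) (m₂ := 2 * lam * (∫ α in (0 : ℝ)..a₁, α * R α) * I)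
      (a₀ := 3 * δ / lam) (a₁ := a₁) (V := fun t => ‖dp N b t‖ ^ 2) (R := R)
      (q := fun α => QL w (Real.log T) (lam * Real.log T * α) ^ 2)
      (f := fun α t => ‖Zt w T (lam * Real.log T * α) t‖ ^ 2) hxy
      ((Pool.Agent.Q97.UM.Zt_cont hw hδ T (lam * Real.log T)).norm.pow 2) hRc hRn
      ((Pool.Agent.Q150.UM.dp_cont N b).norm.pow 2) (fun t => by positivity) (hQLc.pow 2) (by positivity)
    have e1 : (R 0 / lam + 2 * lam * ∫ α in (0 : ℝ)..a₁, α * R α) * I =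
        R 0 / lam * I + 2 * lam * (∫ α in (0 : ℝ)..a₁, α * R α) * I := by ring
    rw [e1]
    refine h1.trans ?_
    have g5 : ∫ t in (T + 2 * Real.log T)..(2 * T - 2 * Real.log T), ‖dp N b t‖ ^ 2 ≤ 2 * W := by
      have := (abs_le.1 g4).2
      linarith
    have g6 : |2 * (∫ α in (0 : ℝ)..(3 * δ / lam), R α * QL w (Real.log T) (lam * Real.log T * α) ^ 2) - R 0 / lam * I| *
        (∫ t in (T + 2 * Real.log T)..(2 * T - 2 * Real.log T), ‖dp N b t‖ ^ 2) ≤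
        (C₁ * (Real.sqrt δ + Real.sqrt θ) * I + ε / 8) * (2 * W) :=
      mul_le_mul g0 g5 (intervalIntegral.integral_nonneg hxy fun t _ => by positivity) ((abs_nonneg _).trans g0)
    have k1 := mul_le_mul_of_nonneg_right hCI hW0
    have k2 := mul_le_mul_of_nonneg_right hCI2 hW0
    have k3 : 0 ≤ C₁ * σ * I * W := by positivity
    have k4 : 0 ≤ ε * W := by positivity
    linarith
  · refine g2.trans (mul_le_mul_of_nonneg_right ?_ hW0)
    linarith

end

end Pool.Agent.U85.Ml
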