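import Pool.Agent.U85.Ml.Fr

set_option autoImplicit false

/-!
The triangle function and its Fourier transform.
-/

namespace Pool.Agent.U85.Ml

open Filter Topology MeasureTheory
open scoped FourierTransform

noncomputable section

lemma Kt_eq {a y : ℝ} (hy : y ≠ 0) : Kt a y = (1 - Real.cos (a * y)) / y ^ 2 := by
  unfold Kt
  have hd : ∀ u ∈ Set.uIcc (0 : ℝ) a, HasDerivAt (fun u => (a - u) * Real.sin (u * y) / y - Real.cos (u * y) / y ^ 2)
      ((a - u) * Real.cos (u * y)) u := by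
    intro u _
    have h1 : HasDerivAt (fun u : ℝ => a - u) (-1) u := by simpa using (hasDerivAt_id u).const_sub a
    have h2 : HasDerivAt (fun u : ℝ => u * y) y u := by simpa using (hasDerivAt_id u).mul_const y
    have h3 := ((h1.mul h2.sin).div_const y).sub (h2.cos.div_const (y ^ 2))
    refine h3.congr_deriv ?_
    field_simp
    ring
  rw [intervalIntegral.integral_eq_sub_of_hasDerivAt hd (Continuous.intervalIntegrable (by fun_prop) _ _)]
  simp
  ring

lemma Kt_zero (a : ℝ) : Kt a 0 = a ^ 2 / 2 := by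
  unfold Kt
  have e : ∀ u : ℝ, (a - u) * Real.cos (u * 0) = a - u := fun u => by simp
  simp only [e]
  rw [intervalIntegral.integral_sub (by simp) (by simp), integral_id]
  simp
  ring

lemma Kt_lip {a : ℝ} (ha : 0 ≤ a) (y z : ℝ) : |Kt a y - Kt a z| ≤ a ^ 3 * |y - z| := by
  unfold Kt
  rw [← intervalIntegral.integral_sub (Continuous.intervalIntegrable (by fun_prop) _ _)
    (Continuous.intervalIntegrable (by fun_prop) _ _)]
  have h := intervalIntegral.norm_integral_le_of_norm_le_const (a := 0) (b := a) (C := a ^ 2 * |y - z|)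
    (f := fun u => (a - u) * Real.cos (u * y) - (a - u) * Real.cos (u * z)) ?_
  · rw [Real.norm_eq_abs, sub_zero, abs_of_nonneg ha] at h
    refine h.trans (le_of_eq ?_)
    ring
  · intro u hu
    rw [Set.uIoc_of_le ha] at hu
    have h1 : |Real.cos (u * y) - Real.cos (u * z)| ≤ |u * y - u * z| := Real.abs_cos_sub_cos_le _ _
    have h2 : |u * y - u * z| = u * |y - z| := by rw [← mul_sub, abs_mul, abs_of_pos hu.1]
    rw [Real.norm_eq_abs, ← mul_sub, abs_mul, abs_of_nonneg (by linarith [hu.2] : 0 ≤ a - u)]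
    have h3 : 0 ≤ |y - z| := abs_nonneg _
    calc (a - u) * |Real.cos (u * y) - Real.cos (u * z)| ≤ a * (a * |y - z|) :=
          mul_le_mul (by linarith [hu.1]) (by rw [h2] at h1; exact h1.trans (mul_le_mul_of_nonneg_right hu.2 h3))
            (abs_nonneg _) ha
      _ = _ := by ring

lemma Kt_le {a : ℝ} (ha : 0 ≤ a) (y : ℝ) : Kt a y ≤ a ^ 2 / 2 := by
  rw [← Kt_zero]
  unfold Kt
  refine intervalIntegral.integral_mono_on ha (Continuous.intervalIntegrable (by fun_prop) _ _)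
    (Continuous.intervalIntegrable (by fun_prop) _ _) fun u hu => ?_
  refine mul_le_mul_of_nonneg_left ?_ (by linarith [hu.2])
  rw [mul_zero, Real.cos_zero]
  exact Real.cos_le_one _

/-- the Fourier transform of the triangle -/
def Rh (h α : ℝ) : ℝ := 2 * Kt h (2 * Real.pi * α)

lemma Rh_zero (h : ℝ) : Rh h 0 = h ^ 2 := by
  unfold Rh
  rw [mul_zero, Kt_zero]
  ring

lemma Rh_nonneg {h : ℝ} (hh : 0 ≤ h) (α : ℝ) : 0 ≤ Rh h α := mul_nonneg zero_le_two (Kt_nonneg hh _)

lemma Rh_le_sq {h : ℝ} (hh : 0 ≤ h) (α : ℝ) : Rh h α ≤ h ^ 2 := by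
  unfold Rh
  have := Kt_le hh (2 * Real.pi * α)
  linarith

lemma Rh_eq {h α : ℝ} (hα : α ≠ 0) : Rh h α = (1 - Real.cos (2 * Real.pi * h * α)) / (2 * Real.pi ^ 2 * α ^ 2) := by
  unfold Rh
  rw [Kt_eq (by positivity)]
  have : h * (2 * Real.pi * α) = 2 * Real.pi * h * α := by ring
  rw [this]
  field_simp

lemma Rh_le {h α : ℝ} (hα : α ≠ 0) : Rh h α ≤ 1 / (Real.pi ^ 2 * α ^ 2) := by
  rw [Rh_eq hα, div_le_div_iff₀ (by positivity) (by positivity)]
  have h1 := Real.neg_one_le_cos (2 * Real.pi * h * α)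
  have h2 : 0 ≤ Real.pi ^ 2 * α ^ 2 := by positivity
  nlinarith

lemma Rh_lip {h : ℝ} (hh : 0 ≤ h) (x y : ℝ) : |Rh h x - Rh h y| ≤ (4 * Real.pi * h ^ 3) * |x - y| := by
  unfold Rh
  have h1 := Kt_lip hh (2 * Real.pi * x) (2 * Real.pi * y)
  rw [← mul_sub, abs_mul, abs_two]
  have h2 : |2 * Real.pi * x - 2 * Real.pi * y| = 2 * Real.pi * |x - y| := by
    rw [← mul_sub, abs_mul, abs_of_pos (by positivity)]
  rw [h2] at h1
  nlinarith

lemma Rh_cont {h : ℝ} (hh : 0 ≤ h) : Continuous (Rh h) := by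
  have : LipschitzWith (Real.toNNReal (4 * Real.pi * h ^ 3)) (Rh h) := by
    refine LipschitzWith.of_dist_le_mul fun x y => ?_
    rw [Real.dist_eq, Real.dist_eq]
    exact (Rh_lip hh x y).trans (mul_le_mul_of_nonneg_right (Real.le_coe_toNNReal _) (abs_nonneg _))
  exact this.continuous

lemma Rh_bd {h : ℝ} (hh : 0 ≤ h) (α : ℝ) : Rh h α ≤ (2 * h ^ 2 + 2) * (1 + α ^ 2)⁻¹ := by
  rw [← div_eq_mul_inv, le_div_iff₀ (by positivity)]
  rcases le_or_gt |α| 1 with h1 | h1
  · have h2 : α ^ 2 ≤ 1 := by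
      rw [← sq_abs]
      nlinarith [abs_nonneg α]
    have h3 := Rh_le_sq hh α
    have h4 := Rh_nonneg hh α
    nlinarith [sq_nonneg h]
  · have hα : α ≠ 0 := by
      rintro rfl
      rw [abs_zero] at h1
      linarith
    have h2 : 1 ≤ α ^ 2 := by
      rw [← sq_abs]
      nlinarith [abs_nonneg α]
    have h3 := Rh_le (h := h) hα
    have h4 : 1 / (Real.pi ^ 2 * α ^ 2) ≤ 1 / α ^ 2 := by
      refine one_div_le_one_div_of_le (by positivity) ?_
      have : 1 ≤ Real.pi ^ 2 := by nlinarith [Real.pi_gt_three]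
      nlinarith
    have h5 : Rh h α * (1 + α ^ 2) ≤ 1 / α ^ 2 * (1 + α ^ 2) := mul_le_mul_of_nonneg_right (h3.trans h4) (by positivity)
    have h6 : 1 / α ^ 2 * (1 + α ^ 2) ≤ 2 := by
      rw [one_div, inv_mul_le_iff₀ (by positivity)]
      linarith
    nlinarith [sq_nonneg h]

lemma Rh_int {h : ℝ} (hh : 0 ≤ h) : Integrable (Rh h) := by
  refine (integrable_inv_one_add_sq.const_mul (2 * h ^ 2 + 2)).mono' (Rh_cont hh).aestronglyMeasurable
    (Filter.Eventually.of_forall fun α => ?_)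
  rw [Real.norm_eq_abs, abs_of_nonneg (Rh_nonneg hh α)]
  exact Rh_bd hh α

/-- the triangle -/
def tri (h x : ℝ) : ℝ := max (h - |x|) 0

lemma tri_cont (h : ℝ) : Continuous (tri h) := by
  unfold tri
  fun_prop

lemma tri_supp {h x : ℝ} (hx : x ∉ Set.Icc (-h) h) : tri h x = 0 := by
  unfold tri
  refine max_eq_right ?_
  have : h < |x| := by
    by_contra h1
    exact hx (abs_le.1 (not_lt.1 h1))
  linarith

lemma tri_integrable (h : ℝ) : Integrable (fun x => ((tri h x : ℝ) : ℂ)) := by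
  have h1 : Continuous fun x => ((tri h x : ℝ) : ℂ) := Complex.continuous_ofReal.comp (tri_cont h)
  refine h1.integrable_of_hasCompactSupport (HasCompactSupport.intro isCompact_Icc (K := Set.Icc (-h) h) fun x hx => ?_)
  rw [tri_supp hx, Complex.ofReal_zero]

lemma fourier_tri {h : ℝ} (hh : 0 ≤ h) (α : ℝ) : 𝓕 (fun x => ((tri h x : ℝ) : ℂ)) α = ((Rh h α : ℝ) : ℂ) := by
  rw [Real.fourier_real_eq_integral_exp_smul]
  have e1 : ∫ v : ℝ, Complex.exp (((-2 * Real.pi * v * α : ℝ) : ℂ) * Complex.I) • ((tri h v : ℝ) : ℂ) =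
      ∫ v : ℝ, ((tri h v * Real.cos (2 * Real.pi * v * α) : ℝ) : ℂ) := by
    have hi : Integrable fun v : ℝ => Complex.exp (((-2 * Real.pi * v * α : ℝ) : ℂ) * Complex.I) • ((tri h v : ℝ) : ℂ) := by
      have h1 : Continuous fun v : ℝ => Complex.exp (((-2 * Real.pi * v * α : ℝ) : ℂ) * Complex.I) • ((tri h v : ℝ) : ℂ) := by
        have := Complex.continuous_ofReal.comp (tri_cont h)
        fun_prop
      refine h1.integrable_of_hasCompactSupport (HasCompactSupport.intro isCompact_Icc (K := Set.Icc (-h) h) fun x hx => ?_)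
      rw [tri_supp hx, Complex.ofReal_zero, smul_zero]
    have h2 := integral_neg_eq_self (fun v : ℝ => Complex.exp (((-2 * Real.pi * v * α : ℝ) : ℂ) * Complex.I) •
      ((tri h v : ℝ) : ℂ)) volume
    have h3 : (∫ v : ℝ, Complex.exp (((-2 * Real.pi * v * α : ℝ) : ℂ) * Complex.I) • ((tri h v : ℝ) : ℂ)) +
        (∫ v : ℝ, Complex.exp (((-2 * Real.pi * (-v) * α : ℝ) : ℂ) * Complex.I) • ((tri h (-v) : ℝ) : ℂ)) =
        2 * ∫ v : ℝ, ((tri h v * Real.cos (2 * Real.pi * v * α) : ℝ) : ℂ) := by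
      rw [← integral_add hi hi.comp_neg, ← integral_const_mul]
      refine integral_congr_ae (Filter.Eventually.of_forall fun v => ?_)
      have h4 : tri h (-v) = tri h v := by
        unfold tri
        rw [abs_neg]
      show Complex.exp (((-2 * Real.pi * v * α : ℝ) : ℂ) * Complex.I) • ((tri h v : ℝ) : ℂ) +
        Complex.exp (((-2 * Real.pi * (-v) * α : ℝ) : ℂ) * Complex.I) • ((tri h (-v) : ℝ) : ℂ) =
        2 * ((tri h v * Real.cos (2 * Real.pi * v * α) : ℝ) : ℂ)
      rw [h4]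
      have h5 := Complex.two_cos ((2 * Real.pi * v * α : ℝ) : ℂ)
      have e1 : ((-2 * Real.pi * v * α : ℝ) : ℂ) * Complex.I = -(((2 * Real.pi * v * α : ℝ) : ℂ)) * Complex.I := by
        push_cast; ring
      have e2 : ((-2 * Real.pi * (-v) * α : ℝ) : ℂ) * Complex.I = ((2 * Real.pi * v * α : ℝ) : ℂ) * Complex.I := by
        push_cast; ring
      rw [e1, e2, smul_eq_mul, smul_eq_mul, ← add_mul, add_comm (Complex.exp _), ← h5, Complex.ofReal_mul (tri h v),
        Complex.ofReal_cos]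
      ring
    rw [h2, ← two_mul] at h3
    exact mul_left_cancel₀ two_ne_zero h3
  rw [e1, integral_complex_ofReal]
  congr 1
  have e2 : ∀ v : ℝ, tri h v * Real.cos (2 * Real.pi * v * α) =
      (fun v => max (h - v) 0 * Real.cos (2 * Real.pi * v * α)) |v| := by
    intro v
    show tri h v * Real.cos (2 * Real.pi * v * α) = max (h - |v|) 0 * Real.cos (2 * Real.pi * |v| * α)
    unfold tri
    congr 1
    rcases abs_choice v with h1 | h1
    · rw [h1]
    · rw [h1]
      have : 2 * Real.pi * -v * α = -(2 * Real.pi * v * α) := by ring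
      rw [this, Real.cos_neg]
  rw [integral_congr_ae (Filter.Eventually.of_forall e2), integral_comp_abs
    (f := fun v => max (h - v) 0 * Real.cos (2 * Real.pi * v * α))]
  unfold Rh Kt
  rw [intervalIntegral.integral_of_le hh]
  congr 1
  have hz : ∀ v ∈ Set.Ioi (0 : ℝ) \ Set.Ioc 0 h, max (h - v) 0 * Real.cos (2 * Real.pi * v * α) = 0 := by
    intro v hv
    have h1 : h < v := by
      by_contra h2
      exact hv.2 ⟨hv.1, not_lt.1 h2⟩
    rw [max_eq_right (by linarith), zero_mul]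
  rw [setIntegral_eq_of_subset_of_forall_sdiff_eq_zero measurableSet_Ioi Set.Ioc_subset_Ioi_self hz]
  refine setIntegral_congr_fun measurableSet_Ioc fun v hv => ?_
  show max (h - v) 0 * Real.cos (2 * Real.pi * v * α) = (h - v) * Real.cos (v * (2 * Real.pi * α))
  rw [max_eq_left (by linarith [hv.2])]
  congr 2
  ring

/-- **the Fourier representation of the triangle** -/
lemma tri_eq {h : ℝ} (hh : 0 ≤ h) (x : ℝ) : ∫ α : ℝ, Rh h α * Real.cos (α * (2 * Real.pi * x)) = tri h x := by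
  have hF : 𝓕 (fun x => ((tri h x : ℝ) : ℂ)) = fun α => ((Rh h α : ℝ) : ℂ) := by
    funext α
    exact fourier_tri hh α
  have h1 := (Complex.continuous_ofReal.comp (tri_cont h)).fourierInv_fourier_eq (tri_integrable h)
    (by
      show Integrable (𝓕 (fun x => ((tri h x : ℝ) : ℂ)))
      rw [hF]
      exact (Rh_int hh).ofReal)
  have h2 := congrFun h1 x
  have h3 : 𝓕⁻ (𝓕 (Complex.ofReal ∘ tri h)) x = ∫ α : ℝ, Complex.exp (((2 * Real.pi * (α * x) : ℝ) : ℂ) * Complex.I) •
      ((Rh h α : ℝ) : ℂ) := by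
    rw [Real.fourierInv_eq']
    refine integral_congr_ae (Filter.Eventually.of_forall fun α => ?_)
    show Complex.exp (((2 * Real.pi * inner ℝ α x : ℝ) : ℂ) * Complex.I) • 𝓕 (fun x => ((tri h x : ℝ) : ℂ)) α = _
    rw [hF]
    have : inner ℝ α x = α * x := by
      simp [mul_comm]
    rw [this]
  rw [h3] at h2
  have h4 := congrArg Complex.re h2
  have h5 : (∫ α : ℝ, Complex.exp (((2 * Real.pi * (α * x) : ℝ) : ℂ) * Complex.I) • ((Rh h α : ℝ) : ℂ)).re =
      ∫ α : ℝ, (Complex.exp (((2 * Real.pi * (α * x) : ℝ) : ℂ) * Complex.I) • ((Rh h α : ℝ) : ℂ)).re := by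
    refine (integral_re (𝕜 := ℂ) ?_).symm
    refine (Rh_int hh).mono' (Continuous.aestronglyMeasurable ?_) (Filter.Eventually.of_forall fun α => ?_)
    · have := Complex.continuous_ofReal.comp (Rh_cont hh)
      fun_prop
    · rw [norm_smul, Complex.norm_exp_ofReal_mul_I, one_mul, Complex.norm_real, Real.norm_eq_abs,
        abs_of_nonneg (Rh_nonneg hh α)]
  rw [h5] at h4
  have h6 : ((Complex.ofReal ∘ tri h) x).re = tri h x := Complex.ofReal_re _
  rw [h6] at h4
  rw [← h4]
  refine integral_congr_ae (Filter.Eventually.of_forall fun α => ?_)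
  show Rh h α * Real.cos (α * (2 * Real.pi * x)) =
    (Complex.exp (((2 * Real.pi * (α * x) : ℝ) : ℂ) * Complex.I) • ((Rh h α : ℝ) : ℂ)).re
  rw [smul_eq_mul, Complex.re_mul_ofReal, Complex.exp_ofReal_mul_I_re]
  have : 2 * Real.pi * (α * x) = α * (2 * Real.pi * x) := by ring
  rw [this, mul_comm]

end

end Pool.Agent.U85.Ml
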