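import Pool.Agent.U85.Ml.Rg

set_option autoImplicit false

/-!
Pair sums with the triangle kernel, deterministic part.
-/

namespace Pool.Agent.U85.Ml

open Filter Topology MeasureTheory

noncomputable section

lemma ii_of {f : ℝ → ℝ} {c d : ℝ} (hcd : c ≤ d) (hf : ContinuousOn f (Set.Icc c d)) : IntervalIntegrable f volume c d :=
  ContinuousOn.intervalIntegrable (by rwa [Set.uIcc_of_le hcd])

/-- the oscillating part -/
lemma osc_bd {ω a : ℝ} (hω : 0 < ω) (ha : 1 / ω ≤ a) : |∫ α in (1 / ω)..a, Real.cos (ω * α) / α| ≤ 2 := by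
  have h0 : 0 < 1 / ω := by positivity
  have ha0 : 0 < a := h0.trans_le ha
  have hpos : ∀ x ∈ Set.Icc (1 / ω) a, 0 < x := fun x hx => h0.trans_le hx.1
  have hd : ∀ x ∈ Set.uIcc (1 / ω) a, HasDerivAt (fun α => Real.sin (ω * α) / (ω * α))
      (Real.cos (ω * x) / x - Real.sin (ω * x) / (ω * x ^ 2)) x := by
    intro x hx
    rw [Set.uIcc_of_le ha] at hx
    have hx0 := hpos x hx
    have h1 : HasDerivAt (fun α : ℝ => ω * α) ω x := by simpa using (hasDerivAt_id x).const_mul ω
    have h2 := h1.sin.div h1 (by positivity)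
    refine h2.congr_deriv ?_
    field_simp
  have c1 : ContinuousOn (fun x => Real.cos (ω * x) / x) (Set.Icc (1 / ω) a) :=
    ContinuousOn.div (by fun_prop) continuousOn_id fun x hx => (hpos x hx).ne'
  have c2 : ContinuousOn (fun x => Real.sin (ω * x) / (ω * x ^ 2)) (Set.Icc (1 / ω) a) :=
    ContinuousOn.div (by fun_prop) (by fun_prop) fun x hx => by have := hpos x hx; positivity
  have h1 := intervalIntegral.integral_eq_sub_of_hasDerivAt hd ((ii_of ha c1).sub (ii_of ha c2))
  rw [intervalIntegral.integral_sub (ii_of ha c1) (ii_of ha c2)] at h1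
  have h2 : |∫ x in (1 / ω)..a, Real.sin (ω * x) / (ω * x ^ 2)| ≤ 1 - 1 / (ω * a) := by
    have h3 : ∀ x ∈ Set.uIcc (1 / ω) a, HasDerivAt (fun α => -(1 / (ω * α))) (1 / (ω * x ^ 2)) x := by
      intro x hx
      rw [Set.uIcc_of_le ha] at hx
      have hx0 := hpos x hx
      have h1 : HasDerivAt (fun α : ℝ => ω * α) ω x := by simpa using (hasDerivAt_id x).const_mul ω
      have h2 := (h1.inv (by positivity)).neg
      simp only [one_div]
      refine h2.congr_deriv ?_
      field_simp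
    have c3 : ContinuousOn (fun x => 1 / (ω * x ^ 2)) (Set.Icc (1 / ω) a) :=
      ContinuousOn.div (by fun_prop) (by fun_prop) fun x hx => by have := hpos x hx; positivity
    have h4 := intervalIntegral.integral_eq_sub_of_hasDerivAt h3 (ii_of ha c3)
    have h5 : |∫ x in (1 / ω)..a, Real.sin (ω * x) / (ω * x ^ 2)| ≤ ∫ x in (1 / ω)..a, 1 / (ω * x ^ 2) := by
      refine (intervalIntegral.abs_integral_le_integral_abs ha).trans ?_
      refine intervalIntegral.integral_mono_on ha (ii_of ha c2.abs) (ii_of ha c3) fun x hx => ?_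
      rw [abs_div, abs_of_pos (show 0 < ω * x ^ 2 by have := hpos x hx; positivity)]
      have := hpos x hx
      exact div_le_div_of_nonneg_right (Real.abs_sin_le_one _) (by positivity)
    rw [h4] at h5
    refine h5.trans (le_of_eq ?_)
    have : ω * (1 / ω) = 1 := by field_simp
    rw [this]
    ring
  have h3 : |Real.sin (ω * a) / (ω * a)| ≤ 1 / (ω * a) := by
    rw [abs_div, abs_of_pos (by positivity : 0 < ω * a)]
    exact div_le_div_of_nonneg_right (Real.abs_sin_le_one _) (by positivity)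
  have h4 : |Real.sin (ω * (1 / ω)) / (ω * (1 / ω))| ≤ 1 := by
    have : ω * (1 / ω) = 1 := by field_simp
    rw [this, div_one]
    exact Real.abs_sin_le_one _
  have h5 := abs_le.1 h2
  have h6 := abs_le.1 h3
  have h7 := abs_le.1 h4
  rw [abs_le]
  constructor <;> linarith [h5.1, h5.2, h6.1, h6.2, h7.1, h7.2]

/-- the main term -/
lemma J_bd {h a : ℝ} (hh : 1 ≤ h) (ha : 1 / 4 ≤ a) (ha2 : a ≤ 1 / 2) :
    |2 * (∫ α in (0 : ℝ)..a, α * Rh h α) - Real.log h / Real.pi ^ 2| ≤ 1 / 2 := by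
  have hh0 : 0 ≤ h := by linarith
  have hpi := Real.pi_gt_three
  have hpi2 := Real.pi_lt_d2
  obtain ⟨ω, hω⟩ : ∃ ω, ω = 2 * Real.pi * h := ⟨_, rfl⟩
  have hω6 : 6 ≤ ω := by rw [hω]; nlinarith
  have hω0 : 0 < ω := by linarith
  have hoa : 1 / ω ≤ a := by
    rw [div_le_iff₀ hω0]
    nlinarith
  have h0 : 0 < 1 / ω := by positivity
  have hRc := Rh_cont hh0
  have hc : Continuous fun α => α * Rh h α := continuous_id.mul hRc
  have hsplit := intervalIntegral.integral_add_adjacent_intervals (hc.intervalIntegrable (μ := volume) 0 (1 / ω))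
    (hc.intervalIntegrable (1 / ω) a)
  have hA : 0 ≤ ∫ α in (0 : ℝ)..(1 / ω), α * Rh h α :=
    intervalIntegral.integral_nonneg h0.le fun u hu => mul_nonneg hu.1 (Rh_nonneg hh0 u)
  have hB : ∫ α in (0 : ℝ)..(1 / ω), α * Rh h α ≤ 1 / (8 * Real.pi ^ 2) := by
    have h1 : ∫ α in (0 : ℝ)..(1 / ω), α * Rh h α ≤ ∫ α in (0 : ℝ)..(1 / ω), h ^ 2 * α := by
      refine intervalIntegral.integral_mono_on h0.le (hc.intervalIntegrable _ _)
        (Continuous.intervalIntegrable (by fun_prop) _ _) fun x hx => ?_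
      rw [mul_comm]
      exact mul_le_mul_of_nonneg_right (Rh_le_sq hh0 x) hx.1
    refine h1.trans (le_of_eq ?_)
    rw [intervalIntegral.integral_const_mul, integral_id, hω]
    have : h ≠ 0 := by linarith
    field_simp
    norm_num
  have c1 : ContinuousOn (fun x => Real.cos (ω * x) / x) (Set.Icc (1 / ω) a) :=
    ContinuousOn.div (by fun_prop) continuousOn_id fun x hx => (h0.trans_le hx.1).ne'
  have c2 : ContinuousOn (fun x : ℝ => 1 / x) (Set.Icc (1 / ω) a) :=
    ContinuousOn.div (by fun_prop) continuousOn_id fun x hx => (h0.trans_le hx.1).ne'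
  have hC : ∫ α in (1 / ω)..a, α * Rh h α = (1 / (2 * Real.pi ^ 2)) * (Real.log (ω * a) - ∫ α in (1 / ω)..a, Real.cos (ω * α) / α) := by
    have h1 : Real.log (ω * a) = ∫ α in (1 / ω)..a, 1 / α := by
      rw [integral_one_div_of_pos h0 (by linarith)]
      congr 1
      field_simp
    rw [h1, ← intervalIntegral.integral_sub (ii_of hoa c2) (ii_of hoa c1), ← intervalIntegral.integral_const_mul]
    refine intervalIntegral.integral_congr fun x hx => ?_
    rw [Set.uIcc_of_le hoa] at hx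
    have hx0 : x ≠ 0 := (h0.trans_le hx.1).ne'
    show x * Rh h x = 1 / (2 * Real.pi ^ 2) * (1 / x - Real.cos (ω * x) / x)
    rw [Rh_eq hx0, ← hω]
    field_simp
  have hX := abs_le.1 (osc_bd hω0 hoa)
  obtain ⟨X, hXd⟩ : ∃ X, X = ∫ α in (1 / ω)..a, Real.cos (ω * α) / α := ⟨_, rfl⟩
  rw [← hXd] at hX hC
  have hlog : Real.log (ω * a) = Real.log h + Real.log (2 * Real.pi * a) := by
    rw [← Real.log_mul (by positivity) (by positivity), hω]
    congr 1
    ring
  have hl0 : 0 ≤ Real.log (2 * Real.pi * a) := Real.log_nonneg (by nlinarith)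
  have hl1 : Real.log (2 * Real.pi * a) ≤ 2.15 := by
    refine (Real.log_le_sub_one_of_pos (by positivity)).trans ?_
    nlinarith
  rw [← hsplit, hC, hlog]
  obtain ⟨A, hAd⟩ : ∃ A, A = ∫ α in (0 : ℝ)..(1 / ω), α * Rh h α := ⟨_, rfl⟩
  rw [← hAd] at hA hB ⊢
  obtain ⟨l, hl⟩ : ∃ l, l = Real.log (2 * Real.pi * a) := ⟨_, rfl⟩
  rw [← hl] at hl0 hl1 ⊢
  have hp2 : 9 ≤ Real.pi ^ 2 := by nlinarith
  have e : 2 * (A + 1 / (2 * Real.pi ^ 2) * (Real.log h + l - X)) - Real.log h / Real.pi ^ 2 = 2 * A + (l - X) / Real.pi ^ 2 := by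
    field_simp
    ring
  rw [e]
  have h8 : 1 / (8 * Real.pi ^ 2) ≤ 1 / 72 := one_div_le_one_div_of_le (by norm_num) (by linarith)
  have h9 : (l - X) / Real.pi ^ 2 ≤ 4.15 / 9 := by
    rw [div_le_div_iff₀ (by positivity) (by norm_num)]
    nlinarith [hX.1]
  have h10 : -(2 / 9) ≤ (l - X) / Real.pi ^ 2 := by
    rw [le_div_iff₀ (by positivity)]
    nlinarith [hX.2]
  rw [abs_le]
  constructor <;> linarith

/-- the tail -/
lemma tail_bd {F : ℝ → ℝ} (hF : Continuous F) (hF0 : ∀ u, 0 ≤ F u) {a M : ℝ} (ha : 0 < a)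
    (hM : ∀ c : ℝ, ∫ α in c..(c + 1), F α ≤ M) (n : ℕ) :
    ∫ α in a..(a + (n + 1)), F α / α ^ 2 ≤ M * (1 / a ^ 2 + 1 / (a + 1 / 2) - 1 / (a + n + 1 / 2)) := by
  have hM0 : 0 ≤ M := le_trans (intervalIntegral.integral_nonneg (by linarith) fun u _ => hF0 u) (hM 0)
  have hcont : ∀ c d : ℝ, 0 < c → c ≤ d → IntervalIntegrable (fun α => F α / α ^ 2) volume c d := by
    intro c d hc hcd
    refine ii_of hcd (ContinuousOn.div hF.continuousOn (by fun_prop) fun x hx => ?_)
    have : 0 < x := hc.trans_le hx.1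
    positivity
  have hstep : ∀ c : ℝ, 0 < c → ∫ α in c..(c + 1), F α / α ^ 2 ≤ M / c ^ 2 := by
    intro c hc
    have h1 : ∫ α in c..(c + 1), F α / α ^ 2 ≤ ∫ α in c..(c + 1), F α / c ^ 2 := by
      refine intervalIntegral.integral_mono_on (by linarith) (hcont c (c + 1) hc (by linarith))
        ((hF.div_const _).intervalIntegrable _ _) fun x hx => ?_
      refine div_le_div_of_nonneg_left (hF0 x) (by positivity) ?_
      exact pow_le_pow_left₀ hc.le hx.1 2
    rw [intervalIntegral.integral_div] at h1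
    exact h1.trans (div_le_div_of_nonneg_right (hM c) (by positivity))
  induction n with
  | zero =>
    have h1 := hstep a ha
    simp only [Nat.cast_zero, zero_add, add_zero]
    have e : M * (1 / a ^ 2 + 1 / (a + 1 / 2) - 1 / (a + 1 / 2)) = M / a ^ 2 := by ring
    rw [e]
    exact h1
  | succ n ih =>
    have hn : (0 : ℝ) ≤ n := Nat.cast_nonneg n
    have h1 := hstep (a + (n + 1)) (by positivity)
    have h2 := intervalIntegral.integral_add_adjacent_intervals (hcont a (a + (n + 1)) ha (by linarith))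
      (hcont (a + (n + 1)) (a + (n + 1) + 1) (by positivity) (by linarith))
    push_cast
    rw [← add_assoc a (n + 1) 1, ← h2]
    have h3 : M / (a + (n + 1)) ^ 2 ≤ M * (1 / (a + n + 1 / 2) - 1 / (a + (n + 1) + 1 / 2)) := by
      rw [div_eq_mul_one_div]
      refine mul_le_mul_of_nonneg_left ?_ hM0
      have e : 1 / (a + n + 1 / 2) - 1 / (a + (n + 1) + 1 / 2) = 1 / ((a + (n + 1)) ^ 2 - 1 / 4) := by
        have h4 : (a + (n + 1)) ^ 2 - 1 / 4 = (a + n + 1 / 2) * (a + (n + 1) + 1 / 2) := by ring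
        rw [h4]
        field_simp
        ring
      rw [e]
      refine one_div_le_one_div_of_le ?_ (by linarith)
      nlinarith
    have e : M * (1 / a ^ 2 + 1 / (a + 1 / 2) - 1 / (a + (n + 1) + 1 / 2)) =
      M * (1 / a ^ 2 + 1 / (a + 1 / 2) - 1 / (a + n + 1 / 2)) + M * (1 / (a + n + 1 / 2) - 1 / (a + (n + 1) + 1 / 2)) := by ring
    rw [e]
    linarith

/-- the pair sum as an integral -/
lemma P_eq {ι : Type*} (P : Finset ι) (w x : ι → ℝ) {h : ℝ} (hh : 0 ≤ h) :
    ∑ i ∈ P, w i * tri h (x i) = ∫ α : ℝ, Rh h α * CS P w (fun i => 2 * Real.pi * x i) α := by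
  have hi : ∀ i ∈ P, Integrable fun α : ℝ => w i * (Rh h α * Real.cos (α * (2 * Real.pi * x i))) := by
    intro i _
    refine Integrable.const_mul ?_ _
    refine (Rh_int hh).mono' (Continuous.aestronglyMeasurable ?_) (Filter.Eventually.of_forall fun α => ?_)
    · have := Rh_cont hh
      fun_prop
    · rw [Real.norm_eq_abs, abs_mul, abs_of_nonneg (Rh_nonneg hh α)]
      exact mul_le_of_le_one_right (Rh_nonneg hh α) (Real.abs_cos_le_one _)
  have e : ∀ α : ℝ, Rh h α * CS P w (fun i => 2 * Real.pi * x i) α =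
      ∑ i ∈ P, w i * (Rh h α * Real.cos (α * (2 * Real.pi * x i))) := by
    intro α
    unfold CS
    rw [Finset.mul_sum]
    refine Finset.sum_congr rfl fun i _ => ?_
    ring
  simp only [e]
  rw [integral_finsetSum P hi]
  refine Finset.sum_congr rfl fun i _ => ?_
  rw [integral_const_mul, tri_eq hh]

lemma CS_int {ι : Type*} (P : Finset ι) (w y : ι → ℝ) {h : ℝ} (hh : 0 ≤ h) :
    Integrable fun α : ℝ => Rh h α * CS P w y α := by
  refine ((Rh_int hh).mul_const (∑ i ∈ P, |w i|)).mono' (Continuous.aestronglyMeasurable ((Rh_cont hh).mul (CS_cont P w y)))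
    (Filter.Eventually.of_forall fun α => ?_)
  rw [Real.norm_eq_abs, abs_mul, abs_of_nonneg (Rh_nonneg hh α)]
  refine mul_le_mul_of_nonneg_left ?_ (Rh_nonneg hh α)
  unfold CS
  refine (Finset.abs_sum_le_sum_abs _ _).trans (Finset.sum_le_sum fun i _ => ?_)
  rw [abs_mul]
  exact mul_le_of_le_one_right (abs_nonneg _) (Real.abs_cos_le_one _)

/-- the integral over the line -/
lemma P_split {ι : Type*} (P : Finset ι) (w y : ι → ℝ) {h a M : ℝ} (hh : 0 ≤ h) (hF0 : ∀ u, 0 ≤ CS P w y u) (ha : 0 < a)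
    (hM : ∀ c : ℝ, ∫ α in c..(c + 1), CS P w y α ≤ M) :
    2 * (∫ α in (0 : ℝ)..a, Rh h α * CS P w y α) ≤ ∫ α : ℝ, Rh h α * CS P w y α ∧
    ∫ α : ℝ, Rh h α * CS P w y α ≤ 2 * (∫ α in (0 : ℝ)..a, Rh h α * CS P w y α) +
      2 / Real.pi ^ 2 * (M * (1 / a ^ 2 + 1 / (a + 1 / 2))) := by
  have hM0 : 0 ≤ M := le_trans (intervalIntegral.integral_nonneg (by linarith) fun u _ => hF0 u) (hM 0)
  obtain ⟨f, hf⟩ : ∃ f : ℝ → ℝ, f = fun α => Rh h α * CS P w y α := ⟨_, rfl⟩
  have hfi : Integrable f := hf ▸ CS_int P w y hh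
  have hfc : Continuous f := hf ▸ (Rh_cont hh).mul (CS_cont P w y)
  have hf0 : ∀ u, 0 ≤ f u := fun u => by rw [hf]; exact mul_nonneg (Rh_nonneg hh u) (hF0 u)
  have heven : ∀ α, f α = f |α| := by
    intro α
    have h1 : Rh h (-α) = Rh h α := by
      unfold Rh Kt
      congr 1
      refine intervalIntegral.integral_congr fun u _ => ?_
      show (h - u) * Real.cos (u * (2 * Real.pi * -α)) = (h - u) * Real.cos (u * (2 * Real.pi * α))
      have : u * (2 * Real.pi * -α) = -(u * (2 * Real.pi * α)) := by ring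
      rw [this, Real.cos_neg]
    have h2 : CS P w y (-α) = CS P w y α := by
      unfold CS
      refine Finset.sum_congr rfl fun i _ => ?_
      rw [neg_mul, Real.cos_neg]
    rcases abs_choice α with h3 | h3
    · rw [h3]
    · rw [h3, hf]
      simp only
      rw [h1, h2]
  have h1 : ∫ α : ℝ, f α = 2 * ∫ α in Set.Ioi (0 : ℝ), f α := by
    rw [integral_congr_ae (Filter.Eventually.of_forall heven), integral_comp_abs (f := f)]
  have h2 : ∫ α in Set.Ioi (0 : ℝ), f α = (∫ α in (0 : ℝ)..a, f α) + ∫ α in Set.Ioi a, f α :=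
    (intervalIntegral.integral_interval_add_Ioi hfi.integrableOn hfi.integrableOn).symm
  have h3 : 0 ≤ ∫ α in Set.Ioi a, f α := setIntegral_nonneg measurableSet_Ioi fun u _ => hf0 u
  have h4 : ∫ α in Set.Ioi a, f α ≤ 1 / Real.pi ^ 2 * (M * (1 / a ^ 2 + 1 / (a + 1 / 2))) := by
    have ht : Tendsto (fun n : ℕ => a + ((n : ℝ) + 1)) atTop atTop :=
      tendsto_atTop_add_const_left _ _ (tendsto_atTop_add_const_right _ _ tendsto_natCast_atTop_atTop)
    refine le_of_tendsto' (intervalIntegral_tendsto_integral_Ioi a hfi.integrableOn ht) fun n => ?_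
    have hn : (0 : ℝ) ≤ n := Nat.cast_nonneg n
    have h5 := tail_bd (CS_cont P w y) hF0 ha hM n
    have h6 : ∫ α in a..(a + (n + 1)), f α ≤ ∫ α in a..(a + (n + 1)), 1 / Real.pi ^ 2 * (CS P w y α / α ^ 2) := by
      refine intervalIntegral.integral_mono_on (by linarith) (hfc.intervalIntegrable _ _) ?_ fun x hx => ?_
      · refine IntervalIntegrable.const_mul (ii_of (by linarith) (ContinuousOn.div (CS_cont P w y).continuousOn
          (by fun_prop) fun x hx => ?_)) _
        have : 0 < x := ha.trans_le hx.1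
        positivity
      · have hx0 : x ≠ 0 := (ha.trans_le hx.1).ne'
        have h7 := mul_le_mul_of_nonneg_right (Rh_le (h := h) hx0) (hF0 x)
        rw [hf]
        refine h7.trans (le_of_eq ?_)
        field_simp
    refine h6.trans ?_
    rw [intervalIntegral.integral_const_mul]
    refine mul_le_mul_of_nonneg_left (h5.trans (mul_le_mul_of_nonneg_left ?_ hM0)) (by positivity)
    have : 0 ≤ 1 / (a + n + 1 / 2) := by positivity
    linarith
  have e : ∫ α : ℝ, Rh h α * CS P w y α = ∫ α : ℝ, f α := by rw [hf]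
  have e' : ∫ α in (0 : ℝ)..a, Rh h α * CS P w y α = ∫ α in (0 : ℝ)..a, f α := by rw [hf]
  rw [e, e', h1, h2]
  constructor
  · linarith
  · have : 2 / Real.pi ^ 2 * (M * (1 / a ^ 2 + 1 / (a + 1 / 2))) = 2 * (1 / Real.pi ^ 2 * (M * (1 / a ^ 2 + 1 / (a + 1 / 2)))) := by ring
    rw [this]
    linarith

end

end Pool.Agent.U85.Ml
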