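import Pool.Agent.U85.Ml.Fq
import Pool.Agent.U85.Ml.Rj
import Pool.Agent.U85.Ml.Un

set_option autoImplicit false

/-!
On the Riemann hypothesis: rigidity of the zeros in almost every window.
-/

namespace Pool.Agent.U85.Ml

open Filter Topology MeasureTheory Complex
open scoped ComplexConjugate
open Pool.Agent.Q97.UM Pool.Agent.U85.Zd

noncomputable section

/-- the pair sum with the triangle kernel -/
def Pw (T H h t : ℝ) : ℝ := (∑ᶠ p ∈ zw t (H / Real.log T) ×ˢ zw t (H / Real.log T),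
  (analyticOrderNatAt riemannZeta p.1 : ℝ) * (analyticOrderNatAt riemannZeta p.2 : ℝ) *
    max (h - Real.log T / (2 * Real.pi) * |p.1.im - p.2.im|) 0) / (H / Real.pi)

open Classical in
/-- the number of pairs at distance at most `h` mean spacings -/
def Cw (T H h t : ℝ) : ℝ := (∑ᶠ p ∈ zw t (H / Real.log T) ×ˢ zw t (H / Real.log T),
  (analyticOrderNatAt riemannZeta p.1 : ℝ) * (analyticOrderNatAt riemannZeta p.2 : ℝ) *
    (if Real.log T / (2 * Real.pi) * |p.1.im - p.2.im| ≤ h then 1 else 0)) / (H / Real.pi)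

lemma fin2_eq {T t H : ℝ} (hT : 10 ≤ T) (hL : 1 ≤ Real.log T) (hr : H / Real.log T ≤ 1)
    (ht : t ∈ Set.Ioc (T + 2 * Real.log T) (2 * T - 2 * Real.log T)) (f : ℂ × ℂ → ℝ) :
    ∑ᶠ p ∈ zw t (H / Real.log T) ×ˢ zw t (H / Real.log T), f p =
      ∑ p ∈ Zf' T (H / Real.log T) t ×ˢ Zf' T (H / Real.log T) t, f p := by
  rw [zw_eq hT hL hr ht]
  have e : ((((ZT T).filter (fun s => |s.im - t| ≤ H / Real.log T) : Finset ℂ) : Set ℂ) ×ˢ
      (((ZT T).filter (fun s => |s.im - t| ≤ H / Real.log T) : Finset ℂ) : Set ℂ)) =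
      ((Zf' T (H / Real.log T) t ×ˢ Zf' T (H / Real.log T) t : Finset (ℂ × ℂ)) : Set (ℂ × ℂ)) := by
    rw [Finset.coe_product]
    rfl
  rw [e, finsum_mem_coe_finset]

/-- the pair sum in terms of the triangle -/
lemma Pw_eq {T t H h : ℝ} (hT : 10 ≤ T) (hL : 1 ≤ Real.log T) (hr : H / Real.log T ≤ 1)
    (ht : t ∈ Set.Ioc (T + 2 * Real.log T) (2 * T - 2 * Real.log T)) : Pw T H h t =
    ∑ p ∈ Zf' T (H / Real.log T) t ×ˢ Zf' T (H / Real.log T) t, (mz p.1 : ℝ) * (mz p.2 : ℝ) / (H / Real.pi) *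
      tri h (Real.log T / (2 * Real.pi) * (p.1.im - p.2.im)) := by
  unfold Pw
  rw [fin2_eq hT hL hr ht, Finset.sum_div]
  refine Finset.sum_congr rfl fun p _ => ?_
  unfold tri
  rw [abs_mul, abs_of_nonneg (show 0 ≤ Real.log T / (2 * Real.pi) by positivity), mul_div_right_comm]
  rfl

lemma Cw_eq {T t H h : ℝ} (hT : 10 ≤ T) (hL : 1 ≤ Real.log T) (hr : H / Real.log T ≤ 1)
    (ht : t ∈ Set.Ioc (T + 2 * Real.log T) (2 * T - 2 * Real.log T)) : Cw T H h t =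
    ∑ p ∈ Zf' T (H / Real.log T) t ×ˢ Zf' T (H / Real.log T) t, (mz p.1 : ℝ) * (mz p.2 : ℝ) / (H / Real.pi) *
      (if |Real.log T / (2 * Real.pi) * (p.1.im - p.2.im)| ≤ h then 1 else 0) := by
  unfold Cw
  rw [fin2_eq hT hL hr ht, Finset.sum_div]
  refine Finset.sum_congr rfl fun p _ => ?_
  rw [abs_mul, abs_of_nonneg (show 0 ≤ Real.log T / (2 * Real.pi) by positivity), mul_div_right_comm]
  rfl

lemma tri_mono {h k : ℝ} (hk : h ≤ k) (x : ℝ) : tri h x ≤ tri k x := by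
  unfold tri
  exact max_le_max (by linarith) le_rfl

lemma tri_ind_up (h x : ℝ) : (if |x| ≤ h then (1 : ℝ) else 0) ≤ tri (h + 1) x - tri h x := by
  unfold tri
  split_ifs with h1
  · rw [max_eq_left (by linarith), max_eq_left (by linarith)]
    linarith
  · have := max_le_max (show h - |x| ≤ h + 1 - |x| by linarith) (le_refl (0 : ℝ))
    linarith

lemma tri_ind_lo (h x : ℝ) : tri h x - tri (h - 1) x ≤ if |x| ≤ h then (1 : ℝ) else 0 := by
  unfold tri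
  split_ifs with h1
  · rw [max_eq_left (by linarith : 0 ≤ h - |x|)]
    have := le_max_left (h - 1 - |x|) 0
    linarith
  · rw [max_eq_right (by linarith), max_eq_right (by linarith)]
    simp

/-- the bound for one value of `h` -/
lemma one_h (hRH : RiemannHypothesis) {T t H h : ℝ} (hT : 10 ≤ T) (hL : 1 ≤ Real.log T) (hr : H / Real.log T ≤ 1)
    (hH : 0 < H) (ht : t ∈ Set.Ioc (T + 2 * Real.log T) (2 * T - 2 * Real.log T)) (hh : 1 ≤ h)
    (hF : FreqPt T H 0.49 0.01 t) (hg : GoodPt (Rh h) 0.49 H T 0.01 t) :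
    |Pw T H h t - (h ^ 2 + Real.log h / Real.pi ^ 2)| ≤ 5.5 := by
  have hh0 : 0 ≤ h := by linarith
  have hhp : 0 < H / Real.pi := by positivity
  obtain ⟨P, hP⟩ : ∃ P, P = Zf' T (H / Real.log T) t ×ˢ Zf' T (H / Real.log T) t := ⟨_, rfl⟩
  obtain ⟨w, hw⟩ : ∃ w : ℂ × ℂ → ℝ, w = fun p => (mz p.1 : ℝ) * (mz p.2 : ℝ) / (H / Real.pi) := ⟨_, rfl⟩
  obtain ⟨x, hx⟩ : ∃ x : ℂ × ℂ → ℝ, x = fun p => Real.log T / (2 * Real.pi) * (p.1.im - p.2.im) := ⟨_, rfl⟩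
  have hFw : (fun α => Fw T H α t) = CS P w (fun i => 2 * Real.pi * x i) := by
    funext α
    rw [Fw_CS hRH hT hL hr ht, hP, hw, hx]
    unfold CS
    refine Finset.sum_congr rfl fun p _ => ?_
    congr 2
    field_simp
  have hPw : Pw T H h t = ∫ α : ℝ, Rh h α * CS P w (fun i => 2 * Real.pi * x i) α := by
    rw [Pw_eq hT hL hr ht, ← P_eq P w x hh0, hP, hw, hx]
  obtain ⟨M, hM⟩ : ∃ M : ℝ, M = (1 / 0.49 + 2) * ((0.49 + 0.49 ^ 3 / 3 + 0.01) / 0.49) := ⟨_, rfl⟩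
  have hM1 : ∀ c : ℝ, ∫ α in c..(c + 1), CS P w (fun i => 2 * Real.pi * x i) α ≤ M := by
    intro c
    have := hF.2 c 1 zero_le_one
    rw [hM, ← hFw]
    exact this
  have hF0 : ∀ u, 0 ≤ CS P w (fun i => 2 * Real.pi * x i) u := by
    intro u
    rw [← hFw]
    show 0 ≤ Fw T H u t
    unfold Fw
    positivity
  obtain ⟨hlo, hup⟩ := P_split P w (fun i => 2 * Real.pi * x i) hh0 hF0 (by norm_num : (0 : ℝ) < 0.49) hM1
  rw [← hPw] at hlo hup
  have e1 : ∫ α in (0 : ℝ)..0.49, Rh h α * CS P w (fun i => 2 * Real.pi * x i) α =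
      (∫ β in (0 : ℝ)..0.49, Rh h β * ‖Ssh T (H / Real.log T) (Real.log T * β) t‖ ^ 2) / (H / Real.pi) := by
    rw [← intervalIntegral.integral_div]
    refine intervalIntegral.integral_congr fun β _ => ?_
    have e3 : CS P w (fun i => 2 * Real.pi * x i) β = Fw T H β t := (congrFun hFw β).symm
    show Rh h β * CS P w (fun i => 2 * Real.pi * x i) β = _
    rw [e3]
    unfold Fw
    rw [Sw_eq β hT hL hr ht]
    ring
  rw [e1] at hlo hup
  obtain ⟨h1, -⟩ := hg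
  obtain ⟨X, hX⟩ : ∃ X, X = ∫ β in (0 : ℝ)..0.49, Rh h β * ‖Ssh T (H / Real.log T) (Real.log T * β) t‖ ^ 2 := ⟨_, rfl⟩
  obtain ⟨J, hJ⟩ : ∃ J, J = ∫ β in (0 : ℝ)..0.49, β * Rh h β := ⟨_, rfl⟩
  have hJb := J_bd hh (show (1 / 4 : ℝ) ≤ 0.49 by norm_num) (by norm_num)
  rw [← hX] at h1 hlo hup
  rw [← hJ] at h1 hJb
  rw [Rh_zero] at h1
  obtain ⟨hhv, hhd⟩ : ∃ v, v = H / Real.pi := ⟨_, rfl⟩
  rw [← hhd] at h1 hlo hup hhp
  have h2 : |2 * (X / hhv) - (h ^ 2 + 2 * J)| ≤ 0.01 := by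
    have e : 2 * (X / hhv) - (h ^ 2 + 2 * J) = (2 * X - (h ^ 2 + 2 * J) * hhv) / hhv := by
      field_simp
    rw [e, abs_div, abs_of_pos hhp, div_le_iff₀ hhp]
    exact h1
  have h3 := abs_le.1 h2
  have h4 := abs_le.1 hJb
  have hpi : 3.14 < Real.pi := Real.pi_gt_d2
  have hp2 : 9.8596 ≤ Real.pi ^ 2 := by nlinarith
  have h5 : 2 / Real.pi ^ 2 * (M * (1 / 0.49 ^ 2 + 1 / (0.49 + 1 / 2))) ≤ 4.69 := by
    have h6 : 2 / Real.pi ^ 2 ≤ 2 / 9.8596 := div_le_div_of_nonneg_left (by norm_num) (by norm_num) hp2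
    have h7 : 0 ≤ M * (1 / 0.49 ^ 2 + 1 / (0.49 + 1 / 2)) := by rw [hM]; norm_num
    refine (mul_le_mul_of_nonneg_right h6 h7).trans ?_
    rw [hM]
    norm_num
  rw [abs_le]
  constructor <;> linarith [h3.1, h3.2, h4.1, h4.2]

/-- what holds outside the exceptional set -/
def RigPt (T H h₁ t : ℝ) : Prop := ∀ h : ℝ, 1 ≤ h → h ≤ h₁ →
  |Pw T H h t - (h ^ 2 + Real.log h / Real.pi ^ 2)| ≤ 6 ∧ (2 ≤ h → |Cw T H h t - 2 * h| ≤ 14)

/-- from the pair sums to the numbers of pairs -/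
lemma rig_of {T t H K : ℝ} (hT : 10 ≤ T) (hL : 1 ≤ Real.log T) (hr : H / Real.log T ≤ 1)
    (hH : 0 < H) (ht : t ∈ Set.Ioc (T + 2 * Real.log T) (2 * T - 2 * Real.log T))
    (hP : ∀ h : ℝ, 1 ≤ h → h ≤ K + 1 → |Pw T H h t - (h ^ 2 + Real.log h / Real.pi ^ 2)| ≤ 6) : RigPt T H K t := by
  intro h hh hK
  refine ⟨hP h hh (by linarith), fun h2 => ?_⟩
  have hp2 : 9 ≤ Real.pi ^ 2 := by nlinarith [Real.pi_gt_three]
  have hw0 : ∀ p : ℂ × ℂ, 0 ≤ (mz p.1 : ℝ) * (mz p.2 : ℝ) / (H / Real.pi) := fun p => by positivity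
  have hup : Cw T H h t ≤ Pw T H (h + 1) t - Pw T H h t := by
    rw [Cw_eq hT hL hr ht, Pw_eq hT hL hr ht, Pw_eq hT hL hr ht, ← Finset.sum_sub_distrib]
    refine Finset.sum_le_sum fun p _ => ?_
    rw [← mul_sub]
    exact mul_le_mul_of_nonneg_left (tri_ind_up _ _) (hw0 p)
  have hlo : Pw T H h t - Pw T H (h - 1) t ≤ Cw T H h t := by
    rw [Cw_eq hT hL hr ht, Pw_eq hT hL hr ht, Pw_eq hT hL hr ht, ← Finset.sum_sub_distrib]
    refine Finset.sum_le_sum fun p _ => ?_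
    rw [← mul_sub]
    exact mul_le_mul_of_nonneg_left (tri_ind_lo _ _) (hw0 p)
  have h3 := abs_le.1 (hP h hh (by linarith))
  have h4 := abs_le.1 (hP (h + 1) (by linarith) (by linarith))
  have h5 := abs_le.1 (hP (h - 1) (by linarith) (by linarith))
  have l1 : Real.log (h + 1) - Real.log h ≤ 1 := by
    rw [← Real.log_div (by linarith) (by linarith)]
    refine (Real.log_le_sub_one_of_pos (by positivity)).trans ?_
    rw [sub_le_iff_le_add, div_le_iff₀ (by linarith)]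
    linarith
  have l2 : Real.log (h - 1) ≤ Real.log h := Real.log_le_log (by linarith) (by linarith)
  have l3 : Real.log (h + 1) / Real.pi ^ 2 - Real.log h / Real.pi ^ 2 ≤ 1 / 9 := by
    rw [← sub_div, div_le_div_iff₀ (by positivity) (by norm_num)]
    nlinarith
  have l4 : 0 ≤ Real.log h / Real.pi ^ 2 - Real.log (h - 1) / Real.pi ^ 2 := by
    rw [← sub_div]
    exact div_nonneg (by linarith) (by positivity)
  rw [abs_le]
  constructor
  · nlinarith [h3.1, h5.2]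
  · nlinarith [h4.2, h3.1]

/-- **rigidity in almost every window** -/
theorem rigid_all (hRH : RiemannHypothesis) (h₁ : ℝ) (ε : ℝ) (hε : 0 < ε) :
    ∃ H₀ : ℝ, 1 ≤ H₀ ∧ ∀ H : ℝ, H₀ ≤ H → ∃ θ T₀ : ℝ, 0 < θ ∧ 1 ≤ T₀ ∧
      ∀ T : ℝ, T₀ ≤ T → ∀ N : ℕ, (N : ℝ) ≤ T ^ θ → ∀ b : ℕ → ℂ, ∃ G : Set ℝ, MeasurableSet G ∧ G ⊆ Set.Icc T (2 * T) ∧
        ∫ t in G, ‖dp N b t‖ ^ 2 ≤ ε * ∫ t in Set.Icc T (2 * T), ‖dp N b t‖ ^ 2 ∧
        ∀ t ∈ Set.Icc T (2 * T), t ∉ G → RigPt T H h₁ t := by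
  obtain ⟨K, hK⟩ : ∃ K : ℝ, K = max h₁ 1 + 1 := ⟨_, rfl⟩
  have hK2 : 2 ≤ K := by rw [hK]; linarith [le_max_right h₁ 1]
  have hKh : h₁ + 1 ≤ K := by rw [hK]; linarith [le_max_left h₁ 1]
  obtain ⟨δ, hδ⟩ : ∃ δ : ℝ, δ = 1 / (16 * K) := ⟨_, rfl⟩
  have hδ0 : 0 < δ := by rw [hδ]; positivity
  have hδK : δ * K = 1 / 16 := by rw [hδ]; field_simp
  obtain ⟨n, hn⟩ : ∃ n : ℕ, n = ⌈K / δ⌉₊ + 1 := ⟨_, rfl⟩
  obtain ⟨R, hR⟩ : ∃ R : ℕ → ℝ → ℝ, R = fun i => if i = 0 then fun u => 2 * (0.49 - u) else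
    Rh (1 + ((min (i - 1) n : ℕ) : ℝ) * δ) := ⟨_, rfl⟩
  obtain ⟨D, hD⟩ : ∃ D : ℝ, D = max 2 (4 * Real.pi * (1 + n * δ) ^ 3) := ⟨_, rfl⟩
  have hlip : ∀ i, ∀ x y : ℝ, |R i x - R i y| ≤ D * |x - y| := by
    intro i x y
    rw [hR]
    simp only
    split_ifs with hi
    · have : 2 * (0.49 - x) - 2 * (0.49 - y) = -(2 * (x - y)) := by ring
      rw [this, abs_neg, abs_mul, abs_two]
      exact mul_le_mul_of_nonneg_right (hD ▸ le_max_left _ _) (abs_nonneg _)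
    · refine (Rh_lip (by positivity) x y).trans (mul_le_mul_of_nonneg_right ?_ (abs_nonneg _))
      rw [hD]
      refine le_trans ?_ (le_max_right _ _)
      refine mul_le_mul_of_nonneg_left (pow_le_pow_left₀ (by positivity) ?_ 3) (by positivity)
      have : ((min (i - 1) n : ℕ) : ℝ) ≤ n := by exact_mod_cast min_le_right _ _
      have := mul_le_mul_of_nonneg_right this hδ0.le
      linarith
  obtain ⟨H₀, hH₀, h⟩ := multi R D 0.49 hlip (by norm_num) (by norm_num) 0.01 (by norm_num) (Finset.range (n + 2)) ε hε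
  refine ⟨H₀, hH₀, fun H hH => ?_⟩
  obtain ⟨θ, hθ, h⟩ := h H hH
  obtain ⟨T₀, h⟩ := Filter.eventually_atTop.1 h
  refine ⟨θ, max T₀ 1, hθ, le_max_right _ _, fun T hT N hN b => ?_⟩
  obtain ⟨hr, hT10, hL1, h⟩ := h T ((le_max_left _ _).trans hT)
  obtain ⟨G, hGm, hGs, hGi, hG⟩ := h N hN b
  refine ⟨G, hGm, hGs, hGi, fun t ht htG => ?_⟩
  obtain ⟨hJ, hg⟩ := hG t ht htG
  have hH0 : 0 < H := by linarith
  have hg0 : GoodPt (fun u => 2 * (0.49 - u)) 0.49 H T 0.01 t := by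
    have := hg 0 (Finset.mem_range.2 (by omega))
    rw [hR] at this
    simpa using this
  have hF : FreqPt T H 0.49 0.01 t := freq_of_good hRH hT10 hL1 hr hH0 hJ (by norm_num) (by norm_num) hg0
  have hnet : ∀ i : ℕ, i ≤ n → |Pw T H (1 + i * δ) t - ((1 + i * δ) ^ 2 + Real.log (1 + i * δ) / Real.pi ^ 2)| ≤ 5.5 := by
    intro i hi
    have h1 := hg (i + 1) (Finset.mem_range.2 (by omega))
    rw [hR] at h1
    simp only [Nat.add_eq_zero_iff, one_ne_zero, and_false, if_false, Nat.add_sub_cancel] at h1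
    rw [min_eq_left hi] at h1
    exact one_h hRH hT10 hL1 hr hH0 hJ (by have : 0 ≤ (i : ℝ) * δ := by positivity
                                           linarith) hF h1
  have hmono : ∀ x y : ℝ, x ≤ y → Pw T H x t ≤ Pw T H y t := by
    intro x y hxy
    rw [Pw_eq hT10 hL1 hr hJ, Pw_eq hT10 hL1 hr hJ]
    exact Finset.sum_le_sum fun p _ => mul_le_mul_of_nonneg_left (tri_mono hxy _) (by positivity)
  have hp2 : 9 ≤ Real.pi ^ 2 := by nlinarith [Real.pi_gt_three]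
  have hlogdiff : ∀ x y : ℝ, 1 ≤ x → x ≤ y → y ≤ x + δ → Real.log y / Real.pi ^ 2 - Real.log x / Real.pi ^ 2 ≤ 1 / 16 := by
    intro x y hx hxy hyδ
    have h1 : Real.log y - Real.log x ≤ δ := by
      rw [← Real.log_div (by linarith) (by linarith)]
      refine (Real.log_le_sub_one_of_pos (div_pos (by linarith) (by linarith))).trans ?_
      rw [sub_le_iff_le_add, div_le_iff₀ (by linarith)]
      nlinarith
    have h2 : δ ≤ 1 / 32 := by nlinarith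
    rw [← sub_div, div_le_iff₀ (by positivity)]
    nlinarith
  refine rig_of hT10 hL1 hr hH0 hJ fun x hx1 hxK => ?_
  obtain ⟨i, hi⟩ : ∃ i : ℕ, i = ⌊(x - 1) / δ⌋₊ := ⟨_, rfl⟩
  have hi1 : (i : ℝ) ≤ (x - 1) / δ := hi ▸ Nat.floor_le (div_nonneg (by linarith) hδ0.le)
  have hi2 : (x - 1) / δ < i + 1 := hi ▸ Nat.lt_floor_add_one _
  rw [le_div_iff₀ hδ0] at hi1
  rw [div_lt_iff₀ hδ0] at hi2
  have hin : i + 1 ≤ n := by
    have h1 : (i : ℝ) ≤ K / δ := by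
      rw [le_div_iff₀ hδ0]
      linarith
    have h2 : i ≤ ⌈K / δ⌉₊ := by
      have := h1.trans (Nat.le_ceil (K / δ))
      exact_mod_cast this
    omega
  have a1 := abs_le.1 (hnet i (by omega))
  have a2 := abs_le.1 (hnet (i + 1) hin)
  push_cast at a2
  have b1 := hmono (1 + i * δ) x (by linarith)
  have b2 := hmono x (1 + (i + 1) * δ) (by linarith)
  have hi0 : 0 ≤ (i : ℝ) * δ := by positivity
  have c1 := hlogdiff (1 + i * δ) x (by linarith) (by linarith) (by linarith)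
  have c2 := hlogdiff x (1 + (i + 1) * δ) hx1 (by linarith) (by linarith)
  have hxK' : x ≤ K := by linarith
  have d0 : δ * x ≤ 1 / 16 := by
    rw [← hδK]
    exact mul_le_mul_of_nonneg_left hxK' hδ0.le
  have d3 : δ ≤ 1 / 32 := by nlinarith
  have d1 : x ^ 2 - (1 + i * δ) ^ 2 ≤ 1 / 8 := by
    have : x ^ 2 - (1 + i * δ) ^ 2 = (x - (1 + i * δ)) * (x + (1 + i * δ)) := by ring
    rw [this]
    have : (x - (1 + i * δ)) * (x + (1 + i * δ)) ≤ δ * (2 * x) :=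
      mul_le_mul (by linarith) (by linarith) (by linarith) hδ0.le
    linarith
  have d2 : (1 + (i + 1) * δ) ^ 2 - x ^ 2 ≤ 1 / 4 := by
    have : (1 + (i + 1) * δ) ^ 2 - x ^ 2 = (1 + (i + 1) * δ - x) * (1 + (i + 1) * δ + x) := by ring
    rw [this]
    have : (1 + (i + 1) * δ - x) * (1 + (i + 1) * δ + x) ≤ δ * (2 * x + δ) :=
      mul_le_mul (by linarith) (by linarith) (by linarith) hδ0.le
    nlinarith
  rw [abs_le]
  constructor
  · linarith [a1.1]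
  · linarith [a2.2]

end

end Pool.Agent.U85.Ml
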