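import Pool.Agent.U85.Ml.Lm
import Pool.Agent.U85.Zd.Wnd
import Pool.Agent.U85.Ml.As

set_option autoImplicit false

/-!
The local trace inequality with both frequency ranges: the law of large numbers below `1/2`, and a nonnegative function of `t`
whose mean is known for the frequencies between `1/2` and `1`.
-/

namespace Pool.Agent.U85.Ml

open Filter Topology MeasureTheory Complex
open Pool.Agent.Q97.UM Pool.Agent.U85.Zd

noncomputable section

/-- the exceptional set for one `T` -/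
lemma td_T {R : ℝ → ℝ} {lam a₁ κ e m n h H T δ C k C₄ W : ℝ} {K : ℕ} {w : ℝ → ℝ} {N : ℕ} {b : ℕ → ℂ}
    (hw : OmW δ H C K w) (hδ0 : 0 < δ) (hH1 : 1 ≤ H) (hRc : Continuous R) (hRn : ∀ x, 0 ≤ R x) (ha1 : a₁ ≤ 1)
    (hκ : 0 < κ) (he0 : 0 < e) (hk : k = κ * e / 160) (hh0 : 0 < h)
    (hC₄ : 0 ≤ C₄) (hxy : T + 2 * Real.log T ≤ 2 * T - 2 * Real.log T) (hW0 : 0 ≤ W)
    (b1 : ∫ t in (T + 2 * Real.log T)..(2 * T - 2 * Real.log T),
      |2 * (∫ α in (0 : ℝ)..a₁, R α * ‖Zt w T (lam * Real.log T * α) t‖ ^ 2) - m * I2 w| * ‖dp N b t‖ ^ 2 ≤ 3 * k * h * W)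
    (b4 : 2 * (∫ α in a₁..1, R α * ∫ t in (T + 2 * Real.log T)..(2 * T - 2 * Real.log T),
      ‖Zt w T (lam * Real.log T * α) t‖ ^ 2 * ‖dp N b t‖ ^ 2) ≤ (n + e) * h * W)
    (b2 : ∫ t in (T + 2 * Real.log T)..(2 * T - 2 * Real.log T), |(Zt w T 0 t).re - qh w 0| * ‖dp N b t‖ ^ 2 ≤
      2 * k * h * W)
    (b3 : ∫ t in (T + 2 * Real.log T)..(2 * T - 2 * Real.log T), ErrS δ H K T t * ‖dp N b t‖ ^ 2 ≤ C₄ * W)
    (hdet : ∀ t : ℝ, T + 2 * Real.log T ≤ t → t ≤ 2 * T - 2 * Real.log T →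
      2 * Nw T (H / Real.log T) t - Nsw T (H / Real.log T) t ≤
        2 * (∫ α in (0 : ℝ)..1, R α * ‖Zt w T (lam * Real.log T * α) t‖ ^ 2) + 100 * C ^ 2 * ErrS δ H K T t ∧
      3 * Nw T (H / Real.log T) t - 2 * Ndw T (H / Real.log T) t ≤
        2 * (∫ α in (0 : ℝ)..1, R α * ‖Zt w T (lam * Real.log T * α) t‖ ^ 2) + 100 * C ^ 2 * ErrS δ H K T t ∧
      |Nw T (H / Real.log T) t - (Zt w T 0 t).re| ≤ 100 * C ^ 2 * ErrS δ H K T t)
    (g4 : |qh w 0 - h| ≤ e / 8 * h) (g5 : m * |I2 w - h| ≤ e / 8 * h) (hm0 : 0 ≤ m)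
    (f3 : 100 * C ^ 2 * (4 * C₄ / κ + 1) ≤ e / 8 * h) :
    ∃ (G : Set ℝ) (Y : ℝ → ℝ), MeasurableSet G ∧ Continuous Y ∧ (∀ t, 0 ≤ Y t) ∧
      ∫ t in Set.Ioc (T + 2 * Real.log T) (2 * T - 2 * Real.log T) ∩ G, ‖dp N b t‖ ^ 2 ≤ κ * W ∧
      ∫ t in (T + 2 * Real.log T)..(2 * T - 2 * Real.log T), Y t * ‖dp N b t‖ ^ 2 ≤ (n + e) * h * W ∧
      ∀ t ∈ Set.Ioc (T + 2 * Real.log T) (2 * T - 2 * Real.log T), t ∉ G →
        (2 - m - 2 * e) * h ≤ Nsw T (H / Real.log T) t + Y t ∧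
        (3 - m - 2 * e) * h ≤ 2 * Ndw T (H / Real.log T) t + Y t := by
  have hVc : Continuous (fun t : ℝ => ‖dp N b t‖ ^ 2) := (Pool.Agent.Q150.UM.dp_cont N b).norm.pow 2
  have hV0 : ∀ t : ℝ, 0 ≤ ‖dp N b t‖ ^ 2 := fun t => by positivity
  have hZ2 := Pool.Agent.Q97.UM.Zt_cont hw hδ0 T (lam * Real.log T)
  have hZ1 := Pool.Agent.Q97.UM.Zt_cont hw hδ0 T 1
  obtain ⟨X, hX⟩ : ∃ X : ℝ → ℝ, X = fun t => 2 * ∫ α in (0 : ℝ)..a₁, R α * ‖Zt w T (lam * Real.log T * α) t‖ ^ 2 := ⟨_, rfl⟩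
  have hXc : Continuous X := by
    rw [hX]
    exact continuous_const.mul (par_c (F := fun α t => R α * ‖Zt w T (lam * Real.log T * α) t‖ ^ 2)
      ((hRc.comp continuous_fst).mul (hZ2.norm.pow 2)) _ _)
  have hZ0c : Continuous (fun t : ℝ => (Zt w T 0 t).re) := by
    have h1 := hZ1.comp (continuous_const.prodMk continuous_id : Continuous fun t : ℝ => ((0 : ℝ), t))
    have e : (fun t : ℝ => Zt w T 0 t) = (fun p : ℝ × ℝ => Zt w T (1 * p.1) p.2) ∘ (fun t : ℝ => ((0 : ℝ), t)) := by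
      funext t
      simp
    rw [← e] at h1
    exact Complex.continuous_re.comp h1
  obtain ⟨mE, ⟨B4, bE⟩, eE⟩ := ErrS_meas (δ := δ) hH1 K T
  obtain ⟨r, hr⟩ : ∃ r, r = 8 / (e * h) := ⟨_, rfl⟩
  have hr0 : 0 < r := by rw [hr]; positivity
  have hSp : 0 < 4 * C₄ / κ + 1 := by positivity
  obtain ⟨s, hs⟩ : ∃ s, s = (4 * C₄ / κ + 1)⁻¹ := ⟨_, rfl⟩
  have hs0 : 0 < s := by rw [hs]; positivity
  obtain ⟨F, hF⟩ : ∃ F : ℝ → ℝ, F = fun t => r * |X t - m * I2 w| + r * |(Zt w T 0 t).re - qh w 0| +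
    s * ErrS δ H K T t := ⟨_, rfl⟩
  have hFm : Measurable F := by
    rw [hF]
    have m1 : Measurable fun t => r * |X t - m * I2 w| := by
      exact (continuous_const.mul ((hXc.sub continuous_const).abs)).measurable
    have m2 : Measurable fun t => r * |(Zt w T 0 t).re - qh w 0| := by
      exact (continuous_const.mul ((hZ0c.sub continuous_const).abs)).measurable
    exact (m1.add m2).add (mE.const_mul s)
  have hF0 : ∀ t, 0 ≤ F t := by
    intro t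
    rw [hF]
    have h2 := mul_nonneg hr0.le (abs_nonneg (X t - m * I2 w))
    have h3 := mul_nonneg hr0.le (abs_nonneg ((Zt w T 0 t).re - qh w 0))
    have h4 := mul_nonneg hs0.le (eE t)
    exact add_nonneg (add_nonneg h2 h3) h4
  have i1 : IntervalIntegrable (fun t => |X t - m * I2 w| * ‖dp N b t‖ ^ 2) volume (T + 2 * Real.log T)
      (2 * T - 2 * Real.log T) := (((hXc.sub continuous_const).abs).mul hVc).intervalIntegrable _ _
  have i2 : IntervalIntegrable (fun t => |(Zt w T 0 t).re - qh w 0| * ‖dp N b t‖ ^ 2) volume (T + 2 * Real.log T)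
      (2 * T - 2 * Real.log T) := (((hZ0c.sub continuous_const).abs).mul hVc).intervalIntegrable _ _
  have i3 := ii_mul mE bE hVc (T + 2 * Real.log T) (2 * T - 2 * Real.log T)
  have eF : ∀ t, F t * ‖dp N b t‖ ^ 2 = r * (|X t - m * I2 w| * ‖dp N b t‖ ^ 2) +
      r * (|(Zt w T 0 t).re - qh w 0| * ‖dp N b t‖ ^ 2) + s * (ErrS δ H K T t * ‖dp N b t‖ ^ 2) := by
    intro t
    rw [hF]
    ring
  have iF : IntervalIntegrable (fun t => F t * ‖dp N b t‖ ^ 2) volume (T + 2 * Real.log T)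
      (2 * T - 2 * Real.log T) := by
    simp only [eF]
    exact ((i1.const_mul r).add (i2.const_mul r)).add (i3.const_mul s)
  have hFi : ∫ t in (T + 2 * Real.log T)..(2 * T - 2 * Real.log T), F t * ‖dp N b t‖ ^ 2 ≤ κ * W := by
    simp only [eF]
    rw [intervalIntegral.integral_add ((i1.const_mul r).add (i2.const_mul r)) (i3.const_mul s),
      intervalIntegral.integral_add (i1.const_mul r) (i2.const_mul r), intervalIntegral.integral_const_mul,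
      intervalIntegral.integral_const_mul, intervalIntegral.integral_const_mul]
    have b1' : ∫ t in (T + 2 * Real.log T)..(2 * T - 2 * Real.log T), |X t - m * I2 w| * ‖dp N b t‖ ^ 2 ≤ 3 * k * h * W := by
      have e1 : ∀ t, X t = 2 * ∫ α in (0 : ℝ)..a₁, R α * ‖Zt w T (lam * Real.log T * α) t‖ ^ 2 := fun t => by rw [hX]
      simp only [e1]
      exact b1
    have hrh : r * (3 * k * h * W) = 24 * (κ / 160) * W := by
      rw [hr, hk]
      field_simp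
      ring
    have hrh2 : r * (2 * k * h * W) = 16 * (κ / 160) * W := by
      rw [hr, hk]
      field_simp
      ring
    have hse : s * (C₄ * W) ≤ κ / 4 * W := by
      rw [← mul_assoc]
      refine mul_le_mul_of_nonneg_right ?_ hW0
      rw [hs, inv_mul_le_iff₀ (by positivity)]
      have h5 : (4 * C₄ / κ + 1) * (κ / 4) = C₄ + κ / 4 := by field_simp
      linarith only [h5, hκ]
    have c1 := mul_le_mul_of_nonneg_left b1' hr0.le
    have c2 := mul_le_mul_of_nonneg_left b2 hr0.le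
    have c3 := mul_le_mul_of_nonneg_left b3 hs0.le
    have c4 : 0 ≤ κ * W := mul_nonneg hκ.le hW0
    linarith only [c1, c2, c3, c4, hrh, hrh2, hse]
  obtain ⟨Y, hY⟩ : ∃ Y : ℝ → ℝ, Y = fun t => 2 * ∫ α in a₁..1, R α * ‖Zt w T (lam * Real.log T * α) t‖ ^ 2 := ⟨_, rfl⟩
  have hFc : Continuous fun p : ℝ × ℝ => R p.1 * ‖Zt w T (lam * Real.log T * p.1) p.2‖ ^ 2 :=
    (hRc.comp continuous_fst).mul (hZ2.norm.pow 2)
  have hYc : Continuous Y := by
    rw [hY]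
    exact continuous_const.mul (par_c (F := fun α t => R α * ‖Zt w T (lam * Real.log T * α) t‖ ^ 2) hFc _ _)
  have hY0 : ∀ t, 0 ≤ Y t := by
    intro t
    rw [hY]
    exact mul_nonneg zero_le_two (intervalIntegral.integral_nonneg ha1 fun α _ => mul_nonneg (hRn α) (by positivity))
  have hYi : ∫ t in (T + 2 * Real.log T)..(2 * T - 2 * Real.log T), Y t * ‖dp N b t‖ ^ 2 ≤ (n + e) * h * W := by
    refine le_trans (le_of_eq ?_) b4
    have s1 := swap_c (F := fun α t => R α * ‖Zt w T (lam * Real.log T * α) t‖ ^ 2 * ‖dp N b t‖ ^ 2)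
      (hFc.mul (hVc.comp continuous_snd)) (T + 2 * Real.log T) (2 * T - 2 * Real.log T) a₁ 1
    have e1 : ∀ t, Y t * ‖dp N b t‖ ^ 2 =
        2 * ∫ α in a₁..1, R α * ‖Zt w T (lam * Real.log T * α) t‖ ^ 2 * ‖dp N b t‖ ^ 2 := by
      intro t
      rw [hY, intervalIntegral.integral_mul_const]
      ring
    simp only [e1]
    rw [intervalIntegral.integral_const_mul, s1]
    congr 1
    refine intervalIntegral.integral_congr fun α _ => ?_
    show ∫ t in (T + 2 * Real.log T)..(2 * T - 2 * Real.log T), R α * ‖Zt w T (lam * Real.log T * α) t‖ ^ 2 * ‖dp N b t‖ ^ 2 =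
      R α * ∫ t in (T + 2 * Real.log T)..(2 * T - 2 * Real.log T), ‖Zt w T (lam * Real.log T * α) t‖ ^ 2 * ‖dp N b t‖ ^ 2
    rw [← intervalIntegral.integral_const_mul]
    refine intervalIntegral.integral_congr fun t _ => ?_
    show R α * ‖Zt w T (lam * Real.log T * α) t‖ ^ 2 * ‖dp N b t‖ ^ 2 =
      R α * (‖Zt w T (lam * Real.log T * α) t‖ ^ 2 * ‖dp N b t‖ ^ 2)
    ring
  refine ⟨{t | 1 < F t}, Y, measurableSet_lt measurable_const hFm, hYc, hY0, markov hxy hFm hF0 hVc hV0 iF hFi, hYi, ?_⟩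
  intro t htJ htG
  have hFt : F t ≤ 1 := not_lt.1 htG
  rw [hF] at hFt
  have n1 := mul_nonneg hr0.le (abs_nonneg (X t - m * I2 w))
  have n2 := mul_nonneg hr0.le (abs_nonneg ((Zt w T 0 t).re - qh w 0))
  have n3 := mul_nonneg hs0.le (eE t)
  have hrx : ∀ z : ℝ, r * z ≤ 1 → z ≤ e / 8 * h := by
    intro z hz
    rw [hr] at hz
    have h1 := mul_le_mul_of_nonneg_left hz (by positivity : 0 ≤ e / 8 * h)
    have h2 : e / 8 * h * (8 / (e * h) * z) = z := by field_simp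
    linarith only [h1, h2]
  have g1 : |X t - m * I2 w| ≤ e / 8 * h := hrx _ (by linarith only [hFt, n1, n2, n3])
  have g2 : |(Zt w T 0 t).re - qh w 0| ≤ e / 8 * h := hrx _ (by linarith only [hFt, n1, n2, n3])
  have g3 : ErrS δ H K T t ≤ 4 * C₄ / κ + 1 := by
    have h1 : s * ErrS δ H K T t ≤ 1 := by linarith only [hFt, n1, n2, n3]
    rw [hs, inv_mul_le_iff₀ hSp, mul_one] at h1
    exact h1
  have g3' : 100 * C ^ 2 * ErrS δ H K T t ≤ e / 8 * h :=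
    (mul_le_mul_of_nonneg_left g3 (by positivity)).trans f3
  obtain ⟨d1, d3, d2⟩ := hdet t htJ.1.le htJ.2
  have hct : Continuous fun α : ℝ => R α * ‖Zt w T (lam * Real.log T * α) t‖ ^ 2 :=
    hFc.comp (continuous_id.prodMk continuous_const : Continuous fun α : ℝ => (α, t))
  have hXt : 2 * (∫ α in (0 : ℝ)..1, R α * ‖Zt w T (lam * Real.log T * α) t‖ ^ 2) = X t + Y t := by
    rw [hX, hY, ← intervalIntegral.integral_add_adjacent_intervals (hct.intervalIntegrable 0 a₁)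
      (hct.intervalIntegrable a₁ 1)]
    ring
  rw [hXt] at d1 d3
  have k1 : |m * I2 w - m * h| ≤ e / 8 * h := by
    rw [← mul_sub, abs_mul, abs_of_nonneg hm0]
    exact g5
  have a1 := (abs_le.1 g1).2
  have a2 := (abs_le.1 g2).1
  have a3 := (abs_le.1 g4).1
  have a4 := (abs_le.1 k1).2
  have a5 := (abs_le.1 d2).1
  have a6 : 0 ≤ e * h := by positivity
  exact ⟨by linarith only [d1, a1, a2, a3, a4, a5, a6, g3'], by linarith only [d3, a1, a2, a3, a4, a5, a6, g3']⟩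

/-- both frequency ranges -/
def S_TD : Prop := ∀ (g R : ℝ → ℝ) (lam a₁ : ℝ), H295SI.Win g → H295SI.Conv R → H295SI.KSq g R → 0 < lam → lam < 1 →
  0 < a₁ → a₁ ≤ 1 → lam * a₁ < 1 / 2 →
  ∀ κ ε : ℝ, 0 < κ → 0 < ε → ∃ H₀ : ℝ, 1 ≤ H₀ ∧ ∀ H : ℝ, H₀ ≤ H → ∃ θ : ℝ, 0 < θ ∧ θ ≤ 1 / 40 ∧
  ∀ᶠ T : ℝ in atTop, ∀ N : ℕ, (N : ℝ) ≤ T ^ θ → ∀ b : ℕ → ℂ, ∃ (G : Set ℝ) (Y : ℝ → ℝ), MeasurableSet G ∧ Continuous Y ∧
    (∀ t, 0 ≤ Y t) ∧
    ∫ t in Set.Ioc (T + 2 * Real.log T) (2 * T - 2 * Real.log T) ∩ G, ‖dp N b t‖ ^ 2 ≤ κ * (T * N2 N b) ∧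
    ∫ t in (T + 2 * Real.log T)..(2 * T - 2 * Real.log T), Y t * ‖dp N b t‖ ^ 2 ≤
      (2 * lam * (∫ α in a₁..1, α * R α) + ε) * (H / Real.pi) * (T * N2 N b) ∧
    ∀ t ∈ Set.Ioc (T + 2 * Real.log T) (2 * T - 2 * Real.log T), t ∉ G →
      (2 - (R 0 / lam + 2 * lam * ∫ α in (0 : ℝ)..a₁, α * R α) - ε) * (H / Real.pi) ≤ Nsw T (H / Real.log T) t + Y t ∧
      (3 - (R 0 / lam + 2 * lam * ∫ α in (0 : ℝ)..a₁, α * R α) - ε) * (H / Real.pi) ≤ 2 * Ndw T (H / Real.log T) t + Y t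

theorem t_TD (hOM : S_OMEX) (hQH : S_QH) (hLQ : S_LQ) (hLI : S_LA) (hDE : S_DET) (hED : S_ED) (hER : S_ERR)
    (hTA : ∃ θ c C : ℝ, 0 < θ ∧ θ ≤ 1 / 4 ∧ 0 < c ∧ 0 ≤ C ∧ TailB θ c C) : S_TD := by
  intro g R lam a₁ hg hR hK hl0 hl1 ha0 ha1 hla κ ε₀ hκ hε₀
  obtain ⟨e, he⟩ : ∃ e, e = min (ε₀ / 2) 1 := ⟨_, rfl⟩
  have he0 : 0 < e := by rw [he]; positivity
  have he1 : e ≤ 1 := by rw [he]; exact min_le_right _ _
  have hee : 2 * e ≤ ε₀ := by
    have : e ≤ ε₀ / 2 := by rw [he]; exact min_le_left _ _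
    linarith
  obtain ⟨D, hD0, hD⟩ := hR.lip
  have hRc : Continuous R := by
    have h1 : LipschitzWith (Real.toNNReal D) R := by
      refine LipschitzWith.of_dist_le_mul fun x y => ?_
      rw [Real.dist_eq, Real.dist_eq]
      refine (hD x y).trans ?_
      exact mul_le_mul_of_nonneg_right (Real.le_coe_toNNReal D) (abs_nonneg _)
    exact h1.continuous
  obtain ⟨m, hm⟩ : ∃ m, m = R 0 / lam + 2 * lam * ∫ α in (0 : ℝ)..a₁, α * R α := ⟨_, rfl⟩
  obtain ⟨n, hn⟩ : ∃ n, n = 2 * lam * ∫ α in a₁..1, α * R α := ⟨_, rfl⟩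
  have hn0 : 0 ≤ n := by
    have h1 : 0 ≤ ∫ α in a₁..1, α * R α :=
      intervalIntegral.integral_nonneg ha1 fun α hα => mul_nonneg (ha0.le.trans hα.1) (hR.nonneg α)
    rw [hn]
    positivity
  have hla0 : 0 < lam * a₁ := mul_pos hl0 ha0
  have hm0 : 0 ≤ m := by
    have h1 : 0 ≤ ∫ α in (0 : ℝ)..a₁, α * R α :=
      intervalIntegral.integral_nonneg ha0.le fun α hα => mul_nonneg hα.1 (hR.nonneg α)
    have h2 := hR.nonneg 0
    rw [hm]
    positivity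
  obtain ⟨C₁, hC₁, hLQ⟩ := hLQ R D lam a₁ hD hR.nonneg hl0 hl1 ha0 ha1
  obtain ⟨C₀, hC₀, hLI⟩ := hLI
  obtain ⟨ϑ, c₀, C', hϑ0, hϑ1, hc₀, hC', hTB⟩ := hTA
  obtain ⟨C₂, hC₂, hEDB⟩ := hED ϑ c₀ C' hϑ0 hϑ1 hc₀ hC' hTB
  obtain ⟨c, hc⟩ : ∃ c, c = min (c₀ / 4) 1 := ⟨_, rfl⟩
  have hc0 : 0 < c := by rw [hc]; positivity
  have hEDB' : EDB (ϑ / 2) c C₂ := EDB_mono hC₂ (by rw [hc]; exact min_le_left _ _) hEDB
  obtain ⟨K₀, hER⟩ := hER (ϑ / 2) c C₂ (by positivity) (by linarith) hc0 (by rw [hc]; exact min_le_right _ _) hC₂ hEDB'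
  obtain ⟨K, hKd⟩ : ∃ K, K = max K₀ 2 := ⟨_, rfl⟩
  have hKge : 2 ≤ K := by rw [hKd]; exact le_max_right _ _
  have hKK : K₀ ≤ K := by rw [hKd]; exact le_max_left _ _
  obtain ⟨κ', hκ'⟩ : ∃ κ', κ' = min κ 1 := ⟨_, rfl⟩
  have hκ'0 : 0 < κ' := by rw [hκ']; positivity
  have hκ'1 : κ' ≤ 1 := by rw [hκ']; exact min_le_right _ _
  have hκ'κ : κ' ≤ κ := by rw [hκ']; exact min_le_left _ _
  obtain ⟨k, hk⟩ : ∃ k, k = κ' * e / 160 := ⟨_, rfl⟩
  have hk0 : 0 < k := by rw [hk]; positivity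
  obtain ⟨η, hη⟩ : ∃ η, η = k / (2 * C₁) := ⟨_, rfl⟩
  have hη0 : 0 < η := by rw [hη]; positivity
  have hηC : C₁ * (2 * η) = k := by
    rw [hη]
    field_simp
  obtain ⟨δ, hδ⟩ : ∃ δ, δ = min (min (c / 100) (1 / 16)) (min (min (lam * a₁ / 3) (min ((1 / 2 - lam * a₁) / 8) ((1 - lam) / 8))) (η ^ 4)) := ⟨_, rfl⟩
  have hδ0 : 0 < δ := by
    rw [hδ]
    have h1 : 0 < 1 / 2 - lam * a₁ := by linarith
    have h2 : 0 < 1 - lam := by linarith
    positivity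
  have hδ1 : δ ≤ c / 100 := by rw [hδ]; exact (min_le_left _ _).trans (min_le_left _ _)
  have hδ2 : δ ≤ 1 / 16 := by rw [hδ]; exact (min_le_left _ _).trans (min_le_right _ _)
  have hδ3 : δ ≤ lam * a₁ / 3 := by
    rw [hδ]; exact (min_le_right _ _).trans ((min_le_left _ _).trans (min_le_left _ _))
  have hδ4 : δ ≤ (1 / 2 - lam * a₁) / 8 := by
    rw [hδ]; exact (min_le_right _ _).trans ((min_le_left _ _).trans ((min_le_right _ _).trans (min_le_left _ _)))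
  have hδ6 : δ ≤ (1 - lam) / 8 := by
    rw [hδ]; exact (min_le_right _ _).trans ((min_le_left _ _).trans ((min_le_right _ _).trans (min_le_right _ _)))
  have hδ5 : δ ≤ η ^ 4 := by rw [hδ]; exact (min_le_right _ _).trans (min_le_right _ _)
  obtain ⟨C₄, hC₄, hER⟩ := hER K hKK δ hδ0 hδ1
  obtain ⟨Cw, hCw, hOM⟩ := hOM K δ hδ0 (by linarith)
  have hpi := Real.pi_pos
  obtain ⟨E, hE⟩ : ∃ E, E = 100 * Cw ^ 2 * (4 * C₄ / κ' + 1) := ⟨_, rfl⟩
  have hE0 : 0 ≤ E := by rw [hE]; positivity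
  obtain ⟨h₀, hh₀⟩ : ∃ h₀ : ℝ, h₀ = 8 / e * (2 * Cw ^ 2 + 2 * (m + n + 1) * Cw ^ 4 + E) + 2 * (C₀ / k) ^ 2 := ⟨_, rfl⟩
  have p1 : 0 ≤ 8 / e * (2 * Cw ^ 2) := by positivity
  have p2 : 0 ≤ 8 / e * (2 * (m + n + 1) * Cw ^ 4) := by positivity
  have p3 : 0 ≤ 8 / e * E := by positivity
  have p5 : 0 ≤ 2 * (C₀ / k) ^ 2 := by positivity
  have hh00 : 0 ≤ h₀ := by rw [hh₀]; positivity
  refine ⟨1 + Real.pi * h₀, by nlinarith, fun H hH => ?_⟩
  have hH1 : 1 ≤ H := by nlinarith [mul_nonneg hpi.le hh00]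
  obtain ⟨w, hw⟩ := hOM H hH1
  obtain ⟨q1, q2, q3, -, hq0, hI2⟩ := hQH δ H Cw K w hδ0 (by linarith) hH1 hCw hKge hw
  obtain ⟨h, hh⟩ : ∃ h, h = H / Real.pi := ⟨_, rfl⟩
  have hhH : H = h * Real.pi := by rw [hh]; field_simp
  have hhh : h₀ ≤ h := by
    rw [hh, le_div_iff₀ hpi]
    nlinarith
  have hh0 : 0 < h := by rw [hh]; positivity
  have hq0' : |qh w 0 - h| ≤ 4 * Cw ^ 2 / 3 := by
    have e1 : Real.pi * qh w 0 - H = Real.pi * (qh w 0 - h) := by rw [hhH]; ring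
    rw [e1, abs_mul, abs_of_pos hpi] at hq0
    have := Real.pi_gt_three
    have h2 := abs_nonneg (qh w 0 - h)
    nlinarith
  have hI2' : |I2 w - h| ≤ 4 * Cw ^ 4 / 3 := by
    have e1 : Real.pi * I2 w - H = Real.pi * (I2 w - h) := by rw [hhH]; ring
    rw [e1, abs_mul, abs_of_pos hpi] at hI2
    have := Real.pi_gt_three
    have h2 := abs_nonneg (I2 w - h)
    nlinarith
  have hmulh : ∀ z : ℝ, 8 / e * z ≤ h → z ≤ e / 8 * h := by
    intro z hz
    have h1 := mul_le_mul_of_nonneg_left hz (by positivity : 0 ≤ e / 8)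
    have h2 : e / 8 * (8 / e * z) = z := by field_simp
    linarith
  have hexpd : 8 / e * (2 * Cw ^ 2 + 2 * (m + n + 1) * Cw ^ 4 + E) = 8 / e * (2 * Cw ^ 2) + 8 / e * (2 * (m + n + 1) * Cw ^ 4) +
    8 / e * E := by ring
  rw [hexpd] at hh₀
  have f1 : 2 * Cw ^ 2 ≤ e / 8 * h := hmulh _ (by linarith)
  have f2 : 2 * (m + n + 1) * Cw ^ 4 ≤ e / 8 * h := hmulh _ (by linarith)
  have f3 : E ≤ e / 8 * h := hmulh _ (by linarith)
  have f5 : C₀ * Real.sqrt (2 * h) ≤ k * h := by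
    have h1 : 2 * (C₀ / k) ^ 2 ≤ h := by linarith
    have h2 : Real.sqrt (2 * h) ≤ k / C₀ * h := by
      rw [Real.sqrt_le_left (by positivity)]
      have h3 : (k / C₀ * h) ^ 2 = h * ((k / C₀) ^ 2 * h) := by ring
      rw [h3]
      have h4 : 2 ≤ (k / C₀) ^ 2 * h := by
        have h5 := mul_le_mul_of_nonneg_left h1 (by positivity : 0 ≤ (k / C₀) ^ 2)
        have h6 : (k / C₀) ^ 2 * (2 * (C₀ / k) ^ 2) = 2 := by field_simp
        linarith
      nlinarith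
    have h7 := mul_le_mul_of_nonneg_left h2 (by linarith : 0 ≤ C₀)
    have h8 : C₀ * (k / C₀ * h) = k * h := by field_simp
    linarith
  have hCw4 : 1 ≤ Cw ^ 4 := one_le_pow₀ hCw
  have hI2up : I2 w ≤ 2 * h := by
    have h1 := (abs_le.1 hI2').2
    have h2 : e / 8 * h ≤ h := mul_le_of_le_one_left hh0.le (by linarith)
    have hCm : Cw ^ 4 ≤ (m + n + 1) * Cw ^ 4 := by
      have : 0 ≤ (m + n) * Cw ^ 4 := by positivity
      linarith
    linarith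
  have hI20 : 0 ≤ I2 w := Pool.Agent.Q150.UM.I2_nonneg w
  obtain ⟨θ, hθ⟩ : ∃ θ, θ = min (min (ϑ / 2) (1 / 40)) (δ / 4) := ⟨_, rfl⟩
  have hθ0 : 0 < θ := by
    rw [hθ]
    positivity
  have hθ1 : θ ≤ ϑ / 2 := by rw [hθ]; exact (min_le_left _ _).trans (min_le_left _ _)
  have hθ2 : θ ≤ 1 / 40 := by rw [hθ]; exact (min_le_left _ _).trans (min_le_right _ _)
  have hθ3 : θ ≤ δ / 4 := by rw [hθ]; exact min_le_right _ _
  refine ⟨θ, hθ0, hθ2, ?_⟩
  have hsσ : Real.sqrt (Real.sqrt δ + Real.sqrt θ) ≤ 2 * η := by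
    have h1 : Real.sqrt δ ≤ η ^ 2 := by
      rw [Real.sqrt_le_left (by positivity)]
      calc δ ≤ η ^ 4 := hδ5
        _ = _ := by ring
    have h2 : Real.sqrt θ ≤ Real.sqrt δ := Real.sqrt_le_sqrt (by linarith)
    rw [Real.sqrt_le_left (by positivity)]
    nlinarith
  have hsl : δ + Real.sqrt θ ≤ 1 := by
    have h1 : Real.sqrt θ ≤ 1 / 2 := by
      rw [Real.sqrt_le_left (by norm_num)]
      linarith
    linarith
  have eLQ := hLQ δ H Cw K w θ (k * h) hδ0 hδ2 (by linarith) (by linarith) (by linarith) hH1 hCw hKge hw hθ0 hθ2 hθ3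
    (by positivity)
  have eLI := hLI δ H Cw K w θ (k * h) hδ0 hδ2 hH1 hCw hKge hw hθ0 hθ2 (by positivity)
  have eDE := hDE g R lam hg hR hK hl0 hl1.le δ H Cw K w hδ0 (by linarith) hH1 hCw hKge hw
  have eER := hER H hH1
  filter_upwards [eLQ, eLI, eDE, eER, eventually_ge_atTop (16 : ℝ),
    Real.tendsto_log_atTop.eventually_ge_atTop 1] with T eLQ eLI eDE eER hT16 hLT1 N hN b
  have hT0 : 0 < T := by linarith
  have hT1 : 1 ≤ T := by linarith
  have hNϑ : (N : ℝ) ≤ T ^ (ϑ / 2) := hN.trans (Real.rpow_le_rpow_of_exponent_le hT1 hθ1)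
  obtain ⟨eLQ, eLR⟩ := eLQ N hN b
  replace eLI := eLI N hN b
  replace eER := eER N hNϑ b
  rw [← hm] at eLQ
  rw [← hn] at eLR
  have hL4 : 4 * Real.log T ≤ T := by
    have h5 := Real.log_le_sub_one_of_pos (show (0 : ℝ) < T / 16 by positivity)
    rw [Real.log_div (by positivity) (by norm_num)] at h5
    have h6 : Real.log 16 ≤ 3 := by
      have : Real.log 16 = 4 * Real.log 2 := by
        rw [show (16 : ℝ) = 2 ^ 4 by norm_num, Real.log_pow]; norm_num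
      rw [this]; have := Real.log_two_lt_d9; linarith
    linarith
  have hxy : T + 2 * Real.log T ≤ 2 * T - 2 * Real.log T := by linarith
  obtain ⟨W, hW⟩ : ∃ W, W = T * N2 N b := ⟨_, rfl⟩
  have hW0 : 0 ≤ W := by rw [hW]; exact mul_nonneg hT0.le (Pool.Agent.Q150.UM.N2_nonneg N b)
  have hassoc : ∀ z : ℝ, z * T * N2 N b = z * (T * N2 N b) := fun z => mul_assoc _ _ _
  rw [hassoc, ← hW] at eLI eER
  rw [← hW] at eLQ eLR ⊢
  have hq8 : |qh w 0 - h| ≤ e / 8 * h := by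
    have h1 : 0 ≤ Cw ^ 2 := sq_nonneg _
    linarith only [hq0', f1, h1]
  have hke : k ≤ e / 160 := by
    rw [hk]
    have := mul_le_mul_of_nonneg_right hκ'1 he0.le
    linarith
  obtain ⟨G, Y, hGm, hYc, hY0, hG1, hYi, hG2⟩ := td_T (e := e) (m := m) (n := n) (h := h) hw hδ0 hH1 hRc hR.nonneg ha1 hκ'0 he0
    hk hh0 hC₄ hxy hW0
    (N := N) (b := b) (by
      refine eLQ.trans (mul_le_mul_of_nonneg_right ?_ hW0)
      have h1 : C₁ * Real.sqrt (Real.sqrt δ + Real.sqrt θ) * I2 w ≤ k * (2 * h) := by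
        refine mul_le_mul ?_ hI2up hI20 hk0.le
        rw [← hηC]
        exact mul_le_mul_of_nonneg_left hsσ (by linarith only [hC₁])
      linarith only [h1]) (by
      refine eLR.trans (mul_le_mul_of_nonneg_right ?_ hW0)
      have h1 : C₁ * Real.sqrt (Real.sqrt δ + Real.sqrt θ) * I2 w ≤ k * (2 * h) := by
        refine mul_le_mul ?_ hI2up hI20 hk0.le
        rw [← hηC]
        exact mul_le_mul_of_nonneg_left hsσ (by linarith only [hC₁])
      have h2 : n * I2 w ≤ n * h + e / 8 * h := by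
        have h3 := mul_le_mul_of_nonneg_left (abs_le.1 hI2').2 hn0
        have h4 : n * (4 * Cw ^ 4 / 3) ≤ 2 * (m + n + 1) * Cw ^ 4 := by
          have h5 : 0 ≤ m * Cw ^ 4 := by positivity
          have h6 : 0 ≤ n * Cw ^ 4 := by positivity
          linarith only [h5, h6, hCw4]
        linarith only [h3, h4, f2]
      have h3 : k * h ≤ e / 160 * h := mul_le_mul_of_nonneg_right hke hh0.le
      have h4 : 0 ≤ e * h := by positivity
      linarith only [h1, h2, h3, h4]) (by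
      refine eLI.trans (mul_le_mul_of_nonneg_right ?_ hW0)
      have h1 : Real.sqrt ((δ + Real.sqrt θ) * I2 w) ≤ Real.sqrt (2 * h) := by
        apply Real.sqrt_le_sqrt
        calc (δ + Real.sqrt θ) * I2 w ≤ 1 * I2 w := mul_le_mul_of_nonneg_right hsl hI20
          _ ≤ 2 * h := by linarith only [hI2up]
      have h2 := (mul_le_mul_of_nonneg_left h1 (by linarith only [hC₀] : 0 ≤ C₀)).trans f5
      linarith only [h2]) eER eDE hq8 (by
      have h1 := mul_le_mul_of_nonneg_left hI2' hm0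
      have h2 : m * (4 * Cw ^ 4 / 3) ≤ 2 * (m + n + 1) * Cw ^ 4 := by
        have h3 : 0 ≤ m * Cw ^ 4 := by positivity
        have h4 : 0 ≤ n * Cw ^ 4 := by positivity
        linarith only [h3, h4, hCw4]
      linarith only [h1, h2, f2]) hm0 (by rw [← hE]; exact f3)
  have hee' : e ≤ ε₀ := by linarith only [hee, he0]
  refine ⟨G, Y, hGm, hYc, hY0, hG1.trans (mul_le_mul_of_nonneg_right hκ'κ hW0), ?_, fun t ht htG => ?_⟩
  · rw [← hn, ← hh]
    refine hYi.trans (mul_le_mul_of_nonneg_right (mul_le_mul_of_nonneg_right (by linarith only [hee']) hh0.le) hW0)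
  · obtain ⟨c1, c2⟩ := hG2 t ht htG
    rw [← hm, ← hh]
    exact ⟨(mul_le_mul_of_nonneg_right (by linarith only [hee]) hh0.le).trans c1,
      (mul_le_mul_of_nonneg_right (by linarith only [hee]) hh0.le).trans c2⟩

theorem b_TD : S_TD := t_TD Pool.Agent.Q247.UM.t_OMEX Pool.Agent.Q176.UM.t_QH b_LQ b_LA b_DET b_ED b_ERR b_TAIL

end

end Pool.Agent.U85.Ml
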