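import Pool.Agent.U85.Ml.Td
import Pool.Agent.U85.Zd.Rz

set_option autoImplicit false

/-!
Shares of the mass: from the exceptional set and the nonnegative function to means of the counting functions over
measurable sets of given share.
-/

namespace Pool.Agent.U85.Ml

open Filter Topology MeasureTheory Complex
open Pool.Agent.Q97.UM Pool.Agent.U85.Zd

noncomputable section

lemma te_ar {c m v W κ ε h M' M I IS kX D : ℝ} (hW : 0 ≤ W) (hε : 0 < ε) (hε1 : ε ≤ 1) (hκ : ε ≤ κ)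
    (hc : c ≤ 3) (hm : 0 ≤ m) (hv0 : 0 ≤ v) (hh : 0 ≤ h) (hA : |I - W| ≤ ε ^ 2 / 256 * W) (hM : M' ≤ M + 2 * (ε ^ 2 / 256 * W))
    (hIS : M ≤ IS + ε ^ 2 / 128 * W) (hI : κ * I ≤ M') (hD : D = c - m - ε ^ 2 / 64) (hM0 : 0 ≤ M') (hkX : 0 ≤ kX)
    (h1 : D * h * IS ≤ kX + (v * κ + ε ^ 2 / 64) * h * W) :
    (c - m - v - ε / 4) * h * M' ≤ kX := by
  rcases le_or_gt (c - m - v - ε / 4) 0 with h0 | h0
  · exact le_trans (mul_nonpos_of_nonpos_of_nonneg (mul_nonpos_of_nonpos_of_nonneg h0 hh) hM0) hkX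
  · have hv3 : v ≤ 3 := by linarith
    have he2 : ε ^ 2 ≤ ε := by nlinarith
    have he20 : 0 < ε ^ 2 := by positivity
    have hD0 : 0 ≤ D := by rw [hD]; linarith
    have hD3 : D ≤ 3 := by rw [hD]; linarith
    have hκ0 : 0 < κ := by linarith
    have a1 := (abs_le.1 hA).1
    have hκW : κ * W ≤ (1 + ε ^ 2 / 128) * M' := by
      have h2 : (1 - ε ^ 2 / 256) * W ≤ I := by linarith
      have h3 : κ * ((1 - ε ^ 2 / 256) * W) ≤ M' := (mul_le_mul_of_nonneg_left h2 hκ0.le).trans hI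
      have h4 : 0 ≤ κ * W := mul_nonneg hκ0.le hW
      have h5 : κ * W ≤ (1 + ε ^ 2 / 128) * (κ * ((1 - ε ^ 2 / 256) * W)) := by
        have e1 : (1 + ε ^ 2 / 128) * (κ * ((1 - ε ^ 2 / 256) * W)) =
          κ * W + (κ * W) * (ε ^ 2 / 256 - (ε ^ 2 / 128) * (ε ^ 2 / 256)) := by ring
        rw [e1]
        have e2 : 0 ≤ ε ^ 2 / 256 - (ε ^ 2 / 128) * (ε ^ 2 / 256) := by nlinarith
        linarith [mul_nonneg h4 e2]
      exact h5.trans (mul_le_mul_of_nonneg_left h3 (by positivity))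
    have hκW2 : κ * W ≤ 2 * M' := hκW.trans (mul_le_mul_of_nonneg_right (by linarith) hM0)
    have hεW : ε ^ 2 * W ≤ 2 * ε * M' := by
      have h2 : ε * W ≤ κ * W := mul_le_mul_of_nonneg_right hκ hW
      nlinarith
    have hvW : v * κ * W ≤ v * M' + 3 * ε / 128 * M' := by
      have h2 := mul_le_mul_of_nonneg_left hκW hv0
      have h3 : v * (ε ^ 2 / 128) * M' ≤ 3 * (ε / 128) * M' := by
        refine mul_le_mul_of_nonneg_right ?_ hM0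
        exact mul_le_mul hv3 (by linarith) (by positivity) (by norm_num)
      nlinarith
    have hIS2 : M' - ε ^ 2 / 64 * W ≤ IS := by linarith
    have h6 : D * h * (M' - ε ^ 2 / 64 * W) ≤ D * h * IS := mul_le_mul_of_nonneg_left hIS2 (mul_nonneg hD0 hh)
    have h7 : D * (ε ^ 2 / 64 * W) ≤ 3 * (ε ^ 2 / 64 * W) := mul_le_mul_of_nonneg_right hD3 (by positivity)
    have h8 : h * (D * M' - 3 * (ε ^ 2 / 64 * W) - ε ^ 2 / 64 * W - v * κ * W) ≤ kX := by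
      have h9 := mul_le_mul_of_nonneg_left h7 hh
      have e1 : D * h * (M' - ε ^ 2 / 64 * W) = h * (D * M') - h * (D * (ε ^ 2 / 64 * W)) := by ring
      have e2 : (v * κ + ε ^ 2 / 64) * h * W = h * (v * κ * W) + h * (ε ^ 2 / 64 * W) := by ring
      rw [e1] at h6
      rw [e2] at h1
      nlinarith
    refine le_trans ?_ h8
    have e3 : (c - m - v - ε / 4) * h * M' = h * ((c - m - v - ε / 4) * M') := by ring
    rw [e3]
    refine mul_le_mul_of_nonneg_left ?_ hh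
    rw [hD]
    have h10 : ε ^ 2 / 64 * M' ≤ ε / 64 * M' := mul_le_mul_of_nonneg_right (by linarith) hM0
    have h11 : 0 ≤ ε * M' := by positivity
    nlinarith

/-- the step for one `T` and one set -/
lemma te_E (P : ℂ → Prop) {T r h m v W κ ε c k : ℝ} {g Y q : ℝ → ℝ} {G E : Set ℝ}
    (hg : Continuous g) (hg0 : ∀ t, 0 ≤ g t) (hT : 3 ≤ T) (hr : r ≤ 1) (hL : 1 ≤ Real.log T)
    (hab : T + 2 * Real.log T ≤ 2 * T - 2 * Real.log T)
    (hW : 0 ≤ W) (hε : 0 < ε) (hε1 : ε ≤ 1) (hκ : ε ≤ κ) (hκ1 : κ ≤ 1) (hc : c ≤ 3) (hm : 0 ≤ m) (hv : 0 ≤ v) (hh : 0 ≤ h)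
    (hk : 0 ≤ k)
    (hA : |(∫ t in Set.Icc T (2 * T), g t) - W| ≤ ε ^ 2 / 256 * W) (hB : |mid T g - W| ≤ ε ^ 2 / 256 * W)
    (hGm : MeasurableSet G) (hY : Continuous Y) (hY0 : ∀ t, 0 ≤ Y t)
    (hG : ∫ t in Set.Ioc (T + 2 * Real.log T) (2 * T - 2 * Real.log T) ∩ G, g t ≤ ε ^ 2 / 128 * W)
    (hYi : ∫ t in (T + 2 * Real.log T)..(2 * T - 2 * Real.log T), Y t * g t ≤ (v * κ + ε ^ 2 / 64) * h * W)
    (hq : ∀ t ∈ Set.Ioc (T + 2 * Real.log T) (2 * T - 2 * Real.log T), t ∉ G → (c - m - ε ^ 2 / 64) * h ≤ k * q t + Y t)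
    (hqP : ∀ t ∈ Set.Ioc (T + 2 * Real.log T) (2 * T - 2 * Real.log T), q t = (cnt P t r : ℝ))
    (hE : MeasurableSet E) (hET : E ⊆ Set.Icc T (2 * T))
    (hmass : κ * ∫ t in Set.Icc T (2 * T), g t ≤ ∫ t in E, g t) :
    (c - m - v - ε / 4) * h * (∫ t in E, g t) ≤ k * ∫ t in E, (cnt P t r : ℝ) * g t := by
  obtain ⟨J, hJ⟩ : ∃ J, J = Set.Ioc (T + 2 * Real.log T) (2 * T - 2 * Real.log T) := ⟨_, rfl⟩
  have hκ0 : 0 < κ := by linarith
  obtain ⟨m1, m2, m3⟩ := mass_E hg hg0 (by linarith) hab hA hB hE hET hκ0.le hκ1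
    (mul_nonneg (by positivity) hW) hmass
  rw [mid_ind T hab g hE, ← hJ] at m1 m2 m3
  rw [← hJ] at hG hq hqP
  have hJm : MeasurableSet J := by rw [hJ]; exact measurableSet_Ioc
  have hJT : J ⊆ Set.Icc T (2 * T) := by
    rw [hJ]
    intro t ht
    exact ⟨by linarith [ht.1], by linarith [ht.2]⟩
  have hgi : IntegrableOn g (Set.Icc T (2 * T)) := hg.continuousOn.integrableOn_Icc
  have hYg : IntegrableOn (fun t => Y t * g t) (Set.Icc T (2 * T)) := (hY.mul hg).continuousOn.integrableOn_Icc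
  have h0 : ∀ S : Set ℝ, 0 ≤ᵐ[volume.restrict S] g := fun S => Filter.Eventually.of_forall hg0
  have hX0 : 0 ≤ ∫ t in E, (cnt P t r : ℝ) * g t := integral_nonneg fun t => mul_nonneg (Nat.cast_nonneg _) (hg0 t)
  have hci : IntegrableOn (fun t => (cnt P t r : ℝ) * g t) E := by
    refine ((cs_int P T r hg T (2 * T)).mono_set hET).congr_fun (fun t ht => ?_) hE
    simp only [cnt_cs P hT hr (hET ht)]
  have hsub : (J ∩ E) \ G ⊆ E := Set.sdiff_subset.trans Set.inter_subset_right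
  have hsubJ : (J ∩ E) \ G ⊆ J := Set.sdiff_subset.trans Set.inter_subset_left
  have hSm : MeasurableSet ((J ∩ E) \ G) := (hJm.inter hE).diff hGm
  have e1 : ∫ t in J ∩ E, g t = (∫ t in (J ∩ E) ∩ G, g t) + ∫ t in (J ∩ E) \ G, g t :=
    (integral_inter_add_sdiff hGm (hgi.mono_set (Set.inter_subset_left.trans hJT))).symm
  have e2 : ∫ t in (J ∩ E) ∩ G, g t ≤ ∫ t in J ∩ G, g t :=
    setIntegral_mono_set (hgi.mono_set (Set.inter_subset_left.trans hJT)) (h0 _)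
      (LE.le.eventuallyLE fun t ht => ⟨ht.1.1, ht.2⟩)
  have e3 : ∫ t in (J ∩ E) \ G, ((c - m - ε ^ 2 / 64) * h) * g t ≤
      ∫ t in (J ∩ E) \ G, (k * ((cnt P t r : ℝ) * g t) + Y t * g t) := by
    refine setIntegral_mono_on ((hgi.mono_set (hsubJ.trans hJT)).const_mul _)
      (((hci.mono_set hsub).const_mul k).add (hYg.mono_set (hsubJ.trans hJT))) hSm fun t ht => ?_
    have h1 := hq t (hsubJ ht) ht.2
    rw [hqP t (hsubJ ht)] at h1
    have h2 := mul_le_mul_of_nonneg_right h1 (hg0 t)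
    linarith
  rw [integral_const_mul, integral_add (((hci.mono_set hsub).const_mul k)) (hYg.mono_set (hsubJ.trans hJT)),
    integral_const_mul] at e3
  have e4 : ∫ t in (J ∩ E) \ G, (cnt P t r : ℝ) * g t ≤ ∫ t in E, (cnt P t r : ℝ) * g t :=
    setIntegral_mono_set hci (Filter.Eventually.of_forall fun t => mul_nonneg (Nat.cast_nonneg _) (hg0 t))
      (LE.le.eventuallyLE hsub)
  have e5 : ∫ t in (J ∩ E) \ G, Y t * g t ≤ (v * κ + ε ^ 2 / 64) * h * W := by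
    rw [intervalIntegral.integral_of_le hab, ← hJ] at hYi
    exact (setIntegral_mono_set (hYg.mono_set hJT)
      (Filter.Eventually.of_forall fun t => mul_nonneg (hY0 t) (hg0 t)) (LE.le.eventuallyLE hsubJ)).trans hYi
  have e6 := mul_le_mul_of_nonneg_left e4 hk
  exact te_ar (M := ∫ t in J ∩ E, g t) (IS := ∫ t in (J ∩ E) \ G, g t) hW hε hε1 hκ hc hm hv hh hA m2
    (by linarith) hmass rfl (integral_nonneg hg0) (mul_nonneg hk hX0) (by linarith)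

/-- the first constant -/
def M1 (γ lam a : ℝ) : ℝ := H385.Rw γ 0 / lam + 2 * lam * ∫ x in (0 : ℝ)..a, x * H385.Rw γ x

/-- the second constant -/
def M2 (γ lam a : ℝ) : ℝ := 2 * lam * ∫ x in a..1, x * H385.Rw γ x

/-- means over measurable sets of given share -/
theorem te_all (γ lam a : ℝ) (hγ : 0 < γ) (hγπ : γ < Real.pi) (hl : 0 < lam) (hl1 : lam ≤ 1) (ha : 0 < a) (ha1 : a ≤ 1)
    (hla : lam * a ≤ 1 / 2) (ε : ℝ) (hε : 0 < ε) (hε1 : ε ≤ 1) : ∃ H₀ : ℝ, 1 ≤ H₀ ∧ ∀ H : ℝ, H₀ ≤ H → ∃ θ : ℝ, 0 < θ ∧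
    ∀ᶠ T : ℝ in atTop, H / Real.log T ≤ 1 ∧ 3 ≤ T ∧ ∀ N : ℕ, (N : ℝ) ≤ T ^ θ → ∀ (b : ℕ → ℂ) (κ : ℝ), ε ≤ κ → κ ≤ 1 →
      ∀ E : Set ℝ, MeasurableSet E → E ⊆ Set.Icc T (2 * T) →
      κ * ∫ t in Set.Icc T (2 * T), ‖dp N b t‖ ^ 2 ≤ ∫ t in E, ‖dp N b t‖ ^ 2 →
      (2 - M1 γ lam a - M2 γ lam a / κ - ε / 2) * (H / Real.pi) * (∫ t in E, ‖dp N b t‖ ^ 2) ≤
        ∫ t in E, (cnt Ps t (H / Real.log T) : ℝ) * ‖dp N b t‖ ^ 2 ∧
      ((3 - M1 γ lam a - M2 γ lam a / κ) / 2 - ε / 2) * (H / Real.pi) * (∫ t in E, ‖dp N b t‖ ^ 2) ≤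
        ∫ t in E, (cnt Pd t (H / Real.log T) : ℝ) * ‖dp N b t‖ ^ 2 := by
  have hR := conv γ hγ hγπ
  have hR0 := hR.nonneg 0
  obtain ⟨R₀, hR₀⟩ : ∃ R₀, R₀ = H385.Rw γ 0 := ⟨_, rfl⟩
  rw [← hR₀] at hR0
  obtain ⟨e, he⟩ : ∃ e, e = ε * lam / 4 := ⟨_, rfl⟩
  have he0 : 0 < e := by rw [he]; positivity
  obtain ⟨ρ, hρ⟩ : ∃ ρ, ρ = (R₀ + 1) / (R₀ + 1 + e) := ⟨_, rfl⟩
  have hρ0 : 0 < ρ := by rw [hρ]; positivity
  have hρ1 : ρ < 1 := by rw [hρ, div_lt_one (by positivity)]; linarith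
  have hl' : 0 < lam * ρ := by positivity
  have hl1' : lam * ρ < 1 := by nlinarith
  have hla' : lam * ρ * a < 1 / 2 := by nlinarith [mul_pos hl ha]
  have hJ1 : 0 ≤ ∫ x in (0 : ℝ)..a, x * H385.Rw γ x :=
    intervalIntegral.integral_nonneg ha.le fun α hα => mul_nonneg hα.1 (hR.nonneg α)
  have hJ2 : 0 ≤ ∫ x in a..1, x * H385.Rw γ x :=
    intervalIntegral.integral_nonneg ha1 fun α hα => mul_nonneg (ha.le.trans hα.1) (hR.nonneg α)
  obtain ⟨m, hm⟩ : ∃ m, m = H385.Rw γ 0 / (lam * ρ) + 2 * (lam * ρ) * ∫ x in (0 : ℝ)..a, x * H385.Rw γ x := ⟨_, rfl⟩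
  have hm0 : 0 ≤ m := by rw [hm, ← hR₀]; positivity
  have hmM : m ≤ M1 γ lam a + ε / 4 := by
    rw [hm]
    unfold M1
    have h1 : H385.Rw γ 0 / (lam * ρ) ≤ H385.Rw γ 0 / lam + ε / 4 := by
      rw [← hR₀]
      have h2 : R₀ / (lam * ρ) = R₀ / lam + R₀ / (R₀ + 1) * (e / lam) := by
        rw [hρ]
        field_simp
      rw [h2]
      have h3 : e / lam = ε / 4 := by rw [he]; field_simp
      rw [h3]
      have h4 : R₀ / (R₀ + 1) ≤ 1 := by rw [div_le_one (by positivity)]; linarith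
      have h5 := mul_le_mul_of_nonneg_right h4 (by positivity : 0 ≤ ε / 4)
      linarith
    have h6 : 2 * (lam * ρ) * (∫ x in (0 : ℝ)..a, x * H385.Rw γ x) ≤ 2 * lam * ∫ x in (0 : ℝ)..a, x * H385.Rw γ x :=
      mul_le_mul_of_nonneg_right (by nlinarith) hJ1
    linarith
  have hM2 : 2 * (lam * ρ) * (∫ x in a..1, x * H385.Rw γ x) ≤ M2 γ lam a := by
    unfold M2
    exact mul_le_mul_of_nonneg_right (by nlinarith) hJ2
  have hM20 : 0 ≤ M2 γ lam a := by unfold M2; positivity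
  obtain ⟨H₀, hH₀, hU⟩ := b_TD (H385.gw γ) (H385.Rw γ) (lam * ρ) a (win γ hγ hγπ) hR (ksq γ hγ hγπ) hl' hl1' ha ha1 hla'
    (ε ^ 2 / 128) (ε ^ 2 / 64) (by positivity) (by positivity)
  refine ⟨H₀, hH₀, fun H hH => ?_⟩
  obtain ⟨θ, t1, t2, hU⟩ := hU H hH
  refine ⟨θ, t1, ?_⟩
  have hH0 : 0 < H := by linarith
  have hs0 : 0 < ε ^ 2 / 256 := by positivity
  filter_upwards [hU, mass_full _ hs0, mass_short Pool.Agent.Q222.UM.t_MV2 _ hs0, eventually_ge_atTop (16 : ℝ),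
    Real.tendsto_log_atTop.eventually_ge_atTop 1, Real.tendsto_log_atTop.eventually_ge_atTop H]
    with T hU hA hB hT16 hL1 hLH
  have hT1 : (1 : ℝ) ≤ T := by linarith
  have hr : H / Real.log T ≤ 1 := by rw [div_le_one (by linarith)]; exact hLH
  have hL4 : 4 * Real.log T ≤ T := by
    have h5 := Real.log_le_sub_one_of_pos (show (0 : ℝ) < T / 16 by positivity)
    rw [Real.log_div (by positivity) (by norm_num)] at h5
    have h6 : Real.log 16 ≤ 3 := by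
      have : Real.log 16 = 4 * Real.log 2 := by
        rw [show (16 : ℝ) = 2 ^ 4 by norm_num, Real.log_pow]; norm_num
      rw [this]; have := Real.log_two_lt_d9; linarith
    linarith
  have hab : T + 2 * Real.log T ≤ 2 * T - 2 * Real.log T := by linarith
  refine ⟨hr, by linarith, fun N hN b κ hκ hκ1 E hE hET hmass => ?_⟩
  have hN40 : (N : ℝ) ≤ T ^ (1 / 40 : ℝ) := hN.trans (Real.rpow_le_rpow_of_exponent_le hT1 t2)
  replace hA := hA N hN40 b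
  replace hB := hB N hN40 b
  obtain ⟨W, hW⟩ : ∃ W, W = T * N2 N b := ⟨_, rfl⟩
  have hW0 : 0 ≤ W := by rw [hW]; exact mul_nonneg (by linarith) (N2_nonneg N b)
  obtain ⟨G, Y, hGm, hYc, hY0, hG1, hYi, hG2⟩ := hU N hN b
  rw [← hW] at hA hB hG1 hYi
  rw [← hm] at hG2
  have hκ0 : 0 < κ := by linarith
  have hgc : Continuous (fun t : ℝ => ‖dp N b t‖ ^ 2) := ((dp_cont N b).norm).pow 2
  have hg0 : ∀ t : ℝ, 0 ≤ ‖dp N b t‖ ^ 2 := fun t => by positivity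
  have hh : 0 ≤ H / Real.pi := by positivity
  have hI0 : 0 ≤ ∫ t in E, ‖dp N b t‖ ^ 2 := integral_nonneg hg0
  have hv0 : 0 ≤ M2 γ lam a / κ := by positivity
  have hYi' : ∫ t in (T + 2 * Real.log T)..(2 * T - 2 * Real.log T), Y t * ‖dp N b t‖ ^ 2 ≤
      (M2 γ lam a / κ * κ + ε ^ 2 / 64) * (H / Real.pi) * W := by
    refine hYi.trans (mul_le_mul_of_nonneg_right (mul_le_mul_of_nonneg_right ?_ hh) hW0)
    rw [div_mul_cancel₀ _ hκ0.ne']
    linarith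
  have hh1 : 0 ≤ H / Real.pi * (∫ t in E, ‖dp N b t‖ ^ 2) := mul_nonneg hh hI0
  have g1 := te_E Ps (c := 2) (k := 1) (m := m) (v := M2 γ lam a / κ) (q := fun t => Nsw T (H / Real.log T) t)
    hgc hg0 (by linarith) hr hL1 hab hW0 hε hε1 hκ hκ1 (by norm_num) hm0 hv0 hh (by norm_num) hA hB hGm hYc hY0 hG1 hYi'
    (fun t ht htG => by rw [one_mul]; exact (hG2 t ht htG).1) (fun t ht => Nsw_cnt (by linarith) hL1 hr ht) hE hET hmass
  have g2 := te_E Pd (c := 3) (k := 2) (m := m) (v := M2 γ lam a / κ) (q := fun t => Ndw T (H / Real.log T) t)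
    hgc hg0 (by linarith) hr hL1 hab hW0 hε hε1 hκ hκ1 (by norm_num) hm0 hv0 hh (by norm_num) hA hB hGm hYc hY0 hG1 hYi'
    (fun t ht htG => (hG2 t ht htG).2) (fun t ht => Ndw_cnt (by linarith) hL1 hr ht) hE hET hmass
  have e1 : ∀ z : ℝ, z * (H / Real.pi) * (∫ t in E, ‖dp N b t‖ ^ 2) = z * (H / Real.pi * ∫ t in E, ‖dp N b t‖ ^ 2) :=
    fun z => mul_assoc _ _ _
  rw [e1] at g1 g2
  rw [e1, e1]
  constructor
  · rw [one_mul] at g1
    refine le_trans (mul_le_mul_of_nonneg_right ?_ hh1) g1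
    linarith
  · have h1 : (3 - M1 γ lam a - M2 γ lam a / κ - ε) * (H / Real.pi * ∫ t in E, ‖dp N b t‖ ^ 2) ≤
        2 * ∫ t in E, (cnt Pd t (H / Real.log T) : ℝ) * ‖dp N b t‖ ^ 2 :=
      le_trans (mul_le_mul_of_nonneg_right (by linarith) hh1) g2
    linarith

/-- zeros near a dense set -/
theorem near_of (P : ℂ → Prop) (a : ℝ → ℝ) (ε : ℝ) (hε : 0 < ε)
    (h : ∃ H₀ : ℝ, 1 ≤ H₀ ∧ ∀ H : ℝ, H₀ ≤ H → ∃ θ : ℝ, 0 < θ ∧
      ∀ᶠ T : ℝ in atTop, H / Real.log T ≤ 1 ∧ 3 ≤ T ∧ ∀ N : ℕ, (N : ℝ) ≤ T ^ θ → ∀ (b : ℕ → ℂ) (κ : ℝ), ε ≤ κ → κ ≤ 1 →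
        ∀ E : Set ℝ, MeasurableSet E → E ⊆ Set.Icc T (2 * T) →
        κ * ∫ t in Set.Icc T (2 * T), ‖dp N b t‖ ^ 2 ≤ ∫ t in E, ‖dp N b t‖ ^ 2 →
        (a κ - ε / 2) * (H / Real.pi) * (∫ t in E, ‖dp N b t‖ ^ 2) ≤
          ∫ t in E, (cnt P t (H / Real.log T) : ℝ) * ‖dp N b t‖ ^ 2) : FF P a ε := by
  refine final_P P a ε hε h ?_
  obtain ⟨H₀, hH₀, h⟩ := h
  refine ⟨H₀, hH₀, fun H hH => ?_⟩
  obtain ⟨θ, hθ, h⟩ := h H hH
  have hH0 : 0 < H := by linarith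
  have hpi := Real.pi_pos
  filter_upwards [h, eventually_ge_atTop (3 : ℝ), Real.tendsto_log_atTop.eventually_ge_atTop 1] with T h hT hL κ hκ hκ1 E hE hET hv
  obtain ⟨hr, -, h⟩ := h
  have hL0 : 0 < Real.log T := by linarith
  have h1 := h 1 (by push_cast; exact Real.one_le_rpow (by linarith) hθ.le) (fun _ => 1) κ hκ hκ1 E hE hET
  simp only [dp_one, norm_one, one_pow, mul_one, integral_const, smul_eq_mul, measureReal_restrict_apply_univ] at h1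
  rw [Real.volume_real_Icc_of_le (by linarith), show 2 * T - T = T by ring] at h1
  have g1 := h1 hv
  have hr0 : 0 ≤ H / Real.log T := by positivity
  have hvE : 0 ≤ volume.real E := measureReal_nonneg
  have hX2 := near_bd P hT hr hr0 hE hET
  obtain ⟨n, hn⟩ : ∃ n : ℝ, n = (Set.ncard {s : ℂ | riemannZeta s = 0 ∧ 0 < s.re ∧ s.re < 1 ∧ P s ∧
    ∃ t ∈ E, |s.im - t| ≤ H / Real.log T} : ℝ) := ⟨_, rfl⟩
  rw [← hn] at hX2 ⊢
  have h3 : (a κ - ε) * (H / Real.pi) * volume.real E ≤ 2 * (H / Real.log T) * n := by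
    refine le_trans ?_ (g1.trans hX2)
    exact mul_le_mul_of_nonneg_right (mul_le_mul_of_nonneg_right (by linarith) (by positivity)) hvE
  have h4 : (a κ - ε) * (Real.log T / (2 * Real.pi)) * volume.real E =
      ((a κ - ε) * (H / Real.pi) * volume.real E) * (Real.log T / (2 * H)) := by field_simp
  have h5 : n = (2 * (H / Real.log T) * n) * (Real.log T / (2 * H)) := by field_simp
  rw [h4, h5]
  exact mul_le_mul_of_nonneg_right h3 (by positivity)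

/-- simple zeros on the critical line -/
theorem te_s (γ lam a : ℝ) (hγ : 0 < γ) (hγπ : γ < Real.pi) (hl : 0 < lam) (hl1 : lam ≤ 1) (ha : 0 < a) (ha1 : a ≤ 1)
    (hla : lam * a ≤ 1 / 2) (ε : ℝ) (hε : 0 < ε) (hε1 : ε ≤ 1) :
    FF Ps (fun κ => 2 - M1 γ lam a - M2 γ lam a / κ) ε := by
  refine near_of Ps _ ε hε ?_
  obtain ⟨H₀, hH₀, h⟩ := te_all γ lam a hγ hγπ hl hl1 ha ha1 hla ε hε hε1
  refine ⟨H₀, hH₀, fun H hH => ?_⟩
  obtain ⟨θ, hθ, h⟩ := h H hH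
  refine ⟨θ, hθ, ?_⟩
  filter_upwards [h] with T h
  exact ⟨h.1, h.2.1, fun N hN b κ h1 h2 E h3 h4 h5 => (h.2.2 N hN b κ h1 h2 E h3 h4 h5).1⟩

/-- distinct zeros in the right half of the strip -/
theorem te_d (γ lam a : ℝ) (hγ : 0 < γ) (hγπ : γ < Real.pi) (hl : 0 < lam) (hl1 : lam ≤ 1) (ha : 0 < a) (ha1 : a ≤ 1)
    (hla : lam * a ≤ 1 / 2) (ε : ℝ) (hε : 0 < ε) (hε1 : ε ≤ 1) :
    FF Pd (fun κ => (3 - M1 γ lam a - M2 γ lam a / κ) / 2) ε := by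
  refine near_of Pd _ ε hε ?_
  obtain ⟨H₀, hH₀, h⟩ := te_all γ lam a hγ hγπ hl hl1 ha ha1 hla ε hε hε1
  refine ⟨H₀, hH₀, fun H hH => ?_⟩
  obtain ⟨θ, hθ, h⟩ := h H hH
  refine ⟨θ, hθ, ?_⟩
  filter_upwards [h] with T h
  exact ⟨h.1, h.2.1, fun N hN b κ h1 h2 E h3 h4 h5 => (h.2.2 N hN b κ h1 h2 E h3 h4 h5).2⟩

end

end Pool.Agent.U85.Ml
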