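import Pool.Agent.U85.Ml.Te

set_option autoImplicit false

/-!
The numerical values for the window with parameter `2π/3`.
-/

namespace Pool.Agent.U85.Ml

open Filter Topology MeasureTheory

noncomputable section

/-- an antiderivative -/
def Phi (γ t : ℝ) : ℝ :=
  t * (1 - t) * Real.sin (γ * t) / γ + (1 - 2 * t) * Real.cos (γ * t) / γ ^ 2 + 2 * Real.sin (γ * t) / γ ^ 3 +
    (t * Real.cos (γ * (1 - t)) / γ + Real.sin (γ * (1 - t)) / γ ^ 2) / γ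

lemma Phi_deriv (γ t : ℝ) (hγ : γ ≠ 0) :
    HasDerivAt (Phi γ) (t * ((1 - t) * Real.cos (γ * t) + Real.sin (γ * (1 - t)) / γ)) t := by
  have hx : HasDerivAt (fun x : ℝ => x) 1 t := hasDerivAt_id t
  have h1 : HasDerivAt (fun x : ℝ => γ * x) γ t := by simpa using hx.const_mul γ
  have h2 : HasDerivAt (fun x : ℝ => 1 - x) (-1) t := by simpa using hx.const_sub 1
  have h3 : HasDerivAt (fun x : ℝ => γ * (1 - x)) (γ * (-1)) t := h2.const_mul γ
  have h4 : HasDerivAt (fun x : ℝ => 1 - 2 * x) (-(2 * 1)) t := (hx.const_mul 2).const_sub 1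
  have s1 := ((hx.mul h2).mul h1.sin).div_const γ
  have s2 := (h4.mul h1.cos).div_const (γ ^ 2)
  have s3 := (h1.sin.const_mul 2).div_const (γ ^ 3)
  have s4 := ((hx.mul h3.cos).div_const γ).add (h3.sin.div_const (γ ^ 2))
  have s := ((s1.add s2).add s3).add (s4.div_const γ)
  refine s.congr_deriv ?_
  simp only [Pi.mul_apply]
  field_simp
  ring

lemma J_val (γ x y : ℝ) (hγ : γ ≠ 0) (hx : 0 ≤ x) (hxy : x ≤ y) (hy : y ≤ 1) :
    ∫ t in x..y, t * H385.Rw γ t = (γ / (2 * Real.sin (γ / 2))) ^ 2 / 2 * (Phi γ y - Phi γ x) := by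
  have h1 : ∀ t ∈ Set.uIcc x y, HasDerivAt (fun u => (γ / (2 * Real.sin (γ / 2))) ^ 2 / 2 * Phi γ u)
      (t * H385.Rw γ t) t := by
    intro t ht
    rw [Set.uIcc_of_le hxy] at ht
    have ht0 : 0 ≤ t := hx.trans ht.1
    have ht1 : t ≤ 1 := ht.2.trans hy
    have h2 := (Phi_deriv γ t hγ).const_mul ((γ / (2 * Real.sin (γ / 2))) ^ 2 / 2)
    refine h2.congr_deriv ?_
    rw [H385.WinAux.Rw_eq, abs_of_nonneg ht0, min_eq_left ht1]
    unfold H385.WinAux.nn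
    ring
  have hc : Continuous fun t => t * H385.Rw γ t := by
    have : Continuous fun t => H385.Rw γ t := by
      simp only [H385.WinAux.Rw_eq]
      unfold H385.WinAux.nn
      fun_prop
    exact continuous_id.mul this
  rw [intervalIntegral.integral_eq_sub_of_hasDerivAt h1 (hc.intervalIntegrable _ _)]
  ring

/-- the parameter -/
def g0 : ℝ := 2 * Real.pi / 3

lemma g0_pos : 0 < g0 := by unfold g0; positivity

lemma g0_lt : g0 < Real.pi := by unfold g0; linarith [Real.pi_pos]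

lemma g0_amp : (g0 / (2 * Real.sin (g0 / 2))) ^ 2 / 2 = g0 ^ 2 / 6 := by
  have h1 : Real.sin (g0 / 2) = Real.sqrt 3 / 2 := by
    unfold g0
    rw [show 2 * Real.pi / 3 / 2 = Real.pi / 3 by ring, Real.sin_pi_div_three]
  rw [h1, show 2 * (Real.sqrt 3 / 2) = Real.sqrt 3 by ring, div_pow, Real.sq_sqrt (by norm_num)]
  ring

lemma sin_g0 : Real.sin g0 = Real.sqrt 3 / 2 := by
  unfold g0
  rw [show 2 * Real.pi / 3 = Real.pi - Real.pi / 3 by ring, Real.sin_pi_sub, Real.sin_pi_div_three]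

lemma cos_g0 : Real.cos g0 = -(1 / 2) := by
  unfold g0
  rw [show 2 * Real.pi / 3 = Real.pi - Real.pi / 3 by ring, Real.cos_pi_sub, Real.cos_pi_div_three]

lemma Phi_0 : Phi g0 0 = 1 / g0 ^ 2 + Real.sqrt 3 / 2 / g0 ^ 3 := by
  have h := g0_pos
  unfold Phi
  simp only [mul_zero, sub_zero, mul_one, Real.sin_zero, Real.cos_zero, zero_mul, zero_div, sin_g0]
  field_simp
  ring

lemma Phi_1 : Phi g0 1 = (1 / 2) / g0 ^ 2 + Real.sqrt 3 / g0 ^ 3 + 1 / g0 ^ 2 := by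
  have h := g0_pos
  unfold Phi
  simp only [mul_one, sub_self, mul_zero, zero_mul, zero_div, Real.sin_zero, Real.cos_zero, sin_g0, cos_g0]
  field_simp
  ring

lemma Phi_half : Phi g0 (1 / 2) = Real.sqrt 3 / 8 / g0 + Real.sqrt 3 / g0 ^ 3 + (1 / 4) / g0 ^ 2 +
    Real.sqrt 3 / 2 / g0 ^ 3 := by
  have h := g0_pos
  have e1 : Real.sin (g0 * (1 / 2)) = Real.sqrt 3 / 2 := by
    unfold g0
    rw [show 2 * Real.pi / 3 * (1 / 2) = Real.pi / 3 by ring, Real.sin_pi_div_three]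
  have e2 : Real.cos (g0 * (1 / 2)) = 1 / 2 := by
    unfold g0
    rw [show 2 * Real.pi / 3 * (1 / 2) = Real.pi / 3 by ring, Real.cos_pi_div_three]
  unfold Phi
  rw [show (1 : ℝ) - 1 / 2 = 1 / 2 by norm_num, e1, e2]
  field_simp
  ring

lemma Phi_34 : Phi g0 (3 / 4) = (3 / 16) / g0 + 2 / g0 ^ 3 + 3 * Real.sqrt 3 / 8 / g0 ^ 2 + (1 / 2) / g0 ^ 3 := by
  have h := g0_pos
  have e1 : Real.sin (g0 * (3 / 4)) = 1 := by
    unfold g0
    rw [show 2 * Real.pi / 3 * (3 / 4) = Real.pi / 2 by ring, Real.sin_pi_div_two]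
  have e2 : Real.cos (g0 * (3 / 4)) = 0 := by
    unfold g0
    rw [show 2 * Real.pi / 3 * (3 / 4) = Real.pi / 2 by ring, Real.cos_pi_div_two]
  have e3 : Real.sin (g0 * (1 / 4)) = 1 / 2 := by
    unfold g0
    rw [show 2 * Real.pi / 3 * (1 / 4) = Real.pi / 6 by ring, Real.sin_pi_div_six]
  have e4 : Real.cos (g0 * (1 / 4)) = Real.sqrt 3 / 2 := by
    unfold g0
    rw [show 2 * Real.pi / 3 * (1 / 4) = Real.pi / 6 by ring, Real.cos_pi_div_six]
  unfold Phi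
  rw [show (1 : ℝ) - 3 / 4 = 1 / 4 by norm_num, e1, e2, e3, e4]
  field_simp
  ring

lemma R0_val : H385.Rw g0 0 = g0 ^ 2 / 6 + Real.sqrt 3 * g0 / 12 := by
  have h := g0_pos
  rw [H385.WinAux.Rw_eq]
  unfold H385.WinAux.nn
  rw [abs_zero, min_eq_left zero_le_one, sub_zero, mul_zero, Real.cos_zero, mul_one, mul_one, sin_g0]
  have h2 := g0_amp
  have e : (g0 / (2 * Real.sin (g0 / 2))) ^ 2 = 2 * (g0 ^ 2 / 6) := by linarith
  rw [e]
  field_simp
  ring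

lemma g0_bd : 2.09439466 < g0 ∧ g0 < 2.09439534 := by
  have h1 := Real.pi_gt_d6
  have h2 := Real.pi_lt_d6
  unfold g0
  constructor <;> linarith

lemma s3_bd : 1.7320508 < Real.sqrt 3 ∧ Real.sqrt 3 < 1.7320509 := by
  constructor
  · rw [Real.lt_sqrt (by norm_num)]; norm_num
  · rw [Real.sqrt_lt' (by norm_num)]; norm_num

lemma val_half : 2 - M1 g0 1 (1 / 2) - M2 g0 1 (1 / 2) / (1 / 2) = 17 / 12 - g0 ^ 2 / 6 - Real.sqrt 3 * g0 / 24 := by
  have h := g0_pos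
  unfold M1 M2
  rw [J_val g0 0 (1 / 2) h.ne' le_rfl (by norm_num) (by norm_num), J_val g0 (1 / 2) 1 h.ne' (by norm_num) (by norm_num) le_rfl,
    g0_amp, R0_val, Phi_0, Phi_half, Phi_1]
  field_simp
  ring

lemma val_half_gt : 0.5341 < 2 - M1 g0 1 (1 / 2) - M2 g0 1 (1 / 2) / (1 / 2) := by
  rw [val_half]
  obtain ⟨a1, a2⟩ := g0_bd
  obtain ⟨b1, b2⟩ := s3_bd
  have h1 : g0 ^ 2 ≤ 2.09439534 ^ 2 := pow_le_pow_left₀ g0_pos.le a2.le 2
  have h2 : Real.sqrt 3 * g0 ≤ 1.7320509 * 2.09439534 := mul_le_mul b2.le a2.le g0_pos.le (by norm_num)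
  norm_num at h1 h2 ⊢
  linarith

lemma val_12 : 2 - M1 g0 (2 / 3) (3 / 4) - M2 g0 (2 / 3) (3 / 4) / (1 / 12) =
    2 - g0 ^ 2 / 4 - Real.sqrt 3 * g0 / 8 - 4 / 3 - 4 / 3 * (Real.sqrt 3 / g0) +
      44 / 3 * (g0 / 32 - 1 / 6 + Real.sqrt 3 / 16 + (5 - Real.sqrt 3) / g0 / 12) := by
  have h := g0_pos
  unfold M1 M2
  rw [J_val g0 0 (3 / 4) h.ne' le_rfl (by norm_num) (by norm_num), J_val g0 (3 / 4) 1 h.ne' (by norm_num) (by norm_num) le_rfl,
    g0_amp, R0_val, Phi_0, Phi_34, Phi_1]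
  field_simp
  ring

lemma val_12_gt : 0.0241 < 2 - M1 g0 (2 / 3) (3 / 4) - M2 g0 (2 / 3) (3 / 4) / (1 / 12) := by
  rw [val_12]
  obtain ⟨a1, a2⟩ := g0_bd
  obtain ⟨b1, b2⟩ := s3_bd
  have h := g0_pos
  have h1 : g0 ^ 2 ≤ 2.09439534 ^ 2 := pow_le_pow_left₀ g0_pos.le a2.le 2
  have h2 : Real.sqrt 3 * g0 ≤ 1.7320509 * 2.09439534 := mul_le_mul b2.le a2.le g0_pos.le (by norm_num)
  have h3 : Real.sqrt 3 / g0 ≤ 1.7320509 / 2.09439466 := by
    rw [div_le_div_iff₀ h (by norm_num)]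
    nlinarith
  have h4 : (5 - 1.7320509) / 2.09439534 ≤ (5 - Real.sqrt 3) / g0 := by
    rw [div_le_div_iff₀ (by norm_num) h]
    nlinarith
  norm_num at h1 h2 h3 h4 ⊢
  linarith

end

end Pool.Agent.U85.Ml
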