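import Pool.Agent.U85.Ml.Lm

set_option autoImplicit false

/-!
The smooth and the sharp sums over the zeros at frequencies below `a log T`, `a < 1` (adapted from `Sh`).
-/

namespace Pool.Agent.U85.Ml

open Filter Topology MeasureTheory Complex
open scoped ComplexConjugate
open Pool.Agent.Q97.UM Pool.Agent.Q61.UM

noncomputable section

open Classical in
/-- the smooth and the sharp sum -/
theorem sh_pt2 {δ H C Y a : ℝ} {K K₁ A : ℕ} {w : ℝ → ℝ} (hδ : 0 < δ) (ha0 : 0 ≤ a) (hδ8 : a + 2 * δ ≤ 1) (hH : 1 ≤ H) (hC : 1 ≤ C)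
    (hw : OmW δ H C K w) (hA : (K₁ : ℝ) ≤ 3 * δ * A) (hK : K = A + K₁) (hY : 0 ≤ Y) :
    ∀ᶠ T : ℝ in atTop, ∀ u t : ℝ, 0 ≤ u → u ≤ a * Real.log T → ErrS δ H K₁ T t ≤ Real.exp (3 * δ * Y) →
      ‖Zt w T u t - Ssh T (H / Real.log T) u t‖ ≤ 3 * C ^ 2 * Real.exp Y * ErrS δ H K₁ T t := by
  have t0 : Tendsto (fun T : ℝ => Real.log T ^ 2) atTop atTop :=
    (tendsto_pow_atTop (by norm_num : (2 : ℕ) ≠ 0)).comp Real.tendsto_log_atTop
  obtain ⟨y₁, hy₁⟩ : ∃ y₁ : ℝ, y₁ = Y + A * Real.log (1 + H) := ⟨_, rfl⟩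
  filter_upwards [t0.eventually_ge_atTop (4 * H ^ 2), t0.eventually_ge_atTop (4 * C ^ 2 * Real.exp y₁ * (H ^ 2 + y₁ ^ 2) * H),
    Real.tendsto_log_atTop.eventually_ge_atTop 1, eventually_ge_atTop (10 : ℝ)] with T hL1 hL2 hL1' hT u t hu0 hu1 hE
  set L := Real.log T with hL
  have hL0 : 0 < L := by linarith
  have hF := H370.good_zeta
  have hU : (1 : ℝ) ≤ T + 1 := by linarith
  have hWm : ∀ s ∈ ZT T, s ∈ H370.zset riemannZeta (T + 1) (2 * T - 1) := fun s hs => (H370.mem_Zf hF hU).mp hs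
  have hWpos : ∀ s ∈ ZT T, 1 ≤ mz s := by
    intro s hs
    have := hWm s hs
    exact H370.Loc.mult_pos' hF (by linarith [this.2.2.1]) this.2.2.2.2
  have hm0 : ∀ s : ℂ, (0 : ℝ) ≤ mz s := fun s => Nat.cast_nonneg _
  have hP0 : ∀ s : ℂ, 0 ≤ Psi δ H K₁ (L * (s.im - t)) (L * |s.re - 1 / 2|) := fun s => Psi_nonneg (by linarith) _ _
  have hPE : ∀ s ∈ ZT T, Psi δ H K₁ (L * (s.im - t)) (L * |s.re - 1 / 2|) ≤ Real.exp (3 * δ * Y) := by
    intro s hs
    refine le_trans ?_ hE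
    have h1 : (mz s : ℝ) * Psi δ H K₁ (L * (s.im - t)) (L * |s.re - 1 / 2|) ≤ ErrS δ H K₁ T t := by
      unfold ErrS
      exact Finset.single_le_sum (f := fun s => (mz s : ℝ) * Psi δ H K₁ (L * (s.im - t)) (L * |s.re - 1 / 2|))
        (fun s _ => mul_nonneg (hm0 s) (hP0 s)) hs
    have h2 : (1 : ℝ) ≤ mz s := by exact_mod_cast hWpos s hs
    have := mul_le_mul_of_nonneg_right h2 (hP0 s)
    linarith
  have hE0 : 0 ≤ ErrS δ H K₁ T t := Finset.sum_nonneg fun s _ => mul_nonneg (hm0 s) (hP0 s)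
  have hCC : 1 ≤ C ^ 2 := one_le_pow₀ hC
  have heY : 1 ≤ Real.exp Y := Real.one_le_exp hY
  -- the difference as one sum
  have hdiff : Zt w T u t - Ssh T (H / L) u t = ∑ s ∈ ZT T, (mz s : ℂ) * (cexp (I * u * H370.zz s) *
      (om w (L * (H370.zz s - t)) ^ 2 * cexp (-(H370.zz s - t) ^ 2 / 2) - if |s.im - t| ≤ H / L then 1 else 0)) := by
    unfold Zt Ssh
    rw [← hL, Finset.sum_filter, ← Finset.sum_sub_distrib]
    refine Finset.sum_congr rfl fun s _ => ?_
    split_ifs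
    · ring
    · ring
  rw [hdiff]
  refine (norm_sum_le _ _).trans ?_
  unfold ErrS
  rw [← hL, Finset.mul_sum]
  refine Finset.sum_le_sum fun s hs => ?_
  have hms : ‖(mz s : ℂ)‖ = (mz s : ℝ) := by simp
  rw [norm_mul, hms, norm_mul]
  have hgoal : ‖cexp (I * u * H370.zz s)‖ * ‖om w (L * (H370.zz s - t)) ^ 2 * cexp (-(H370.zz s - t) ^ 2 / 2) -
      (if |s.im - t| ≤ H / L then 1 else 0)‖ ≤
      3 * C ^ 2 * Real.exp Y * Psi δ H K₁ (L * (s.im - t)) (L * |s.re - 1 / 2|) := by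
    have hP := hPE s hs
    have hsm := hWm s hs
    obtain ⟨ξ, hξ⟩ : ∃ ξ : ℂ, ξ = L * (H370.zz s - t) := ⟨_, rfl⟩
    have hre : ξ.re = L * (s.im - t) := by
      rw [hξ, Complex.re_ofReal_mul]
      simp [H370.zz_re]
    have him : |ξ.im| = L * |s.re - 1 / 2| := by
      rw [hξ, Complex.im_ofReal_mul, abs_mul, abs_of_pos hL0]
      congr 1
      simp only [Complex.sub_im, Complex.ofReal_im, sub_zero, H370.zz_im, abs_neg]
    obtain ⟨y, hy⟩ : ∃ y, y = L * |s.re - 1 / 2| := ⟨_, rfl⟩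
    obtain ⟨x, hx⟩ : ∃ x, x = L * (s.im - t) := ⟨_, rfl⟩
    rw [← hy] at him hP ⊢
    rw [← hx] at hre hP ⊢
    have hLc : (L : ℂ) ≠ 0 := by exact_mod_cast hL0.ne'
    have hg : cexp (-(H370.zz s - t) ^ 2 / 2) = cexp (-(ξ / L) ^ 2 / 2) := by
      rw [hξ, mul_div_cancel_left₀ _ hLc]
    rw [hg, ← hξ]
    have hy0 : 0 ≤ y := by rw [hy]; positivity
    have hy12 : y ≤ L / 2 := by
      rw [hy]
      have h3 : |s.re - 1 / 2| ≤ 1 / 2 := by
        rw [abs_le]
        constructor <;> linarith [hsm.1, hsm.2.1]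
      have := mul_le_mul_of_nonneg_left h3 hL0.le
      linarith
    have himL : |ξ.im| ≤ L / 2 := by rw [him]; exact hy12
    have hyb := y_bd hδ hH hA hP
    obtain ⟨e, he⟩ : ∃ e, e = |(|x| - H)| := ⟨_, rfl⟩
    rw [← he] at hyb
    have he0 : 0 ≤ e := by rw [he]; exact abs_nonneg _
    have hexp : Real.exp y ≤ Real.exp Y * (1 + e) ^ A := by
      have h5 : (1 + e) ^ A = Real.exp (A * Real.log (1 + e)) := by
        rw [Real.exp_nat_mul, Real.exp_log (by linarith)]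
      rw [h5, ← Real.exp_add]
      exact Real.exp_le_exp.2 hyb
    have hpow : (1 + e) ^ K = (1 + e) ^ A * (1 + e) ^ K₁ := by rw [hK, pow_add]
    have hK10 : 0 < (1 + e) ^ K₁ := by positivity
    have hA0 : 0 < (1 + e) ^ A := by positivity
    have hmain : Real.exp y / (1 + e) ^ K ≤ Real.exp Y * (1 / (1 + e) ^ K₁) := by
      rw [hpow, div_le_iff₀ (by positivity)]
      have : Real.exp Y * (1 / (1 + e) ^ K₁) * ((1 + e) ^ A * (1 + e) ^ K₁) = Real.exp Y * (1 + e) ^ A := by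
        field_simp
      rw [this]
      exact hexp
    -- the exponential factor
    have hce : ‖cexp (I * u * H370.zz s)‖ ≤ Real.exp (a * y) := by
      rw [Complex.norm_exp]
      apply Real.exp_le_exp.2
      have h1 : (I * u * H370.zz s).re = -(u * (H370.zz s).im) := by
        have : I * (u : ℂ) * H370.zz s = (u : ℂ) * (I * H370.zz s) := by ring
        rw [this, Complex.re_ofReal_mul]
        simp
      rw [h1, H370.zz_im]
      have h2 : u * |s.re - 1 / 2| ≤ a * L * |s.re - 1 / 2| := mul_le_mul_of_nonneg_right hu1 (abs_nonneg _)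
      have h3 : u * (s.re - 1 / 2) ≤ u * |s.re - 1 / 2| := mul_le_mul_of_nonneg_left (le_abs_self _) hu0
      have h4 : -(u * -(s.re - 1 / 2)) = u * (s.re - 1 / 2) := by ring
      have h5 : -(u * (-(s.re - 1 / 2))) ≤ a * y := by
        rw [h4, hy]
        linarith
      exact h5
    have hee : Real.exp (a * y) * Real.exp (δ * y) ^ 2 ≤ Real.exp y := by
      rw [← Real.exp_nat_mul, ← Real.exp_add]
      apply Real.exp_le_exp.2
      push_cast
      nlinarith
    have hPsi1 : 1 / (1 + e) ^ K₁ + (if |x| ≤ H then 1 / H else 0) ≤ Psi δ H K₁ x y := by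
      unfold Psi
      rw [← he]
      have h2 : (0 : ℝ) ≤ (if H < |x| ∧ (1 + (|x| - H)) ^ K₁ < Real.exp y then 1 else 0) := by split_ifs <;> norm_num
      have h3 : (0 : ℝ) ≤ (if |x| ≤ H then 1 / H else 0) := by
        split_ifs
        · positivity
        · exact le_rfl
      have h4 : 1 ≤ Real.exp (3 * δ * y) := Real.one_le_exp (by positivity)
      have h5 : 0 ≤ 1 / (1 + e) ^ K₁ + (if H < |x| ∧ (1 + (|x| - H)) ^ K₁ < Real.exp y then 1 else 0) +
          (if |x| ≤ H then 1 / H else 0) := by positivity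
      calc _ ≤ 1 * (1 / (1 + e) ^ K₁ + (if H < |x| ∧ (1 + (|x| - H)) ^ K₁ < Real.exp y then 1 else 0) +
          (if |x| ≤ H then 1 / H else 0)) := by linarith
        _ ≤ _ := mul_le_mul_of_nonneg_right h4 h5
    have hiff : |s.im - t| ≤ H / L ↔ |x| ≤ H := by
      rw [hx, abs_mul, abs_of_pos hL0, le_div_iff₀ hL0, mul_comm]
    by_cases hin : |x| ≤ H
    · rw [if_pos (hiff.2 hin)]
      rw [if_pos hin] at hPsi1
      have h1 := in_bd hδ hC hw hL0 hL1 (ξ := ξ) (by rw [hre]; exact hin) himL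
      rw [him, hre] at h1
      have h12 : H - |x| = e := by
        have h13 := abs_of_nonpos (by linarith : |x| - H ≤ 0)
        rw [he, h13]
        ring
      rw [h12] at h1
      have heH : e ≤ H := by
        have := abs_nonneg x
        linarith
      have hyy : y ≤ y₁ := by
        rw [hy₁]
        have h5 : Real.log (1 + e) ≤ Real.log (1 + H) := Real.log_le_log (by linarith) (by linarith)
        have := mul_le_mul_of_nonneg_left h5 (Nat.cast_nonneg A : (0 : ℝ) ≤ A)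
        linarith
      have h2 : ‖cexp (I * u * H370.zz s)‖ * ‖om w ξ ^ 2 * cexp (-(ξ / L) ^ 2 / 2) - 1‖ ≤
          Real.exp (a * y) * (Real.exp (δ * y) ^ 2 * (3 * C ^ 2 / (1 + e) ^ K + 4 * C ^ 2 * ((H ^ 2 + y ^ 2) / L ^ 2))) :=
        mul_le_mul hce h1 (norm_nonneg _) (Real.exp_pos _).le
      have h3 : Real.exp (a * y) * (Real.exp (δ * y) ^ 2 * (3 * C ^ 2 / (1 + e) ^ K + 4 * C ^ 2 * ((H ^ 2 + y ^ 2) / L ^ 2))) ≤
          Real.exp y * (3 * C ^ 2 / (1 + e) ^ K + 4 * C ^ 2 * ((H ^ 2 + y ^ 2) / L ^ 2)) := by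
        rw [← mul_assoc]
        exact mul_le_mul_of_nonneg_right hee (by positivity)
      have h4 : Real.exp y * (4 * C ^ 2 * ((H ^ 2 + y ^ 2) / L ^ 2)) ≤ 1 / H := by
        have h5 : Real.exp y * (4 * C ^ 2 * ((H ^ 2 + y ^ 2) / L ^ 2)) ≤
            Real.exp y₁ * (4 * C ^ 2 * ((H ^ 2 + y₁ ^ 2) / L ^ 2)) := by
          refine mul_le_mul (Real.exp_le_exp.2 hyy) ?_ (by positivity) (Real.exp_pos _).le
          refine mul_le_mul_of_nonneg_left ?_ (by positivity)
          refine div_le_div_of_nonneg_right ?_ (by positivity)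
          have := pow_le_pow_left₀ hy0 hyy 2
          linarith
        refine h5.trans ?_
        have h6 : Real.exp y₁ * (4 * C ^ 2 * ((H ^ 2 + y₁ ^ 2) / L ^ 2)) =
            4 * C ^ 2 * Real.exp y₁ * (H ^ 2 + y₁ ^ 2) * H / (L ^ 2 * H) := by
          field_simp
        rw [h6, div_le_div_iff₀ (by positivity) (by linarith)]
        have := mul_le_mul_of_nonneg_right hL2 (by linarith : 0 ≤ H)
        linarith
      have h7 : Real.exp y * (3 * C ^ 2 / (1 + e) ^ K) ≤ 3 * C ^ 2 * Real.exp Y * (1 / (1 + e) ^ K₁) := by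
        have := mul_le_mul_of_nonneg_left hmain (by positivity : 0 ≤ 3 * C ^ 2)
        calc Real.exp y * (3 * C ^ 2 / (1 + e) ^ K) = 3 * C ^ 2 * (Real.exp y / (1 + e) ^ K) := by ring
          _ ≤ _ := this
          _ = _ := by ring
      have h8 : 1 / H ≤ 3 * C ^ 2 * Real.exp Y * (1 / H) := by
        have h9 : (1 : ℝ) ≤ 3 * C ^ 2 * Real.exp Y := by nlinarith
        have h10 : 0 ≤ 1 / H := by positivity
        have := mul_le_mul_of_nonneg_right h9 h10
        linarith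
      have h9 := mul_le_mul_of_nonneg_left hPsi1 (by positivity : 0 ≤ 3 * C ^ 2 * Real.exp Y)
      rw [mul_add] at h3
      linarith
    · rw [if_neg (fun h => hin (hiff.1 h)), sub_zero]
      rw [if_neg hin, add_zero] at hPsi1
      push Not at hin
      have h1 := far_bd hw hC hL0 (ξ := ξ) (by rw [hre]; exact hin) himL
      rw [him, hre] at h1
      have h12 : |x| - H = e := by
        have h13 := abs_of_nonneg (by linarith : 0 ≤ |x| - H)
        rw [he, h13]
      rw [h12] at h1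
      have hq1 : 1 ≤ (1 + e) ^ K := one_le_pow₀ (by linarith)
      have h13 : 2 * C ^ 2 * Real.exp (δ * y) ^ 2 / ((1 + e) ^ K) ^ 2 ≤ 2 * C ^ 2 * Real.exp (δ * y) ^ 2 / (1 + e) ^ K := by
        refine div_le_div_of_nonneg_left (by positivity) (by positivity) ?_
        nlinarith
      have h2 : ‖cexp (I * u * H370.zz s)‖ * ‖om w ξ ^ 2 * cexp (-(ξ / L) ^ 2 / 2)‖ ≤
          Real.exp (a * y) * (2 * C ^ 2 * Real.exp (δ * y) ^ 2 / (1 + e) ^ K) :=
        mul_le_mul hce (h1.trans h13) (norm_nonneg _) (Real.exp_pos _).le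
      have h3 : Real.exp (a * y) * (2 * C ^ 2 * Real.exp (δ * y) ^ 2 / (1 + e) ^ K) ≤ 2 * C ^ 2 * (Real.exp y / (1 + e) ^ K) := by
        have e1 : Real.exp (a * y) * (2 * C ^ 2 * Real.exp (δ * y) ^ 2 / (1 + e) ^ K) =
            2 * C ^ 2 * ((Real.exp (a * y) * Real.exp (δ * y) ^ 2) / (1 + e) ^ K) := by ring
        rw [e1]
        refine mul_le_mul_of_nonneg_left (div_le_div_of_nonneg_right hee (by positivity)) (by positivity)
      have h7 := mul_le_mul_of_nonneg_left hmain (by positivity : 0 ≤ 2 * C ^ 2)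
      have h9 := mul_le_mul_of_nonneg_left hPsi1 (by positivity : 0 ≤ 3 * C ^ 2 * Real.exp Y)
      have h10 : 0 ≤ C ^ 2 * (Real.exp Y * (1 / (1 + e) ^ K₁)) := by positivity
      linarith
  have := mul_le_mul_of_nonneg_left hgoal (hm0 s)
  linarith

end

end Pool.Agent.U85.Ml
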