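import Pool.Agent.U85.Ml.Tw
import Pool.Agent.U85.Ml.As

set_option autoImplicit false

/-!
The form factor at the frequencies between `1/2` and `1`: an upper bound outside a set whose mass is bounded by the mean.
-/

namespace Pool.Agent.U85.Ml

open Filter Topology MeasureTheory Complex
open scoped ComplexConjugate
open Pool.Agent.Q97.UM Pool.Agent.U85.Zd

noncomputable section

/-- the mean of the square at one frequency -/
theorem zt_ms : ∃ C₀ : ℝ, 1 ≤ C₀ ∧ ∀ (δ H C : ℝ) (K : ℕ) (w : ℝ → ℝ) (θ ε : ℝ), 0 < δ → δ ≤ 1 / 16 → 1 ≤ H → 1 ≤ C → 2 ≤ K →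
    OmW δ H C K w → 0 < θ → θ ≤ 1 / 40 → 0 < ε → ∀ᶠ T : ℝ in atTop, ∀ N : ℕ, (N : ℝ) ≤ T ^ θ → ∀ (b : ℕ → ℂ) (u : ℝ),
    3 * δ * Real.log T ≤ u → u ≤ (1 - 4 * δ - 2 * θ) * Real.log T →
    ∫ t in (T + 2 * Real.log T)..(2 * T - 2 * Real.log T), ‖Zt w T u t‖ ^ 2 * ‖dp N b t‖ ^ 2 ≤
      (u / Real.log T * I2 w + C₀ * (δ + Real.sqrt θ) * I2 w + ε) * (T * N2 N b) := by
  obtain ⟨C₀, hC₀, hZ⟩ := b_ZU
  refine ⟨C₀, hC₀, fun δ H C K w θ ε hδ hδ1 hH hC hK hw hθ hθ1 hε => ?_⟩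
  obtain ⟨D, hD, hQB⟩ := Pool.Agent.Q150.UM.qb_of Pool.Agent.Q176.UM.t_QH Pool.Agent.Q247.UM.t_QLF hδ (by linarith) hH hC hK hw
  have htail : ∀ᶠ T : ℝ in atTop, D ^ 2 * Real.exp (-(δ * Real.log T) ^ 2) ≤ ε / 2 := by
    have h1 : Tendsto (fun T : ℝ => (δ * Real.log T) ^ 2) atTop atTop :=
      (tendsto_pow_atTop two_ne_zero).comp (Real.tendsto_log_atTop.const_mul_atTop hδ)
    have h2 : Tendsto (fun T : ℝ => D ^ 2 * Real.exp (-(δ * Real.log T) ^ 2)) atTop (𝓝 (D ^ 2 * 0)) := by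
      refine Tendsto.const_mul _ (Real.tendsto_exp_atBot.comp ?_)
      exact tendsto_neg_atTop_atBot.comp h1
    rw [mul_zero] at h2
    exact (h2.eventually (gt_mem_nhds (by positivity))).mono fun _ h => h.le
  filter_upwards [hZ δ H C K w θ (ε / 2) 1 hδ hδ1 hH hC hK hw hθ hθ1 (by positivity) one_pos le_rfl, htail,
    Real.tendsto_log_atTop.eventually_ge_atTop 1, eventually_ge_atTop (1 : ℝ)] with T hZ htail hL hT N hN b u hu3 hu1
  obtain ⟨L, hLd⟩ : ∃ L, L = Real.log T := ⟨_, rfl⟩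
  have hQ := hQB (Real.log T) hL
  rw [← hLd] at hZ htail hL hu3 hu1 hQ ⊢
  have hL0 : 0 < L := by linarith
  have hδL : 0 ≤ δ * L := by positivity
  have hu0 : 0 ≤ u := le_trans (by positivity) hu3
  have h3 := hZ N hN b u hu0 hu1
  rw [if_pos hu3] at h3
  have hW : 0 ≤ T * N2 N b := mul_nonneg (by linarith) (Pool.Agent.Q97.UM.N2_nonneg N b)
  have hQL : QL w L u ^ 2 ≤ ε / 2 := by
    have h4 := hQ.tail u (by rw [abs_of_nonneg hu0]; linarith)
    rw [abs_of_nonneg hu0] at h4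
    have h5 : δ * L ≤ u - 2 * δ * L := by linarith
    have h6 : (δ * L) ^ 2 ≤ (u - 2 * δ * L) ^ 2 := pow_le_pow_left₀ hδL h5 2
    calc QL w L u ^ 2 = |QL w L u| ^ 2 := (sq_abs _).symm
      _ ≤ (D * Real.exp (-(u - 2 * δ * L) ^ 2 / 2)) ^ 2 := pow_le_pow_left₀ (abs_nonneg _) h4 2
      _ = D ^ 2 * Real.exp (-(u - 2 * δ * L) ^ 2) := by
          rw [mul_pow, ← Real.exp_nat_mul]
          congr 2
          push_cast
          ring
      _ ≤ D ^ 2 * Real.exp (-(δ * L) ^ 2) := by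
          apply mul_le_mul_of_nonneg_left _ (by positivity)
          exact Real.exp_le_exp.2 (by linarith)
      _ ≤ ε / 2 := htail
  have h7 := (abs_le.1 h3).2
  have h8 : QL w L u ^ 2 * (T * N2 N b) ≤ ε / 2 * (T * N2 N b) := mul_le_mul_of_nonneg_right hQL hW
  have e1 : (QL w L u ^ 2 + u / L * I2 w) * T * N2 N b = QL w L u ^ 2 * (T * N2 N b) + u / L * I2 w * (T * N2 N b) := by ring
  have e2 : (C₀ * (δ + Real.sqrt θ) * I2 w + ε / 2) * T * N2 N b = C₀ * (δ + Real.sqrt θ) * I2 w * (T * N2 N b) +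
    ε / 2 * (T * N2 N b) := by ring
  have e3 : (u / L * I2 w + C₀ * (δ + Real.sqrt θ) * I2 w + ε) * (T * N2 N b) = u / L * I2 w * (T * N2 N b) +
    C₀ * (δ + Real.sqrt θ) * I2 w * (T * N2 N b) + ε / 2 * (T * N2 N b) + ε / 2 * (T * N2 N b) := by ring
  rw [e1, e2] at h7
  rw [e3]
  linarith

/-- the part for one height -/
lemma two_T {δ H C Y E s C₄ κ y η e M a a' T m₂ h z : ℝ} {K K₁ N : ℕ} {w R : ℝ → ℝ} {b : ℕ → ℂ} (hw : OmW δ H C K w)
    (hδ0 : 0 < δ) (hH1 : 1 ≤ H) (hRc : Continuous R) (hRn : ∀ x, 0 ≤ R x) (ha : 0 < a) (haa : a < a') (ha' : a' < 1)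
    (hM : 0 ≤ M) (hRM : ∀ α ∈ Set.Icc a a', R α ≤ M) (hm₂ : m₂ = ∫ β in a..a', β * R β) (hκ : 0 < κ) (hy : 0 < y)
    (hη : 0 < η) (hη1 : η ≤ 1) (hh0 : 0 < h) (hE0 : 0 ≤ E) (hC₄ : 0 ≤ C₄)
    (hYe : Real.exp (3 * δ * Y) = C₄ / κ + 1) (hs : s = (Real.exp (3 * δ * Y))⁻¹) (hLT1 : 1 ≤ Real.log T)
    (hxy : T + 2 * Real.log T ≤ 2 * T - 2 * Real.log T) (hW0 : 0 ≤ T * N2 N b) (hz : 0 ≤ z)
    (b1 : ∀ β ∈ Set.Icc a a', ∫ t in (T + 2 * Real.log T)..(2 * T - 2 * Real.log T),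
      ‖Zt w T (Real.log T * β) t‖ ^ 2 * ‖dp N b t‖ ^ 2 ≤ (β * I2 w + z) * (T * N2 N b))
    (b2 : ∫ t in (T + 2 * Real.log T)..(2 * T - 2 * Real.log T), ‖dp N b t‖ ^ 2 ≤ 2 * (T * N2 N b))
    (b3 : ∫ t in (T + 2 * Real.log T)..(2 * T - 2 * Real.log T), ErrS δ H K₁ T t * ‖dp N b t‖ ^ 2 ≤ C₄ * (T * N2 N b))
    (hSh : ∀ u t : ℝ, 0 ≤ u → u ≤ a' * Real.log T → ErrS δ H K₁ T t ≤ Real.exp (3 * δ * Y) →
      ‖Zt w T u t - Ssh T (H / Real.log T) u t‖ ≤ E)
    (hnum : (1 + η) * (m₂ * I2 w + M * z) + M * (4 * E ^ 2 / η) ≤ (m₂ + e) * h) :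
    ∃ G : Set ℝ, MeasurableSet G ∧
      ∫ t in Set.Ioc (T + 2 * Real.log T) (2 * T - 2 * Real.log T) ∩ G, ‖dp N b t‖ ^ 2 ≤ (κ + (m₂ + e) / y) * (T * N2 N b) ∧
      ∀ t ∈ Set.Ioc (T + 2 * Real.log T) (2 * T - 2 * Real.log T), t ∉ G →
        ∫ β in a..a', R β * ‖Ssh T (H / Real.log T) (Real.log T * β) t‖ ^ 2 ≤ y * h := by
  obtain ⟨W, hW⟩ : ∃ W, W = T * N2 N b := ⟨_, rfl⟩
  rw [← hW] at hW0 b1 b2 b3 ⊢
  have hVc : Continuous (fun t : ℝ => ‖dp N b t‖ ^ 2) := (Pool.Agent.Q150.UM.dp_cont N b).norm.pow 2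
  have hV0 : ∀ t : ℝ, 0 ≤ ‖dp N b t‖ ^ 2 := fun t => by positivity
  have hZ2 := Pool.Agent.Q97.UM.Zt_cont hw hδ0 T (Real.log T)
  have hs0 : 0 < s := by rw [hs]; positivity
  have hL0 : 0 < Real.log T := by linarith
  -- the smooth statistic
  obtain ⟨X, hX⟩ : ∃ X : ℝ → ℝ, X = fun t => ∫ β in a..a', R β * ‖Zt w T (Real.log T * β) t‖ ^ 2 := ⟨_, rfl⟩
  have hFc : Continuous fun p : ℝ × ℝ => R p.1 * ‖Zt w T (Real.log T * p.1) p.2‖ ^ 2 :=
    (hRc.comp continuous_fst).mul (hZ2.norm.pow 2)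
  have hXc : Continuous X := by
    rw [hX]
    exact par_c (F := fun β t => R β * ‖Zt w T (Real.log T * β) t‖ ^ 2) hFc _ _
  have hX0 : ∀ t, 0 ≤ X t := by
    intro t
    rw [hX]
    exact intervalIntegral.integral_nonneg haa.le fun β _ => mul_nonneg (hRn β) (by positivity)
  have hXi : ∫ t in (T + 2 * Real.log T)..(2 * T - 2 * Real.log T), X t * ‖dp N b t‖ ^ 2 ≤ (m₂ * I2 w + M * z) * W := by
    have s1 := swap_c (F := fun β t => R β * ‖Zt w T (Real.log T * β) t‖ ^ 2 * ‖dp N b t‖ ^ 2)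
      (hFc.mul (hVc.comp continuous_snd)) (T + 2 * Real.log T) (2 * T - 2 * Real.log T) a a'
    have e1 : ∀ t, X t * ‖dp N b t‖ ^ 2 = ∫ β in a..a', R β * ‖Zt w T (Real.log T * β) t‖ ^ 2 * ‖dp N b t‖ ^ 2 := by
      intro t
      rw [hX, intervalIntegral.integral_mul_const]
    simp only [e1]
    rw [s1]
    have c2 : Continuous fun β : ℝ => (β * R β) * (I2 w * W) + M * (z * W) := by fun_prop
    have c3 : Continuous fun β : ℝ => ∫ t in (T + 2 * Real.log T)..(2 * T - 2 * Real.log T),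
        R β * ‖Zt w T (Real.log T * β) t‖ ^ 2 * ‖dp N b t‖ ^ 2 := by
      have := par_c (F := fun t β => R β * ‖Zt w T (Real.log T * β) t‖ ^ 2 * ‖dp N b t‖ ^ 2)
        ((hFc.comp continuous_swap).mul (hVc.comp continuous_fst)) (T + 2 * Real.log T) (2 * T - 2 * Real.log T)
      exact this
    have h1 : ∫ β in a..a', ∫ t in (T + 2 * Real.log T)..(2 * T - 2 * Real.log T),
        R β * ‖Zt w T (Real.log T * β) t‖ ^ 2 * ‖dp N b t‖ ^ 2 ≤ ∫ β in a..a', ((β * R β) * (I2 w * W) + M * (z * W)) := by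
      refine intervalIntegral.integral_mono_on haa.le (c3.intervalIntegrable _ _) (c2.intervalIntegrable _ _) fun β hβ => ?_
      have e2 : ∫ t in (T + 2 * Real.log T)..(2 * T - 2 * Real.log T), R β * ‖Zt w T (Real.log T * β) t‖ ^ 2 * ‖dp N b t‖ ^ 2 =
          R β * ∫ t in (T + 2 * Real.log T)..(2 * T - 2 * Real.log T), ‖Zt w T (Real.log T * β) t‖ ^ 2 * ‖dp N b t‖ ^ 2 := by
        rw [← intervalIntegral.integral_const_mul]
        refine intervalIntegral.integral_congr fun t _ => ?_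
        show R β * ‖Zt w T (Real.log T * β) t‖ ^ 2 * ‖dp N b t‖ ^ 2 = R β * (‖Zt w T (Real.log T * β) t‖ ^ 2 * ‖dp N b t‖ ^ 2)
        ring
      rw [e2]
      have h2 := mul_le_mul_of_nonneg_left (b1 β hβ) (hRn β)
      have h3 : R β * (z * W) ≤ M * (z * W) := mul_le_mul_of_nonneg_right (hRM β hβ) (by positivity)
      have e3 : R β * ((β * I2 w + z) * W) = (β * R β) * (I2 w * W) + R β * (z * W) := by ring
      linarith
    refine h1.trans ?_
    rw [intervalIntegral.integral_add (Continuous.intervalIntegrable (by fun_prop) _ _) (by simp),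
      intervalIntegral.integral_mul_const, intervalIntegral.integral_const, smul_eq_mul, ← hm₂]
    have h4 : (a' - a) * (M * (z * W)) ≤ 1 * (M * (z * W)) := mul_le_mul_of_nonneg_right (by linarith) (by positivity)
    linarith
  obtain ⟨mE, ⟨B4, bE⟩, eE⟩ := ErrS_meas (δ := δ) hH1 K₁ T
  obtain ⟨q, hq⟩ : ∃ q, q = M * (2 * E ^ 2 / η) := ⟨_, rfl⟩
  have hq0 : 0 ≤ q := by rw [hq]; positivity
  obtain ⟨r, hr⟩ : ∃ r, r = 1 / (y * h) := ⟨_, rfl⟩
  have hr0 : 0 < r := by rw [hr]; positivity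
  obtain ⟨F, hF⟩ : ∃ F : ℝ → ℝ, F = fun t => r * ((1 + η) * X t + q) + s * ErrS δ H K₁ T t := ⟨_, rfl⟩
  have hFm : Measurable F := by
    rw [hF]
    have m1 : Measurable fun t => r * ((1 + η) * X t + q) :=
      (continuous_const.mul ((continuous_const.mul hXc).add continuous_const)).measurable
    exact m1.add (mE.const_mul s)
  have n1 : ∀ t, 0 ≤ r * ((1 + η) * X t + q) := by
    intro t
    have := hX0 t
    positivity
  have n2 : ∀ t, 0 ≤ s * ErrS δ H K₁ T t := fun t => mul_nonneg hs0.le (eE t)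
  have hF0 : ∀ t, 0 ≤ F t := fun t => by rw [hF]; exact add_nonneg (n1 t) (n2 t)
  have i1 : IntervalIntegrable (fun t => X t * ‖dp N b t‖ ^ 2) volume (T + 2 * Real.log T)
      (2 * T - 2 * Real.log T) := (hXc.mul hVc).intervalIntegrable _ _
  have i2 : IntervalIntegrable (fun t => ‖dp N b t‖ ^ 2) volume (T + 2 * Real.log T)
      (2 * T - 2 * Real.log T) := hVc.intervalIntegrable _ _
  have i3 := ii_mul mE bE hVc (T + 2 * Real.log T) (2 * T - 2 * Real.log T)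
  have eF : ∀ t, F t * ‖dp N b t‖ ^ 2 = (r * (1 + η)) * (X t * ‖dp N b t‖ ^ 2) + (r * q) * ‖dp N b t‖ ^ 2 +
      s * (ErrS δ H K₁ T t * ‖dp N b t‖ ^ 2) := by
    intro t
    rw [hF]
    ring
  have iF : IntervalIntegrable (fun t => F t * ‖dp N b t‖ ^ 2) volume (T + 2 * Real.log T)
      (2 * T - 2 * Real.log T) := by
    simp only [eF]
    exact ((i1.const_mul _).add (i2.const_mul _)).add (i3.const_mul s)
  have hFi : ∫ t in (T + 2 * Real.log T)..(2 * T - 2 * Real.log T), F t * ‖dp N b t‖ ^ 2 ≤ (κ + (m₂ + e) / y) * W := by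
    simp only [eF]
    rw [intervalIntegral.integral_add ((i1.const_mul _).add (i2.const_mul _)) (i3.const_mul s),
      intervalIntegral.integral_add (i1.const_mul _) (i2.const_mul _), intervalIntegral.integral_const_mul,
      intervalIntegral.integral_const_mul, intervalIntegral.integral_const_mul]
    have c1 := mul_le_mul_of_nonneg_left hXi (by positivity : 0 ≤ r * (1 + η))
    have c2 := mul_le_mul_of_nonneg_left b2 (by positivity : 0 ≤ r * q)
    have c3 := mul_le_mul_of_nonneg_left b3 hs0.le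
    have hse : s * (C₄ * W) ≤ κ * W := by
      rw [← mul_assoc]
      refine mul_le_mul_of_nonneg_right ?_ hW0
      rw [hs, hYe, inv_mul_le_iff₀ (by positivity)]
      have h5 : (C₄ / κ + 1) * κ = C₄ + κ := by field_simp
      linarith
    have c4 : r * (1 + η) * ((m₂ * I2 w + M * z) * W) + r * q * (2 * W) ≤ (m₂ + e) / y * W := by
      have e1 : r * (1 + η) * ((m₂ * I2 w + M * z) * W) + r * q * (2 * W) =
          (r * ((1 + η) * (m₂ * I2 w + M * z) + M * (4 * E ^ 2 / η))) * W := by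
        rw [hq]
        ring
      rw [e1]
      refine mul_le_mul_of_nonneg_right ?_ hW0
      have h6 := mul_le_mul_of_nonneg_left hnum hr0.le
      refine h6.trans (le_of_eq ?_)
      rw [hr]
      field_simp
    linarith
  refine ⟨{t | 1 < F t}, measurableSet_lt measurable_const hFm, markov hxy hFm hF0 hVc hV0 iF hFi, ?_⟩
  intro t _ htG
  have hFt : F t ≤ 1 := not_lt.1 htG
  rw [hF] at hFt
  have g1 : (1 + η) * X t + q ≤ y * h := by
    have h1 : r * ((1 + η) * X t + q) ≤ 1 := by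
      have := n2 t
      linarith
    rw [hr, one_div, inv_mul_le_iff₀ (by positivity), mul_one] at h1
    exact h1
  have g3 : ErrS δ H K₁ T t ≤ Real.exp (3 * δ * Y) := by
    have h1 : s * ErrS δ H K₁ T t ≤ 1 := by
      have := n1 t
      linarith
    rw [hs, inv_mul_le_iff₀ (Real.exp_pos _), mul_one] at h1
    exact h1
  refine le_trans ?_ g1
  have hZ1 := Pool.Agent.Q97.UM.Zt_cont hw hδ0 T 1
  have hZuc : Continuous fun u : ℝ => Zt w T u t := by
    have h1 := hZ1.comp (continuous_id.prodMk continuous_const : Continuous fun u : ℝ => (u, t))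
    have e : (fun u : ℝ => Zt w T u t) = (fun p : ℝ × ℝ => Zt w T (1 * p.1) p.2) ∘ (fun u : ℝ => (u, t)) := by
      funext u
      simp
    rw [e]
    exact h1
  have hSc : Continuous fun β : ℝ => Ssh T (H / Real.log T) (Real.log T * β) t :=
    (Ssh_cont T _ t).comp (by fun_prop)
  have hZc' : Continuous fun β : ℝ => Zt w T (Real.log T * β) t := hZuc.comp (by fun_prop)
  have c1 : Continuous fun β : ℝ => R β * ‖Ssh T (H / Real.log T) (Real.log T * β) t‖ ^ 2 := hRc.mul (hSc.norm.pow 2)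
  have c2 : Continuous fun β : ℝ => R β * ‖Zt w T (Real.log T * β) t‖ ^ 2 := hRc.mul (hZc'.norm.pow 2)
  have h5 : ∫ β in a..a', R β * ‖Ssh T (H / Real.log T) (Real.log T * β) t‖ ^ 2 ≤
      ∫ β in a..a', ((1 + η) * (R β * ‖Zt w T (Real.log T * β) t‖ ^ 2) + q) := by
    refine intervalIntegral.integral_mono_on haa.le (c1.intervalIntegrable _ _)
      (Continuous.intervalIntegrable (by fun_prop) _ _) fun β hβ => ?_
    have h7 := sq_cmp hE0 hη hη1 (hSh (Real.log T * β) t (mul_nonneg hL0.le (by linarith [hβ.1])) (by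
      rw [mul_comm a']
      exact mul_le_mul_of_nonneg_left hβ.2 hL0.le) g3)
    have h8 := mul_le_mul_of_nonneg_left (abs_le.1 h7).2 (hRn β)
    have h9 : R β * (2 * E ^ 2 / η) ≤ M * (2 * E ^ 2 / η) := mul_le_mul_of_nonneg_right (hRM β hβ) (by positivity)
    rw [← hq] at h9
    have e9 : R β * (η * ‖Zt w T (Real.log T * β) t‖ ^ 2 + 2 * E ^ 2 / η) =
      η * (R β * ‖Zt w T (Real.log T * β) t‖ ^ 2) + R β * (2 * E ^ 2 / η) := by ring
    rw [e9, mul_sub] at h8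
    linarith
  refine h5.trans ?_
  rw [intervalIntegral.integral_add ((c2.const_mul _).intervalIntegrable _ _) (by simp),
    intervalIntegral.integral_const_mul, intervalIntegral.integral_const, smul_eq_mul]
  have h6 : (a' - a) * q ≤ 1 * q := mul_le_mul_of_nonneg_right (by linarith) hq0
  rw [hX]
  linarith

end

end Pool.Agent.U85.Ml
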