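import Pool.Agent.U85.Ml.Tx

set_option autoImplicit false

/-!
The form factor at the frequencies between `1/2` and `1`: the theorem.
-/

namespace Pool.Agent.U85.Ml

open Filter Topology MeasureTheory Complex
open scoped ComplexConjugate
open Pool.Agent.Q97.UM Pool.Agent.U85.Zd

noncomputable section

lemma num_two {m₂ I M z E η e h c : ℝ} (hm0 : 0 ≤ m₂) (hmM : m₂ ≤ M) (hM : 0 ≤ M) (he0 : 0 < e) (he1 : e ≤ 1)
    (hη : η = e / (8 * (M + 1))) (hh : 1 ≤ h) (hI : I ≤ (1 + η) * h) (hc0 : 0 ≤ c) (hc : c ≤ η / 4)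
    (hz : z = c * I + η / 2) (hE : 32 * M * E ^ 2 ≤ e * η * h) (hI0 : 0 ≤ I) :
    (1 + η) * (m₂ * I + M * z) + M * (4 * E ^ 2 / η) ≤ (m₂ + e) * h := by
  have hη0 : 0 < η := by rw [hη]; positivity
  have hMη : (M + 1) * η = e / 8 := by
    rw [hη]
    field_simp
  have hη8 : η ≤ 1 / 8 := by
    have : 0 ≤ M * η := by positivity
    linarith
  have hI2 : I ≤ 9 / 8 * h := hI.trans (mul_le_mul_of_nonneg_right (by linarith) (by linarith))
  have h1 : m₂ * I ≤ m₂ * h + e / 8 * h := by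
    have a1 := mul_le_mul_of_nonneg_left hI hm0
    have a2 : m₂ * η ≤ (M + 1) * η := mul_le_mul_of_nonneg_right (by linarith) hη0.le
    have a3 : m₂ * η * h ≤ e / 8 * h := mul_le_mul_of_nonneg_right (a2.trans hMη.le) (by linarith)
    have a4 : m₂ * ((1 + η) * h) = m₂ * h + m₂ * η * h := by ring
    linarith
  have h2 : M * z ≤ e / 8 * h := by
    have a1 : c * I ≤ η / 4 * (9 / 8 * h) := by
      refine (mul_le_mul_of_nonneg_right hc hI0).trans (mul_le_mul_of_nonneg_left hI2 (by positivity))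
    have a2 : z ≤ η * h := by
      rw [hz]
      have : η / 2 * 1 ≤ η / 2 * h := mul_le_mul_of_nonneg_left hh (by positivity)
      have : 0 ≤ η * h := by positivity
      linarith
    calc M * z ≤ M * (η * h) := mul_le_mul_of_nonneg_left a2 hM
      _ ≤ (M + 1) * (η * h) := mul_le_mul_of_nonneg_right (by linarith) (by positivity)
      _ = (M + 1) * η * h := by ring
      _ = _ := by rw [hMη]
  have h3 : M * (4 * E ^ 2 / η) ≤ e / 8 * h := by
    have a1 : M * (4 * E ^ 2 / η) = (32 * M * E ^ 2) / η / 8 := by ring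
    rw [a1]
    have a2 : 32 * M * E ^ 2 / η ≤ e * h := by
      rw [div_le_iff₀ hη0]
      linarith
    linarith
  have h5 : η * (m₂ * I + M * z) ≤ e / 8 * h := by
    have a1 : m₂ * I + M * z ≤ (M + 1) * h := by
      have b1 : m₂ * h ≤ M * h := mul_le_mul_of_nonneg_right hmM (by linarith)
      have b2 : e / 8 * h ≤ 1 / 8 * h := mul_le_mul_of_nonneg_right (by linarith) (by linarith)
      linarith
    have a2 := mul_le_mul_of_nonneg_left a1 hη0.le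
    have a3 : η * ((M + 1) * h) = e / 8 * h := by
      rw [← hMη]
      ring
    linarith
  have h6 : 0 ≤ e * h := by positivity
  linarith

/-- **the frequencies between `1/2` and `1`** -/
theorem two_M (R : ℝ → ℝ) (D a a' : ℝ) (hR : ∀ x y : ℝ, |R x - R y| ≤ D * |x - y|) (hRn : ∀ x, 0 ≤ R x)
    (ha : 0 < a) (haa : a < a') (ha' : a' < 1) (κ ε y : ℝ) (hκ : 0 < κ) (hε : 0 < ε) (hy : 0 < y) :
    ∃ H₀ : ℝ, 1 ≤ H₀ ∧ ∀ H : ℝ, H₀ ≤ H → ∃ θ : ℝ, 0 < θ ∧ θ ≤ 1 / 40 ∧ ∀ᶠ T : ℝ in atTop, ∀ N : ℕ, (N : ℝ) ≤ T ^ θ →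
      ∀ b : ℕ → ℂ, ∃ G : Set ℝ, MeasurableSet G ∧
        ∫ t in Set.Ioc (T + 2 * Real.log T) (2 * T - 2 * Real.log T) ∩ G, ‖dp N b t‖ ^ 2 ≤
          (κ + ((∫ β in a..a', β * R β) + ε) / y) * (T * N2 N b) ∧
        ∀ t ∈ Set.Ioc (T + 2 * Real.log T) (2 * T - 2 * Real.log T), t ∉ G →
          ∫ β in a..a', R β * ‖Ssh T (H / Real.log T) (Real.log T * β) t‖ ^ 2 ≤ y * (H / Real.pi) := by
  obtain ⟨e, he⟩ : ∃ e, e = min ε 1 := ⟨_, rfl⟩
  have he0 : 0 < e := by rw [he]; positivity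
  have he1 : e ≤ 1 := by rw [he]; exact min_le_right _ _
  have hee : e ≤ ε := by rw [he]; exact min_le_left _ _
  have hD : 0 ≤ D := by
    have := hR 0 1
    have h2 := abs_nonneg (R 0 - R 1)
    simp only [zero_sub, abs_neg, abs_one, mul_one] at this
    linarith
  have hRc : Continuous R := by
    have : LipschitzWith (Real.toNNReal D) R := by
      refine LipschitzWith.of_dist_le_mul fun x y => ?_
      rw [Real.dist_eq, Real.dist_eq]
      exact (hR x y).trans (mul_le_mul_of_nonneg_right (Real.le_coe_toNNReal D) (abs_nonneg _))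
    exact this.continuous
  obtain ⟨M, hMdef⟩ : ∃ M : ℝ, M = |R 0| + D := ⟨_, rfl⟩
  have hM : 0 ≤ M := by rw [hMdef]; positivity
  have hRM : ∀ α ∈ Set.Icc a a', R α ≤ M := by
    intro α hα
    have h2 := hR α 0
    rw [sub_zero, abs_of_nonneg (by linarith [hα.1] : 0 ≤ α)] at h2
    have h3 : |R α| ≤ |R α - R 0| + |R 0| := by
      have := abs_add_le (R α - R 0) (R 0)
      rwa [sub_add_cancel] at this
    have h4 : D * α ≤ D := mul_le_of_le_one_right hD (by linarith [hα.2])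
    have h5 := le_abs_self (R α)
    rw [hMdef]
    linarith
  obtain ⟨m₂, hm₂⟩ : ∃ m₂, m₂ = ∫ β in a..a', β * R β := ⟨_, rfl⟩
  have hm0 : 0 ≤ m₂ := by
    rw [hm₂]
    exact intervalIntegral.integral_nonneg haa.le fun β hβ => mul_nonneg (by linarith [hβ.1]) (hRn β)
  have hmM : m₂ ≤ M := by
    rw [hm₂]
    have h1 : ∫ β in a..a', β * R β ≤ ∫ _β in a..a', M := by
      refine intervalIntegral.integral_mono_on haa.le (Continuous.intervalIntegrable (by fun_prop) _ _) (by simp) fun β hβ => ?_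
      have h2 := mul_le_mul_of_nonneg_right (show β ≤ 1 by linarith [hβ.2]) (hRn β)
      have h3 := hRM β hβ
      linarith
    rw [intervalIntegral.integral_const, smul_eq_mul] at h1
    have : (a' - a) * M ≤ 1 * M := mul_le_mul_of_nonneg_right (by linarith) hM
    linarith
  rw [← hm₂]
  obtain ⟨η, hη⟩ : ∃ η, η = e / (8 * (M + 1)) := ⟨_, rfl⟩
  have hη0 : 0 < η := by rw [hη]; positivity
  have hη1 : η ≤ 1 := by
    rw [hη, div_le_one (by positivity)]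
    linarith
  obtain ⟨C₀, hC₀, hMS⟩ := zt_ms
  obtain ⟨ϑ, c₀, C', hϑ0, hϑ1, hc₀, hC', hTB⟩ := b_TAIL
  obtain ⟨C₂, hC₂, hEDB⟩ := b_ED ϑ c₀ C' hϑ0 hϑ1 hc₀ hC' hTB
  obtain ⟨c, hc⟩ : ∃ c, c = min (c₀ / 4) 1 := ⟨_, rfl⟩
  have hc0 : 0 < c := by rw [hc]; positivity
  have hEDB' : EDB (ϑ / 2) c C₂ := EDB_mono hC₂ (by rw [hc]; exact min_le_left _ _) hEDB
  obtain ⟨K₀, hER⟩ := b_ERR (ϑ / 2) c C₂ (by positivity) (by linarith) hc0 (by rw [hc]; exact min_le_right _ _) hC₂ hEDB'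
  obtain ⟨K₁, hK₁⟩ : ∃ K₁, K₁ = max K₀ 2 := ⟨_, rfl⟩
  have hK2 : 2 ≤ K₁ := by rw [hK₁]; exact le_max_right _ _
  have hKK : K₀ ≤ K₁ := by rw [hK₁]; exact le_max_left _ _
  obtain ⟨δ, hδ⟩ : ∃ δ, δ = min (min (c / 100) (1 / 16)) (min (min (a / 3) ((1 - a') / 8)) (η / (8 * C₀))) := ⟨_, rfl⟩
  have hδ0 : 0 < δ := by
    rw [hδ]
    have : 0 < 1 - a' := by linarith
    positivity
  have hδ1 : δ ≤ c / 100 := by rw [hδ]; exact (min_le_left _ _).trans (min_le_left _ _)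
  have hδ2 : δ ≤ 1 / 16 := by rw [hδ]; exact (min_le_left _ _).trans (min_le_right _ _)
  have hδ3 : δ ≤ a / 3 := by
    rw [hδ]; exact (min_le_right _ _).trans ((min_le_left _ _).trans (min_le_left _ _))
  have hδ4 : δ ≤ (1 - a') / 8 := by
    rw [hδ]; exact (min_le_right _ _).trans ((min_le_left _ _).trans (min_le_right _ _))
  have hδ5 : δ ≤ η / (8 * C₀) := by rw [hδ]; exact (min_le_right _ _).trans (min_le_right _ _)
  obtain ⟨C₄, hC₄, hER⟩ := hER K₁ hKK δ hδ0 hδ1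
  obtain ⟨Y, hY⟩ : ∃ Y, Y = Real.log (C₄ / κ + 1) / (3 * δ) := ⟨_, rfl⟩
  have hY0 : 0 ≤ Y := by
    rw [hY]
    refine div_nonneg (Real.log_nonneg ?_) (by positivity)
    have : 0 ≤ C₄ / κ := by positivity
    linarith
  have hYe : Real.exp (3 * δ * Y) = C₄ / κ + 1 := by
    have h1 : 3 * δ * Y = Real.log (C₄ / κ + 1) := by
      rw [hY]
      field_simp
    rw [h1, Real.exp_log (by positivity)]
  obtain ⟨A, hA⟩ : ∃ A : ℕ, A = ⌈(K₁ : ℝ) / (3 * δ)⌉₊ := ⟨_, rfl⟩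
  have hA1 : (K₁ : ℝ) ≤ 3 * δ * A := by
    have h1 := Nat.le_ceil ((K₁ : ℝ) / (3 * δ))
    rw [← hA, div_le_iff₀ (by positivity)] at h1
    linarith
  obtain ⟨K, hKd⟩ : ∃ K, K = A + K₁ := ⟨_, rfl⟩
  have hKge : 2 ≤ K := by omega
  obtain ⟨Cw, hCw, hOM⟩ := Pool.Agent.Q247.UM.t_OMEX K δ hδ0 (by linarith)
  have hpi := Real.pi_pos
  obtain ⟨E, hE⟩ : ∃ E, E = 3 * Cw ^ 2 * Real.exp Y * Real.exp (3 * δ * Y) := ⟨_, rfl⟩
  have hE0 : 0 ≤ E := by rw [hE]; positivity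
  obtain ⟨h₀, hh₀⟩ : ∃ h₀ : ℝ, h₀ = 1 + 2 * Cw ^ 4 / η + 32 * M * E ^ 2 / (e * η) := ⟨_, rfl⟩
  have p1 : 0 ≤ 2 * Cw ^ 4 / η := by positivity
  have p2 : 0 ≤ 32 * M * E ^ 2 / (e * η) := by positivity
  have hh00 : 0 ≤ h₀ := by rw [hh₀]; positivity
  refine ⟨1 + Real.pi * h₀, by nlinarith, fun H hH => ?_⟩
  have hH1 : 1 ≤ H := by nlinarith [mul_nonneg hpi.le hh00]
  obtain ⟨w, hw⟩ := hOM H hH1
  obtain ⟨q1, q2, q3, -, hq0, hI2⟩ := Pool.Agent.Q176.UM.t_QH δ H Cw K w hδ0 (by linarith) hH1 hCw hKge hw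
  obtain ⟨h, hh⟩ : ∃ h, h = H / Real.pi := ⟨_, rfl⟩
  have hhH : H = h * Real.pi := by rw [hh]; field_simp
  have hhh : h₀ ≤ h := by
    rw [hh, le_div_iff₀ hpi]
    nlinarith
  have hh1 : 1 ≤ h := by linarith
  have hh0 : 0 < h := by linarith
  have hI2' : |I2 w - h| ≤ 4 * Cw ^ 4 / 3 := by
    have e1 : Real.pi * I2 w - H = Real.pi * (I2 w - h) := by rw [hhH]; ring
    rw [e1, abs_mul, abs_of_pos hpi] at hI2
    have := Real.pi_gt_three
    have h2 := abs_nonneg (I2 w - h)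
    nlinarith
  have hI2up : I2 w ≤ (1 + η) * h := by
    have h1 := (abs_le.1 hI2').2
    have h2 : 2 * Cw ^ 4 / η ≤ h := by linarith
    rw [div_le_iff₀ hη0] at h2
    have h3 : 0 ≤ Cw ^ 4 := by positivity
    linarith
  have hI20 : 0 ≤ I2 w := Pool.Agent.Q150.UM.I2_nonneg w
  have hEh : 32 * M * E ^ 2 ≤ e * η * h := by
    have h1 : 32 * M * E ^ 2 / (e * η) ≤ h := by linarith
    rw [div_le_iff₀ (by positivity)] at h1
    linarith
  obtain ⟨θ, hθ⟩ : ∃ θ, θ = min (min (ϑ / 2) (1 / 40)) (min ((1 - a') / 8) ((η / (8 * C₀)) ^ 2)) := ⟨_, rfl⟩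
  have hθ0 : 0 < θ := by
    rw [hθ]
    have : 0 < 1 - a' := by linarith
    positivity
  have hθ1 : θ ≤ ϑ / 2 := by rw [hθ]; exact (min_le_left _ _).trans (min_le_left _ _)
  have hθ2 : θ ≤ 1 / 40 := by rw [hθ]; exact (min_le_left _ _).trans (min_le_right _ _)
  have hθ3 : θ ≤ (1 - a') / 8 := by rw [hθ]; exact (min_le_right _ _).trans (min_le_left _ _)
  have hθ4 : Real.sqrt θ ≤ η / (8 * C₀) := by
    rw [Real.sqrt_le_left (by positivity)]
    rw [hθ]; exact (min_le_right _ _).trans (min_le_right _ _)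
  obtain ⟨cc, hcc⟩ : ∃ cc, cc = C₀ * (δ + Real.sqrt θ) := ⟨_, rfl⟩
  have hcc0 : 0 ≤ cc := by rw [hcc]; positivity
  have hcc1 : cc ≤ η / 4 := by
    rw [hcc]
    have h1 : C₀ * (δ + Real.sqrt θ) ≤ C₀ * (η / (8 * C₀) + η / (8 * C₀)) :=
      mul_le_mul_of_nonneg_left (add_le_add hδ5 hθ4) (by linarith)
    have h2 : C₀ * (η / (8 * C₀) + η / (8 * C₀)) = η / 4 := by
      field_simp
      norm_num
    linarith
  obtain ⟨z, hz⟩ : ∃ z, z = cc * I2 w + η / 2 := ⟨_, rfl⟩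
  have hz0 : 0 ≤ z := by rw [hz]; positivity
  refine ⟨θ, hθ0, hθ2, ?_⟩
  have eMS := hMS δ H Cw K w θ (η / 2) hδ0 hδ2 hH1 hCw hKge hw hθ0 hθ2 (by positivity)
  have eSH := sh_pt2 (Y := Y) (a := a') hδ0 (by linarith) (by linarith) hH1 hCw hw hA1 hKd hY0
  have eER := hER H hH1
  filter_upwards [eMS, eSH, eER, mass_short Pool.Agent.Q222.UM.t_MV2 1 one_pos, eventually_ge_atTop (16 : ℝ),
    Real.tendsto_log_atTop.eventually_ge_atTop 1] with T eMS eSH eER eJ hT16 hLT1 N hN b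
  have hT0 : 0 < T := by linarith
  have hT1 : 1 ≤ T := by linarith
  have hNϑ : (N : ℝ) ≤ T ^ (ϑ / 2) := hN.trans (Real.rpow_le_rpow_of_exponent_le hT1 hθ1)
  have hN40 : (N : ℝ) ≤ T ^ (1 / 40 : ℝ) := hN.trans (Real.rpow_le_rpow_of_exponent_le hT1 hθ2)
  replace eER := eER N hNϑ b
  replace eJ := eJ N hN40 b
  have hL4 : 4 * Real.log T ≤ T := by
    have h5 := Real.log_le_sub_one_of_pos (show (0 : ℝ) < T / 16 by positivity)
    rw [Real.log_div (by positivity) (by norm_num)] at h5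
    have h6 : Real.log 16 ≤ 3 := by
      have : Real.log 16 = 4 * Real.log 2 := by
        rw [show (16 : ℝ) = 2 ^ 4 by norm_num, Real.log_pow]; norm_num
      rw [this]; have := Real.log_two_lt_d9; linarith
    linarith
  have hxy : T + 2 * Real.log T ≤ 2 * T - 2 * Real.log T := by linarith
  have hW0 : 0 ≤ T * N2 N b := mul_nonneg hT0.le (Pool.Agent.Q150.UM.N2_nonneg N b)
  rw [mul_assoc] at eER
  have hL0 : 0 < Real.log T := by linarith
  rw [← hh]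
  have hmono : (κ + (m₂ + e) / y) * (T * N2 N b) ≤ (κ + (m₂ + ε) / y) * (T * N2 N b) := by
    refine mul_le_mul_of_nonneg_right ?_ hW0
    have : (m₂ + e) / y ≤ (m₂ + ε) / y := div_le_div_of_nonneg_right (by linarith) hy.le
    linarith
  have hb1 : ∀ β ∈ Set.Icc a a', ∫ t in (T + 2 * Real.log T)..(2 * T - 2 * Real.log T),
      ‖Zt w T (Real.log T * β) t‖ ^ 2 * ‖dp N b t‖ ^ 2 ≤ (β * I2 w + z) * (T * N2 N b) := by
    intro β hβ
    have h1 := eMS N hN b (Real.log T * β) (by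
      have : 3 * δ ≤ β := by linarith [hβ.1]
      nlinarith) (by
      have : β ≤ 1 - 4 * δ - 2 * θ := by linarith [hβ.2]
      nlinarith)
    refine h1.trans (mul_le_mul_of_nonneg_right (le_of_eq ?_) hW0)
    rw [hz, hcc, mul_div_cancel_left₀ _ hL0.ne']
    ring
  have hb2 : ∫ t in (T + 2 * Real.log T)..(2 * T - 2 * Real.log T), ‖dp N b t‖ ^ 2 ≤ 2 * (T * N2 N b) := by
    have h1 := (abs_le.1 eJ).2
    linarith
  have hb4 : ∀ u t : ℝ, 0 ≤ u → u ≤ a' * Real.log T → ErrS δ H K₁ T t ≤ Real.exp (3 * δ * Y) →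
      ‖Zt w T u t - Ssh T (H / Real.log T) u t‖ ≤ E := by
    intro u t hu0 hu1 g3
    refine (eSH u t hu0 hu1 g3).trans ?_
    rw [hE]
    exact mul_le_mul_of_nonneg_left g3 (by positivity)
  obtain ⟨G, g1, g2, g3⟩ := two_T (s := (Real.exp (3 * δ * Y))⁻¹) (e := e) (b := b) (N := N) hw hδ0 hH1 hRc hRn ha haa ha' hM hRM
    hm₂ hκ hy hη0 hη1 hh0 hE0 hC₄ hYe rfl hLT1 hxy hW0 hz0 hb1 hb2 eER hb4
    (num_two hm0 hmM hM he0 he1 hη hh1 hI2up hcc0 hcc1 hz hEh hI20)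
  exact ⟨G, g1, g2.trans hmono, g3⟩

end

end Pool.Agent.U85.Ml
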