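import Pool.Agent.U85.Ml.Ty
import Pool.Agent.U85.Ml.Fq

set_option autoImplicit false

/-!
Both frequency ranges together, and the consequences on the Riemann hypothesis.
-/

namespace Pool.Agent.U85.Ml

open Filter Topology MeasureTheory Complex
open scoped ComplexConjugate
open Pool.Agent.Q97.UM Pool.Agent.U85.Zd

noncomputable section

/-- both ranges on `[T, 2T]` -/
theorem fin_two (R : ℝ → ℝ) (D a a' : ℝ) (hR : ∀ x y : ℝ, |R x - R y| ≤ D * |x - y|) (hRn : ∀ x, 0 ≤ R x)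
    (ha : 0 < a) (ha2 : a < 1 / 2) (haa : a < a') (ha' : a' < 1) (κ ε y : ℝ) (hκ : 0 < κ) (hε : 0 < ε) (hy : 0 < y) :
    ∃ H₀ : ℝ, 1 ≤ H₀ ∧ ∀ H : ℝ, H₀ ≤ H → ∃ θ : ℝ, 0 < θ ∧ ∀ᶠ T : ℝ in atTop, H / Real.log T ≤ 1 ∧ 10 ≤ T ∧ 1 ≤ Real.log T ∧
      ∀ N : ℕ, (N : ℝ) ≤ T ^ θ → ∀ b : ℕ → ℂ, ∃ G : Set ℝ, MeasurableSet G ∧ G ⊆ Set.Icc T (2 * T) ∧
        ∫ t in G, ‖dp N b t‖ ^ 2 ≤ (κ + ((∫ β in a..a', β * R β) + ε) / y) * ∫ t in Set.Icc T (2 * T), ‖dp N b t‖ ^ 2 ∧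
        ∀ t ∈ Set.Icc T (2 * T), t ∉ G → t ∈ Set.Ioc (T + 2 * Real.log T) (2 * T - 2 * Real.log T) ∧
          GoodPt R a H T ε t ∧ ∫ β in a..a', R β * ‖Ssh T (H / Real.log T) (Real.log T * β) t‖ ^ 2 ≤ y * (H / Real.pi) := by
  obtain ⟨m₂, hm₂⟩ : ∃ m₂, m₂ = ∫ β in a..a', β * R β := ⟨_, rfl⟩
  have hm0 : 0 ≤ m₂ := by
    rw [hm₂]
    exact intervalIntegral.integral_nonneg haa.le fun β hβ => mul_nonneg (by linarith [hβ.1]) (hRn β)
  obtain ⟨H₁, hH₁, h1⟩ := fin_pos R D a hR hRn ha ha2 (κ / 4) ε (by positivity) hε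
  obtain ⟨H₂, hH₂, h2⟩ := two_M R D a a' hR hRn ha haa ha' (κ / 4) ε y (by positivity) hε hy
  rw [← hm₂] at h2 ⊢
  obtain ⟨v, hv⟩ : ∃ v, v = κ / 4 + (m₂ + ε) / y := ⟨_, rfl⟩
  have hv0 : 0 < v := by rw [hv]; positivity
  obtain ⟨s, hs⟩ : ∃ s, s = min (1 / 2) (κ / (8 * v)) := ⟨_, rfl⟩
  have hs0 : 0 < s := by rw [hs]; positivity
  have hs1 : s ≤ 1 / 2 := by rw [hs]; exact min_le_left _ _
  have hsv : s * v ≤ κ / 8 := by
    have h3 : s ≤ κ / (8 * v) := by rw [hs]; exact min_le_right _ _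
    rw [le_div_iff₀ (by positivity)] at h3
    linarith
  refine ⟨max H₁ H₂, le_max_of_le_left hH₁, fun H hH => ?_⟩
  obtain ⟨θ₁, t1, h1⟩ := h1 H ((le_max_left _ _).trans hH)
  obtain ⟨θ₂, t2, t3, h2⟩ := h2 H ((le_max_right _ _).trans hH)
  refine ⟨min θ₁ θ₂, lt_min t1 t2, ?_⟩
  filter_upwards [h1, h2, mass_full s hs0] with T h1 h2 hA
  obtain ⟨a1, a2, a3, h1⟩ := h1
  refine ⟨a1, a2, a3, fun N hN b => ?_⟩
  have hT1 : 1 ≤ T := by linarith
  obtain ⟨G₁, m1, s1, i1, g1⟩ := h1 N (hN.trans (Real.rpow_le_rpow_of_exponent_le hT1 (min_le_left _ _))) b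
  obtain ⟨G₂, m2, i2, g2⟩ := h2 N (hN.trans (Real.rpow_le_rpow_of_exponent_le hT1 (min_le_right _ _))) b
  replace hA := hA N (hN.trans (Real.rpow_le_rpow_of_exponent_le hT1 ((min_le_right _ _).trans t3))) b
  have hVc : Continuous (fun t : ℝ => ‖dp N b t‖ ^ 2) := ((Pool.Agent.U85.Zd.dp_cont N b).norm).pow 2
  have hV0 : ∀ t : ℝ, 0 ≤ ‖dp N b t‖ ^ 2 := fun t => by positivity
  have hJT : Set.Ioc (T + 2 * Real.log T) (2 * T - 2 * Real.log T) ⊆ Set.Icc T (2 * T) := by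
    intro t ht
    exact ⟨by linarith [ht.1], by linarith [ht.2]⟩
  have hW0 : 0 ≤ T * N2 N b := mul_nonneg (by linarith) (Pool.Agent.Q97.UM.N2_nonneg N b)
  refine ⟨G₁ ∪ (Set.Ioc (T + 2 * Real.log T) (2 * T - 2 * Real.log T) ∩ G₂), m1.union (measurableSet_Ioc.inter m2),
    Set.union_subset s1 (Set.inter_subset_left.trans hJT), ?_, ?_⟩
  · have e1 := mass_union hVc hV0 m1 s1 (Set.inter_subset_left.trans hJT :
      Set.Ioc (T + 2 * Real.log T) (2 * T - 2 * Real.log T) ∩ G₂ ⊆ Set.Icc T (2 * T))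
    refine e1.trans ?_
    obtain ⟨I, hI⟩ : ∃ I, I = ∫ t in Set.Icc T (2 * T), ‖dp N b t‖ ^ 2 := ⟨_, rfl⟩
    rw [← hI] at i1 hA ⊢
    obtain ⟨W, hW⟩ : ∃ W, W = T * N2 N b := ⟨_, rfl⟩
    rw [← hW] at i2 hA hW0
    rw [← hv] at i2
    have hI0 : 0 ≤ I := by rw [hI]; exact integral_nonneg hV0
    have b1 : (1 - s) * W ≤ I := by linarith [(abs_le.1 hA).1]
    have b2 : W ≤ (1 + 2 * s) * I := by
      have b3 : (1 + 2 * s) * ((1 - s) * W) ≤ (1 + 2 * s) * I := mul_le_mul_of_nonneg_left b1 (by linarith)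
      have b4 : (1 + 2 * s) * ((1 - s) * W) = W + s * (1 - 2 * s) * W := by ring
      have b5 : 0 ≤ s * (1 - 2 * s) * W := mul_nonneg (mul_nonneg hs0.le (by linarith)) hW0
      linarith
    have b6 : v * W ≤ v * ((1 + 2 * s) * I) := mul_le_mul_of_nonneg_left b2 hv0.le
    have b7 : v * ((1 + 2 * s) * I) = v * I + 2 * (s * v) * I := by ring
    have b8 : 2 * (s * v) * I ≤ κ / 4 * I := mul_le_mul_of_nonneg_right (by linarith) hI0
    have b9 : (κ + (m₂ + ε) / y) * I = κ / 4 * I + v * I + κ / 4 * I + κ / 4 * I := by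
      rw [hv]
      ring
    have b10 : 0 ≤ κ / 4 * I := by positivity
    rw [b9]
    linarith
  · intro t ht htn
    obtain ⟨c1, c2⟩ := g1 t ht fun h => htn (Or.inl h)
    exact ⟨c1, c2, g2 t c1 fun h => htn (Or.inr ⟨c1, h⟩)⟩

/-- the number of simple zeros in the window -/
def Nsi (T r t : ℝ) : ℝ := ∑ s ∈ Zf' T r t, if mz s = 1 then (1 : ℝ) else 0

lemma Nsi_ge (T r t : ℝ) : 2 * Nw T r t - ∑ s ∈ Zf' T r t, (mz s : ℝ) ^ 2 ≤ Nsi T r t := by
  unfold Nsi Nw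
  have e : (ZT T).filter (fun s => |s.im - t| ≤ r) = Zf' T r t := rfl
  rw [e, Finset.mul_sum, ← Finset.sum_sub_distrib]
  refine Finset.sum_le_sum fun s _ => ?_
  split_ifs with h
  · rw [h]
    norm_num
  · have h1 : mz s = 0 ∨ 2 ≤ mz s := by omega
    rcases h1 with h1 | h1
    · rw [h1]
      norm_num
    · have : (2 : ℝ) ≤ mz s := by exact_mod_cast h1
      nlinarith

/-- the diagonal -/
lemma diag_le (Z : Finset ℂ) (m : ℂ → ℝ) (x : ℂ → ℝ) (h : ℝ) (hh : 0 < h) (hm : ∀ s, 0 ≤ m s) (f : ℝ → ℝ)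
    (hf : ∀ v, 0 ≤ f v) :
    (∑ s ∈ Z, m s ^ 2) / h * f 0 ≤ ∑ p ∈ Z ×ˢ Z, m p.1 * m p.2 / h * f (x p.1 - x p.2) := by
  rw [Finset.sum_product, Finset.sum_div, Finset.sum_mul]
  refine Finset.sum_le_sum fun s hs => ?_
  have h1 : m s ^ 2 / h * f 0 = m s * m s / h * f (x s - x s) := by
    rw [sub_self]
    ring
  rw [h1]
  exact Finset.single_le_sum (f := fun j => m s * m j / h * f (x s - x j))
    (fun j _ => mul_nonneg (div_nonneg (mul_nonneg (hm s) (hm j)) hh.le) (hf _)) hs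

lemma sq_ge_Nw {T r t : ℝ} : Nw T r t ≤ ∑ s ∈ Zf' T r t, (mz s : ℝ) ^ 2 := by
  unfold Nw
  have e : (ZT T).filter (fun s => |s.im - t| ≤ r) = Zf' T r t := rfl
  rw [e]
  refine Finset.sum_le_sum fun s _ => ?_
  rcases Nat.eq_zero_or_pos (mz s) with h | h
  · rw [h]; norm_num
  · have : (1 : ℝ) ≤ mz s := by exact_mod_cast h
    nlinarith

/-- the deterministic part: a bound for the mean at the origin gives lower bounds at all frequencies and many simple zeros -/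
lemma low_det (hRH : RiemannHypothesis) {T t H a' M ε : ℝ} (hT : 10 ≤ T) (hL : 1 ≤ Real.log T) (hr : H / Real.log T ≤ 1)
    (hH : 0 < H) (ht : t ∈ Set.Ioc (T + 2 * Real.log T) (2 * T - 2 * Real.log T)) (ha : 0 < a')
    (hN : (1 - ε) * (H / Real.pi) ≤ Nw T (H / Real.log T) t)
    (hM : ∫ β in (0 : ℝ)..a', 2 * (a' - β) * Fw T H β t ≤ M) :
    (∀ c : ℝ, 2 * a' ^ 2 * (1 - ε) - M ≤ Tr (fun α => Fw T H α t) a' c) ∧
      (2 * (1 - ε) - M / a' ^ 2) * (H / Real.pi) ≤ Nsi T (H / Real.log T) t := by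
  have hh : 0 < H / Real.pi := by positivity
  obtain ⟨Z, hZ⟩ : ∃ Z, Z = Zf' T (H / Real.log T) t := ⟨_, rfl⟩
  obtain ⟨w, hw⟩ : ∃ w : ℂ × ℂ → ℝ, w = fun p => (mz p.1 : ℝ) * (mz p.2 : ℝ) / (H / Real.pi) := ⟨_, rfl⟩
  obtain ⟨y, hy⟩ : ∃ y : ℂ × ℂ → ℝ, y = fun p => Real.log T * (p.1.im - p.2.im) := ⟨_, rfl⟩
  have hF : (fun α => Fw T H α t) = CS (Z ×ˢ Z) w y := by
    funext α
    rw [Fw_CS hRH hT hL hr ht, hZ, hw, hy]
  have heven : ∀ u, CS (Z ×ˢ Z) w y (-u) = CS (Z ×ˢ Z) w y u := by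
    intro u
    unfold CS
    refine Finset.sum_congr rfl fun i _ => ?_
    rw [neg_mul, Real.cos_neg]
  have hT0 : Tr (CS (Z ×ˢ Z) w y) a' 0 ≤ M := by
    rw [Tr_zero heven]
    refine le_trans (le_of_eq ?_) hM
    refine intervalIntegral.integral_congr fun β _ => ?_
    show 2 * (a' - β) * CS (Z ×ˢ Z) w y β = 2 * (a' - β) * Fw T H β t
    rw [← (congrFun hF β : Fw T H β t = CS (Z ×ˢ Z) w y β)]
  obtain ⟨S, hS⟩ : ∃ S, S = ∑ s ∈ Z, (mz s : ℝ) ^ 2 := ⟨_, rfl⟩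
  have hSN : Nw T (H / Real.log T) t ≤ S := by
    rw [hS, hZ]
    exact sq_ge_Nw
  have hw0 : ∀ i ∈ Z ×ˢ Z, 0 ≤ w i := by
    intro i _
    rw [hw]
    simp only
    positivity
  have hdiag : ∀ f : ℝ → ℝ, (∀ v, 0 ≤ f v) → S / (H / Real.pi) * f 0 ≤ ∑ p ∈ Z ×ˢ Z, w p * f (y p) := by
    intro f hf
    have h1 := diag_le Z (fun s => (mz s : ℝ)) (fun s => Real.log T * s.im) (H / Real.pi) hh (fun s => by positivity) f hf
    rw [← hS] at h1
    refine h1.trans (le_of_eq ?_)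
    rw [hw, hy]
    refine Finset.sum_congr rfl fun p _ => ?_
    simp only
    rw [mul_sub]
  have hKz : Kt a' 0 = a' ^ 2 / 2 := by
    unfold Kt
    have e : ∀ u : ℝ, (a' - u) * Real.cos (u * 0) = a' - u := fun u => by simp
    simp only [e]
    rw [intervalIntegral.integral_sub (by simp) (by simp), integral_id]
    simp
    ring
  have hSh : (1 - ε) ≤ S / (H / Real.pi) := by
    rw [le_div_iff₀ hh]
    linarith
  constructor
  · intro c
    rw [hF]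
    have h1 := hdiag (fun v => 2 * (Real.cos (c * (v)) + 1) * Kt a' v) (fun v => by
      have := Real.neg_one_le_cos (c * v)
      exact mul_nonneg (by linarith) (Kt_nonneg ha.le v))
    simp only [mul_zero, Real.cos_zero] at h1
    rw [hKz] at h1
    have h2 : Tr (CS (Z ×ˢ Z) w y) a' c + Tr (CS (Z ×ˢ Z) w y) a' 0 =
        ∑ p ∈ Z ×ˢ Z, w p * (2 * (Real.cos (c * y p) + 1) * Kt a' (y p)) := by
      rw [Tr_CS, Tr_CS, ← Finset.sum_add_distrib]
      refine Finset.sum_congr rfl fun p _ => ?_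
      rw [zero_mul, Real.cos_zero]
      ring
    have h3 : 2 * a' ^ 2 * (1 - ε) ≤ S / (H / Real.pi) * (2 * (1 + 1) * (a' ^ 2 / 2)) := by
      have h4 := mul_le_mul_of_nonneg_right hSh (by positivity : 0 ≤ 2 * a' ^ 2)
      have e : S / (H / Real.pi) * (2 * (1 + 1) * (a' ^ 2 / 2)) = S / (H / Real.pi) * (2 * a' ^ 2) := by ring
      rw [e]
      linarith
    linarith
  · have h1 : S / (H / Real.pi) * (2 * Kt a' 0) ≤ ∑ p ∈ Z ×ˢ Z, w p * (2 * Kt a' (y p)) :=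
      hdiag (fun v => 2 * Kt a' v) (fun v => mul_nonneg zero_le_two (Kt_nonneg ha.le v))
    rw [hKz] at h1
    have h2 : Tr (CS (Z ×ˢ Z) w y) a' 0 = ∑ p ∈ Z ×ˢ Z, w p * (2 * Kt a' (y p)) := by
      rw [Tr_CS]
      refine Finset.sum_congr rfl fun p _ => ?_
      rw [zero_mul, Real.cos_zero]
      ring
    rw [← h2] at h1
    have h3 : S / (H / Real.pi) ≤ M / a' ^ 2 := by
      rw [le_div_iff₀ (by positivity)]
      linarith
    rw [div_le_iff₀ hh] at h3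
    have h4 := Nsi_ge T (H / Real.log T) t
    rw [← hZ, ← hS] at h4
    linarith

lemma Nsi_ncard {T t r : ℝ} (hT : 10 ≤ T) (hL : 1 ≤ Real.log T) (hr : r ≤ 1)
    (ht : t ∈ Set.Ioc (T + 2 * Real.log T) (2 * T - 2 * Real.log T)) :
    Nsi T r t = ({s : ℂ | s ∈ zw t r ∧ analyticOrderNatAt riemannZeta s = 1}.ncard : ℝ) := by
  classical
  have e : {s : ℂ | s ∈ zw t r ∧ analyticOrderNatAt riemannZeta s = 1} =
      (((Zf' T r t).filter (fun s => mz s = 1) : Finset ℂ) : Set ℂ) := by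
    rw [zw_eq hT hL hr ht]
    ext s
    rw [Finset.mem_coe, Finset.mem_filter, Set.mem_ofPred_eq, Finset.mem_coe]
    rfl
  rw [e, Set.ncard_coe_finset, Finset.card_filter]
  unfold Nsi
  push_cast
  rfl

/-- what holds outside the exceptional set -/
def LowPt (T H d t : ℝ) : Prop := (∀ c : ℝ, d ≤ Tr (fun α => Fw T H α t) 1 c) ∧
  d * (H / Real.pi) ≤ ({s : ℂ | s ∈ zw t (H / Real.log T) ∧ analyticOrderNatAt riemannZeta s = 1}.ncard : ℝ)

lemma poly_int (a' x z : ℝ) : ∫ β in x..z, β * (2 * (a' - β)) = a' * (z ^ 2 - x ^ 2) - 2 / 3 * (z ^ 3 - x ^ 3) := by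
  have e : ∀ β : ℝ, β * (2 * (a' - β)) = (2 * a') * β - 2 * β ^ 2 := fun β => by ring
  simp only [e]
  rw [intervalIntegral.integral_sub (Continuous.intervalIntegrable (by fun_prop) _ _)
    (Continuous.intervalIntegrable (by fun_prop) _ _), intervalIntegral.integral_const_mul,
    intervalIntegral.integral_const_mul, integral_id, integral_pow]
  norm_num
  ring

lemma Tr_mono {F : ℝ → ℝ} (hF : Continuous F) (hF0 : ∀ u, 0 ≤ F u) {a' : ℝ} (ha : 0 ≤ a') (ha1 : a' ≤ 1) (c : ℝ) :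
    Tr F a' c ≤ Tr F 1 c := by
  unfold Tr
  have h1 : ∫ u in (0 : ℝ)..a', (a' - u) * (F (c + u) + F (c - u)) ≤ ∫ u in (0 : ℝ)..a', (1 - u) * (F (c + u) + F (c - u)) := by
    refine intervalIntegral.integral_mono_on ha (Continuous.intervalIntegrable (by fun_prop) _ _)
      (Continuous.intervalIntegrable (by fun_prop) _ _) fun u _ => ?_
    exact mul_le_mul_of_nonneg_right (by linarith) (add_nonneg (hF0 _) (hF0 _))
  refine h1.trans ?_
  refine intervalIntegral.integral_mono_interval le_rfl ha ha1 ?_ (Continuous.intervalIntegrable (by fun_prop) _ _)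
  refine (ae_restrict_iff' measurableSet_Ioc).2 (Filter.Eventually.of_forall fun u hu => ?_)
  exact mul_nonneg (by linarith [hu.2]) (add_nonneg (hF0 _) (hF0 _))

/-- **lower bounds at all frequencies, and simple zeros, in most windows** -/
theorem low_all (hRH : RiemannHypothesis) (d : ℝ) (hd : d < 5 / 6) (ε : ℝ) (hε : 0 < ε) :
    ∃ H₀ : ℝ, 1 ≤ H₀ ∧ ∀ H : ℝ, H₀ ≤ H → ∃ θ T₀ : ℝ, 0 < θ ∧ 1 ≤ T₀ ∧
      ∀ T : ℝ, T₀ ≤ T → ∀ N : ℕ, (N : ℝ) ≤ T ^ θ → ∀ b : ℕ → ℂ, ∃ G : Set ℝ, MeasurableSet G ∧ G ⊆ Set.Icc T (2 * T) ∧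
        ∫ t in G, ‖dp N b t‖ ^ 2 ≤ (1 / (5 - 6 * d) + ε) * ∫ t in Set.Icc T (2 * T), ‖dp N b t‖ ^ 2 ∧
        ∀ t ∈ Set.Icc T (2 * T), t ∉ G → LowPt T H d t := by
  obtain ⟨g, hg⟩ : ∃ g, g = 5 / 6 - d := ⟨_, rfl⟩
  have hg0 : 0 < g := by rw [hg]; linarith
  obtain ⟨B, hB⟩ : ∃ B, B = 2 + 5 / (2 * g) + 15 / 2 * ε := ⟨_, rfl⟩
  have hB0 : 0 < B := by rw [hB]; positivity
  obtain ⟨τ, hτ⟩ : ∃ τ, τ = min (1 / 16) (min (g / 30) (ε * g / (2 * B))) := ⟨_, rfl⟩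
  have hτ0 : 0 < τ := by rw [hτ]; positivity
  have hτ1 : τ ≤ 1 / 16 := by rw [hτ]; exact min_le_left _ _
  have hτ2 : τ ≤ g / 30 := by rw [hτ]; exact (min_le_right _ _).trans (min_le_left _ _)
  have hτ3 : τ * B ≤ ε * g / 2 := by
    have h1 : τ ≤ ε * g / (2 * B) := by rw [hτ]; exact (min_le_right _ _).trans (min_le_right _ _)
    rw [le_div_iff₀ (by positivity)] at h1
    linarith
  obtain ⟨y, hy⟩ : ∃ y, y = g - 15 * τ := ⟨_, rfl⟩
  have hy0 : 0 < y := by rw [hy]; linarith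
  obtain ⟨a, ha⟩ : ∃ a : ℝ, a = 1 / 2 - τ := ⟨_, rfl⟩
  obtain ⟨a', ha'⟩ : ∃ a' : ℝ, a' = 1 - τ := ⟨_, rfl⟩
  have ha0 : 0 < a := by rw [ha]; linarith
  have haa : a < a' := by rw [ha, ha']; linarith
  have ha'0 : 0 < a' := by linarith
  obtain ⟨R, hR⟩ : ∃ R : ℝ → ℝ, R = fun u => max (2 * (a' - u)) 0 := ⟨_, rfl⟩
  have hRn : ∀ x, 0 ≤ R x := fun x => by rw [hR]; exact le_max_right _ _
  have hRv : ∀ x, x ≤ a' → R x = 2 * (a' - x) := fun x hx => by rw [hR]; exact max_eq_left (by linarith)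
  have hRl : ∀ x z : ℝ, |R x - R z| ≤ 2 * |x - z| := by
    intro x z
    rw [hR]
    have h1 := abs_max_sub_max_le_max (2 * (a' - x)) 0 (2 * (a' - z)) 0
    rw [sub_self, abs_zero, max_eq_left (abs_nonneg (2 * (a' - x) - 2 * (a' - z)))] at h1
    refine h1.trans (le_of_eq ?_)
    have : 2 * (a' - x) - 2 * (a' - z) = -(2 * (x - z)) := by ring
    rw [this, abs_neg, abs_mul, abs_two]
  obtain ⟨H₀, hH₀, h⟩ := fin_two R 2 a a' hRl hRn ha0 (by rw [ha]; linarith) haa (by rw [ha']; linarith) (ε / 2) τ y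
    (by positivity) hτ0 hy0
  have hi1 : ∫ β in (0 : ℝ)..a, β * R β = a' * a ^ 2 - 2 / 3 * a ^ 3 := by
    have h1 : ∫ β in (0 : ℝ)..a, β * R β = ∫ β in (0 : ℝ)..a, β * (2 * (a' - β)) := by
      refine intervalIntegral.integral_congr fun β hβ => ?_
      rw [Set.uIcc_of_le ha0.le] at hβ
      show β * R β = β * (2 * (a' - β))
      rw [hRv β (by linarith [hβ.2])]
    rw [h1, poly_int]
    ring
  have hi2 : ∫ β in a..a', β * R β = a' * (a' ^ 2 - a ^ 2) - 2 / 3 * (a' ^ 3 - a ^ 3) := by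
    have h1 : ∫ β in a..a', β * R β = ∫ β in a..a', β * (2 * (a' - β)) := by
      refine intervalIntegral.integral_congr fun β hβ => ?_
      rw [Set.uIcc_of_le haa.le] at hβ
      show β * R β = β * (2 * (a' - β))
      rw [hRv β hβ.2]
    rw [h1, poly_int]
  have hm2 : ∫ β in a..a', β * R β ≤ 1 / 6 + τ := by
    rw [hi2, ha, ha']
    have : (0 : ℝ) ≤ τ ^ 2 := sq_nonneg _
    nlinarith [mul_nonneg hτ0.le (sq_nonneg τ), mul_nonneg hτ0.le (sub_nonneg.2 hτ1)]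
  refine ⟨H₀, hH₀, fun H hH => ?_⟩
  obtain ⟨θ, hθ, h⟩ := h H hH
  obtain ⟨T₀, h⟩ := Filter.eventually_atTop.1 h
  refine ⟨θ, max T₀ 1, hθ, le_max_right _ _, fun T hT N hN b => ?_⟩
  obtain ⟨hr, hT10, hL1, h⟩ := h T ((le_max_left _ _).trans hT)
  obtain ⟨G, hGm, hGs, hGi, hG⟩ := h N hN b
  have hI0 : 0 ≤ ∫ t in Set.Icc T (2 * T), ‖dp N b t‖ ^ 2 := integral_nonneg fun t => by positivity
  refine ⟨G, hGm, hGs, hGi.trans (mul_le_mul_of_nonneg_right ?_ hI0), fun t ht htG => ?_⟩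
  · -- the numbers
    have h1 : ((∫ β in a..a', β * R β) + τ) / y ≤ 1 / (6 * g) + ε / 2 := by
      rw [div_le_iff₀ hy0]
      have h2 : (1 / (6 * g) + ε / 2) * y = 1 / 6 + ε * g / 2 - τ * (5 / (2 * g) + 15 / 2 * ε) := by
        rw [hy]
        field_simp
        ring
      rw [h2]
      have h3 : τ * B = 2 * τ + τ * (5 / (2 * g) + 15 / 2 * ε) := by rw [hB]; ring
      linarith
    have h4 : 1 / (5 - 6 * d) = 1 / (6 * g) := by
      rw [hg]
      congr 1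
      ring
    rw [h4]
    linarith
  · obtain ⟨hJ, ⟨hg1, hg2⟩, hX⟩ := hG t ht htG
    have hH0 : 0 < H := by linarith
    have hh : 0 < H / Real.pi := by positivity
    rw [hRv 0 (by linarith), hi1] at hg1
    have hSc : Continuous fun β : ℝ => ‖Ssh T (H / Real.log T) (Real.log T * β) t‖ ^ 2 :=
      ((Ssh_cont T _ t).comp (by fun_prop)).norm.pow 2
    have hFS : ∀ β : ℝ, Fw T H β t = ‖Ssh T (H / Real.log T) (Real.log T * β) t‖ ^ 2 / (H / Real.pi) := by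
      intro β
      unfold Fw
      rw [Sw_eq β hT10 hL1 hr hJ]
    have hFc : Continuous fun β : ℝ => Fw T H β t := by
      simp only [hFS]
      exact hSc.div_const _
    have hF0 : ∀ β : ℝ, 0 ≤ Fw T H β t := fun β => by rw [hFS]; positivity
    obtain ⟨M, hM⟩ : ∃ M, M = 7 / 6 + τ / 2 + y := ⟨_, rfl⟩
    have hMb : ∫ β in (0 : ℝ)..a', 2 * (a' - β) * Fw T H β t ≤ M := by
      have c1 : Continuous fun β : ℝ => 2 * (a' - β) * Fw T H β t := by fun_prop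
      rw [← intervalIntegral.integral_add_adjacent_intervals (c1.intervalIntegrable 0 a) (c1.intervalIntegrable a a')]
      have k1 : ∫ β in (0 : ℝ)..a, 2 * (a' - β) * Fw T H β t = (∫ β in (0 : ℝ)..a, R β *
          ‖Ssh T (H / Real.log T) (Real.log T * β) t‖ ^ 2) / (H / Real.pi) := by
        rw [← intervalIntegral.integral_div]
        refine intervalIntegral.integral_congr fun β hβ => ?_
        rw [Set.uIcc_of_le ha0.le] at hβ
        show 2 * (a' - β) * Fw T H β t = R β * ‖Ssh T (H / Real.log T) (Real.log T * β) t‖ ^ 2 / (H / Real.pi)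
        rw [hRv β (by linarith [hβ.2]), hFS]
        ring
      have k2 : ∫ β in a..a', 2 * (a' - β) * Fw T H β t = (∫ β in a..a', R β *
          ‖Ssh T (H / Real.log T) (Real.log T * β) t‖ ^ 2) / (H / Real.pi) := by
        rw [← intervalIntegral.integral_div]
        refine intervalIntegral.integral_congr fun β hβ => ?_
        rw [Set.uIcc_of_le haa.le] at hβ
        show 2 * (a' - β) * Fw T H β t = R β * ‖Ssh T (H / Real.log T) (Real.log T * β) t‖ ^ 2 / (H / Real.pi)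
        rw [hRv β hβ.2, hFS]
        ring
      rw [k1, k2]
      have k3 : (∫ β in a..a', R β * ‖Ssh T (H / Real.log T) (Real.log T * β) t‖ ^ 2) / (H / Real.pi) ≤ y := by
        rw [div_le_iff₀ hh]
        exact hX
      have k4 : (∫ β in (0 : ℝ)..a, R β * ‖Ssh T (H / Real.log T) (Real.log T * β) t‖ ^ 2) / (H / Real.pi) ≤
          a' + (a' * a ^ 2 - 2 / 3 * a ^ 3) + τ / 2 := by
        rw [div_le_iff₀ hh]
        have := (abs_le.1 hg1).2
        nlinarith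
      have k5 : a' + (a' * a ^ 2 - 2 / 3 * a ^ 3) ≤ 7 / 6 := by
        rw [ha, ha']
        nlinarith [mul_nonneg hτ0.le (sq_nonneg τ), mul_nonneg hτ0.le (sub_nonneg.2 hτ1), sq_nonneg τ]
      rw [hM]
      linarith
    have hNb : (1 - τ) * (H / Real.pi) ≤ Nw T (H / Real.log T) t := by
      have := (abs_le.1 hg2).1
      linarith
    obtain ⟨p1, p2⟩ := low_det hRH hT10 hL1 hr hH0 hJ ha'0 hNb hMb
    have hy6 : y ≤ g := by rw [hy]; linarith
    have hg6 : d = 5 / 6 - g := by rw [hg]; ring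
    have ha'1 : a' ≤ 1 := by rw [ha']; linarith
    have q1 : 2 * (1 - 2 * τ) ≤ 2 * a' ^ 2 := by
      rw [ha']
      nlinarith [sq_nonneg τ]
    refine ⟨fun c => ?_, ?_⟩
    · refine le_trans ?_ ((p1 c).trans (Tr_mono hFc hF0 ha'0.le ha'1 c))
      have q2 : 2 * (1 - 2 * τ) * (1 - τ) ≤ 2 * a' ^ 2 * (1 - τ) := mul_le_mul_of_nonneg_right q1 (by linarith)
      have q3 : 2 - 6 * τ ≤ 2 * (1 - 2 * τ) * (1 - τ) := by nlinarith [sq_nonneg τ]
      have q6 : M = 7 / 6 + τ / 2 + (g - 15 * τ) := by rw [hM, hy]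
      linarith
    · rw [← Nsi_ncard hT10 hL1 hr hJ]
      rcases le_or_gt d 0 with hd0 | hd0
      · have h0 : 0 ≤ Nsi T (H / Real.log T) t := Finset.sum_nonneg fun s _ => by split_ifs <;> norm_num
        exact (mul_nonpos_of_nonpos_of_nonneg hd0 hh.le).trans h0
      refine le_trans (mul_le_mul_of_nonneg_right ?_ hh.le) p2
      have hM3 : M ≤ 3 := by
        rw [hM]
        linarith
      have hM0 : 0 ≤ M := by rw [hM]; linarith
      have q4 : M / a' ^ 2 ≤ M + 12 * τ := by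
        rw [div_le_iff₀ (by positivity)]
        have q5 : (M + 12 * τ) * (1 - 2 * τ) ≤ (M + 12 * τ) * a' ^ 2 :=
          mul_le_mul_of_nonneg_left (by linarith) (by positivity)
        nlinarith
      have q6 : M = 7 / 6 + τ / 2 + (g - 15 * τ) := by rw [hM, hy]
      linarith

end

end Pool.Agent.U85.Ml
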